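import Mathlib

set_option autoImplicit false

/-!
# Project CR (MP_5b9e43_lc, the exact value of `s_2`): definitions

`u w : ℝ × ℝ` are the two arguments of the value function, written `F u w`; in the notation of the
problem `u_x` is the weight of (secret `x`, owner 1), `v_x` is the weight of (secret `x`, owner 2),
and `w` is `v` with the two coordinates exchanged.  The functions below depend on a point `(x, h)`
of the parameter region `Reg`.

Notation in comments: `c = cos h`, `s = sin h`, `p = 1 + x`, `κ = exp (-h)`,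
`ε = ep x h = exp (-x-h)`, `Δ = Dl x h`, `σ_u = sg u`, `d_u = dd h u`.
-/

namespace Pool.Agent.Helper12.CR

open Real

/-- `Δ = cos h - (1 + x) sin h` -/
noncomputable def Dl (x h : ℝ) : ℝ := cos h - (1 + x) * sin h

/-- `g₁ = cos h - x sin h` -/
noncomputable def g1 (x h : ℝ) : ℝ := cos h - x * sin h

/-- `D = (2 + x) cos h - x sin h` -/
noncomputable def DD (x h : ℝ) : ℝ := (2 + x) * cos h - x * sin h

/-- `Q = (1 - x) cos h - (1 + x) sin h` -/
noncomputable def QQ (x h : ℝ) : ℝ := (1 - x) * cos h - (1 + x) * sin h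

/-- `ε = exp (-x-h)` -/
noncomputable def ep (x h : ℝ) : ℝ := exp (-x - h)

/-- the parameter region -/
def Reg (x h : ℝ) : Prop := 0 ≤ x ∧ 0 ≤ h ∧ h ≤ π / 4 ∧ 0 ≤ Dl x h

/-- `σ_u` -/
noncomputable def sg (u : ℝ × ℝ) : ℝ := u.1 + u.2

/-- `d_u` -/
noncomputable def dd (h : ℝ) (u : ℝ × ℝ) : ℝ := exp h * (u.1 - u.2)

/-- the linear functional vanishing on `U 1` -/
noncomputable def al (x h : ℝ) (u : ℝ × ℝ) : ℝ := (1 + x) * dd h u + QQ x h * sg u

/-- the linear functional vanishing on `U 0` -/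
noncomputable def be (h : ℝ) (u : ℝ × ℝ) : ℝ := (cos h - sin h) * sg u - dd h u

/-- the linear functional vanishing on `U 2` -/
noncomputable def ga (x h : ℝ) (u : ℝ × ℝ) : ℝ := DD x h * dd h u - x * sg u

/-- `m₃` -/
noncomputable def m3 (x h : ℝ) (u : ℝ × ℝ) : ℝ :=
  ((x * cos h + (2 + x) * sin h) * sg u - (2 + x) * dd h u) / 4

/-- the linear functional with value `1` on `U 1` and `U 2` -/
noncomputable def la0 (x h : ℝ) (u : ℝ × ℝ) : ℝ :=
  (sg u - (cos h + sin h) * dd h u) / (4 * g1 x h)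

/-- the linear functional with value `1` on `U 0` and `U 2` -/
noncomputable def la1 (x h : ℝ) (u : ℝ × ℝ) : ℝ :=
  (((1 + x) * cos h + (1 - x) * sin h) * dd h u + (1 - x) * sg u) / (4 * cos h)

/-- the linear functional with value `1` on `U 0` and `U 1` -/
noncomputable def la2 (x h : ℝ) (u : ℝ × ℝ) : ℝ :=
  (((2 - x) * cos h - x * sin h) * sg u + x * dd h u) / 4

/-- the plane of face `0` -/
noncomputable def J0 (x h : ℝ) (u w : ℝ × ℝ) : ℝ :=
  m3 x h u + la0 x h w - ga x h w * be h u / (16 * g1 x h * la0 x h w)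

/-- the plane of face `1` -/
noncomputable def J1 (x h : ℝ) (u w : ℝ × ℝ) : ℝ :=
  m3 x h u + la1 x h w + ga x h w * al x h u / (16 * cos h * la1 x h w) - ga x h w / (2 * cos h)

/-- the plane of face `2` -/
noncomputable def J2 (x h : ℝ) (u w : ℝ × ℝ) : ℝ :=
  m3 x h u + la2 x h w + (al x h w * al x h u + be h w * be h u) / (16 * la2 x h w) - al x h w / 2

/-- the three planes -/
noncomputable def L0 (x h : ℝ) (u w : ℝ × ℝ) : ℝ := u.2 + w.2 - ep x h * J0 x h u w

/-- the three planes -/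
noncomputable def L1 (x h : ℝ) (u w : ℝ × ℝ) : ℝ := u.2 + w.2 - ep x h * J1 x h u w

/-- the three planes -/
noncomputable def L2 (x h : ℝ) (u w : ℝ × ℝ) : ℝ := u.2 + w.2 - ep x h * J2 x h u w

/-- The value at `u` of the `j`-th plane for `w` with parameter `(x, h)`. -/
noncomputable def L (j : Fin 3) (x h : ℝ) (u w : ℝ × ℝ) : ℝ :=
  match j with
  | 0 => L0 x h u w
  | 1 => L1 x h u w
  | 2 => L2 x h u w

/-- `(x, h)` is in the region and `w` is in the `j`-th face of the cone of `U 0, U 1, U 2`. -/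
def K (j : Fin 3) (x h : ℝ) (w : ℝ × ℝ) : Prop :=
  match j with
  | 0 => Reg x h ∧ ga x h w ≤ 0 ∧ 0 ≤ al x h w
  | 1 => Reg x h ∧ 0 ≤ ga x h w ∧ 0 ≤ be h w
  | 2 => Reg x h ∧ 0 ≤ al x h w ∧ 0 ≤ be h w

/-- the linear functional vanishing on `U i` -/
noncomputable def zr (i : Fin 3) (x h : ℝ) (u : ℝ × ℝ) : ℝ :=
  match i with
  | 0 => be h u
  | 1 => al x h u
  | 2 => ga x h u

/-- open quadrant -/
def Pos (u : ℝ × ℝ) : Prop := 0 < u.1 ∧ 0 < u.2

/-- `v` is below all planes, and below all mirrored planes. -/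
structure MinAt (u w : ℝ × ℝ) (x h v : ℝ) : Prop where
  reg : Reg x h
  lo : ∀ j x' h', K j x' h' w → v ≤ L j x' h' u w
  lo' : ∀ j x' h', K j x' h' w.swap → v ≤ L j x' h' u.swap w.swap

/-- coefficients of `w` in face `0` -/
noncomputable def b01 (x h : ℝ) (w : ℝ × ℝ) : ℝ := -(cos h * ga x h w / (4 * g1 x h * Dl x h))
/-- coefficients of `w` in face `0` -/
noncomputable def b02 (x h : ℝ) (w : ℝ × ℝ) : ℝ := al x h w / (4 * g1 x h * Dl x h)
/-- coefficients of `w` in face `1` -/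
noncomputable def b10 (x h : ℝ) (w : ℝ × ℝ) : ℝ := g1 x h * ga x h w / (4 * cos h * Dl x h)
/-- coefficients of `w` in face `1` -/
noncomputable def b12 (x h : ℝ) (w : ℝ × ℝ) : ℝ := be h w / (4 * cos h * Dl x h)
/-- coefficients of `w` in face `2` -/
noncomputable def b20 (x h : ℝ) (w : ℝ × ℝ) : ℝ := g1 x h * al x h w / (4 * Dl x h)
/-- coefficients of `w` in face `2` -/
noncomputable def b21 (x h : ℝ) (w : ℝ × ℝ) : ℝ := cos h * be h w / (4 * Dl x h)

/-- derivative of `L0` in direction `(p, q)` -/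
noncomputable def D0 (p q x h : ℝ) (u w : ℝ × ℝ) : ℝ :=
  Dl x h * ep x h / la0 x h w *
    ((la0 x h w - (b01 x h w * la1 x h u + b02 x h w * la2 x h u) / la0 x h w) *
        (p * la0 x h w + q * b02 x h w) / g1 x h -
      q * (b01 x h w * b02 x h w * be h u / (2 * cos h * la0 x h w)))

/-- derivative of `L1` in direction `(p, q)` -/
noncomputable def D1 (p q x h : ℝ) (u w : ℝ × ℝ) : ℝ :=
  Dl x h * ep x h / la1 x h w *
    ((la1 x h w - (b10 x h w * la0 x h u + b12 x h w * la2 x h u) / la1 x h w) *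
        (-(p * b10 x h w / g1 x h) + q * ((1 + x) * b12 x h w / cos h)) -
      (p + q) * (b10 x h w * b12 x h w * al x h u / (2 * g1 x h * la1 x h w)))

/-- derivative of `L2` in direction `(p, q)` -/
noncomputable def D2 (p q x h : ℝ) (u w : ℝ × ℝ) : ℝ :=
  -(Dl x h * ep x h / la2 x h w *
    ((la2 x h w - (b20 x h w * la0 x h u + b21 x h w * la1 x h u) / la2 x h w) *
        (p * b20 x h w / g1 x h + q * (b20 x h w / g1 x h + (1 + x) * b21 x h w / cos h)) +
      p * (b20 x h w * b21 x h w * ga x h u / (2 * cos h * g1 x h * la2 x h w))))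

/-! ## The vectors `U j`, the heights `z j` -/

/-- the vectors `U 0`, `U 1`, `U 2` -/
noncomputable def U (j : Fin 3) (x h : ℝ) : ℝ × ℝ :=
  match j with
  | 0 => ((1 + (cos h - sin h) * exp (-h)) / g1 x h, (1 - (cos h - sin h) * exp (-h)) / g1 x h)
  | 1 => ((1 + x - QQ x h * exp (-h)) / cos h, (1 + x + QQ x h * exp (-h)) / cos h)
  | 2 => (DD x h + x * exp (-h), DD x h - x * exp (-h))

/-- the heights `z 0`, `z 1`, `z 2` -/
noncomputable def z (j : Fin 3) (x h : ℝ) : ℝ :=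
  match j with
  | 0 => (1 - (cos h - sin h) * exp (-h) + (cos h - (2 + x) * sin h) * ep x h) / g1 x h
  | 1 => (1 + x + QQ x h * exp (-h) - cos h * ep x h) / cos h
  | 2 => DD x h - x * exp (-h) - ep x h

/-! ## The majorant `gg` -/

open Classical in
/-- the closed form majorant; `R = u₁w₂ + u₂w₁`, `M = max w₂ u₂`, `m = min w₂ u₂` -/
noncomputable def gg (u w : ℝ × ℝ) : ℝ :=
  if u.1 * w.2 + u.2 * w.1 ≤ max w.2 u.2 ^ 2 then √(u.1 * w.2 + u.2 * w.1)
  else max w.2 u.2 + min w.2 u.2 *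
    (1 - exp (-((u.1 * w.2 + u.2 * w.1 - max w.2 u.2 ^ 2) / (2 * (w.2 * u.2)))))

/-- the planes of `gg` -/
noncomputable def Lam (x ν : ℝ) (u w : ℝ × ℝ) : ℝ :=
  (u.2 + w.2) * (1 - exp (-x)) +
    exp (-x) / 2 * ((u.1 * w.2 + u.2 * w.1 - 2 * x * (u.2 * w.2)) / ν + ν)

/-- the infimum of the planes -/
noncomputable def HH (u w : ℝ × ℝ) : ℝ :=
  sInf {v | ∃ j x h, K j x h w ∧ v = L j x h u w}

/-- the value function -/
noncomputable def FF (u w : ℝ × ℝ) : ℝ :=
  min (min (gg u w) (gg u.swap w.swap)) (min (HH u w) (HH u.swap w.swap))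

end Pool.Agent.Helper12.CR
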