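import Pool.Agent.Helper12.CR.Key

set_option autoImplicit false
set_option linter.all false

/-!
# Project CR: the derivatives of the three planes along straight lines in the `(x, h)` plane
-/

namespace Pool.Agent.Helper12.CR

open Real

section basic

variable (p q x h t : ℝ) (u : ℝ × ℝ)

theorem hd_X : HasDerivAt (fun t => x + p * t) p t := by
  simpa using ((hasDerivAt_id t).const_mul p).const_add x

theorem hd_c : HasDerivAt (fun t => cos (h + q * t)) (-(q * sin (h + q * t))) t :=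
  (hd_X q h t).cos.congr_deriv
    (by
      try simp only [Pi.add_apply, Pi.sub_apply, Pi.mul_apply, Pi.neg_apply]
      ring)

theorem hd_s : HasDerivAt (fun t => sin (h + q * t)) (q * cos (h + q * t)) t :=
  (hd_X q h t).sin.congr_deriv
    (by
      try simp only [Pi.add_apply, Pi.sub_apply, Pi.mul_apply, Pi.neg_apply]
      ring)

theorem hd_dd : HasDerivAt (fun t => dd (h + q * t) u) (q * dd (h + q * t) u) t := by
  unfold dd
  exact ((hd_X q h t).exp.mul_const (u.1 - u.2)).congr_deriv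
    (by
      try simp only [Pi.add_apply, Pi.sub_apply, Pi.mul_apply, Pi.neg_apply]
      ring)

theorem hd_ep : HasDerivAt (fun t => ep (x + p * t) (h + q * t))
    (-((p + q) * ep (x + p * t) (h + q * t))) t := by
  unfold ep
  exact ((hd_X p x t).neg.sub (hd_X q h t)).exp.congr_deriv
    (by
      try simp only [Pi.add_apply, Pi.sub_apply, Pi.mul_apply, Pi.neg_apply]
      ring)

theorem hd_g1 : HasDerivAt (fun t => g1 (x + p * t) (h + q * t))
    (-(q * sin (h + q * t) + p * sin (h + q * t) + q * (x + p * t) * cos (h + q * t))) t := by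
  unfold g1
  exact ((hd_c q h t).sub ((hd_X p x t).mul (hd_s q h t))).congr_deriv
    (by
      try simp only [Pi.add_apply, Pi.sub_apply, Pi.mul_apply, Pi.neg_apply]
      ring)

theorem hd_Dl : HasDerivAt (fun t => Dl (x + p * t) (h + q * t))
    (-((q + p) * sin (h + q * t) + q * (1 + (x + p * t)) * cos (h + q * t))) t := by
  unfold Dl
  exact ((hd_c q h t).sub (((hd_X p x t).const_add 1).mul (hd_s q h t))).congr_deriv
    (by
      try simp only [Pi.add_apply, Pi.sub_apply, Pi.mul_apply, Pi.neg_apply]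
      ring)

theorem hd_al : HasDerivAt (fun t => al (x + p * t) (h + q * t) u)
    ((p + q * (1 + (x + p * t))) * dd (h + q * t) u +
      (-(p * (cos (h + q * t) + sin (h + q * t))) - q * ((1 - (x + p * t)) * sin (h + q * t) +
        (1 + (x + p * t)) * cos (h + q * t))) * sg u) t := by
  unfold al QQ
  exact ((((hd_X p x t).const_add 1).mul (hd_dd q h t u)).add
    ((((((hd_X p x t).const_sub 1).mul (hd_c q h t)).sub
      (((hd_X p x t).const_add 1).mul (hd_s q h t)))).mul_const (sg u))).congr_deriv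
    (by
      try simp only [Pi.add_apply, Pi.sub_apply, Pi.mul_apply, Pi.neg_apply]
      ring)

theorem hd_be : HasDerivAt (fun t => be (h + q * t) u)
    (-(q * (sin (h + q * t) + cos (h + q * t)) * sg u) - q * dd (h + q * t) u) t := by
  unfold be
  exact ((((hd_c q h t).sub (hd_s q h t)).mul_const (sg u)).sub (hd_dd q h t u)).congr_deriv
    (by
      try simp only [Pi.add_apply, Pi.sub_apply, Pi.mul_apply, Pi.neg_apply]
      ring)

theorem hd_ga : HasDerivAt (fun t => ga (x + p * t) (h + q * t) u)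
    ((p * (cos (h + q * t) - sin (h + q * t)) + 2 * q * Dl (x + p * t) (h + q * t)) *
      dd (h + q * t) u - p * sg u) t := by
  unfold ga DD Dl
  exact ((((((hd_X p x t).const_add 2).mul (hd_c q h t)).sub
    ((hd_X p x t).mul (hd_s q h t))).mul (hd_dd q h t u)).sub
      ((hd_X p x t).mul_const (sg u))).congr_deriv
    (by
      try simp only [Pi.add_apply, Pi.sub_apply, Pi.mul_apply, Pi.neg_apply]
      ring)

theorem hd_m3 : HasDerivAt (fun t => m3 (x + p * t) (h + q * t) u)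
    (((p * cos (h + q * t) - q * (x + p * t) * sin (h + q * t) + p * sin (h + q * t) +
      q * (2 + (x + p * t)) * cos (h + q * t)) * sg u - p * dd (h + q * t) u -
        q * (2 + (x + p * t)) * dd (h + q * t) u) / 4) t := by
  unfold m3
  exact ((((((hd_X p x t).mul (hd_c q h t)).add
    (((hd_X p x t).const_add 2).mul (hd_s q h t))).mul_const (sg u)).sub
      (((hd_X p x t).const_add 2).mul (hd_dd q h t u))).div_const 4).congr_deriv
    (by
      try simp only [Pi.add_apply, Pi.sub_apply, Pi.mul_apply, Pi.neg_apply]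
      ring)

theorem hd_ll0 : HasDerivAt
    (fun t => sg u - (cos (h + q * t) + sin (h + q * t)) * dd (h + q * t) u)
    (-(2 * q * cos (h + q * t) * dd (h + q * t) u)) t :=
  ((((hd_c q h t).add (hd_s q h t)).mul (hd_dd q h t u)).const_sub (sg u)).congr_deriv
    (by
      try simp only [Pi.add_apply, Pi.sub_apply, Pi.mul_apply, Pi.neg_apply]
      ring)

theorem hd_ll1 : HasDerivAt
    (fun t => ((1 + (x + p * t)) * cos (h + q * t) + (1 - (x + p * t)) * sin (h + q * t)) *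
      dd (h + q * t) u + (1 - (x + p * t)) * sg u)
    ((p * (cos (h + q * t) - sin (h + q * t)) + q * ((1 - (x + p * t)) * cos (h + q * t) -
      (1 + (x + p * t)) * sin (h + q * t))) * dd (h + q * t) u +
      q * ((1 + (x + p * t)) * cos (h + q * t) + (1 - (x + p * t)) * sin (h + q * t)) *
        dd (h + q * t) u - p * sg u) t :=
  ((((((hd_X p x t).const_add 1).mul (hd_c q h t)).add
    (((hd_X p x t).const_sub 1).mul (hd_s q h t))).mul (hd_dd q h t u)).add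
      (((hd_X p x t).const_sub 1).mul_const (sg u))).congr_deriv
    (by
      try simp only [Pi.add_apply, Pi.sub_apply, Pi.mul_apply, Pi.neg_apply]
      ring)

theorem hd_ll2 : HasDerivAt
    (fun t => ((2 - (x + p * t)) * cos (h + q * t) - (x + p * t) * sin (h + q * t)) * sg u +
      (x + p * t) * dd (h + q * t) u)
    ((-(p * cos (h + q * t)) - q * (2 - (x + p * t)) * sin (h + q * t) -
      p * sin (h + q * t) - q * (x + p * t) * cos (h + q * t)) * sg u +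
      (p + q * (x + p * t)) * dd (h + q * t) u) t :=
  (((((((hd_X p x t).const_sub 2).mul (hd_c q h t)).sub
    ((hd_X p x t).mul (hd_s q h t))).mul_const (sg u))).add
      ((hd_X p x t).mul (hd_dd q h t u))).congr_deriv
    (by
      try simp only [Pi.add_apply, Pi.sub_apply, Pi.mul_apply, Pi.neg_apply]
      ring)

end basic

/-- the algebra for face `0` -/
theorem alg0 (E c g Δ ℓ γ β α Z1 Z2 M M' ℓ' g' γ' β' p q : ℝ) (hc : c ≠ 0) (hg : g ≠ 0)
    (hΔ : Δ ≠ 0) (hℓ : ℓ ≠ 0)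
    (key : Δ * (g ^ 2 * ℓ ^ 2 * M' + g * ℓ ^ 2 * ℓ' - ℓ ^ 3 * g'
      - g ^ 2 * ℓ * (γ' * β + γ * β') + g ^ 2 * γ * β * ℓ'
      - (p + q) * (g ^ 2 * ℓ ^ 2 * M + g * ℓ ^ 3 - g ^ 2 * ℓ * γ * β))
      + (ℓ ^ 2 * Δ - g * (α * Z2 - γ * Z1)) * (p * ℓ * Δ + q * α)
      + 2 * g ^ 2 * q * γ * α * β = 0) :
    -(-((p + q) * E) * (M / 4 + ℓ / (4 * g) - γ * β / (16 * g * (ℓ / (4 * g)))) +
        E * (M' / 4 + (ℓ' * (4 * g) - ℓ * (4 * g')) / (4 * g) ^ 2 -
          ((γ' * β + γ * β') * (16 * g * (ℓ / (4 * g))) -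
            γ * β * (16 * g' * (ℓ / (4 * g)) +
              16 * g * ((ℓ' * (4 * g) - ℓ * (4 * g')) / (4 * g) ^ 2))) /
            (16 * g * (ℓ / (4 * g))) ^ 2)) =
      Δ * E / (ℓ / (4 * g)) *
        ((ℓ / (4 * g) - (-(c * γ / (4 * g * Δ)) * (Z1 / (4 * c)) + α / (4 * g * Δ) * (Z2 / 4)) /
            (ℓ / (4 * g))) * (p * (ℓ / (4 * g)) + q * (α / (4 * g * Δ))) / g -
          q * (-(c * γ / (4 * g * Δ)) * (α / (4 * g * Δ)) * β / (2 * c * (ℓ / (4 * g))))) := by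
  refine sub_eq_zero.mp (Eq.trans (b := -(E / (4 * g ^ 2 * Δ * ℓ ^ 2)) *
    (Δ * (g ^ 2 * ℓ ^ 2 * M' + g * ℓ ^ 2 * ℓ' - ℓ ^ 3 * g'
      - g ^ 2 * ℓ * (γ' * β + γ * β') + g ^ 2 * γ * β * ℓ'
      - (p + q) * (g ^ 2 * ℓ ^ 2 * M + g * ℓ ^ 3 - g ^ 2 * ℓ * γ * β))
      + (ℓ ^ 2 * Δ - g * (α * Z2 - γ * Z1)) * (p * ℓ * Δ + q * α)
      + 2 * g ^ 2 * q * γ * α * β)) ?_ (by rw [key, mul_zero]))
  field_simp
  ring

/-- the algebra for face `1` -/
theorem alg1 (E c g Δ ℓ γ β α Z0 Z2 M M' ℓ' c' γ' α' X1 p q : ℝ) (hc : c ≠ 0) (hg : g ≠ 0)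
    (hΔ : Δ ≠ 0) (hℓ : ℓ ≠ 0)
    (key : Δ * (c ^ 2 * ℓ ^ 2 * M' + c * ℓ ^ 2 * ℓ' - ℓ ^ 3 * c'
      + c ^ 2 * ℓ * (γ' * α + γ * α') - c ^ 2 * γ * α * ℓ' - 2 * c * ℓ ^ 2 * γ'
      + 2 * ℓ ^ 2 * γ * c'
      - (p + q) * (c ^ 2 * ℓ ^ 2 * M + c * ℓ ^ 3 + c ^ 2 * ℓ * γ * α - 2 * c * ℓ ^ 2 * γ))
      + (ℓ ^ 2 * Δ - c * (γ * Z0 + β * Z2)) * (-(p * c * γ) + q * X1 * β)
      - 2 * c ^ 2 * (p + q) * γ * β * α = 0) :
    -(-((p + q) * E) * (M / 4 + ℓ / (4 * c) + γ * α / (16 * c * (ℓ / (4 * c))) - γ / (2 * c)) +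
        E * (M' / 4 + (ℓ' * (4 * c) - ℓ * (4 * c')) / (4 * c) ^ 2 +
          ((γ' * α + γ * α') * (16 * c * (ℓ / (4 * c))) -
            γ * α * (16 * c' * (ℓ / (4 * c)) +
              16 * c * ((ℓ' * (4 * c) - ℓ * (4 * c')) / (4 * c) ^ 2))) /
            (16 * c * (ℓ / (4 * c))) ^ 2 -
          (γ' * (2 * c) - γ * (2 * c')) / (2 * c) ^ 2)) =
      Δ * E / (ℓ / (4 * c)) *
        ((ℓ / (4 * c) - (g * γ / (4 * c * Δ) * (Z0 / (4 * g)) + β / (4 * c * Δ) * (Z2 / 4)) /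
            (ℓ / (4 * c))) * (-(p * (g * γ / (4 * c * Δ)) / g) + q * (X1 * (β / (4 * c * Δ)) / c)) -
          (p + q) * (g * γ / (4 * c * Δ) * (β / (4 * c * Δ)) * α / (2 * g * (ℓ / (4 * c))))) := by
  refine sub_eq_zero.mp (Eq.trans (b := -(E / (4 * c ^ 2 * Δ * ℓ ^ 2)) *
    (Δ * (c ^ 2 * ℓ ^ 2 * M' + c * ℓ ^ 2 * ℓ' - ℓ ^ 3 * c'
      + c ^ 2 * ℓ * (γ' * α + γ * α') - c ^ 2 * γ * α * ℓ' - 2 * c * ℓ ^ 2 * γ'
      + 2 * ℓ ^ 2 * γ * c'
      - (p + q) * (c ^ 2 * ℓ ^ 2 * M + c * ℓ ^ 3 + c ^ 2 * ℓ * γ * α - 2 * c * ℓ ^ 2 * γ))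
      + (ℓ ^ 2 * Δ - c * (γ * Z0 + β * Z2)) * (-(p * c * γ) + q * X1 * β)
      - 2 * c ^ 2 * (p + q) * γ * β * α)) ?_ (by rw [key, mul_zero]))
  field_simp
  ring

/-- the algebra for face `2` -/
theorem alg2 (E c g Δ ℓ γ β α Z0 Z1 M M' ℓ' S S' α' X1 p q : ℝ) (hc : c ≠ 0) (hg : g ≠ 0)
    (hΔ : Δ ≠ 0) (hℓ : ℓ ≠ 0)
    (key : Δ * (ℓ ^ 2 * M' + ℓ ^ 2 * ℓ' + ℓ * S' - S * ℓ' - 2 * ℓ ^ 2 * α'
      - (p + q) * (ℓ ^ 2 * M + ℓ ^ 3 + ℓ * S - 2 * ℓ ^ 2 * α))
      - (ℓ ^ 2 * Δ - (α * Z0 + β * Z1)) * ((p + q) * α + q * X1 * β)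
      - 2 * p * α * β * γ = 0) :
    -(-((p + q) * E) * (M / 4 + ℓ / 4 + S / (16 * (ℓ / 4)) - α / 2) +
        E * (M' / 4 + ℓ' / 4 +
          (S' * (16 * (ℓ / 4)) - S * (16 * (ℓ' / 4))) / (16 * (ℓ / 4)) ^ 2 - α' / 2)) =
      -(Δ * E / (ℓ / 4) *
        ((ℓ / 4 - (g * α / (4 * Δ) * (Z0 / (4 * g)) + c * β / (4 * Δ) * (Z1 / (4 * c))) /
            (ℓ / 4)) * (p * (g * α / (4 * Δ)) / g +
              q * (g * α / (4 * Δ) / g + X1 * (c * β / (4 * Δ)) / c)) +
          p * (g * α / (4 * Δ) * (c * β / (4 * Δ)) * γ / (2 * c * g * (ℓ / 4))))) := by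
  refine sub_eq_zero.mp (Eq.trans (b := -(E / (4 * Δ * ℓ ^ 2)) *
    (Δ * (ℓ ^ 2 * M' + ℓ ^ 2 * ℓ' + ℓ * S' - S * ℓ' - 2 * ℓ ^ 2 * α'
      - (p + q) * (ℓ ^ 2 * M + ℓ ^ 3 + ℓ * S - 2 * ℓ ^ 2 * α))
      - (ℓ ^ 2 * Δ - (α * Z0 + β * Z1)) * ((p + q) * α + q * X1 * β)
      - 2 * p * α * β * γ)) ?_ (by rw [key, mul_zero]))
  field_simp
  ring

/-- The derivative of the plane of face `0`. -/
theorem hasDerivAt_L0 (p q x h t : ℝ) (u w : ℝ × ℝ) (hg : g1 (x + p * t) (h + q * t) ≠ 0)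
    (hc : cos (h + q * t) ≠ 0) (hD : Dl (x + p * t) (h + q * t) ≠ 0)
    (hl : la0 (x + p * t) (h + q * t) w ≠ 0) :
    HasDerivAt (fun t => L0 (x + p * t) (h + q * t) u w)
      (D0 p q (x + p * t) (h + q * t) u w) t := by
  have hl' : sg w - (cos (h + q * t) + sin (h + q * t)) * dd (h + q * t) w ≠ 0 := by
    intro h0
    apply hl
    simp [la0, h0]
  have hla : HasDerivAt (fun t => la0 (x + p * t) (h + q * t) w) _ t :=
    (hd_ll0 q h t w).div ((hd_g1 p q x h t).const_mul 4) (mul_ne_zero four_ne_zero hg)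
  have hJ : HasDerivAt (fun t => J0 (x + p * t) (h + q * t) u w) _ t :=
    ((hd_m3 p q x h t u).add hla).sub
      (((hd_ga p q x h t w).mul (hd_be q h t u)).div
        (((hd_g1 p q x h t).const_mul 16).mul hla)
        (mul_ne_zero (mul_ne_zero (by norm_num) hg) hl))
  have hL : HasDerivAt (fun t => L0 (x + p * t) (h + q * t) u w) _ t :=
    (((hd_ep p q x h t).mul hJ).const_sub (u.2 + w.2))
  refine hL.congr_deriv ?_
  have key := key0 (cos (h + q * t)) (sin (h + q * t)) (x + p * t) (sg u) (dd (h + q * t) u)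
    (sg w) (dd (h + q * t) w) p q (by rw [add_comm]; exact sin_sq_add_cos_sq _)
  exact alg0 (ep (x + p * t) (h + q * t)) (cos (h + q * t)) _ _ _ _ _ _ _ _ _ _ _ _ _ _ p q
    hc hg hD hl' key

/-- The derivative of the plane of face `1`. -/
theorem hasDerivAt_L1 (p q x h t : ℝ) (u w : ℝ × ℝ) (hg : g1 (x + p * t) (h + q * t) ≠ 0)
    (hc : cos (h + q * t) ≠ 0) (hD : Dl (x + p * t) (h + q * t) ≠ 0)
    (hl : la1 (x + p * t) (h + q * t) w ≠ 0) :
    HasDerivAt (fun t => L1 (x + p * t) (h + q * t) u w)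
      (D1 p q (x + p * t) (h + q * t) u w) t := by
  have hl' : ((1 + (x + p * t)) * cos (h + q * t) + (1 - (x + p * t)) * sin (h + q * t)) *
      dd (h + q * t) w + (1 - (x + p * t)) * sg w ≠ 0 := by
    intro h0
    apply hl
    simp [la1, h0]
  have hla : HasDerivAt (fun t => la1 (x + p * t) (h + q * t) w) _ t :=
    (hd_ll1 p q x h t w).div ((hd_c q h t).const_mul 4) (mul_ne_zero four_ne_zero hc)
  have hJ : HasDerivAt (fun t => J1 (x + p * t) (h + q * t) u w) _ t :=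
    (((hd_m3 p q x h t u).add hla).add
      (((hd_ga p q x h t w).mul (hd_al p q x h t u)).div
        (((hd_c q h t).const_mul 16).mul hla)
        (mul_ne_zero (mul_ne_zero (by norm_num) hc) hl))).sub
      ((hd_ga p q x h t w).div ((hd_c q h t).const_mul 2) (mul_ne_zero two_ne_zero hc))
  have hL : HasDerivAt (fun t => L1 (x + p * t) (h + q * t) u w) _ t :=
    (((hd_ep p q x h t).mul hJ).const_sub (u.2 + w.2))
  refine hL.congr_deriv ?_
  have key := key1 (cos (h + q * t)) (sin (h + q * t)) (x + p * t) (sg u) (dd (h + q * t) u)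
    (sg w) (dd (h + q * t) w) p q (by rw [add_comm]; exact sin_sq_add_cos_sq _)
  exact alg1 (ep (x + p * t) (h + q * t)) (cos (h + q * t)) (g1 (x + p * t) (h + q * t))
    _ _ _ _ _ _ _ _ _ _ _ _ _ _ p q hc hg hD hl' key

/-- The derivative of the plane of face `2`. -/
theorem hasDerivAt_L2 (p q x h t : ℝ) (u w : ℝ × ℝ) (hg : g1 (x + p * t) (h + q * t) ≠ 0)
    (hc : cos (h + q * t) ≠ 0) (hD : Dl (x + p * t) (h + q * t) ≠ 0)
    (hl : la2 (x + p * t) (h + q * t) w ≠ 0) :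
    HasDerivAt (fun t => L2 (x + p * t) (h + q * t) u w)
      (D2 p q (x + p * t) (h + q * t) u w) t := by
  have hl' : ((2 - (x + p * t)) * cos (h + q * t) - (x + p * t) * sin (h + q * t)) *
      sg w + (x + p * t) * dd (h + q * t) w ≠ 0 := by
    intro h0
    apply hl
    simp [la2, h0]
  have hla : HasDerivAt (fun t => la2 (x + p * t) (h + q * t) w) _ t :=
    (hd_ll2 p q x h t w).div_const 4
  have hJ : HasDerivAt (fun t => J2 (x + p * t) (h + q * t) u w) _ t :=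
    (((hd_m3 p q x h t u).add hla).add
      ((((hd_al p q x h t w).mul (hd_al p q x h t u)).add
        ((hd_be q h t w).mul (hd_be q h t u))).div (hla.const_mul 16)
        (mul_ne_zero (by norm_num) hl))).sub ((hd_al p q x h t w).div_const 2)
  have hL : HasDerivAt (fun t => L2 (x + p * t) (h + q * t) u w) _ t :=
    (((hd_ep p q x h t).mul hJ).const_sub (u.2 + w.2))
  refine hL.congr_deriv ?_
  have key := key2 (cos (h + q * t)) (sin (h + q * t)) (x + p * t) (sg u) (dd (h + q * t) u)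
    (sg w) (dd (h + q * t) w) p q (by rw [add_comm]; exact sin_sq_add_cos_sq _)
  exact alg2 (ep (x + p * t) (h + q * t)) (cos (h + q * t)) (g1 (x + p * t) (h + q * t))
    _ _ _ _ _ _ _ _ _ _ _ _ _ _ p q hc hg hD hl' key

end Pool.Agent.Helper12.CR
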