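import Pool.Agent.Helper12.CR.Pos

set_option autoImplicit false

/-!
# Project CR, module Exist: compactness of the parameter sets, existence of minimisers

* `K j` as a subset of `ℝ × ℝ` is closed (`Reg` and the sign conditions are given by continuous
  functions) and bounded (`0 ≤ h ≤ π/4`, `0 ≤ x`, `(1+x) * (2 * w.2) ≤ 5 * (w.1 + w.2)` by
  `K.bound`), hence compact.
* `L j` is continuous on `K j` because `g₁, c, la_j` do not vanish there
  (`Reg.g1_pos`, `Reg.cos_pos`, `la0_pos`, `la1_pos`, `la2_pos`).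
* `K 2 0 0 w` holds (`al 0 0 w = 2 w.1`, `be 0 w = 2 w.2`), so the parameter set is nonempty.
* Take the minimum over each nonempty `K j`, and then over `j`.
-/

namespace Pool.Agent.Helper12.CR

open Real

private theorem exist_cont_Dl : Continuous (fun p : ℝ × ℝ => Dl p.1 p.2) := by
  unfold Dl
  fun_prop

private theorem exist_cont_g1 : Continuous (fun p : ℝ × ℝ => g1 p.1 p.2) := by
  unfold g1
  fun_prop

private theorem exist_cont_al (w : ℝ × ℝ) : Continuous (fun p : ℝ × ℝ => al p.1 p.2 w) := by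
  unfold al QQ dd
  fun_prop

private theorem exist_cont_be (w : ℝ × ℝ) : Continuous (fun p : ℝ × ℝ => be p.2 w) := by
  unfold be dd
  fun_prop

private theorem exist_cont_ga (w : ℝ × ℝ) : Continuous (fun p : ℝ × ℝ => ga p.1 p.2 w) := by
  unfold ga DD dd
  fun_prop

private theorem exist_cont_m3 (w : ℝ × ℝ) : Continuous (fun p : ℝ × ℝ => m3 p.1 p.2 w) := by
  unfold m3 dd
  fun_prop

private theorem exist_cont_ep : Continuous (fun p : ℝ × ℝ => ep p.1 p.2) := by
  unfold ep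
  fun_prop

private theorem exist_cont_la2 (w : ℝ × ℝ) : Continuous (fun p : ℝ × ℝ => la2 p.1 p.2 w) := by
  unfold la2 dd
  fun_prop

private theorem exist_contOn_la0 (w : ℝ × ℝ) {S : Set (ℝ × ℝ)}
    (hS : ∀ p ∈ S, g1 p.1 p.2 ≠ 0) : ContinuousOn (fun p : ℝ × ℝ => la0 p.1 p.2 w) S := by
  unfold la0
  apply ContinuousOn.div
  · unfold dd
    fun_prop
  · exact (continuous_const.mul exist_cont_g1).continuousOn
  · intro p hp
    exact mul_ne_zero (by norm_num) (hS p hp)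

private theorem exist_contOn_la1 (w : ℝ × ℝ) {S : Set (ℝ × ℝ)}
    (hS : ∀ p ∈ S, cos p.2 ≠ 0) : ContinuousOn (fun p : ℝ × ℝ => la1 p.1 p.2 w) S := by
  unfold la1
  apply ContinuousOn.div
  · unfold dd
    fun_prop
  · exact (by fun_prop : Continuous (fun p : ℝ × ℝ => 4 * cos p.2)).continuousOn
  · intro p hp
    exact mul_ne_zero (by norm_num) (hS p hp)

private theorem exist_closed_Reg : IsClosed {p : ℝ × ℝ | Reg p.1 p.2} := by
  have e : {p : ℝ × ℝ | Reg p.1 p.2} =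
      {p | 0 ≤ p.1} ∩ ({p | 0 ≤ p.2} ∩ ({p | p.2 ≤ π / 4} ∩ {p | 0 ≤ Dl p.1 p.2})) := by
    ext p
    exact Iff.rfl
  rw [e]
  refine (isClosed_le continuous_const continuous_fst).inter
    ((isClosed_le continuous_const continuous_snd).inter
      ((isClosed_le continuous_snd continuous_const).inter
        (isClosed_le continuous_const exist_cont_Dl)))

theorem isClosed_K (j : Fin 3) (w : ℝ × ℝ) : IsClosed {p : ℝ × ℝ | K j p.1 p.2 w} := by
  match j with
  | 0 =>
    exact exist_closed_Reg.inter ((isClosed_le (exist_cont_ga w) continuous_const).inter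
      (isClosed_le continuous_const (exist_cont_al w)))
  | 1 =>
    exact exist_closed_Reg.inter ((isClosed_le continuous_const (exist_cont_ga w)).inter
      (isClosed_le continuous_const (exist_cont_be w)))
  | 2 =>
    exact exist_closed_Reg.inter ((isClosed_le continuous_const (exist_cont_al w)).inter
      (isClosed_le continuous_const (exist_cont_be w)))

theorem isCompact_K (j : Fin 3) {w : ℝ × ℝ} (hw : Pos w) :
    IsCompact {p : ℝ × ℝ | K j p.1 p.2 w} := by
  have hc : IsCompact (Set.Icc (0 : ℝ) (5 * (w.1 + w.2) / (2 * w.2)) ×ˢ Set.Icc (0 : ℝ) (π / 4)) :=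
    isCompact_Icc.prod isCompact_Icc
  refine hc.of_isClosed_subset (isClosed_K j w) ?_
  intro p hp
  have k : K j p.1 p.2 w := hp
  have r := k.reg
  have hb := k.bound hw
  have hw2 : 0 < w.2 := hw.2
  refine ⟨⟨r.1, ?_⟩, ⟨r.2.1, r.2.2.1⟩⟩
  rw [le_div_iff₀ (by positivity)]
  nlinarith

theorem continuousOn_L (j : Fin 3) (u : ℝ × ℝ) {w : ℝ × ℝ} (hw : Pos w) :
    ContinuousOn (fun p : ℝ × ℝ => L j p.1 p.2 u w) {p : ℝ × ℝ | K j p.1 p.2 w} := by
  match j with
  | 0 =>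
    show ContinuousOn (fun p : ℝ × ℝ => L0 p.1 p.2 u w) {p : ℝ × ℝ | K 0 p.1 p.2 w}
    have hg : ∀ p ∈ {p : ℝ × ℝ | K 0 p.1 p.2 w}, g1 p.1 p.2 ≠ 0 :=
      fun p hp => (K.reg (show K 0 p.1 p.2 w from hp)).g1_pos.ne'
    have hla : ∀ p ∈ {p : ℝ × ℝ | K 0 p.1 p.2 w}, la0 p.1 p.2 w ≠ 0 :=
      fun p hp => (la0_pos hw (show K 0 p.1 p.2 w from hp)).ne'
    have h1 := exist_contOn_la0 w hg
    have h2 : ContinuousOn (fun p : ℝ × ℝ => ga p.1 p.2 w * be p.2 u /
        (16 * g1 p.1 p.2 * la0 p.1 p.2 w)) {p : ℝ × ℝ | K 0 p.1 p.2 w} :=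
      ((exist_cont_ga w).mul (exist_cont_be u)).continuousOn.div
        ((continuous_const.mul exist_cont_g1).continuousOn.mul h1)
        (fun p hp => mul_ne_zero (mul_ne_zero (by norm_num) (hg p hp)) (hla p hp))
    unfold L0 J0
    exact continuousOn_const.sub (exist_cont_ep.continuousOn.mul
      (((exist_cont_m3 u).continuousOn.add h1).sub h2))
  | 1 =>
    show ContinuousOn (fun p : ℝ × ℝ => L1 p.1 p.2 u w) {p : ℝ × ℝ | K 1 p.1 p.2 w}
    have hg : ∀ p ∈ {p : ℝ × ℝ | K 1 p.1 p.2 w}, cos p.2 ≠ 0 :=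
      fun p hp => (K.reg (show K 1 p.1 p.2 w from hp)).cos_pos.ne'
    have hla : ∀ p ∈ {p : ℝ × ℝ | K 1 p.1 p.2 w}, la1 p.1 p.2 w ≠ 0 :=
      fun p hp => (la1_pos hw (show K 1 p.1 p.2 w from hp)).ne'
    have h1 := exist_contOn_la1 w hg
    have hcos : Continuous (fun p : ℝ × ℝ => cos p.2) := continuous_cos.comp continuous_snd
    have h2 : ContinuousOn (fun p : ℝ × ℝ => ga p.1 p.2 w * al p.1 p.2 u /
        (16 * cos p.2 * la1 p.1 p.2 w)) {p : ℝ × ℝ | K 1 p.1 p.2 w} :=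
      ((exist_cont_ga w).mul (exist_cont_al u)).continuousOn.div
        ((continuous_const.mul hcos).continuousOn.mul h1)
        (fun p hp => mul_ne_zero (mul_ne_zero (by norm_num) (hg p hp)) (hla p hp))
    have h3 : ContinuousOn (fun p : ℝ × ℝ => ga p.1 p.2 w / (2 * cos p.2))
        {p : ℝ × ℝ | K 1 p.1 p.2 w} :=
      (exist_cont_ga w).continuousOn.div (continuous_const.mul hcos).continuousOn
        (fun p hp => mul_ne_zero (by norm_num) (hg p hp))
    unfold L1 J1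
    exact continuousOn_const.sub (exist_cont_ep.continuousOn.mul
      ((((exist_cont_m3 u).continuousOn.add h1).add h2).sub h3))
  | 2 =>
    show ContinuousOn (fun p : ℝ × ℝ => L2 p.1 p.2 u w) {p : ℝ × ℝ | K 2 p.1 p.2 w}
    have hla : ∀ p ∈ {p : ℝ × ℝ | K 2 p.1 p.2 w}, la2 p.1 p.2 w ≠ 0 :=
      fun p hp => (la2_pos hw (show K 2 p.1 p.2 w from hp)).ne'
    have h1 : ContinuousOn (fun p : ℝ × ℝ => la2 p.1 p.2 w) {p : ℝ × ℝ | K 2 p.1 p.2 w} :=
      (exist_cont_la2 w).continuousOn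
    have h2 : ContinuousOn (fun p : ℝ × ℝ =>
        (al p.1 p.2 w * al p.1 p.2 u + be p.2 w * be p.2 u) / (16 * la2 p.1 p.2 w))
        {p : ℝ × ℝ | K 2 p.1 p.2 w} :=
      (((exist_cont_al w).mul (exist_cont_al u)).add
        ((exist_cont_be w).mul (exist_cont_be u))).continuousOn.div
        (continuousOn_const.mul h1)
        (fun p hp => mul_ne_zero (by norm_num) (hla p hp))
    unfold L2 J2
    exact continuousOn_const.sub (exist_cont_ep.continuousOn.mul
      ((((exist_cont_m3 u).continuousOn.add h1).add h2).sub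
        ((exist_cont_al w).div_const 2).continuousOn))

theorem K_two_zero {w : ℝ × ℝ} (hw : Pos w) : K 2 0 0 w := by
  have hw1 : 0 < w.1 := hw.1
  have hw2 : 0 < w.2 := hw.2
  refine ⟨⟨le_refl _, le_refl _, by positivity, ?_⟩, ?_, ?_⟩
  · unfold Dl
    simp
  · unfold al dd QQ sg
    simp
    linarith
  · unfold be dd sg
    simp
    linarith

private theorem exist_set_eq (u w : ℝ × ℝ) : {v | ∃ j x h, K j x h w ∧ v = L j x h u w} =
    ⋃ j : Fin 3, (fun p : ℝ × ℝ => L j p.1 p.2 u w) '' {p : ℝ × ℝ | K j p.1 p.2 w} := by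
  ext v
  simp only [Set.mem_setOf_eq, Set.mem_iUnion, Set.mem_image, Prod.exists]
  constructor
  · rintro ⟨j, x, h, k, e⟩
    exact ⟨j, x, h, k, e.symm⟩
  · rintro ⟨j, x, h, k, e⟩
    exact ⟨j, x, h, k, e.symm⟩

private theorem exist_compact (u : ℝ × ℝ) {w : ℝ × ℝ} (hw : Pos w) :
    IsCompact {v | ∃ j x h, K j x h w ∧ v = L j x h u w} := by
  rw [exist_set_eq]
  exact isCompact_iUnion fun j => (isCompact_K j hw).image_of_continuousOn (continuousOn_L j u hw)

private theorem exist_nonempty (u : ℝ × ℝ) {w : ℝ × ℝ} (hw : Pos w) :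
    {v | ∃ j x h, K j x h w ∧ v = L j x h u w}.Nonempty :=
  ⟨_, 2, 0, 0, K_two_zero hw, rfl⟩

theorem exists_min (u : ℝ × ℝ) {w : ℝ × ℝ} (hw : Pos w) :
    ∃ j x h, K j x h w ∧ ∀ j' x' h', K j' x' h' w → L j x h u w ≤ L j' x' h' u w := by
  obtain ⟨v, ⟨j, x, h, k, e⟩, hv⟩ := (exist_compact u hw).exists_isLeast (exist_nonempty u hw)
  refine ⟨j, x, h, k, ?_⟩
  intro j' x' h' k'
  rw [← e]
  exact hv ⟨j', x', h', k', rfl⟩

theorem HH_le (u : ℝ × ℝ) {w : ℝ × ℝ} (hw : Pos w) {j : Fin 3} {x h : ℝ} (k : K j x h w) :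
    HH u w ≤ L j x h u w :=
  csInf_le (exist_compact u hw).bddBelow ⟨j, x, h, k, rfl⟩

theorem HH_attained (u : ℝ × ℝ) {w : ℝ × ℝ} (hw : Pos w) :
    ∃ j x h, K j x h w ∧ HH u w = L j x h u w := by
  obtain ⟨j, x, h, k, e⟩ := (exist_compact u hw).sInf_mem (exist_nonempty u hw)
  exact ⟨j, x, h, k, e⟩

end Pool.Agent.Helper12.CR
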