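import Pool.Agent.Helper12.CR.FProps

set_option autoImplicit false

/-!
# Project CR, module FCorner: monotonicity of `FF` and the lower bound at the corner

* `FF_mono`: with `e = u' - u ≥ 0`, all points `u + t e`, `t ≥ 0`, are positive, and for `N > 1`,
  `u' = (1 - 1/N) u + (1/N) (u + N e)`, so `FF u' w ≥ (1 - 1/N) FF u w` by `concaveOn_FF` and
  `FF_nonneg`; let `N → ∞`.
* `FF_corner`: at `(x, h) = (0, 0)`, `z = (1, 1, 1)`, `U 0 = (2,0)`, `U 1 = (0,2)`, `U 2 = (2,2)`;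
  by continuity there is `ρ > 0` with `2 * z j x h ≥ (1 - δ) (U j x h).1` and
  `2 * z j x h ≥ (1 - δ) (U j x h).2` for all `j` and `0 ≤ x, h ≤ ρ`.  Put `u = (1, η)`,
  `w = (η, 1)` and use `FF_cases`:
  - `gg u w ≥ min u.1 w.2 = 1`; `gg u.swap w.swap ≥ min u.swap.2 w.swap.1 = 1` (`le_gg`);
  - third case: `Dl x h > 0` because otherwise `u = w` (`star_eq`) but `η < 1`.  `core_rep` gives
    `u = ∑ a j • U j`, `w = ∑ b j • U j`, `FF u w = ∑ (a j + b j) z j`.  Since `be h (U j) ≥ 0`,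
    `al x h (U j) ≥ 0` (`be_U`, `al_U`) and the functionals are linear, `be h u ≥ 0` and
    `al x h w ≥ 0`: the first is `(c-s)(1+η) ≥ exp h (1-η)`, so `(1+h)(1-η) ≤ 1+η`,
    `h ≤ 2η/(1-η)`; the second is `Q (1+η) ≥ (1+x) exp h (1-η) ≥ (1+x)(1-η)`, and `Q ≤ 1-x` if
    `x ≤ 1`, `Q ≤ 0` if `x ≥ 1`, so `x ≤ η`.  For small `η`, `x, h ≤ ρ`, and
    `FF u w ≥ (1-δ)/2 (∑ a j (U j).1 + ∑ b j (U j).2) = (1-δ)/2 (u.1 + w.2) = 1 - δ`.
  - fourth case: the same for `u.swap = (η, 1)`, `w.swap = (1, η)`: `al x h u.swap ≥ 0`,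
    `be h w.swap ≥ 0`, and the bounds with `(U j).2` for `a`, `(U j).1` for `b`.
* `le_FF`: `t = min u.1 w.2`; for small `η`, `(t, t η) ≤ u`, `(t η, t) ≤ w`, so
  `FF u w ≥ FF (t • (1, η)) (t • (η, 1)) = t FF (1, η) (η, 1) ≥ t (1 - δ)` (`FF_mono` in both
  arguments with `FF_comm`, `FF_smul`, `FF_corner`); `δ → 0`.  The second bound is the first one for
  `u.swap, w.swap` (`FF_swap`).
-/

namespace Pool.Agent.Helper12.CR

open Real

/-- concave and nonnegative, hence monotone -/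
theorem FF_mono {u u' w : ℝ × ℝ} (hu : Pos u) (hu' : Pos u') (hw : Pos w) (h1 : u.1 ≤ u'.1)
    (h2 : u.2 ≤ u'.2) : FF u w ≤ FF u' w := by
  by_contra hcon
  push Not at hcon
  have hB : 0 ≤ FF u' w := FF_nonneg hu' hw
  set A := FF u w with hA
  set B := FF u' w with hBd
  have hA0 : 0 < A := lt_of_le_of_lt hB hcon
  set t : ℝ := (A - B) / (2 * A) with ht
  have ht0 : 0 < t := div_pos (by linarith) (by linarith)
  have ht1 : t < 1 := by
    rw [ht, div_lt_one (by linarith)]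
    linarith
  have hy : Pos (u + (1 / t) • (u' - u)) := by
    have e1 : 0 ≤ (1 / t) * (u'.1 - u.1) := mul_nonneg (by positivity) (by linarith)
    have e2 : 0 ≤ (1 / t) * (u'.2 - u.2) := mul_nonneg (by positivity) (by linarith)
    refine ⟨?_, ?_⟩
    · simp only [Prod.fst_add, Prod.smul_fst, Prod.fst_sub, smul_eq_mul]
      linarith [hu.1]
    · simp only [Prod.snd_add, Prod.smul_snd, Prod.snd_sub, smul_eq_mul]
      linarith [hu.2]
  have hc := (concaveOn_FF hw).2 (show u ∈ {u | Pos u} from hu)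
    (show u + (1 / t) • (u' - u) ∈ {u | Pos u} from hy)
    (show (0 : ℝ) ≤ 1 - t by linarith) ht0.le (by ring)
  have he : (1 - t) • u + t • (u + (1 / t) • (u' - u)) = u' := by
    ext
    · simp only [Prod.fst_add, Prod.smul_fst, Prod.fst_sub, smul_eq_mul]
      field_simp
      ring
    · simp only [Prod.snd_add, Prod.smul_snd, Prod.snd_sub, smul_eq_mul]
      field_simp
      ring
  rw [he] at hc
  have hn : 0 ≤ FF (u + (1 / t) • (u' - u)) w := FF_nonneg hy hw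
  simp only [smul_eq_mul] at hc
  have h3 : (1 - t) * A ≤ B := by
    have := mul_nonneg ht0.le hn
    linarith
  have h4 : t * A = (A - B) / 2 := by
    rw [ht]
    field_simp
  nlinarith

namespace FCorner

theorem small {x h η : ℝ} (r : Reg x h) (hη : 0 < η) (hη1 : η < 1 / 2) (hb : 0 ≤ be h (1, η))
    (ha : 0 ≤ al x h (η, 1)) : x ≤ η ∧ h ≤ 4 * η := by
  have hs := r.sin_nonneg
  have hc := cos_le_one h
  have he : 1 + h ≤ exp h := by linarith [add_one_le_exp h]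
  have hh := r.2.1
  have hx := r.1
  have hcp := r.cos_pos
  constructor
  · unfold al dd QQ sg at ha
    simp only at ha
    have h1 : (1 + x) * (1 - η) ≤ (1 + x) * (exp h * (1 - η)) := by
      apply mul_le_mul_of_nonneg_left _ (by linarith)
      nlinarith
    have h2 : (1 + x) * (1 - η) ≤ (1 - x) * cos h * (1 + η) := by
      have h3 : 0 ≤ (1 + x) * sin h * (1 + η) := by positivity
      nlinarith
    by_cases hx1 : x ≤ 1
    · have h4 : (1 - x) * cos h * (1 + η) ≤ (1 - x) * (1 + η) := by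
        apply mul_le_mul_of_nonneg_right _ (by linarith)
        nlinarith
      nlinarith
    · push Not at hx1
      have h5 : (1 - x) * cos h * (1 + η) ≤ 0 := by
        apply mul_nonpos_of_nonpos_of_nonneg _ (by linarith)
        exact mul_nonpos_of_nonpos_of_nonneg (by linarith) hcp.le
      have h6 : 0 < (1 + x) * (1 - η) := mul_pos (by linarith) (by linarith)
      linarith
  · unfold be dd sg at hb
    simp only at hb
    have h1 : (1 + h) * (1 - η) ≤ exp h * (1 - η) := mul_le_mul_of_nonneg_right he (by linarith)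
    have h2 : (cos h - sin h) * (1 + η) ≤ 1 * (1 + η) :=
      mul_le_mul_of_nonneg_right (by linarith) (by linarith)
    nlinarith

theorem cont_U (j : Fin 3) : ContinuousAt (fun p : ℝ × ℝ => U j p.1 p.2) (0, 0) := by
  have hg : g1 (0 : ℝ) 0 ≠ 0 := by simp [g1]
  have hc : cos (0 : ℝ) ≠ 0 := by simp
  have c1 : ContinuousAt (fun p : ℝ × ℝ => cos p.2) (0, 0) := by fun_prop
  have c2 : ContinuousAt (fun p : ℝ × ℝ => g1 p.1 p.2) (0, 0) := by
    unfold g1
    fun_prop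
  fin_cases j
  · show ContinuousAt (fun p : ℝ × ℝ => ((1 + (cos p.2 - sin p.2) * exp (-p.2)) / g1 p.1 p.2,
      (1 - (cos p.2 - sin p.2) * exp (-p.2)) / g1 p.1 p.2)) (0, 0)
    exact (ContinuousAt.div (by fun_prop) c2 hg).prodMk (ContinuousAt.div (by fun_prop) c2 hg)
  · show ContinuousAt (fun p : ℝ × ℝ => ((1 + p.1 - QQ p.1 p.2 * exp (-p.2)) / cos p.2,
      (1 + p.1 + QQ p.1 p.2 * exp (-p.2)) / cos p.2)) (0, 0)
    unfold QQ
    exact (ContinuousAt.div (by fun_prop) c1 hc).prodMk (ContinuousAt.div (by fun_prop) c1 hc)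
  · show ContinuousAt (fun p : ℝ × ℝ => (DD p.1 p.2 + p.1 * exp (-p.2),
      DD p.1 p.2 - p.1 * exp (-p.2))) (0, 0)
    unfold DD
    fun_prop

theorem cont_z (j : Fin 3) : ContinuousAt (fun p : ℝ × ℝ => z j p.1 p.2) (0, 0) := by
  have hg : g1 (0 : ℝ) 0 ≠ 0 := by simp [g1]
  have hc : cos (0 : ℝ) ≠ 0 := by simp
  have c1 : ContinuousAt (fun p : ℝ × ℝ => cos p.2) (0, 0) := by fun_prop
  have c2 : ContinuousAt (fun p : ℝ × ℝ => g1 p.1 p.2) (0, 0) := by
    unfold g1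
    fun_prop
  fin_cases j
  · show ContinuousAt (fun p : ℝ × ℝ => (1 - (cos p.2 - sin p.2) * exp (-p.2) +
      (cos p.2 - (2 + p.1) * sin p.2) * ep p.1 p.2) / g1 p.1 p.2) (0, 0)
    unfold ep
    exact ContinuousAt.div (by fun_prop) c2 hg
  · show ContinuousAt (fun p : ℝ × ℝ => (1 + p.1 + QQ p.1 p.2 * exp (-p.2) -
      cos p.2 * ep p.1 p.2) / cos p.2) (0, 0)
    unfold QQ ep
    exact ContinuousAt.div (by fun_prop) c1 hc
  · show ContinuousAt (fun p : ℝ × ℝ => DD p.1 p.2 - p.1 * exp (-p.2) - ep p.1 p.2) (0, 0)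
    unfold DD ep
    fun_prop

theorem at_zero (j : Fin 3) : z j 0 0 = 1 ∧ ((U j 0 0).1 = 0 ∨ (U j 0 0).1 = 2) ∧
    ((U j 0 0).2 = 0 ∨ (U j 0 0).2 = 2) := by
  fin_cases j
  · refine ⟨?_, Or.inr ?_, Or.inl ?_⟩
    · show (1 - (cos 0 - sin 0) * exp (-0) + (cos 0 - (2 + 0) * sin 0) * ep 0 0) / g1 0 0 = 1
      simp [ep, g1]
    · show (1 + (cos 0 - sin 0) * exp (-0)) / g1 0 0 = 2
      simp [g1]
      norm_num
    · show (1 - (cos 0 - sin 0) * exp (-0)) / g1 0 0 = 0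
      simp [g1]
  · refine ⟨?_, Or.inl ?_, Or.inr ?_⟩
    · show (1 + 0 + QQ 0 0 * exp (-0) - cos 0 * ep 0 0) / cos 0 = 1
      simp [ep, QQ]
    · show (1 + 0 - QQ 0 0 * exp (-0)) / cos 0 = 0
      simp [QQ]
    · show (1 + 0 + QQ 0 0 * exp (-0)) / cos 0 = 2
      simp [QQ]
      norm_num
  · refine ⟨?_, Or.inr ?_, Or.inr ?_⟩
    · show DD 0 0 - 0 * exp (-0) - ep 0 0 = 1
      simp [ep, DD]
      norm_num
    · show DD 0 0 + 0 * exp (-0) = 2
      simp [DD]
    · show DD 0 0 - 0 * exp (-0) = 2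
      simp [DD]

theorem near {δ : ℝ} (hδ : 0 < δ) : ∃ ρ, 0 < ρ ∧ ∀ x h, 0 ≤ x → x ≤ ρ → 0 ≤ h → h ≤ ρ →
    ∀ j : Fin 3, (1 - δ) * (U j x h).1 ≤ 2 * z j x h ∧ (1 - δ) * (U j x h).2 ≤ 2 * z j x h := by
  have h1 : ∀ᶠ p : ℝ × ℝ in nhds (0, 0), ∀ j : Fin 3,
      (1 - δ) * (U j p.1 p.2).1 < 2 * z j p.1 p.2 ∧ (1 - δ) * (U j p.1 p.2).2 < 2 * z j p.1 p.2 := by
    rw [Filter.eventually_all]
    intro j
    obtain ⟨e1, e2, e3⟩ := at_zero j
    refine Filter.Eventually.and ?_ ?_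
    · refine ContinuousAt.eventually_lt (continuousAt_const.mul (cont_U j).fst)
        (continuousAt_const.mul (cont_z j)) ?_
      show (1 - δ) * (U j 0 0).1 < 2 * z j 0 0
      rw [e1]
      rcases e2 with e2 | e2 <;> rw [e2] <;> linarith
    · refine ContinuousAt.eventually_lt (continuousAt_const.mul (cont_U j).snd)
        (continuousAt_const.mul (cont_z j)) ?_
      show (1 - δ) * (U j 0 0).2 < 2 * z j 0 0
      rw [e1]
      rcases e3 with e3 | e3 <;> rw [e3] <;> linarith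
  rw [Metric.eventually_nhds_iff] at h1
  obtain ⟨ε, hε, h2⟩ := h1
  refine ⟨ε / 2, by linarith, fun x h hx hx' hh hh' j => ?_⟩
  have h3 : dist ((x, h) : ℝ × ℝ) (0, 0) < ε := by
    rw [Prod.dist_eq]
    simp only [Real.dist_eq, sub_zero]
    rw [abs_of_nonneg hx, abs_of_nonneg hh]
    exact max_lt (by linarith) (by linarith)
  have h4 := h2 h3 j
  exact ⟨h4.1.le, h4.2.le⟩

theorem be_sum {h : ℝ} {u : ℝ × ℝ} {a : Fin 3 → ℝ} {V : Fin 3 → ℝ × ℝ} (e : u = ∑ j, a j • V j) :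
    be h u = ∑ j, a j * be h (V j) := by
  rw [e]
  simp only [Fin.sum_univ_three, be, sg, dd, Prod.fst_add, Prod.snd_add, Prod.smul_fst,
    Prod.smul_snd, smul_eq_mul]
  ring

theorem al_sum {x h : ℝ} {u : ℝ × ℝ} {a : Fin 3 → ℝ} {V : Fin 3 → ℝ × ℝ}
    (e : u = ∑ j, a j • V j) : al x h u = ∑ j, a j * al x h (V j) := by
  rw [e]
  simp only [Fin.sum_univ_three, al, sg, dd, Prod.fst_add, Prod.snd_add, Prod.smul_fst,
    Prod.smul_snd, smul_eq_mul]
  ring

theorem fst_sum {u : ℝ × ℝ} {a : Fin 3 → ℝ} {V : Fin 3 → ℝ × ℝ} (e : u = ∑ j, a j • V j) :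
    u.1 = ∑ j, a j * (V j).1 := by
  rw [e]
  simp only [Fin.sum_univ_three, Prod.fst_add, Prod.smul_fst, smul_eq_mul]

theorem snd_sum {u : ℝ × ℝ} {a : Fin 3 → ℝ} {V : Fin 3 → ℝ × ℝ} (e : u = ∑ j, a j • V j) :
    u.2 = ∑ j, a j * (V j).2 := by
  rw [e]
  simp only [Fin.sum_univ_three, Prod.snd_add, Prod.smul_snd, smul_eq_mul]

theorem be_U_nonneg {x h : ℝ} (r : Reg x h) (j : Fin 3) : 0 ≤ be h (U j x h) := by
  obtain ⟨e0, e1, e2⟩ := be_U x h r.cos_pos.ne' r.g1_pos.ne'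
  have hc := r.cos_pos
  have hD := r.2.2.2
  fin_cases j
  · show 0 ≤ be h (U 0 x h)
    rw [e0]
  · show 0 ≤ be h (U 1 x h)
    rw [e1]
    positivity
  · show 0 ≤ be h (U 2 x h)
    rw [e2]
    positivity

theorem al_U_nonneg {x h : ℝ} (r : Reg x h) (j : Fin 3) : 0 ≤ al x h (U j x h) := by
  obtain ⟨e0, e1, e2⟩ := al_U x h r.cos_pos.ne' r.g1_pos.ne'
  have hg := r.g1_pos
  have hD := r.2.2.2
  fin_cases j
  · show 0 ≤ al x h (U 0 x h)
    rw [e0]
    positivity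
  · show 0 ≤ al x h (U 1 x h)
    rw [e1]
  · show 0 ≤ al x h (U 2 x h)
    rw [e2]
    positivity

end FCorner

/-- behaviour at the corner -/
theorem FF_corner {δ : ℝ} (hδ : 0 < δ) :
    ∃ η0, 0 < η0 ∧ ∀ η, 0 < η → η < η0 → 1 - δ ≤ FF (1, η) (η, 1) := by
  obtain ⟨ρ, hρ, hnear⟩ := FCorner.near hδ
  refine ⟨min (1 / 2) (ρ / 4), lt_min (by norm_num) (by linarith), fun η hη hη' => ?_⟩
  have hη1 : η < 1 / 2 := lt_of_lt_of_le hη' (min_le_left _ _)
  have hη2 : η < ρ / 4 := lt_of_lt_of_le hη' (min_le_right _ _)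
  have hu : Pos ((1, η) : ℝ × ℝ) := ⟨one_pos, hη⟩
  have hw : Pos ((η, 1) : ℝ × ℝ) := ⟨hη, one_pos⟩
  rcases FF_cases hu hw with h1 | h1 | ⟨j, x, h, k, hh, hF, m⟩ | ⟨j, x, h, k, hh, hF, m⟩
  · rw [h1]
    have h2 := (le_gg hu hw).1
    simp only [min_self] at h2
    linarith
  · rw [h1]
    have h2 := (le_gg (u := (η, 1)) (w := (1, η)) hw hu).2
    simp only [min_self] at h2
    show 1 - δ ≤ gg (η, 1) (1, η)
    linarith
  · rcases eq_or_lt_of_le k.reg.2.2.2 with hD | hD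
    · have e := star_eq hu hw hD.symm m k hF
      have e1 := congrArg Prod.fst e
      simp only at e1
      linarith
    · rw [hF] at m
      obtain ⟨a, b, ha, hb, eu, ew, eL⟩ := core_rep hu hw hh hD k m
      have r := k.reg
      have hbe : 0 ≤ be h (1, η) := by
        rw [FCorner.be_sum eu]
        exact Finset.sum_nonneg fun i _ => mul_nonneg (ha i) (FCorner.be_U_nonneg r i)
      obtain ⟨hx, hh4⟩ := FCorner.small r hη hη1 hbe k.al_nonneg
      have hn := hnear x h r.1 (by linarith) r.2.1 (by linarith)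
      have f1 := FCorner.fst_sum eu
      have f2 := FCorner.snd_sum ew
      simp only at f1 f2
      rw [hF, eL]
      have h5 : ∑ i, (a i * ((1 - δ) * (U i x h).1) + b i * ((1 - δ) * (U i x h).2)) ≤
          ∑ i, 2 * ((a i + b i) * z i x h) := by
        refine Finset.sum_le_sum fun i _ => ?_
        have g1 := mul_le_mul_of_nonneg_left (hn i).1 (ha i)
        have g2 := mul_le_mul_of_nonneg_left (hn i).2 (hb i)
        linarith
      rw [← Finset.mul_sum, Finset.sum_add_distrib] at h5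
      have h6 : ∑ i, a i * ((1 - δ) * (U i x h).1) = (1 - δ) * 1 := by
        rw [f1, Finset.mul_sum]
        exact Finset.sum_congr rfl fun i _ => by ring
      have h7 : ∑ i, b i * ((1 - δ) * (U i x h).2) = (1 - δ) * 1 := by
        rw [f2, Finset.mul_sum]
        exact Finset.sum_congr rfl fun i _ => by ring
      rw [h6, h7] at h5
      linarith
  · rcases eq_or_lt_of_le k.reg.2.2.2 with hD | hD
    · have e := star_eq (u := (η, 1)) (w := (1, η)) hw hu hD.symm m k hF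
      have e1 := congrArg Prod.fst e
      simp only at e1
      linarith
    · rw [hF] at m
      obtain ⟨a, b, ha, hb, eu, ew, eL⟩ := core_rep (u := (η, 1)) (w := (1, η)) hw hu hh hD k m
      have r := k.reg
      have hal : 0 ≤ al x h (η, 1) := by
        rw [FCorner.al_sum eu]
        exact Finset.sum_nonneg fun i _ => mul_nonneg (ha i) (FCorner.al_U_nonneg r i)
      obtain ⟨hx, hh4⟩ := FCorner.small r hη hη1 k.be_nonneg hal
      have hn := hnear x h r.1 (by linarith) r.2.1 (by linarith)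
      have f1 := FCorner.snd_sum eu
      have f2 := FCorner.fst_sum ew
      simp only at f1 f2
      have eL' : L j x h (Prod.swap (1, η)) (Prod.swap (η, 1)) = ∑ j, (a j + b j) * z j x h := eL
      rw [hF, eL']
      have h5 : ∑ i, (a i * ((1 - δ) * (U i x h).2) + b i * ((1 - δ) * (U i x h).1)) ≤
          ∑ i, 2 * ((a i + b i) * z i x h) := by
        refine Finset.sum_le_sum fun i _ => ?_
        have g1 := mul_le_mul_of_nonneg_left (hn i).2 (ha i)
        have g2 := mul_le_mul_of_nonneg_left (hn i).1 (hb i)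
        linarith
      rw [← Finset.mul_sum, Finset.sum_add_distrib] at h5
      have h6 : ∑ i, a i * ((1 - δ) * (U i x h).2) = (1 - δ) * 1 := by
        rw [f1, Finset.mul_sum]
        exact Finset.sum_congr rfl fun i _ => by ring
      have h7 : ∑ i, b i * ((1 - δ) * (U i x h).1) = (1 - δ) * 1 := by
        rw [f2, Finset.mul_sum]
        exact Finset.sum_congr rfl fun i _ => by ring
      rw [h6, h7] at h5
      linarith

theorem FCorner.le_FF_aux {u w : ℝ × ℝ} (hu : Pos u) (hw : Pos w) : min u.1 w.2 ≤ FF u w := by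
  set t := min u.1 w.2 with ht
  have ht0 : 0 < t := lt_min hu.1 hw.2
  refine le_of_forall_pos_le_add fun ε hε => ?_
  obtain ⟨η0, hη0, hcor⟩ := FF_corner (δ := ε / t) (div_pos hε ht0)
  set η := min (η0 / 2) (min (u.2 / t) (w.1 / t)) with hη
  have hη1 : 0 < η := lt_min (by linarith) (lt_min (div_pos hu.2 ht0) (div_pos hw.1 ht0))
  have hη2 : η < η0 := lt_of_le_of_lt (min_le_left _ _) (by linarith)
  have hη3 : t * η ≤ u.2 := by
    have h1 : η ≤ u.2 / t := (min_le_right _ _).trans (min_le_left _ _)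
    rw [le_div_iff₀ ht0] at h1
    linarith
  have hη4 : t * η ≤ w.1 := by
    have h1 : η ≤ w.1 / t := (min_le_right _ _).trans (min_le_right _ _)
    rw [le_div_iff₀ ht0] at h1
    linarith
  have h1 := hcor η hη1 hη2
  have p1 : Pos ((1, η) : ℝ × ℝ) := ⟨one_pos, hη1⟩
  have p2 : Pos ((η, 1) : ℝ × ℝ) := ⟨hη1, one_pos⟩
  have q1 : Pos (t • ((1, η) : ℝ × ℝ)) := ⟨by simpa using ht0, by simpa using mul_pos ht0 hη1⟩
  have q2 : Pos (t • ((η, 1) : ℝ × ℝ)) := ⟨by simpa using mul_pos ht0 hη1, by simpa using ht0⟩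
  have e1 : FF (t • ((1, η) : ℝ × ℝ)) (t • ((η, 1) : ℝ × ℝ)) = t * FF (1, η) (η, 1) :=
    FF_smul ht0 p1 p2
  have e2 : FF (t • ((1, η) : ℝ × ℝ)) (t • ((η, 1) : ℝ × ℝ)) ≤ FF u (t • ((η, 1) : ℝ × ℝ)) := by
    refine FF_mono q1 hu q2 ?_ ?_
    · simp only [Prod.smul_fst, smul_eq_mul, mul_one]
      exact min_le_left _ _
    · simp only [Prod.smul_snd, smul_eq_mul]
      exact hη3
  have e3 : FF u (t • ((η, 1) : ℝ × ℝ)) ≤ FF u w := by
    rw [FF_comm hu q2, FF_comm hu hw]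
    refine FF_mono q2 hw hu ?_ ?_
    · simp only [Prod.smul_fst, smul_eq_mul]
      exact hη4
    · simp only [Prod.smul_snd, smul_eq_mul, mul_one]
      exact min_le_right _ _
  have h2 : t * (1 - ε / t) ≤ t * FF (1, η) (η, 1) := mul_le_mul_of_nonneg_left h1 ht0.le
  have h3 : t * (1 - ε / t) = t - ε := by
    field_simp
  linarith

theorem le_FF {u w : ℝ × ℝ} (hu : Pos u) (hw : Pos w) :
    min u.1 w.2 ≤ FF u w ∧ min u.2 w.1 ≤ FF u w := by
  refine ⟨FCorner.le_FF_aux hu hw, ?_⟩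
  have h1 := FCorner.le_FF_aux (u := u.swap) (w := w.swap) ⟨hu.2, hu.1⟩ ⟨hw.2, hw.1⟩
  rw [FF_swap] at h1
  exact h1

end Pool.Agent.Helper12.CR
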