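import Pool.Agent.Helper12.CR.Pos

set_option autoImplicit false

/-!
# Project CR, module Mirror: the symmetry at `x = 0`

At `x = 0` the exchange of the two coordinates of `u` and `w` exchanges the faces `0` and `1`.
`dd h u.swap = - dd h u`, `sg u.swap = sg u`; `g1 0 h = cos h`, `DD 0 h = 2 cos h`,
`QQ 0 h = cos h - sin h`, `ga 0 h u = 2 cos h * dd h u`, `al 0 h u.swap = be h u`,
`la0 0 h u.swap = la1 0 h u`, `m3 0 h u = (sin h * sg u - dd h u)/2`, `ep 0 h * dd h u = u.1 - u.2`.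
-/

namespace Pool.Agent.Helper12.CR

open Real

private theorem mir_dd_swap (h : ℝ) (u : ℝ × ℝ) : dd h u.swap = -dd h u := by
  unfold dd; simp only [Prod.fst_swap, Prod.snd_swap]; ring

private theorem mir_sg_swap (u : ℝ × ℝ) : sg u.swap = sg u := by
  unfold sg; simp only [Prod.fst_swap, Prod.snd_swap]; ring

private theorem mir_ep (h : ℝ) (u : ℝ × ℝ) : ep 0 h * dd h u = u.1 - u.2 := by
  unfold ep dd
  rw [← mul_assoc, ← exp_add]
  have : (-0 - h + h : ℝ) = 0 := by ring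
  rw [this, exp_zero, one_mul]

theorem al_zero_swap (h : ℝ) (u : ℝ × ℝ) : al 0 h u.swap = be h u := by
  unfold al be QQ; rw [mir_dd_swap, mir_sg_swap]; ring

theorem be_swap (h : ℝ) (u : ℝ × ℝ) : be h u.swap = al 0 h u := by
  unfold al be QQ; rw [mir_dd_swap, mir_sg_swap]; ring

theorem ga_zero_swap (h : ℝ) (u : ℝ × ℝ) : ga 0 h u.swap = -ga 0 h u := by
  unfold ga DD; rw [mir_dd_swap, mir_sg_swap]; ring

theorem la0_zero_swap (h : ℝ) (u : ℝ × ℝ) : la0 0 h u.swap = la1 0 h u := by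
  unfold la0 la1 g1; rw [mir_dd_swap, mir_sg_swap]
  have : cos h - 0 * sin h = cos h := by ring
  rw [this]; ring

theorem la1_zero_swap (h : ℝ) (u : ℝ × ℝ) : la1 0 h u.swap = la0 0 h u := by
  have := la0_zero_swap h u.swap
  rw [Prod.swap_swap] at this
  exact this.symm

theorem la2_zero_swap (h : ℝ) (u : ℝ × ℝ) : la2 0 h u.swap = la2 0 h u := by
  unfold la2; rw [mir_dd_swap, mir_sg_swap]; ring

private theorem mir_m3 (h : ℝ) (u : ℝ × ℝ) : m3 0 h u.swap = m3 0 h u + dd h u := by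
  unfold m3; rw [mir_dd_swap, mir_sg_swap]; ring

private theorem mir_g1 (h : ℝ) : g1 0 h = cos h := by unfold g1; ring

private theorem mir_J0 (h : ℝ) (hc : cos h ≠ 0) (u w : ℝ × ℝ) :
    J0 0 h u.swap w.swap = J1 0 h u w + dd h u + dd h w := by
  unfold J0 J1
  rw [mir_m3, la0_zero_swap, ga_zero_swap, be_swap, mir_g1]
  have h1 : ga 0 h w / (2 * cos h) = dd h w := by
    unfold ga DD; field_simp; ring
  rw [h1]; ring

private theorem mir_J1 (h : ℝ) (hc : cos h ≠ 0) (u w : ℝ × ℝ) :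
    J1 0 h u.swap w.swap = J0 0 h u w + dd h u + dd h w := by
  unfold J0 J1
  rw [mir_m3, la1_zero_swap, ga_zero_swap, al_zero_swap, mir_g1]
  have h1 : -ga 0 h w / (2 * cos h) = -dd h w := by
    unfold ga DD; field_simp; ring
  rw [h1]; ring

private theorem mir_J2 (h : ℝ) (u w : ℝ × ℝ) :
    J2 0 h u.swap w.swap = J2 0 h u w + dd h u + dd h w := by
  unfold J2
  rw [mir_m3, la2_zero_swap, al_zero_swap, al_zero_swap, be_swap, be_swap]
  have h1 : be h w = al 0 h w - 2 * dd h w := by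
    unfold al be QQ; ring
  rw [h1]; ring

private theorem mir_L (h : ℝ) (u w : ℝ × ℝ) (a b : ℝ) (hab : a = b + dd h u + dd h w) :
    u.swap.2 + w.swap.2 - ep 0 h * a = u.2 + w.2 - ep 0 h * b := by
  have h1 := mir_ep h u
  have h2 := mir_ep h w
  rw [hab, Prod.snd_swap, Prod.snd_swap]
  linear_combination (-1 : ℝ) * h1 - h2

theorem L0_mirror (h : ℝ) (u w : ℝ × ℝ) (hc : cos h ≠ 0) :
    L 0 0 h u.swap w.swap = L 1 0 h u w :=
  mir_L h u w _ _ (mir_J0 h hc u w)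

theorem L1_mirror (h : ℝ) (u w : ℝ × ℝ) (hc : cos h ≠ 0) :
    L 1 0 h u.swap w.swap = L 0 0 h u w :=
  mir_L h u w _ _ (mir_J1 h hc u w)

theorem L2_mirror (h : ℝ) (u w : ℝ × ℝ) : L 2 0 h u.swap w.swap = L 2 0 h u w :=
  mir_L h u w _ _ (mir_J2 h u w)

theorem K0_mirror (h : ℝ) (w : ℝ × ℝ) : K 0 0 h w.swap ↔ K 1 0 h w := by
  show (Reg 0 h ∧ ga 0 h w.swap ≤ 0 ∧ 0 ≤ al 0 h w.swap) ↔ (Reg 0 h ∧ 0 ≤ ga 0 h w ∧ 0 ≤ be h w)
  rw [ga_zero_swap, al_zero_swap, neg_nonpos]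

theorem K1_mirror (h : ℝ) (w : ℝ × ℝ) : K 1 0 h w.swap ↔ K 0 0 h w := by
  show (Reg 0 h ∧ 0 ≤ ga 0 h w.swap ∧ 0 ≤ be h w.swap) ↔ (Reg 0 h ∧ ga 0 h w ≤ 0 ∧ 0 ≤ al 0 h w)
  rw [ga_zero_swap, be_swap, neg_nonneg]

theorem K2_mirror (h : ℝ) (w : ℝ × ℝ) : K 2 0 h w.swap ↔ K 2 0 h w := by
  show (Reg 0 h ∧ 0 ≤ al 0 h w.swap ∧ 0 ≤ be h w.swap) ↔ (Reg 0 h ∧ 0 ≤ al 0 h w ∧ 0 ≤ be h w)
  rw [al_zero_swap, be_swap]
  tauto

theorem MinAt.mirror {u w : ℝ × ℝ} {h v : ℝ} (m : MinAt u w 0 h v) :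
    MinAt u.swap w.swap 0 h v :=
  ⟨m.reg, m.lo', fun j x' h' k => by
    have := m.lo j x' h' (by simpa using k)
    simpa using this⟩

end Pool.Agent.Helper12.CR
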