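import Pool.Agent.Helper12.CR.SwapA

set_option autoImplicit false

/-!
# Project CR, module Swap: the three faces, exchange of the two arguments

Everything is algebra with `c² + s² = 1` (write `c = cos h`, `s = sin h`, `κ = exp (-h)`,
`exp h * exp (-h) = 1`, `ε = ep x h = exp (-x-h)`).

Values of the functionals on the vectors `U 0, U 1, U 2` (with `Δ = Dl x h`, `g = g1 x h`):
  `al : 4Δ/g, 0, 4gΔ`;  `be : 0, 4Δ/c, 4cΔ`;  `ga : 4cΔ/g, -4gΔ/c, 0`;
  `la0 : (1-c²)/g², 1, 1`;  `la1 : 1, (1-g²)/c², 1`;  `la2 : 1, 1, c²+g²`;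
  `m3 : ((2+x)s - c)/g, 1, 1-Δ²`.
Relation: `g² U 0 + c² U 1 = U 2`.
If `Δ > 0` and `w` is in face `0`, then `w = b01 • U 1 + b02 • U 2`; face `1`:
`w = b10 • U 0 + b12 • U 2`; face `2`: `w = b20 • U 0 + b21 • U 1` (all coefficients nonnegative).
If `zr i x h u = 0` and `u` is positive then `u = a • U i` with `a > 0`:
  `i = 0`: `a = g σ_u / 2`; `i = 1`: `a = c σ_u / (2 (1+x))`; `i = 2`: `a = σ_u / (2 DD)`.
Heights: `z j = (U j).2 + η j * ε` with `η = ((c - (2+x)s)/g, -1, -1)`, and `m3 (U 0) = -η 0`,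
`m3 (U 1) = 1`, `m3 (U 2) = 1 - Δ²`.

`swap_val`: put `u = a • U i` and the decomposition of `w` on face `i` in both planes; both sides are
`a z_i + ∑_{j ≠ i} b_j z_j`.  E.g. `i = 0`, `j = 1`: `be h u = 0`, `la1 u = la2 u = a`,
`J0 u w = m3 u + la0 w` (as `be h u = 0`), `la0 w = b01 + b02`, `m3 u = a ((2+x)s-c)/g`;
`J1 w u = m3 w + la1 u + ga u * al w / (16 c la1 u) - ga u/(2c)` with `ga u = 4cΔa/g`,
`al w = 4gΔ b02`, `m3 w = b01 + b02 (1-Δ²)`, so `J1 w u = b01 + b02 + a - 2Δa/g`, and
`1 - 2Δ/g = ((2+x)s - c)/g`.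
-/

namespace Pool.Agent.Helper12.CR

open Real

private theorem swl_al (x h a b : ℝ) (v w : ℝ × ℝ) :
    al x h (a • v + b • w) = a * al x h v + b * al x h w := by
  simp only [al, dd, sg, Prod.fst_add, Prod.snd_add, Prod.smul_fst, Prod.smul_snd, smul_eq_mul]
  ring

private theorem swl_be (h a b : ℝ) (v w : ℝ × ℝ) :
    be h (a • v + b • w) = a * be h v + b * be h w := by
  simp only [be, dd, sg, Prod.fst_add, Prod.snd_add, Prod.smul_fst, Prod.smul_snd, smul_eq_mul]
  ring

private theorem swl_ga (x h a b : ℝ) (v w : ℝ × ℝ) :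
    ga x h (a • v + b • w) = a * ga x h v + b * ga x h w := by
  simp only [ga, dd, sg, Prod.fst_add, Prod.snd_add, Prod.smul_fst, Prod.smul_snd, smul_eq_mul]
  ring

private theorem swl_m3 (x h a b : ℝ) (v w : ℝ × ℝ) :
    m3 x h (a • v + b • w) = a * m3 x h v + b * m3 x h w := by
  simp only [m3, dd, sg, Prod.fst_add, Prod.snd_add, Prod.smul_fst, Prod.smul_snd, smul_eq_mul]
  ring

private theorem swl_la0 (x h a b : ℝ) (v w : ℝ × ℝ) :
    la0 x h (a • v + b • w) = a * la0 x h v + b * la0 x h w := by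
  simp only [la0, dd, sg, Prod.fst_add, Prod.snd_add, Prod.smul_fst, Prod.smul_snd, smul_eq_mul]
  ring

private theorem swl_la1 (x h a b : ℝ) (v w : ℝ × ℝ) :
    la1 x h (a • v + b • w) = a * la1 x h v + b * la1 x h w := by
  simp only [la1, dd, sg, Prod.fst_add, Prod.snd_add, Prod.smul_fst, Prod.smul_snd, smul_eq_mul]
  ring

private theorem swl_la2 (x h a b : ℝ) (v w : ℝ × ℝ) :
    la2 x h (a • v + b • w) = a * la2 x h v + b * la2 x h w := by
  simp only [la2, dd, sg, Prod.fst_add, Prod.snd_add, Prod.smul_fst, Prod.smul_snd, smul_eq_mul]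
  ring

private theorem sws_al (x h a : ℝ) (v : ℝ × ℝ) : al x h (a • v) = a * al x h v := by
  have := swl_al x h a 0 v v
  simpa using this

private theorem sws_be (h a : ℝ) (v : ℝ × ℝ) : be h (a • v) = a * be h v := by
  have := swl_be h a 0 v v
  simpa using this

private theorem sws_ga (x h a : ℝ) (v : ℝ × ℝ) : ga x h (a • v) = a * ga x h v := by
  have := swl_ga x h a 0 v v
  simpa using this

private theorem sws_m3 (x h a : ℝ) (v : ℝ × ℝ) : m3 x h (a • v) = a * m3 x h v := by
  have := swl_m3 x h a 0 v v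
  simpa using this

private theorem sws_la0 (x h a : ℝ) (v : ℝ × ℝ) : la0 x h (a • v) = a * la0 x h v := by
  have := swl_la0 x h a 0 v v
  simpa using this

private theorem sws_la1 (x h a : ℝ) (v : ℝ × ℝ) : la1 x h (a • v) = a * la1 x h v := by
  have := swl_la1 x h a 0 v v
  simpa using this

private theorem sws_la2 (x h a : ℝ) (v : ℝ × ℝ) : la2 x h (a • v) = a * la2 x h v := by
  have := swl_la2 x h a 0 v v
  simpa using this

private theorem sw_ek (h : ℝ) : exp h * exp (-h) = 1 := by
  rw [← exp_add]; simp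

private theorem sw_sg0 (x h : ℝ) : sg (U 0 x h) = 2 / g1 x h := by
  simp only [sg, U]
  ring

private theorem sw_sg1 (x h : ℝ) : sg (U 1 x h) = 2 * (1 + x) / cos h := by
  simp only [sg, U]
  ring

private theorem sw_sg2 (x h : ℝ) : sg (U 2 x h) = 2 * DD x h := by
  simp only [sg, U]
  ring

private theorem sw_dd0 (x h : ℝ) : dd h (U 0 x h) = 2 * (cos h - sin h) / g1 x h := by
  have e := sw_ek h
  simp only [dd, U]
  linear_combination (2 * (cos h - sin h) / g1 x h) * e

private theorem sw_dd1 (x h : ℝ) : dd h (U 1 x h) = -(2 * QQ x h / cos h) := by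
  have e := sw_ek h
  simp only [dd, U]
  linear_combination (-(2 * QQ x h / cos h)) * e

private theorem sw_dd2 (x h : ℝ) : dd h (U 2 x h) = 2 * x := by
  have e := sw_ek h
  simp only [dd, U]
  linear_combination (2 * x) * e

private theorem sw_g1 (x h : ℝ) : g1 x h = cos h - x * sin h := rfl

private theorem sw_m30 (x h : ℝ) (hg : g1 x h ≠ 0) :
    m3 x h (U 0 x h) = ((2 + x) * sin h - cos h) / g1 x h := by
  simp only [m3, sw_sg0, sw_dd0]
  field_simp
  ring

private theorem sw_m31 (x h : ℝ) (hc : cos h ≠ 0) :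
    m3 x h (U 1 x h) = 1 := by
  simp only [m3, sw_sg1, sw_dd1, QQ]
  field_simp
  ring

private theorem sw_m32 (x h : ℝ) : m3 x h (U 2 x h) = 1 - Dl x h ^ 2 := by
  have e := sin_sq_add_cos_sq h
  simp only [m3, sw_sg2, sw_dd2, DD, Dl]
  linear_combination (1 + x + x ^ 2 / 2) * e

private theorem sw_la01 (x h : ℝ) (hc : cos h ≠ 0) (hg : g1 x h ≠ 0) :
    la0 x h (U 1 x h) = 1 := by
  have e := sin_sq_add_cos_sq h
  simp only [la0, sw_sg1, sw_dd1]
  field_simp
  simp only [QQ, g1]
  linear_combination (-(2 + 2 * x)) * e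

private theorem sw_la02 (x h : ℝ) (hg : g1 x h ≠ 0) :
    la0 x h (U 2 x h) = 1 := by
  simp only [la0, sw_sg2, sw_dd2]
  field_simp
  simp only [DD, g1]
  ring

private theorem sw_la10 (x h : ℝ) (hc : cos h ≠ 0) (hg : g1 x h ≠ 0) :
    la1 x h (U 0 x h) = 1 := by
  have e := sin_sq_add_cos_sq h
  simp only [la1, sw_sg0, sw_dd0]
  field_simp
  simp only [g1]
  linear_combination (2 * x - 2) * e

private theorem sw_la12 (x h : ℝ) (hc : cos h ≠ 0) :
    la1 x h (U 2 x h) = 1 := by
  simp only [la1, sw_sg2, sw_dd2]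
  field_simp
  simp only [DD]
  ring

private theorem sw_la20 (x h : ℝ) (hg : g1 x h ≠ 0) :
    la2 x h (U 0 x h) = 1 := by
  simp only [la2, sw_sg0, sw_dd0]
  field_simp
  simp only [g1]
  ring

private theorem sw_la21 (x h : ℝ) (hc : cos h ≠ 0) :
    la2 x h (U 1 x h) = 1 := by
  simp only [la2, sw_sg1, sw_dd1]
  field_simp
  simp only [QQ]
  ring

private theorem sw_two (x h : ℝ) (hg : g1 x h ≠ 0) :
    ((2 + x) * sin h - cos h) / g1 x h = 1 - 2 * Dl x h / g1 x h := by
  field_simp
  simp only [g1, Dl]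
  ring

private theorem sw_fin3 (i : Fin 3) : i = 0 ∨ i = 1 ∨ i = 2 := by
  fin_cases i <;> simp

/-- on the ray `U i` -/
private theorem sw_ray {x h : ℝ} {u : ℝ × ℝ} (r : Reg x h) (hu : Pos u) {i : Fin 3}
    (hz : zr i x h u = 0) : ∃ a : ℝ, 0 < a ∧ u = a • U i x h := by
  have hc := r.cos_pos
  have hg := r.g1_pos
  have hd := r.DD_pos
  have hx : 0 < 1 + x := by have := r.1; linarith
  have hs : 0 < sg u := by unfold sg; linarith [hu.1, hu.2]
  have e := sw_ek h
  rcases sw_fin3 i with rfl | rfl | rfl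
  · refine ⟨g1 x h * sg u / 2, by positivity, ?_⟩
    have h1 : be h u = 0 := hz
    have h2 : u.1 - u.2 = (cos h - sin h) * exp (-h) * sg u := by
      simp only [be, dd] at h1
      linear_combination (-exp (-h)) * h1 - (u.1 - u.2) * e
    ext
    · simp only [U, Prod.smul_fst, smul_eq_mul]
      field_simp
      simp only [sg] at h2 ⊢
      linear_combination h2
    · simp only [U, Prod.smul_snd, smul_eq_mul]
      field_simp
      simp only [sg] at h2 ⊢
      linear_combination -h2
  · refine ⟨cos h * sg u / (2 * (1 + x)), by positivity, ?_⟩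
    have h1 : al x h u = 0 := hz
    have h2 : (1 + x) * (u.1 - u.2) = -(QQ x h * exp (-h) * sg u) := by
      simp only [al, dd] at h1
      linear_combination (exp (-h)) * h1 - (1 + x) * (u.1 - u.2) * e
    ext
    · simp only [U, Prod.smul_fst, smul_eq_mul]
      field_simp
      simp only [sg] at h2 ⊢
      linear_combination h2
    · simp only [U, Prod.smul_snd, smul_eq_mul]
      field_simp
      simp only [sg] at h2 ⊢
      linear_combination -h2
  · refine ⟨sg u / (2 * DD x h), by positivity, ?_⟩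
    have h1 : ga x h u = 0 := hz
    have h2 : DD x h * (u.1 - u.2) = x * exp (-h) * sg u := by
      simp only [ga, dd] at h1
      linear_combination (exp (-h)) * h1 - DD x h * (u.1 - u.2) * e
    ext
    · simp only [U, Prod.smul_fst, smul_eq_mul]
      field_simp
      simp only [sg] at h2 ⊢
      linear_combination h2
    · simp only [U, Prod.smul_snd, smul_eq_mul]
      field_simp
      simp only [sg] at h2 ⊢
      linear_combination -h2

/-- If `w` is on the ray `U i` then it is in every other face, and the planes of the other faces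
agree. -/
theorem vertex_eq {x h : ℝ} {u w : ℝ × ℝ} (r : Reg x h) (hD : 0 < Dl x h) (hw : Pos w)
    {i j j' : Fin 3} (hz : zr i x h w = 0) (hj : j ≠ i) (hj' : j' ≠ i) :
    K j x h w ∧ L j x h u w = L j' x h u w := by
  obtain ⟨a, ha, rfl⟩ := sw_ray r hw hz
  have hc := r.cos_pos
  have hg := r.g1_pos
  obtain ⟨a0, a1, a2⟩ := al_U x h hc.ne' hg.ne'
  obtain ⟨b0, b1, b2⟩ := be_U x h hc.ne' hg.ne'
  obtain ⟨c0, c1, c2⟩ := ga_U x h hc.ne' hg.ne'
  have l01 := sw_la01 x h hc.ne' hg.ne'
  have l02 := sw_la02 x h hg.ne'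
  have l10 := sw_la10 x h hc.ne' hg.ne'
  have l12 := sw_la12 x h hc.ne'
  have l20 := sw_la20 x h hg.ne'
  have l21 := sw_la21 x h hc.ne'
  rcases sw_fin3 i with rfl | rfl | rfl
  · -- the faces 1 and 2
    have k1 : K 1 x h (a • U 0 x h) := by
      refine ⟨r, ?_, ?_⟩
      · rw [sws_ga, c0]; positivity
      · rw [sws_be, b0, mul_zero]
    have k2 : K 2 x h (a • U 0 x h) := by
      refine ⟨r, ?_, ?_⟩
      · rw [sws_al, a0]; positivity
      · rw [sws_be, b0, mul_zero]
    have q : L 1 x h u (a • U 0 x h) = L 2 x h u (a • U 0 x h) := by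
      show L1 x h u (a • U 0 x h) = L2 x h u (a • U 0 x h)
      simp only [L1, L2, J1, J2, sws_ga, sws_al, sws_be, sws_la1, sws_la2, a0, b0, c0, l10, l20]
      field_simp
      ring
    rcases sw_fin3 j with rfl | rfl | rfl
    · exact absurd rfl hj
    · rcases sw_fin3 j' with rfl | rfl | rfl
      · exact absurd rfl hj'
      · exact ⟨k1, rfl⟩
      · exact ⟨k1, q⟩
    · rcases sw_fin3 j' with rfl | rfl | rfl
      · exact absurd rfl hj'
      · exact ⟨k2, q.symm⟩
      · exact ⟨k2, rfl⟩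
  · have k0 : K 0 x h (a • U 1 x h) := by
      refine ⟨r, ?_, ?_⟩
      · rw [sws_ga, c1]
        have : 0 ≤ a * (4 * g1 x h * Dl x h / cos h) := by positivity
        linarith
      · rw [sws_al, a1, mul_zero]
    have k2 : K 2 x h (a • U 1 x h) := by
      refine ⟨r, ?_, ?_⟩
      · rw [sws_al, a1, mul_zero]
      · rw [sws_be, b1]; positivity
    have q : L 0 x h u (a • U 1 x h) = L 2 x h u (a • U 1 x h) := by
      show L0 x h u (a • U 1 x h) = L2 x h u (a • U 1 x h)
      simp only [L0, L2, J0, J2, sws_ga, sws_al, sws_be, sws_la0, sws_la2, a1, b1, c1, l01, l21]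
      field_simp
      ring
    rcases sw_fin3 j with rfl | rfl | rfl
    · rcases sw_fin3 j' with rfl | rfl | rfl
      · exact ⟨k0, rfl⟩
      · exact absurd rfl hj'
      · exact ⟨k0, q⟩
    · exact absurd rfl hj
    · rcases sw_fin3 j' with rfl | rfl | rfl
      · exact ⟨k2, q.symm⟩
      · exact absurd rfl hj'
      · exact ⟨k2, rfl⟩
  · have k0 : K 0 x h (a • U 2 x h) := by
      refine ⟨r, ?_, ?_⟩
      · rw [sws_ga, c2, mul_zero]
      · rw [sws_al, a2]; positivity
    have k1 : K 1 x h (a • U 2 x h) := by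
      refine ⟨r, ?_, ?_⟩
      · rw [sws_ga, c2, mul_zero]
      · rw [sws_be, b2]; positivity
    have q : L 0 x h u (a • U 2 x h) = L 1 x h u (a • U 2 x h) := by
      show L0 x h u (a • U 2 x h) = L1 x h u (a • U 2 x h)
      simp only [L0, L1, J0, J1, sws_ga, sws_al, sws_be, sws_la0, sws_la1, a2, b2, c2, l02, l12]
      ring
    rcases sw_fin3 j with rfl | rfl | rfl
    · rcases sw_fin3 j' with rfl | rfl | rfl
      · exact ⟨k0, rfl⟩
      · exact ⟨k0, q⟩
      · exact absurd rfl hj'
    · rcases sw_fin3 j' with rfl | rfl | rfl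
      · exact ⟨k1, q.symm⟩
      · exact ⟨k1, rfl⟩
      · exact absurd rfl hj'
    · exact absurd rfl hj

/-- Exchange of the arguments: `u` on the ray `U i`, `w` in face `i`. -/
theorem swap_val {x h : ℝ} {u w : ℝ × ℝ} (hD : 0 < Dl x h) (hu : Pos u) (hw : Pos w)
    {i j : Fin 3} (hz : zr i x h u = 0) (k : K i x h w) (hj : j ≠ i) :
    K j x h u ∧ L j x h w u = L i x h u w := by
  have r := k.reg
  obtain ⟨a, ha, rfl⟩ := sw_ray r hu hz
  have hc := r.cos_pos
  have hg := r.g1_pos
  obtain ⟨a0, a1, a2⟩ := al_U x h hc.ne' hg.ne'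
  obtain ⟨b0, b1, b2⟩ := be_U x h hc.ne' hg.ne'
  obtain ⟨c0, c1, c2⟩ := ga_U x h hc.ne' hg.ne'
  have l01 := sw_la01 x h hc.ne' hg.ne'
  have l02 := sw_la02 x h hg.ne'
  have l10 := sw_la10 x h hc.ne' hg.ne'
  have l12 := sw_la12 x h hc.ne'
  have l20 := sw_la20 x h hg.ne'
  have l21 := sw_la21 x h hc.ne'
  have m0 := sw_m30 x h hg.ne'
  have m1 := sw_m31 x h hc.ne'
  have m2 := sw_m32 x h
  rw [sw_two x h hg.ne'] at m0
  rcases sw_fin3 i with rfl | rfl | rfl
  · have w0 := decomp0 x h w hc.ne' hg.ne' hD.ne'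
    have lw := la0_eq x h w hc.ne' hg.ne' hD.ne'
    have kk : la0 x h w ≠ 0 := (la0_pos hw k).ne'
    set p := b01 x h w
    set q := b02 x h w
    have f0 : L 0 x h (a • U 0 x h) w = (a • U 0 x h).2 + w.2 -
        ep x h * (a * (1 - 2 * Dl x h / g1 x h) + p + q) := by
      show L0 x h (a • U 0 x h) w = _
      simp only [L0, J0, sws_be, sws_m3, b0, m0, lw]
      ring
    have aw : al x h w = q * (4 * g1 x h * Dl x h) := by
      rw [w0, swl_al, a1, a2]; ring
    have bw : be h w = p * (4 * Dl x h / cos h) + q * (4 * cos h * Dl x h) := by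
      rw [w0, swl_be, b1, b2]
    have mw : m3 x h w = p + q * (1 - Dl x h ^ 2) := by
      rw [w0, swl_m3, m1, m2]; ring
    rcases sw_fin3 j with rfl | rfl | rfl
    · exact absurd rfl hj
    · refine ⟨⟨r, ?_, ?_⟩, ?_⟩
      · rw [sws_ga, c0]; positivity
      · rw [sws_be, b0, mul_zero]
      · refine Eq.trans ?_ f0.symm
        show L1 x h w (a • U 0 x h) = _
        simp only [L1, J1, sws_ga, sws_la1, c0, l10, aw, mw]
        field_simp
        ring
    · refine ⟨⟨r, ?_, ?_⟩, ?_⟩
      · rw [sws_al, a0]; positivity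
      · rw [sws_be, b0, mul_zero]
      · refine Eq.trans ?_ f0.symm
        show L2 x h w (a • U 0 x h) = _
        simp only [L2, J2, sws_al, sws_be, sws_la2, a0, b0, l20, aw, mw]
        field_simp
        ring
  · have w0 := decomp1 x h w hc.ne' hg.ne' hD.ne'
    have lw := la1_eq x h w hc.ne' hg.ne' hD.ne'
    have kk : la1 x h w ≠ 0 := (la1_pos hw k).ne'
    set p := b10 x h w
    set q := b12 x h w
    have gw : ga x h w = p * (4 * cos h * Dl x h / g1 x h) := by
      rw [w0, swl_ga, c0, c2]; ring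
    have aw : al x h w = p * (4 * Dl x h / g1 x h) + q * (4 * g1 x h * Dl x h) := by
      rw [w0, swl_al, a0, a2]
    have bw : be h w = q * (4 * cos h * Dl x h) := by
      rw [w0, swl_be, b0, b2]; ring
    have mw : m3 x h w = p * (1 - 2 * Dl x h / g1 x h) + q * (1 - Dl x h ^ 2) := by
      rw [w0, swl_m3, m0, m2]
    have f0 : L 1 x h (a • U 1 x h) w = (a • U 1 x h).2 + w.2 -
        ep x h * (p * (1 - 2 * Dl x h / g1 x h) + a + q) := by
      show L1 x h (a • U 1 x h) w = _
      simp only [L1, J1, sws_al, sws_m3, a1, m1, lw, gw]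
      field_simp
      ring
    rcases sw_fin3 j with rfl | rfl | rfl
    · refine ⟨⟨r, ?_, ?_⟩, ?_⟩
      · rw [sws_ga, c1]
        have : 0 ≤ a * (4 * g1 x h * Dl x h / cos h) := by positivity
        linarith
      · rw [sws_al, a1, mul_zero]
      · refine Eq.trans ?_ f0.symm
        show L0 x h w (a • U 1 x h) = _
        simp only [L0, J0, sws_ga, sws_la0, c1, l01, bw, mw]
        field_simp
        ring
    · exact absurd rfl hj
    · refine ⟨⟨r, ?_, ?_⟩, ?_⟩
      · rw [sws_al, a1, mul_zero]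
      · rw [sws_be, b1]; positivity
      · refine Eq.trans ?_ f0.symm
        show L2 x h w (a • U 1 x h) = _
        simp only [L2, J2, sws_al, sws_be, sws_la2, a1, b1, l21, bw, mw]
        field_simp
        ring
  · have w0 := decomp2 x h w hc.ne' hg.ne' hD.ne'
    have lw := la2_eq' x h w hc.ne' hg.ne' hD.ne'
    have kk : la2 x h w ≠ 0 := (la2_pos hw k).ne'
    set p := b20 x h w
    set q := b21 x h w
    have aw : al x h w = p * (4 * Dl x h / g1 x h) := by
      rw [w0, swl_al, a0, a1]; ring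
    have bw : be h w = q * (4 * Dl x h / cos h) := by
      rw [w0, swl_be, b0, b1]; ring
    have mw : m3 x h w = p * (1 - 2 * Dl x h / g1 x h) + q := by
      rw [w0, swl_m3, m0, m1]; ring
    have kk' : p + q ≠ 0 := by rw [← lw]; exact kk
    have f0 : L 2 x h (a • U 2 x h) w = (a • U 2 x h).2 + w.2 -
        ep x h * (p * (1 - 2 * Dl x h / g1 x h) + q + a) := by
      show L2 x h (a • U 2 x h) w = _
      simp only [L2, J2, sws_al, sws_be, sws_m3, a2, b2, m2, lw, aw, bw]
      field_simp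
      ring
    rcases sw_fin3 j with rfl | rfl | rfl
    · refine ⟨⟨r, ?_, ?_⟩, ?_⟩
      · rw [sws_ga, c2, mul_zero]
      · rw [sws_al, a2]; positivity
      · refine Eq.trans ?_ f0.symm
        show L0 x h w (a • U 2 x h) = _
        simp only [L0, J0, sws_ga, sws_la0, c2, l02, mw]
        ring
    · refine ⟨⟨r, ?_, ?_⟩, ?_⟩
      · rw [sws_ga, c2, mul_zero]
      · rw [sws_be, b2]; positivity
      · refine Eq.trans ?_ f0.symm
        show L1 x h w (a • U 2 x h) = _
        simp only [L1, J1, sws_ga, sws_la1, c2, l12, mw]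
        ring
    · exact absurd rfl hj

/-- `u` on the ray `U i`, `w` in face `i`: the value is the sum of the heights. -/
theorem rep_val {x h : ℝ} {u w : ℝ × ℝ} (hD : 0 < Dl x h) (hu : Pos u) (hw : Pos w)
    {i : Fin 3} (hz : zr i x h u = 0) (k : K i x h w) :
    ∃ a b : Fin 3 → ℝ, (∀ j, 0 ≤ a j) ∧ (∀ j, 0 ≤ b j) ∧
      u = ∑ j, a j • U j x h ∧ w = ∑ j, b j • U j x h ∧
      L i x h u w = ∑ j, (a j + b j) * z j x h := by
  have r := k.reg
  obtain ⟨a, ha, rfl⟩ := sw_ray r hu hz
  have hc := r.cos_pos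
  have hg := r.g1_pos
  obtain ⟨a0, a1, a2⟩ := al_U x h hc.ne' hg.ne'
  obtain ⟨b0, b1, b2⟩ := be_U x h hc.ne' hg.ne'
  obtain ⟨c0, c1, c2⟩ := ga_U x h hc.ne' hg.ne'
  have m0 := sw_m30 x h hg.ne'
  have m1 := sw_m31 x h hc.ne'
  have m2 := sw_m32 x h
  have ka := k.al_nonneg
  have kb := k.be_nonneg
  have z0 : z 0 x h = (U 0 x h).2 + (cos h - (2 + x) * sin h) / g1 x h * ep x h := by
    simp only [z, U]
    ring
  have z1 : z 1 x h = (U 1 x h).2 - ep x h := by
    simp only [z, U]
    field_simp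
  have z2 : z 2 x h = (U 2 x h).2 - ep x h := by
    simp only [z, U]
  rcases sw_fin3 i with rfl | rfl | rfl
  · have w0 := decomp0 x h w hc.ne' hg.ne' hD.ne'
    have lw := la0_eq x h w hc.ne' hg.ne' hD.ne'
    have hp : 0 ≤ b01 x h w := by
      have h1 : 0 ≤ -ga x h w := by linarith [k.2.1]
      have h2 : 0 ≤ cos h * (-ga x h w) / (4 * g1 x h * Dl x h) := by positivity
      have h3 : b01 x h w = cos h * (-ga x h w) / (4 * g1 x h * Dl x h) := by
        simp only [b01]; ring
      rw [h3]; exact h2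
    have hq : 0 ≤ b02 x h w := by
      simp only [b02]; positivity
    set p := b01 x h w
    set q := b02 x h w
    refine ⟨![a, 0, 0], ![0, p, q], ?_, ?_, ?_, ?_, ?_⟩
    · intro j; fin_cases j <;> simp [ha.le]
    · intro j; fin_cases j <;> simp [hp, hq]
    · simp [Fin.sum_univ_three]
    · simpa [Fin.sum_univ_three] using w0
    · have w2 : w.2 = p * (U 1 x h).2 + q * (U 2 x h).2 := by
        conv_lhs => rw [w0]
        simp
      have f0 : L 0 x h (a • U 0 x h) w = (a • U 0 x h).2 + w.2 -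
          ep x h * (a * (((2 + x) * sin h - cos h) / g1 x h) + p + q) := by
        show L0 x h (a • U 0 x h) w = _
        simp only [L0, J0, sws_be, sws_m3, b0, m0, lw]
        ring
      rw [f0]
      simp only [Fin.sum_univ_three, z0, z1, z2, w2, Prod.smul_snd, smul_eq_mul,
        Matrix.cons_val_zero, Matrix.cons_val_one, Matrix.cons_val]
      ring
  · have w0 := decomp1 x h w hc.ne' hg.ne' hD.ne'
    have lw := la1_eq x h w hc.ne' hg.ne' hD.ne'
    have hp : 0 ≤ b10 x h w := by
      have h1 : 0 ≤ ga x h w := k.2.1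
      simp only [b10]; positivity
    have hq : 0 ≤ b12 x h w := by
      simp only [b12]; positivity
    set p := b10 x h w
    set q := b12 x h w
    refine ⟨![0, a, 0], ![p, 0, q], ?_, ?_, ?_, ?_, ?_⟩
    · intro j; fin_cases j <;> simp [ha.le]
    · intro j; fin_cases j <;> simp [hp, hq]
    · simp [Fin.sum_univ_three]
    · simpa [Fin.sum_univ_three] using w0
    · have w2 : w.2 = p * (U 0 x h).2 + q * (U 2 x h).2 := by
        conv_lhs => rw [w0]
        simp
      have gw : ga x h w = p * (4 * cos h * Dl x h / g1 x h) := by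
        rw [w0, swl_ga, c0, c2]; ring
      have tw := sw_two x h hg.ne'
      have f0 : L 1 x h (a • U 1 x h) w = (a • U 1 x h).2 + w.2 -
          ep x h * (p * (((2 + x) * sin h - cos h) / g1 x h) + a + q) := by
        show L1 x h (a • U 1 x h) w = _
        rw [tw]
        simp only [L1, J1, sws_al, sws_m3, a1, m1, lw, gw]
        field_simp
        ring
      rw [f0]
      simp only [Fin.sum_univ_three, z0, z1, z2, w2, Prod.smul_snd, smul_eq_mul,
        Matrix.cons_val_zero, Matrix.cons_val_one, Matrix.cons_val]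
      ring
  · have w0 := decomp2 x h w hc.ne' hg.ne' hD.ne'
    have lw := la2_eq' x h w hc.ne' hg.ne' hD.ne'
    have kk : la2 x h w ≠ 0 := (la2_pos hw k).ne'
    have hp : 0 ≤ b20 x h w := by
      simp only [b20]; positivity
    have hq : 0 ≤ b21 x h w := by
      simp only [b21]; positivity
    set p := b20 x h w
    set q := b21 x h w
    have kk' : p + q ≠ 0 := by rw [← lw]; exact kk
    refine ⟨![0, 0, a], ![p, q, 0], ?_, ?_, ?_, ?_, ?_⟩
    · intro j; fin_cases j <;> simp [ha.le]
    · intro j; fin_cases j <;> simp [hp, hq]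
    · simp [Fin.sum_univ_three]
    · simpa [Fin.sum_univ_three] using w0
    · have w2 : w.2 = p * (U 0 x h).2 + q * (U 1 x h).2 := by
        conv_lhs => rw [w0]
        simp
      have aw : al x h w = p * (4 * Dl x h / g1 x h) := by
        rw [w0, swl_al, a0, a1]; ring
      have bw : be h w = q * (4 * Dl x h / cos h) := by
        rw [w0, swl_be, b0, b1]; ring
      have tw := sw_two x h hg.ne'
      have f0 : L 2 x h (a • U 2 x h) w = (a • U 2 x h).2 + w.2 -
          ep x h * (p * (((2 + x) * sin h - cos h) / g1 x h) + q + a) := by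
        show L2 x h (a • U 2 x h) w = _
        rw [tw]
        simp only [L2, J2, sws_al, sws_be, sws_m3, a2, b2, m2, lw, aw, bw]
        field_simp
        ring
      rw [f0]
      simp only [Fin.sum_univ_three, z0, z1, z2, w2, Prod.smul_snd, smul_eq_mul,
        Matrix.cons_val_zero, Matrix.cons_val_one, Matrix.cons_val]
      ring

end Pool.Agent.Helper12.CR
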