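import Pool.Agent.Helper12.CR.Path
import Pool.Agent.Helper12.CR.Exist
import Pool.Agent.Helper12.CR.Swap
import Pool.Agent.Helper12.CR.Mirror

set_option autoImplicit false

/-!
# Project CR, module Inte: minimisers with `w` in the interior of a face

`(x, h)` minimises, `0 < h`, `0 < Δ` (so `h < π/4`).

`int0` (`ga x h w < 0 < al x h w`, `v = L 0`), `λ = la0 w = b01 + b02`, `μ = (b01 la1 u + b02 la2 u)/λ`:
 for `x > 0` all directions are admissible, so
 `D0 1 0 = 0`: `μ = λ`; `D0 0 1 = 0`: `(λ - μ) b02/g₁ = b01 b02 be u/(2 c λ)`, so `be h u = 0`.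
 For `x = 0`: `D0 1 0 ≥ 0` gives `λ ≥ μ`; `D0 0 (±1) ≥ 0` gives
 `(λ - μ)/g₁ = b01 be u/(2 c λ)` (divide by `b02 > 0`), `g₁ = c`.  The mirror image is a minimiser of
 face `1` at `(0, h)` for `(u.swap, w.swap)`, with `b10' = b01`, `b12' = b02`, `al u.swap = be u`,
 `la1' = λ`, `μ' = μ`: `D1 1 0 ≥ 0` gives `(λ - μ) b01/g₁ + b01 b02 be u/(2 g₁ λ) ≤ 0`.  So
 `λ - μ = b01 be u/(2λ)` and `(b01 + b02) be u ≤ 0`, `be u ≥ 0`: `be h u = 0`.
`int1` (`0 < ga x h w`, `0 < be h w`, `v = L 1`): for `x > 0`: `D1 1 0 = 0` and `D1 0 1 = 0`; the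
 difference gives `(λ - μ)(b10/g₁ + (1+x) b12/c) = 0`, so `μ = λ` and `al x h u = 0`.  For `x = 0`
 it is the mirror image of `int0`.
`int2` (`0 < al x h w`, `0 < be h w`, `v = L 2`): `D2 0 1 = 0` gives `μ = λ` (also for `x = 0`).
 `x > 0`: `D2 1 0 = 0` gives `ga x h u = 0`.  `x = 0`: `D2 1 0 ≥ 0` gives `ga u ≤ 0`, and the mirror
 image gives `ga u.swap = - ga u ≤ 0`.
-/

namespace Pool.Agent.Helper12.CR

open Real Filter Topology

private theorem inte_reg {x h : ℝ} (p q : ℝ) (r : Reg x h) (hh : 0 < h) (hD : 0 < Dl x h)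
    (hp : 0 < x ∨ 0 ≤ p) : ∀ᶠ t in 𝓝[>] (0 : ℝ), Reg (x + p * t) (h + q * t) := by
  have h1 : ∀ᶠ t in 𝓝[>] (0 : ℝ), 0 ≤ x + p * t := by
    rcases hp with hx | hp
    · have := ev_pos' (f := fun t => x + p * t) (by fun_prop) (by simpa using hx)
      filter_upwards [this] with t ht using ht.le
    · have h3 : ∀ᶠ t in 𝓝[>] (0 : ℝ), (0 : ℝ) < t := self_mem_nhdsWithin
      filter_upwards [h3] with t ht
      have := mul_nonneg hp ht.le
      have hx := r.1
      linarith
  have h2 := ev_pos' (f := fun t => h + q * t) (by fun_prop) (by simpa using hh)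
  have h3 := ev_pos' (f := fun t => π / 4 - (h + q * t)) (by fun_prop)
    (by simpa using r.lt_pi hD)
  have h4 := ev_pos' (f := fun t => Dl (x + p * t) (h + q * t)) (hd_Dl p q x h 0).continuousAt
    (by simpa using hD)
  filter_upwards [h1, h2, h3, h4] with t a b c d
  exact ⟨a, b.le, by linarith, d.le⟩

private theorem inte_fo0 {u w : ℝ × ℝ} {x h v : ℝ} (hw : Pos w) (hh : 0 < h)
    (hD : 0 < Dl x h) (m : MinAt u w x h v) (h1 : ga x h w < 0) (h2 : 0 < al x h w)
    (hv : v = L 0 x h u w) (p q : ℝ) (hp : 0 < x ∨ 0 ≤ p) : 0 ≤ D0 p q x h u w := by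
  have hc := m.reg.cos_pos
  have hg := m.reg.g1_pos
  have hl := la0_pos hw (show K 0 x h w from ⟨m.reg, h1.le, h2.le⟩)
  have hd := hasDerivAt_L0 p q x h 0 u w (by simpa using hg.ne') (by simpa using hc.ne')
    (by simpa using hD.ne') (by simpa using hl.ne')
  have hr := inte_reg p q m.reg hh hD hp
  have e1 := ev_pos' (f := fun t => -ga (x + p * t) (h + q * t) w)
    (hd_ga p q x h 0 w).continuousAt.neg (by simpa using h1)
  have e2 := ev_pos' (f := fun t => al (x + p * t) (h + q * t) w)
    (hd_al p q x h 0 w).continuousAt (by simpa using h2)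
  have key := path_first hd (by
    filter_upwards [hr, e1, e2] with t a b c
    have := m.lo 0 _ _ (show K 0 (x + p * t) (h + q * t) w from ⟨a, by linarith, c.le⟩)
    rw [hv] at this
    simpa [L] using this)
  simpa using key

private theorem inte_fo1 {u w : ℝ × ℝ} {x h v : ℝ} (hw : Pos w) (hh : 0 < h)
    (hD : 0 < Dl x h) (m : MinAt u w x h v) (h1 : 0 < ga x h w) (h2 : 0 < be h w)
    (hv : v = L 1 x h u w) (p q : ℝ) (hp : 0 < x ∨ 0 ≤ p) : 0 ≤ D1 p q x h u w := by
  have hc := m.reg.cos_pos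
  have hg := m.reg.g1_pos
  have hl := la1_pos hw (show K 1 x h w from ⟨m.reg, h1.le, h2.le⟩)
  have hd := hasDerivAt_L1 p q x h 0 u w (by simpa using hg.ne') (by simpa using hc.ne')
    (by simpa using hD.ne') (by simpa using hl.ne')
  have hr := inte_reg p q m.reg hh hD hp
  have e1 := ev_pos' (f := fun t => ga (x + p * t) (h + q * t) w)
    (hd_ga p q x h 0 w).continuousAt (by simpa using h1)
  have e2 := ev_pos' (f := fun t => be (h + q * t) w)
    (hd_be q h 0 w).continuousAt (by simpa using h2)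
  have key := path_first hd (by
    filter_upwards [hr, e1, e2] with t a b c
    have := m.lo 1 _ _ (show K 1 (x + p * t) (h + q * t) w from ⟨a, b.le, c.le⟩)
    rw [hv] at this
    simpa [L] using this)
  simpa using key

private theorem inte_fo2 {u w : ℝ × ℝ} {x h v : ℝ} (hw : Pos w) (hh : 0 < h)
    (hD : 0 < Dl x h) (m : MinAt u w x h v) (h1 : 0 < al x h w) (h2 : 0 < be h w)
    (hv : v = L 2 x h u w) (p q : ℝ) (hp : 0 < x ∨ 0 ≤ p) : 0 ≤ D2 p q x h u w := by
  have hc := m.reg.cos_pos
  have hg := m.reg.g1_pos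
  have hl := la2_pos hw (show K 2 x h w from ⟨m.reg, h1.le, h2.le⟩)
  have hd := hasDerivAt_L2 p q x h 0 u w (by simpa using hg.ne') (by simpa using hc.ne')
    (by simpa using hD.ne') (by simpa using hl.ne')
  have hr := inte_reg p q m.reg hh hD hp
  have e1 := ev_pos' (f := fun t => al (x + p * t) (h + q * t) w)
    (hd_al p q x h 0 w).continuousAt (by simpa using h1)
  have e2 := ev_pos' (f := fun t => be (h + q * t) w)
    (hd_be q h 0 w).continuousAt (by simpa using h2)
  have key := path_first hd (by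
    filter_upwards [hr, e1, e2] with t a b c
    have := m.lo 2 _ _ (show K 2 (x + p * t) (h + q * t) w from ⟨a, b.le, c.le⟩)
    rw [hv] at this
    simpa [L] using this)
  simpa using key

theorem int0 {u w : ℝ × ℝ} {x h v : ℝ} (hu : Pos u) (hw : Pos w) (hh : 0 < h)
    (hD : 0 < Dl x h) (m : MinAt u w x h v) (h1 : ga x h w < 0) (h2 : 0 < al x h w)
    (hv : v = L 0 x h u w) : be h u = 0 := by
  have hc := m.reg.cos_pos
  have hg := m.reg.g1_pos
  have hl := la0_pos hw (show K 0 x h w from ⟨m.reg, h1.le, h2.le⟩)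
  have he : 0 < ep x h := exp_pos _
  have hF : 0 < Dl x h * ep x h / la0 x h w := by positivity
  have hb1 : 0 < b01 x h w := by
    unfold b01
    rw [← neg_div]
    apply div_pos _ (by positivity)
    have := mul_pos_of_neg_of_neg (neg_lt_zero.mpr hc) h1
    linarith
  have hb2 : 0 < b02 x h w := by
    unfold b02
    positivity
  set F := Dl x h * ep x h / la0 x h w with hFdef
  set μ := (b01 x h w * la1 x h u + b02 x h w * la2 x h u) / la0 x h w with hμ
  have fo := inte_fo0 hw hh hD m h1 h2 hv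
  -- the derivative in direction `(0, ±1)`
  have B1 : (la0 x h w - μ) * b02 x h w / g1 x h -
      b01 x h w * b02 x h w * be h u / (2 * cos h * la0 x h w) = 0 := by
    have e1 := fo 0 1 (Or.inr le_rfl)
    have e2 := fo 0 (-1) (Or.inr le_rfl)
    unfold D0 at e1 e2
    rw [← hFdef, ← hμ] at e1 e2
    have e1' := nonneg_of_mul_nonneg_right e1 hF
    have e2' := nonneg_of_mul_nonneg_right e2 hF
    simp only [zero_mul, zero_add, one_mul, neg_mul, sub_neg_eq_add] at e1' e2'
    have e3 : (la0 x h w - μ) * -(b02 x h w) / g1 x h =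
      -((la0 x h w - μ) * b02 x h w / g1 x h) := by ring
    rw [e3] at e2'
    linarith
  -- divide by `b02`
  have B2 : (la0 x h w - μ) / g1 x h = b01 x h w * be h u / (2 * cos h * la0 x h w) := by
    have e : b02 x h w * ((la0 x h w - μ) / g1 x h -
        b01 x h w * be h u / (2 * cos h * la0 x h w)) = 0 := by
      rw [← B1]; ring
    rcases mul_eq_zero.mp e with h' | h'
    · exact absurd h' hb2.ne'
    · linarith
  have A1 : 0 ≤ la0 x h w - μ := by
    have e1 := fo 1 0 (Or.inr zero_le_one)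
    unfold D0 at e1
    rw [← hFdef, ← hμ] at e1
    have e1' := nonneg_of_mul_nonneg_right e1 hF
    have e2 : (la0 x h w - μ) * (la0 x h w / g1 x h) ≥ 0 := by
      have : (la0 x h w - μ) * (1 * la0 x h w + 0 * b02 x h w) / g1 x h -
        0 * (b01 x h w * b02 x h w * be h u / (2 * cos h * la0 x h w)) =
        (la0 x h w - μ) * (la0 x h w / g1 x h) := by ring
      linarith
    exact nonneg_of_mul_nonneg_left e2 (by positivity)
  rcases m.reg.1.eq_or_lt with hx | hx
  · -- `x = 0`
    subst hx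
    have hg0 : g1 0 h = cos h := by unfold g1; ring
    have ms := m.mirror
    have hws : Pos w.swap := ⟨hw.2, hw.1⟩
    have hv' : v = L 1 0 h u.swap w.swap := by rw [L1_mirror _ _ _ hc.ne']; exact hv
    have g1' : 0 < ga 0 h w.swap := by rw [ga_zero_swap]; linarith
    have g2' : 0 < be h w.swap := by rw [be_swap]; exact h2
    have e1 := inte_fo1 hws hh hD ms g1' g2' hv' 1 0 (Or.inr zero_le_one)
    unfold D1 at e1
    have q1 : la1 0 h w.swap = la0 0 h w := la1_zero_swap h w
    have q2 : b10 0 h w.swap = b01 0 h w := by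
      unfold b10 b01
      rw [ga_zero_swap, hg0]
      ring
    have q3 : b12 0 h w.swap = b02 0 h w := by
      unfold b12 b02
      rw [be_swap, hg0]
    have q4 : la0 0 h u.swap = la1 0 h u := la0_zero_swap h u
    have q5 : la2 0 h u.swap = la2 0 h u := la2_zero_swap h u
    have q6 : al 0 h u.swap = be h u := al_zero_swap h u
    rw [q1, q2, q3, q4, q5, q6, ← hFdef, ← hμ] at e1
    have e1' := nonneg_of_mul_nonneg_right e1 hF
    have e2 : 0 ≤ (b01 0 h w / g1 0 h) *
        (-(la0 0 h w - μ) - b02 0 h w * be h u / (2 * la0 0 h w)) := by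
      have : (la0 0 h w - μ) * (-(1 * b01 0 h w / g1 0 h) + 0 * ((1 + 0) * b02 0 h w / cos h)) -
        (1 + 0) * (b01 0 h w * b02 0 h w * be h u / (2 * g1 0 h * la0 0 h w)) =
        (b01 0 h w / g1 0 h) *
        (-(la0 0 h w - μ) - b02 0 h w * be h u / (2 * la0 0 h w)) := by
        field_simp
        ring
      linarith
    have e3 := nonneg_of_mul_nonneg_right e2 (by positivity)
    have B3 : la0 0 h w - μ = b01 0 h w * be h u / (2 * la0 0 h w) := by
      rw [hg0] at B2
      field_simp at B2 ⊢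
      linarith
    have e4 : 0 ≤ be h u := by
      rw [B3] at A1
      have : b01 0 h w * be h u / (2 * la0 0 h w) = (b01 0 h w / (2 * la0 0 h w)) * be h u := by
        ring
      rw [this] at A1
      exact nonneg_of_mul_nonneg_right A1 (by positivity)
    have e5 : be h u ≤ 0 := by
      rw [B3] at e3
      have : -(b01 0 h w * be h u / (2 * la0 0 h w)) - b02 0 h w * be h u / (2 * la0 0 h w) =
        ((b01 0 h w + b02 0 h w) / (2 * la0 0 h w)) * (-be h u) := by ring
      rw [this] at e3
      have := nonneg_of_mul_nonneg_right e3 (by positivity)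
      linarith
    linarith
  · -- `x > 0`
    have A2 : la0 x h w - μ ≤ 0 := by
      have e1 := fo (-1) 0 (Or.inl hx)
      unfold D0 at e1
      rw [← hFdef, ← hμ] at e1
      have e1' := nonneg_of_mul_nonneg_right e1 hF
      have e2 : (-(la0 x h w - μ)) * (la0 x h w / g1 x h) ≥ 0 := by
        have : (la0 x h w - μ) * (-1 * la0 x h w + 0 * b02 x h w) / g1 x h -
          0 * (b01 x h w * b02 x h w * be h u / (2 * cos h * la0 x h w)) =
          (-(la0 x h w - μ)) * (la0 x h w / g1 x h) := by ring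
        linarith
      have := nonneg_of_mul_nonneg_left e2 (by positivity)
      linarith
    have A3 : la0 x h w - μ = 0 := le_antisymm A2 A1
    rw [A3, zero_div] at B2
    have : (b01 x h w / (2 * cos h * la0 x h w)) * be h u = 0 := by
      rw [B2]; ring
    rcases mul_eq_zero.mp this with h' | h'
    · have : 0 < b01 x h w / (2 * cos h * la0 x h w) := by positivity
      exact absurd h' this.ne'
    · exact h'

theorem int1 {u w : ℝ × ℝ} {x h v : ℝ} (hu : Pos u) (hw : Pos w) (hh : 0 < h)
    (hD : 0 < Dl x h) (m : MinAt u w x h v) (h1 : 0 < ga x h w) (h2 : 0 < be h w)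
    (hv : v = L 1 x h u w) : al x h u = 0 := by
  have hc := m.reg.cos_pos
  have hg := m.reg.g1_pos
  have hl := la1_pos hw (show K 1 x h w from ⟨m.reg, h1.le, h2.le⟩)
  rcases m.reg.1.eq_or_lt with hx | hx
  · subst hx
    have hv' : v = L 0 0 h u.swap w.swap := by rw [L0_mirror _ _ _ hc.ne']; exact hv
    have := int0 (u := u.swap) (w := w.swap) ⟨hu.2, hu.1⟩ ⟨hw.2, hw.1⟩ hh hD m.mirror
      (by rw [ga_zero_swap]; linarith) (by rw [al_zero_swap]; exact h2) hv'
    rwa [be_swap] at this
  · have he : 0 < ep x h := exp_pos _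
    have hF : 0 < Dl x h * ep x h / la1 x h w := by positivity
    have hb1 : 0 < b10 x h w := by
      unfold b10
      positivity
    have hb2 : 0 < b12 x h w := by
      unfold b12
      positivity
    set F := Dl x h * ep x h / la1 x h w with hFdef
    set μ := (b10 x h w * la0 x h u + b12 x h w * la2 x h u) / la1 x h w with hμ
    have fo := inte_fo1 hw hh hD m h1 h2 hv
    set T := b10 x h w * b12 x h w * al x h u / (2 * g1 x h * la1 x h w) with hT
    have E1 : (la1 x h w - μ) * (b10 x h w / g1 x h) + T = 0 := by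
      have e1 := fo 1 0 (Or.inl hx)
      have e2 := fo (-1) 0 (Or.inl hx)
      unfold D1 at e1 e2
      rw [← hFdef, ← hμ, ← hT] at e1 e2
      have e1' := nonneg_of_mul_nonneg_right e1 hF
      have e2' := nonneg_of_mul_nonneg_right e2 hF
      have i1 : (la1 x h w - μ) * (-(1 * b10 x h w / g1 x h) + 0 * ((1 + x) * b12 x h w / cos h)) -
        (1 + 0) * T = -((la1 x h w - μ) * (b10 x h w / g1 x h) + T) := by ring
      have i2 : (la1 x h w - μ) * (-(-1 * b10 x h w / g1 x h) + 0 * ((1 + x) * b12 x h w / cos h)) -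
        (-1 + 0) * T = ((la1 x h w - μ) * (b10 x h w / g1 x h) + T) := by ring
      rw [i1] at e1'
      rw [i2] at e2'
      linarith
    have E2 : (la1 x h w - μ) * ((1 + x) * b12 x h w / cos h) - T = 0 := by
      have e1 := fo 0 1 (Or.inl hx)
      have e2 := fo 0 (-1) (Or.inl hx)
      unfold D1 at e1 e2
      rw [← hFdef, ← hμ, ← hT] at e1 e2
      have e1' := nonneg_of_mul_nonneg_right e1 hF
      have e2' := nonneg_of_mul_nonneg_right e2 hF
      have i1 : (la1 x h w - μ) * (-(0 * b10 x h w / g1 x h) + 1 * ((1 + x) * b12 x h w / cos h)) -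
        (0 + 1) * T = ((la1 x h w - μ) * ((1 + x) * b12 x h w / cos h) - T) := by ring
      have i2 : (la1 x h w - μ) * (-(0 * b10 x h w / g1 x h) + -1 * ((1 + x) * b12 x h w / cos h)) -
        (0 + -1) * T = -((la1 x h w - μ) * ((1 + x) * b12 x h w / cos h) - T) := by ring
      rw [i1] at e1'
      rw [i2] at e2'
      linarith
    have E3 : (la1 x h w - μ) * (b10 x h w / g1 x h + (1 + x) * b12 x h w / cos h) = 0 := by
      linarith
    have P : 0 < b10 x h w / g1 x h + (1 + x) * b12 x h w / cos h := by positivity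
    have E4 : la1 x h w - μ = 0 := by
      rcases mul_eq_zero.mp E3 with h' | h'
      · exact h'
      · exact absurd h' P.ne'
    rw [E4, zero_mul, zero_add] at E1
    have : (b10 x h w * b12 x h w / (2 * g1 x h * la1 x h w)) * al x h u = 0 := by
      rw [← E1, hT]; ring
    rcases mul_eq_zero.mp this with h' | h'
    · have : 0 < b10 x h w * b12 x h w / (2 * g1 x h * la1 x h w) := by positivity
      exact absurd h' this.ne'
    · exact h'

private theorem inte_two {u w : ℝ × ℝ} {x h v : ℝ} (hw : Pos w) (hh : 0 < h)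
    (hD : 0 < Dl x h) (m : MinAt u w x h v) (h1 : 0 < al x h w) (h2 : 0 < be h w)
    (hv : v = L 2 x h u w) : ga x h u ≤ 0 ∧ (0 < x → 0 ≤ ga x h u) := by
  have hc := m.reg.cos_pos
  have hg := m.reg.g1_pos
  have hx0 : 0 ≤ x := m.reg.1
  have hl := la2_pos hw (show K 2 x h w from ⟨m.reg, h1.le, h2.le⟩)
  have he : 0 < ep x h := exp_pos _
  have hF : 0 < Dl x h * ep x h / la2 x h w := by positivity
  have hb1 : 0 < b20 x h w := by
    unfold b20
    positivity
  have hb2 : 0 < b21 x h w := by
    unfold b21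
    positivity
  set F := Dl x h * ep x h / la2 x h w with hFdef
  set μ := (b20 x h w * la0 x h u + b21 x h w * la1 x h u) / la2 x h w with hμ
  have fo := inte_fo2 hw hh hD m h1 h2 hv
  set T := b20 x h w * b21 x h w * ga x h u / (2 * cos h * g1 x h * la2 x h w) with hT
  have E : (la2 x h w - μ) * (b20 x h w / g1 x h + (1 + x) * b21 x h w / cos h) = 0 := by
    have e1 := fo 0 1 (Or.inr le_rfl)
    have e2 := fo 0 (-1) (Or.inr le_rfl)
    unfold D2 at e1 e2
    rw [← hFdef, ← hμ, ← hT] at e1 e2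
    have i1 : -(F * ((la2 x h w - μ) * (0 * b20 x h w / g1 x h + 1 * (b20 x h w / g1 x h +
      (1 + x) * b21 x h w / cos h)) + 0 * T)) =
      F * -((la2 x h w - μ) * (b20 x h w / g1 x h + (1 + x) * b21 x h w / cos h)) := by ring
    have i2 : -(F * ((la2 x h w - μ) * (0 * b20 x h w / g1 x h + -1 * (b20 x h w / g1 x h +
      (1 + x) * b21 x h w / cos h)) + 0 * T)) =
      F * ((la2 x h w - μ) * (b20 x h w / g1 x h + (1 + x) * b21 x h w / cos h)) := by ring
    rw [i1] at e1
    rw [i2] at e2
    have e1' := nonneg_of_mul_nonneg_right e1 hF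
    have e2' := nonneg_of_mul_nonneg_right e2 hF
    linarith
  have P : 0 < b20 x h w / g1 x h + (1 + x) * b21 x h w / cos h := by positivity
  have E4 : la2 x h w - μ = 0 := by
    rcases mul_eq_zero.mp E with h' | h'
    · exact h'
    · exact absurd h' P.ne'
  have Q : 0 < b20 x h w * b21 x h w / (2 * cos h * g1 x h * la2 x h w) := by positivity
  have hTe : T = (b20 x h w * b21 x h w / (2 * cos h * g1 x h * la2 x h w)) * ga x h u := by
    rw [hT]; ring
  constructor
  · have e1 := fo 1 0 (Or.inr zero_le_one)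
    unfold D2 at e1
    rw [← hFdef, ← hμ, ← hT, E4] at e1
    have i1 : -(F * (0 * (1 * b20 x h w / g1 x h + 0 * (b20 x h w / g1 x h +
      (1 + x) * b21 x h w / cos h)) + 1 * T)) = F * -T := by ring
    rw [i1] at e1
    have e1' := nonneg_of_mul_nonneg_right e1 hF
    rw [hTe, ← mul_neg] at e1'
    have := nonneg_of_mul_nonneg_right e1' Q
    linarith
  · intro hx
    have e1 := fo (-1) 0 (Or.inl hx)
    unfold D2 at e1
    rw [← hFdef, ← hμ, ← hT, E4] at e1
    have i1 : -(F * (0 * (-1 * b20 x h w / g1 x h + 0 * (b20 x h w / g1 x h +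
      (1 + x) * b21 x h w / cos h)) + -1 * T)) = F * T := by ring
    rw [i1] at e1
    have e1' := nonneg_of_mul_nonneg_right e1 hF
    rw [hTe] at e1'
    exact nonneg_of_mul_nonneg_right e1' Q

theorem int2 {u w : ℝ × ℝ} {x h v : ℝ} (hu : Pos u) (hw : Pos w) (hh : 0 < h)
    (hD : 0 < Dl x h) (m : MinAt u w x h v) (h1 : 0 < al x h w) (h2 : 0 < be h w)
    (hv : v = L 2 x h u w) : ga x h u = 0 := by
  obtain ⟨a, b⟩ := inte_two hw hh hD m h1 h2 hv
  rcases m.reg.1.eq_or_lt with hx | hx
  · subst hx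
    have hv' : v = L 2 0 h u.swap w.swap := by rw [L2_mirror]; exact hv
    have := (inte_two (u := u.swap) (w := w.swap) ⟨hw.2, hw.1⟩ hh hD m.mirror
      (by rw [al_zero_swap]; exact h2) (by rw [be_swap]; exact h1) hv').1
    rw [ga_zero_swap] at this
    linarith
  · exact le_antisymm a (b hx)

end Pool.Agent.Helper12.CR
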