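import Pool.Agent.Helper12.CR.Path
import Pool.Agent.Helper12.CR.Exist
import Pool.Agent.Helper12.CR.Swap
import Pool.Agent.Helper12.CR.Mirror

set_option autoImplicit false

/-!
# Project CR, module Star: minimisers with `Δ = 0`

`Δ = 0`: `c = p s` (`p = 1+x`), `h > 0`, `QQ = -x c`, `g₁ = s`, `DD = 1/s` (as
`s² (1 + p²) = c² + s² = 1`), `al = -p be`, `ga = -be/s`, so `K j x h w` forces `be h w = 0`,
`al x h w = 0`, `ga x h w = 0`.  Then `d_w = (c-s) σ_w = x s σ_w ≥ 0` and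
`la0 w = la1 w = la2 w = λ := s σ_w / 2`, and all `L j x h u w` are equal
(`J = m3 u + λ`); call `(x, h)` the point `θ`.

 (A) `x > 0`, path `(x - t, h)`, face `2`: `be h w = 0` all along, `al x' h w = 2 Dl x' h σ_w > 0`
  for `x' < x`, `b21 = 0`, `b20 = la2 = g1 x' h σ_w/2`, `μ = la0 x' h u`, so
  `D2 (-1) 0 = (Δ ε /g₁) (la2 w - la0 u)`.  If `la0 u > λ` at `θ` this is negative for small
  `t > 0`: contradiction to minimality by `path_neg`.  So `la0 u ≤ λ`.
 (B) path `(x + t, h - t)`, face `2`: `be w > 0` for `t > 0` (derivative `2 c σ_w` at `0`); the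
  derivative of `t ↦ al w` is `x' be w ≥ 0` (exactly), so `al w ≥ 0`; `Δ > 0` for `t > 0`
  (derivative `p c > 0` at `0`).  `b20 = g₁ al w/(4Δ) → 0` (`al w ≤ C t²`, `Δ ≥ c' t`), `b21 → λ`,
  `D2 1 (-1) = (Δ ε b21 / la2) * ((la2 - μ)(1+x)/c - b20 ga u/(2 c g₁ la2))`,
  `μ = (b20 la0 u + b21 la1 u)/la2 → la1 u`.  So `la1 u ≤ λ` at `θ`.
  (Instead of limits of quotients: `la2 w = b20 + b21` (`la2_eq'`), so
  `la2 - μ = (la2² - b20 la0 u - b21 la1 u)/la2`, everything is continuous in `b20`, and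
  `b20 → 0` follows from `0 ≤ al w ≤ C t²`.)
 (C) path `(x, h - t)`, face `0`: the derivative of `ga w` along the path is `-2 Δ d_w ≤ 0`, so
  `ga w ≤ 0` and `|ga w| ≤ 2 t Δ(t) d` (`Δ` increases along the path), hence `b01 → 0`,
  `b02 = la0 w - b01 → λ`; `al w > 0` for `t > 0` (derivative `2 g₁ σ_w`).
  `D0 0 (-1) = (Δ ε b02/la0) * (-(la0 - μ)/g₁ + b01 be u/(2 c la0))`,
  `μ = (b01 la1 u + b02 la2 u)/la0 → la2 u`.  So `la2 u ≥ λ` at `θ`.
 (A') `x = 0`: (B) for the mirror image gives `la1 u.swap = la0 u ≤ λ`.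
 CONCLUSION: `la2 u = c² la1 u + g₁² la0 u` (`la2_eq`) and `c² + g₁² = 1`, so
 `la0 u = la1 u = λ`, i.e. `la0 u = la0 w`, `la1 u = la1 w`.  This is a linear system for
 `(σ_u, d_u)` with determinant `ζ + (1-x)(c+s) = 2 (c + (1-x) s) > 0`
 (`c + (1-x) s = g₁ + s`), so `σ_u = σ_w`, `d_u = d_w`, `u = w`.

 `star_nonneg`: for `u = w`: `L j x h w w = 2 w.2 - ε (m3 w + λ)` and `m3 w = λ` (as
 `w = λ • U j` and `m3 (U j) = 1` at `Δ = 0`), `z 1 = (U 1).2 - ε`, so `L = 2 λ z 1 ≥ 0`.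
-/

namespace Pool.Agent.Helper12.CR

open Real Filter Topology

/-! ### tools -/

private theorem star_ratio {f g : ℝ → ℝ} {a b : ℝ} (hf : HasDerivAt f a 0) (hg : HasDerivAt g b 0)
    (hf0 : f 0 = 0) (hg0 : g 0 = 0) (hb : b ≠ 0) :
    Tendsto (fun t => f t / g t) (𝓝[>] (0 : ℝ)) (𝓝 (a / b)) := by
  have h1 := hf.tendsto_slope_zero_right
  have h2 := hg.tendsto_slope_zero_right
  have h3 := h1.div h2 hb
  refine h3.congr' ?_
  filter_upwards [self_mem_nhdsWithin] with t ht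
  have ht0 : (0 : ℝ) < t := ht
  simp only [Pi.div_apply, zero_add, hf0, hg0, sub_zero, smul_eq_mul]
  rw [mul_div_mul_left _ _ (inv_ne_zero ht0.ne')]

private theorem star_mono {f f' : ℝ → ℝ} (hc : ContinuousAt f 0)
    (hd : ∀ᶠ t in 𝓝[>] (0 : ℝ), HasDerivAt f (f' t) t ∧ 0 ≤ f' t) :
    ∀ᶠ t in 𝓝[>] (0 : ℝ), f 0 ≤ f t := by
  obtain ⟨δ, hδ, h1⟩ := mem_nhdsGT_iff_exists_Ioo_subset.mp hd
  have hδ0 : (0 : ℝ) < δ := hδ
  refine mem_nhdsGT_iff_exists_Ioo_subset.mpr ⟨δ, hδ, fun τ hτ => ?_⟩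
  have hcont : ContinuousOn f (Set.Icc 0 τ) := by
    intro t ht
    rcases eq_or_lt_of_le ht.1 with h | h
    · rw [← h]; exact hc.continuousWithinAt
    · exact ((h1 ⟨h, lt_of_le_of_lt ht.2 hτ.2⟩).1.continuousAt).continuousWithinAt
  obtain ⟨c, hc1, hc2⟩ := exists_hasDerivAt_eq_slope f f' hτ.1 hcont
    (fun t ht => (h1 ⟨ht.1, ht.2.trans hτ.2⟩).1)
  have h2 : 0 ≤ f' c := (h1 ⟨hc1.1, hc1.2.trans hτ.2⟩).2
  rw [hc2] at h2
  have h4 : 0 < τ - 0 := by linarith [hτ.1]
  show f 0 ≤ f τ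
  by_contra hcon
  push Not at hcon
  have : (f τ - f 0) / (τ - 0) < 0 := div_neg_of_neg_of_pos (by linarith) h4
  linarith

private theorem star_h_pos {x h : ℝ} (r : Reg x h) (hD : Dl x h = 0) : 0 < h := by
  rcases eq_or_lt_of_le r.2.1 with h0 | h0
  · rw [← h0] at hD
    simp [Dl] at hD
  · exact h0

/-- `al = 2 Δ σ - p be` -/
private theorem star_al (x h : ℝ) (w : ℝ × ℝ) :
    al x h w = 2 * Dl x h * sg w - (1 + x) * be h w := by
  unfold al be Dl QQ
  ring

private theorem star_sin_pos {x h : ℝ} (r : Reg x h) (hD : Dl x h = 0) : 0 < sin h :=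
  sin_pos_of_pos_of_lt_pi (star_h_pos r hD) (by linarith [r.2.2.1, pi_pos])

private theorem star_zero {x h : ℝ} {w : ℝ × ℝ} {j : Fin 3} (hD : Dl x h = 0)
    (k : K j x h w) : be h w = 0 ∧ al x h w = 0 ∧ ga x h w = 0 := by
  have h1 := star_al x h w
  rw [hD] at h1
  have h2 := k.al_nonneg
  have h3 := k.be_nonneg
  have h4 : 0 < 1 + x := by linarith [k.reg.1]
  have h5 : (1 + x) * be h w = 0 := by
    have := mul_nonneg h4.le h3
    linarith
  have h6 : be h w = 0 := (mul_eq_zero.mp h5).resolve_left h4.ne'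
  have h7 : al x h w = 0 := by rw [h1, h5]; ring
  exact ⟨h6, h7, by rw [ga_eq, h6, h7]; ring⟩

private theorem star_la {x h : ℝ} {w : ℝ × ℝ} (r : Reg x h) (h1 : be h w = 0)
    (h2 : al x h w = 0) : la1 x h w = la2 x h w ∧ la0 x h w = la2 x h w := by
  have hc := r.cos_pos
  have hg := r.g1_pos
  have e1 := la1_sub_la2 x h w hc.ne'
  have e2 := la0_sub_la2 x h w hg.ne'
  rw [h1, mul_zero, neg_zero] at e1
  rw [h2, mul_zero, neg_zero] at e2
  constructor
  · have := (mul_eq_zero.mp e1).resolve_left (by positivity)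
    linarith
  · have := (mul_eq_zero.mp e2).resolve_left (by positivity)
    linarith

private theorem star_L {x h : ℝ} {u w : ℝ × ℝ} (r : Reg x h) (h1 : be h w = 0)
    (h2 : al x h w = 0) (h3 : ga x h w = 0) (j : Fin 3) :
    L j x h u w = u.2 + w.2 - ep x h * (m3 x h u + la2 x h w) := by
  obtain ⟨e1, e0⟩ := star_la r h1 h2
  fin_cases j
  · show L0 x h u w = _
    simp [L0, J0, h3, e0]
  · show L1 x h u w = _
    simp [L1, J1, h3, e1]
  · show L2 x h u w = _
    simp [L2, J2, h1, h2]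

/-! ### the three paths -/

private theorem star_contL2 {p q x h : ℝ} {u w : ℝ × ℝ} (hl : la2 x h w ≠ 0) :
    ContinuousAt (fun t => L2 (x + p * t) (h + q * t) u w) 0 := by
  have h0 : 16 * la2 (x + p * 0) (h + q * 0) w ≠ 0 := by simpa using hl
  unfold L2 J2
  refine ContinuousAt.sub continuousAt_const (ContinuousAt.mul (hd_ep p q x h 0).continuousAt ?_)
  refine ContinuousAt.sub (ContinuousAt.add (ContinuousAt.add (hd_m3 p q x h 0 u).continuousAt
    ?_) (ContinuousAt.div ?_ ?_ h0)) ((hd_al p q x h 0 w).continuousAt.div_const 2)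
  · exact ((hd_ll2 p q x h 0 w).div_const 4).continuousAt
  · exact ((hd_al p q x h 0 w).continuousAt.mul (hd_al p q x h 0 u).continuousAt).add
      ((hd_be q h 0 w).continuousAt.mul (hd_be q h 0 u).continuousAt)
  · exact (((hd_ll2 p q x h 0 w).div_const 4).continuousAt).const_mul 16

private theorem star_cont_la2 (p q x h : ℝ) (w : ℝ × ℝ) :
    ContinuousAt (fun t => la2 (x + p * t) (h + q * t) w) 0 :=
  ((hd_ll2 p q x h 0 w).div_const 4).continuousAt

private theorem star_cont_la0 {p q x h : ℝ} (w : ℝ × ℝ) (hg : g1 x h ≠ 0) :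
    ContinuousAt (fun t => la0 (x + p * t) (h + q * t) w) 0 :=
  ((hd_ll0 q h 0 w).continuousAt).div (((hd_g1 p q x h 0).continuousAt).const_mul 4)
    (by simpa using hg)

private theorem star_cont_la1 {p q x h : ℝ} (w : ℝ × ℝ) (hc : cos h ≠ 0) :
    ContinuousAt (fun t => la1 (x + p * t) (h + q * t) w) 0 :=
  ((hd_ll1 p q x h 0 w).continuousAt).div (((hd_c q h 0).continuousAt).const_mul 4)
    (by simpa using hc)

private theorem star_contL0 {p q x h : ℝ} {u w : ℝ × ℝ} (hg : g1 x h ≠ 0)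
    (hl : la0 x h w ≠ 0) :
    ContinuousAt (fun t => L0 (x + p * t) (h + q * t) u w) 0 := by
  have h0 : 16 * g1 (x + p * 0) (h + q * 0) * la0 (x + p * 0) (h + q * 0) w ≠ 0 := by
    simpa using ⟨hg, hl⟩
  unfold L0 J0
  refine ContinuousAt.sub continuousAt_const (ContinuousAt.mul (hd_ep p q x h 0).continuousAt ?_)
  refine ContinuousAt.sub (ContinuousAt.add (hd_m3 p q x h 0 u).continuousAt
    (star_cont_la0 w hg)) (ContinuousAt.div ?_ ?_ h0)
  · exact (hd_ga p q x h 0 w).continuousAt.mul (hd_be q h 0 u).continuousAt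
  · exact ((hd_g1 p q x h 0).continuousAt.const_mul 16).mul (star_cont_la0 w hg)

/-- the point is in the region for small `t` -/
private theorem star_reg {p q x h : ℝ} (r : Reg x h) (hD : Dl x h = 0) (hq : q ≤ 0)
    (hx : 0 < x ∨ 0 ≤ p) (hpos : 0 < -((q + p) * sin h + q * (1 + x) * cos h)) :
    ∀ᶠ t in 𝓝[>] (0 : ℝ), Reg (x + p * t) (h + q * t) ∧ 0 < Dl (x + p * t) (h + q * t) := by
  have hh := star_h_pos r hD
  have e1 : ∀ᶠ t in 𝓝[>] (0 : ℝ), 0 < Dl (x + p * t) (h + q * t) := by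
    refine ev_pos (hd_Dl p q x h 0) ?_ ?_
    · simpa using hpos
    · simp [hD]
  have e2 : ∀ᶠ t in 𝓝[>] (0 : ℝ), 0 < h + q * t :=
    ev_pos' (hd_X q h 0).continuousAt (by simpa using hh)
  have e3 : ∀ᶠ t in 𝓝[>] (0 : ℝ), 0 ≤ x + p * t := by
    rcases hx with hx | hp
    · exact (ev_pos' (hd_X p x 0).continuousAt (by simpa using hx)).mono fun t ht => ht.le
    · filter_upwards [self_mem_nhdsWithin] with t ht
      have ht0 : (0 : ℝ) < t := ht
      have := mul_nonneg hp ht0.le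
      linarith [r.1]
  filter_upwards [e1, e2, e3, self_mem_nhdsWithin] with t h1 h2 h3 ht
  have ht0 : (0 : ℝ) < t := ht
  refine ⟨⟨h3, h2.le, ?_, h1.le⟩, h1⟩
  have := mul_nonpos_of_nonpos_of_nonneg hq ht0.le
  linarith [r.2.2.1]

private theorem star_dd {h : ℝ} {w : ℝ × ℝ} (hb : be h w = 0) :
    dd h w = (cos h - sin h) * sg w := by
  unfold be at hb
  linarith

private theorem star_DA {x h : ℝ} {u w : ℝ × ℝ} (h21 : b21 x h w = 0)
    (h20 : b20 x h w = la2 x h w) (hl : la2 x h w ≠ 0) (hg : g1 x h ≠ 0) :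
    D2 (-1) 0 x h u w = -(Dl x h * ep x h / g1 x h * (la0 x h u - la2 x h w)) := by
  unfold D2
  rw [h21, h20]
  generalize la2 x h w = l at *
  generalize la0 x h u = k at *
  generalize g1 x h = g at *
  field_simp
  ring

private theorem star_DB {x h : ℝ} {u w : ℝ × ℝ} (hl : la2 x h w ≠ 0) (hg : g1 x h ≠ 0)
    (hc : cos h ≠ 0) :
    D2 1 (-1) x h u w = Dl x h * ep x h * b21 x h w / la2 x h w *
      ((la2 x h w - (b20 x h w * la0 x h u + b21 x h w * la1 x h u) / la2 x h w) *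
        ((1 + x) / cos h) - b20 x h w * (ga x h u / (2 * cos h * g1 x h * la2 x h w))) := by
  unfold D2
  generalize la2 x h w = l at *
  generalize la0 x h u = k at *
  generalize la1 x h u = k1 at *
  generalize g1 x h = g at *
  generalize b20 x h w = b at *
  generalize b21 x h w = b' at *
  generalize cos h = c at *
  field_simp
  ring

private theorem star_DC {x h : ℝ} {u w : ℝ × ℝ} (hl : la0 x h w ≠ 0) (hg : g1 x h ≠ 0)
    (hc : cos h ≠ 0) :
    D0 0 (-1) x h u w = Dl x h * ep x h * b02 x h w / la0 x h w *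
      (-((la0 x h w - (b01 x h w * la1 x h u + b02 x h w * la2 x h u) / la0 x h w) / g1 x h)
        + b01 x h w * (be h u / (2 * cos h * la0 x h w))) := by
  unfold D0
  generalize la0 x h w = l at *
  generalize la2 x h u = k at *
  generalize la1 x h u = k1 at *
  generalize g1 x h = g at *
  generalize b01 x h w = b at *
  generalize b02 x h w = b' at *
  generalize cos h = c at *
  field_simp
  ring

/-- step (A) -/
private theorem star_A {u w : ℝ × ℝ} {x h v : ℝ} (hw : Pos w) (hD : Dl x h = 0)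
    (m : MinAt u w x h v) (hb : be h w = 0) (ha : al x h w = 0) (hv : v = L 2 x h u w)
    (hx : 0 < x) : la0 x h u ≤ la2 x h w := by
  by_contra hcon
  push Not at hcon
  have r := m.reg
  have hsg : 0 < sg w := add_pos hw.1 hw.2
  have hla : 0 < la2 x h w := la2_pos hw ⟨r, ha.ge, hb.ge⟩
  have e0 := star_reg (p := -1) (q := 0) r hD le_rfl (Or.inl hx)
    (by simpa using star_sin_pos r hD)
  have e1 : ∀ᶠ t in 𝓝[>] (0 : ℝ), 0 < la2 (x + -1 * t) (h + 0 * t) w :=
    ev_pos' (star_cont_la2 (-1) 0 x h w) (by simpa using hla)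
  have e2 : ∀ᶠ t in 𝓝[>] (0 : ℝ),
      0 < la0 (x + -1 * t) (h + 0 * t) u - la2 (x + -1 * t) (h + 0 * t) w :=
    ev_pos' ((star_cont_la0 u r.g1_pos.ne').sub (star_cont_la2 (-1) 0 x h w))
      (by simpa using hcon)
  refine path_neg (f := fun t => L2 (x + -1 * t) (h + 0 * t) u w)
    (f' := fun t => D2 (-1) 0 (x + -1 * t) (h + 0 * t) u w) (star_contL2 hla.ne') ?_ ?_
  · filter_upwards [e0, e1, e2] with t ⟨r', h0⟩ h1 h2
    have hc := r'.cos_pos
    have hg := r'.g1_pos
    refine ⟨hasDerivAt_L2 (-1) 0 x h t u w hg.ne' hc.ne' h0.ne' h1.ne', ?_⟩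
    have hb' : be (h + 0 * t) w = 0 := by simpa using hb
    have hb21 : b21 (x + -1 * t) (h + 0 * t) w = 0 := by
      unfold b21
      rw [hb', mul_zero, zero_div]
    have hb20 : b20 (x + -1 * t) (h + 0 * t) w = la2 (x + -1 * t) (h + 0 * t) w := by
      have := la2_eq' (x + -1 * t) (h + 0 * t) w hc.ne' hg.ne' h0.ne'
      rw [hb21] at this
      linarith
    rw [star_DA hb21 hb20 h1.ne' hg.ne']
    have hep : 0 < ep (x + -1 * t) (h + 0 * t) := exp_pos _
    have : 0 < Dl (x + -1 * t) (h + 0 * t) * ep (x + -1 * t) (h + 0 * t) /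
          g1 (x + -1 * t) (h + 0 * t) *
          (la0 (x + -1 * t) (h + 0 * t) u - la2 (x + -1 * t) (h + 0 * t) w) := by positivity
    linarith
  · filter_upwards [e0] with t ⟨r', h0⟩
    have hb' : be (h + 0 * t) w = 0 := by simpa using hb
    have h3 := m.lo 2 (x + -1 * t) (h + 0 * t) ⟨r', ?_, hb'.ge⟩
    · show L2 (x + -1 * 0) (h + 0 * 0) u w ≤ _
      have : L2 (x + -1 * 0) (h + 0 * 0) u w = L2 x h u w := by simp
      rw [this]
      have h4 : v = L2 x h u w := hv
      rw [← h4]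
      exact h3
    · rw [star_al, hb']
      have := mul_nonneg (mul_nonneg zero_le_two h0.le) hsg.le
      linarith

/-- step (B) -/
private theorem star_B {u w : ℝ × ℝ} {x h v : ℝ} (hw : Pos w) (hD : Dl x h = 0)
    (m : MinAt u w x h v) (hb : be h w = 0) (ha : al x h w = 0) (hv : v = L 2 x h u w) :
    la1 x h u ≤ la2 x h w := by
  by_contra hcon
  push Not at hcon
  have r := m.reg
  have hsg : 0 < sg w := add_pos hw.1 hw.2
  have hc := r.cos_pos
  have hg := r.g1_pos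
  have hp : 0 < 1 + x := by linarith [r.1]
  have hla : 0 < la2 x h w := la2_pos hw ⟨r, ha.ge, hb.ge⟩
  have hdd := star_dd hb
  have e0 := star_reg (p := 1) (q := -1) r hD (by norm_num) (Or.inr zero_le_one)
    (by
      have := mul_pos hp hc
      linarith)
  have e1 : ∀ᶠ t in 𝓝[>] (0 : ℝ), 0 < la2 (x + 1 * t) (h + -1 * t) w :=
    ev_pos' (star_cont_la2 1 (-1) x h w) (by simpa using hla)
  have hsw := star_sin_pos r hD
  -- `be` is positive
  have e3 : ∀ᶠ t in 𝓝[>] (0 : ℝ), 0 < be (h + -1 * t) w := by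
    refine ev_pos (hd_be (-1) h 0 w) ?_ (by simp [hb])
    simp only [mul_zero, add_zero]
    rw [hdd]
    nlinarith [mul_pos hc hsg]
  -- `al` is nonnegative
  have e4 : ∀ᶠ t in 𝓝[>] (0 : ℝ), 0 ≤ al (x + 1 * t) (h + -1 * t) w := by
    have := star_mono (f := fun t => al (x + 1 * t) (h + -1 * t) w)
      (f' := fun t => (x + 1 * t) * be (h + -1 * t) w) (hd_al 1 (-1) x h 0 w).continuousAt ?_
    · simpa [ha] using this
    · filter_upwards [e0, e3] with t ⟨r', _⟩ h3
      refine ⟨(hd_al 1 (-1) x h t w).congr_deriv ?_, mul_nonneg r'.1 h3.le⟩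
      unfold be
      ring
  -- `b20` tends to zero
  have t1 : Tendsto (fun t => al (x + 1 * t) (h + -1 * t) w / Dl (x + 1 * t) (h + -1 * t))
      (𝓝[>] (0 : ℝ)) (𝓝 0) := by
    have := star_ratio (hd_al 1 (-1) x h 0 w) (hd_Dl 1 (-1) x h 0) (by simp [ha]) (by simp [hD])
      (by
        simp only [mul_zero, add_zero]
        have := mul_pos hp hc
        intro h0
        linarith)
    have hz : (1 + -1 * (1 + (x + 1 * 0))) * dd (h + -1 * 0) w +
      (-(1 * (cos (h + -1 * 0) + sin (h + -1 * 0))) - -1 * ((1 - (x + 1 * 0)) * sin (h + -1 * 0) +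
        (1 + (x + 1 * 0)) * cos (h + -1 * 0))) * sg w = 0 := by
      simp only [mul_zero, add_zero]
      rw [hdd]
      ring
    rw [hz, zero_div] at this
    exact this
  have cg : Tendsto (fun t => g1 (x + 1 * t) (h + -1 * t)) (𝓝[>] (0 : ℝ)) (𝓝 (g1 x h)) := by
    have := (hd_g1 1 (-1) x h 0).continuousAt.tendsto.mono_left nhdsWithin_le_nhds
      (y := 𝓝[>] (0 : ℝ))
    simpa using this
  have t2 : Tendsto (fun t => b20 (x + 1 * t) (h + -1 * t) w) (𝓝[>] (0 : ℝ)) (𝓝 0) := by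
    have := (cg.mul t1).div_const 4
    rw [mul_zero, zero_div] at this
    refine this.congr fun t => ?_
    unfold b20
    ring
  have cl {f : ℝ → ℝ} {a : ℝ} (hf : ContinuousAt f 0) (h0 : f 0 = a) :
      Tendsto f (𝓝[>] (0 : ℝ)) (𝓝 a) := by
    rw [← h0]
    exact hf.tendsto.mono_left nhdsWithin_le_nhds
  have cla2 : Tendsto (fun t => la2 (x + 1 * t) (h + -1 * t) w) (𝓝[>] (0 : ℝ))
      (𝓝 (la2 x h w)) := cl (star_cont_la2 1 (-1) x h w) (by simp)
  have t3 : Tendsto (fun t => b21 (x + 1 * t) (h + -1 * t) w) (𝓝[>] (0 : ℝ))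
      (𝓝 (la2 x h w)) := by
    have := cla2.sub t2
    rw [sub_zero] at this
    refine this.congr' ?_
    filter_upwards [e0] with t ⟨r', h0⟩
    have := la2_eq' (x + 1 * t) (h + -1 * t) w r'.cos_pos.ne' r'.g1_pos.ne' h0.ne'
    linarith
  have cu0 : Tendsto (fun t => la0 (x + 1 * t) (h + -1 * t) u) (𝓝[>] (0 : ℝ))
      (𝓝 (la0 x h u)) := cl (star_cont_la0 u hg.ne') (by simp)
  have cu1 : Tendsto (fun t => la1 (x + 1 * t) (h + -1 * t) u) (𝓝[>] (0 : ℝ))
      (𝓝 (la1 x h u)) := cl (star_cont_la1 u hc.ne') (by simp)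
  have cga : Tendsto (fun t => ga (x + 1 * t) (h + -1 * t) u) (𝓝[>] (0 : ℝ))
      (𝓝 (ga x h u)) := cl (hd_ga 1 (-1) x h 0 u).continuousAt (by simp)
  have cc : Tendsto (fun t => cos (h + -1 * t)) (𝓝[>] (0 : ℝ)) (𝓝 (cos h)) :=
    cl (hd_c (-1) h 0).continuousAt (by simp)
  have cx : Tendsto (fun t : ℝ => 1 + (x + 1 * t)) (𝓝[>] (0 : ℝ)) (𝓝 (1 + x)) :=
    cl ((hd_X 1 x 0).const_add 1).continuousAt (by simp)
  have t4 : Tendsto (fun t => (la2 (x + 1 * t) (h + -1 * t) w -
      (b20 (x + 1 * t) (h + -1 * t) w * la0 (x + 1 * t) (h + -1 * t) u +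
        b21 (x + 1 * t) (h + -1 * t) w * la1 (x + 1 * t) (h + -1 * t) u) /
          la2 (x + 1 * t) (h + -1 * t) w) * ((1 + (x + 1 * t)) / cos (h + -1 * t)) -
      b20 (x + 1 * t) (h + -1 * t) w * (ga (x + 1 * t) (h + -1 * t) u /
        (2 * cos (h + -1 * t) * g1 (x + 1 * t) (h + -1 * t) * la2 (x + 1 * t) (h + -1 * t) w)))
      (𝓝[>] (0 : ℝ)) (𝓝 ((la2 x h w - (0 * la0 x h u + la2 x h w * la1 x h u) / la2 x h w) *
        ((1 + x) / cos h) - 0 * (ga x h u / (2 * cos h * g1 x h * la2 x h w)))) :=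
    ((cla2.sub (((t2.mul cu0).add (t3.mul cu1)).div cla2 hla.ne')).mul
      (cx.div cc hc.ne')).sub (t2.mul (cga.div (((cc.const_mul 2).mul cg).mul cla2)
        (by positivity)))
  have hneg : (la2 x h w - (0 * la0 x h u + la2 x h w * la1 x h u) / la2 x h w) *
        ((1 + x) / cos h) - 0 * (ga x h u / (2 * cos h * g1 x h * la2 x h w)) < 0 := by
    have e : (0 * la0 x h u + la2 x h w * la1 x h u) / la2 x h w = la1 x h u := by
      field_simp
      ring
    rw [e, zero_mul, sub_zero]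
    exact mul_neg_of_neg_of_pos (by linarith) (by positivity)
  have e5 := t4.eventually (gt_mem_nhds hneg)
  have e6 : ∀ᶠ t in 𝓝[>] (0 : ℝ), 0 < b21 (x + 1 * t) (h + -1 * t) w :=
    t3.eventually (lt_mem_nhds hla)
  refine path_neg (f := fun t => L2 (x + 1 * t) (h + -1 * t) u w)
    (f' := fun t => D2 1 (-1) (x + 1 * t) (h + -1 * t) u w) (star_contL2 hla.ne') ?_ ?_
  · filter_upwards [e0, e1, e5, e6] with t ⟨r', h0⟩ h1 h5 h6
    have hc' := r'.cos_pos
    have hg' := r'.g1_pos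
    refine ⟨hasDerivAt_L2 1 (-1) x h t u w hg'.ne' hc'.ne' h0.ne' h1.ne', ?_⟩
    rw [star_DB h1.ne' hg'.ne' hc'.ne']
    have hep : 0 < ep (x + 1 * t) (h + -1 * t) := exp_pos _
    exact mul_neg_of_pos_of_neg (by positivity) h5
  · filter_upwards [e0, e3, e4] with t ⟨r', h0⟩ h3 h4
    have h5 := m.lo 2 (x + 1 * t) (h + -1 * t) ⟨r', h4, h3.le⟩
    show L2 (x + 1 * 0) (h + -1 * 0) u w ≤ _
    have h6 : L2 (x + 1 * 0) (h + -1 * 0) u w = L2 x h u w := by simp
    rw [h6]
    have h7 : v = L2 x h u w := hv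
    rw [← h7]
    exact h5

/-- step (C) -/
private theorem star_C {u w : ℝ × ℝ} {x h v : ℝ} (hw : Pos w) (hD : Dl x h = 0)
    (m : MinAt u w x h v) (hb : be h w = 0) (ha : al x h w = 0) (hga : ga x h w = 0)
    (hv : v = L 0 x h u w) : la0 x h w ≤ la2 x h u := by
  by_contra hcon
  push Not at hcon
  have r := m.reg
  have hsg : 0 < sg w := add_pos hw.1 hw.2
  have hc := r.cos_pos
  have hg := r.g1_pos
  have hp : 0 < 1 + x := by linarith [r.1]
  have hla : 0 < la0 x h w := la0_pos hw ⟨r, hga.le, ha.ge⟩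
  have hdd := star_dd hb
  have hsw := star_sin_pos r hD
  have e0 := star_reg (p := 0) (q := -1) r hD (by norm_num) (Or.inr le_rfl)
    (by
      have := mul_pos hp hc
      linarith)
  have e1 : ∀ᶠ t in 𝓝[>] (0 : ℝ), 0 < la0 (x + 0 * t) (h + -1 * t) w :=
    ev_pos' (star_cont_la0 w hg.ne') (by simpa using hla)
  -- `al` is positive
  have e3 : ∀ᶠ t in 𝓝[>] (0 : ℝ), 0 < al (x + 0 * t) (h + -1 * t) w := by
    refine ev_pos (hd_al 0 (-1) x h 0 w) ?_ (by simp [ha])
    simp only [mul_zero, add_zero, zero_mul]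
    rw [hdd]
    nlinarith [mul_pos hsw hsg]
  -- `ga` is nonpositive
  have e4 : ∀ᶠ t in 𝓝[>] (0 : ℝ), ga (x + 0 * t) (h + -1 * t) w ≤ 0 := by
    have := star_mono (f := fun t => -ga (x + 0 * t) (h + -1 * t) w)
      (f' := fun t => 2 * Dl (x + 0 * t) (h + -1 * t) * dd (h + -1 * t) w)
      (hd_ga 0 (-1) x h 0 w).continuousAt.neg ?_
    · simpa [hga] using this
    · filter_upwards [e0] with t ⟨r', h0⟩
      refine ⟨(hd_ga 0 (-1) x h t w).neg.congr_deriv (by ring), ?_⟩
      have h1 : 0 ≤ dd h w := by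
        rw [hdd]
        exact mul_nonneg (by linarith [r.sin_le_cos]) hsg.le
      have h2 : 0 ≤ w.1 - w.2 := by
        unfold dd at h1
        exact nonneg_of_mul_nonneg_right h1 (exp_pos h)
      have h3 : 0 ≤ dd (h + -1 * t) w := mul_nonneg (exp_pos _).le h2
      positivity
  -- `b01` tends to zero
  have t1 : Tendsto (fun t => ga (x + 0 * t) (h + -1 * t) w / Dl (x + 0 * t) (h + -1 * t))
      (𝓝[>] (0 : ℝ)) (𝓝 0) := by
    have := star_ratio (hd_ga 0 (-1) x h 0 w) (hd_Dl 0 (-1) x h 0) (by simp [hga]) (by simp [hD])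
      (by
        simp only [mul_zero, add_zero]
        have := mul_pos hp hc
        intro h0
        linarith)
    have hz : (0 * (cos (h + -1 * 0) - sin (h + -1 * 0)) +
        2 * -1 * Dl (x + 0 * 0) (h + -1 * 0)) * dd (h + -1 * 0) w - 0 * sg w = 0 := by
      simp [hD]
    rw [hz, zero_div] at this
    exact this
  have cl {f : ℝ → ℝ} {a : ℝ} (hf : ContinuousAt f 0) (h0 : f 0 = a) :
      Tendsto f (𝓝[>] (0 : ℝ)) (𝓝 a) := by
    rw [← h0]
    exact hf.tendsto.mono_left nhdsWithin_le_nhds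
  have cg : Tendsto (fun t => g1 (x + 0 * t) (h + -1 * t)) (𝓝[>] (0 : ℝ)) (𝓝 (g1 x h)) :=
    cl (hd_g1 0 (-1) x h 0).continuousAt (by simp)
  have cc : Tendsto (fun t => cos (h + -1 * t)) (𝓝[>] (0 : ℝ)) (𝓝 (cos h)) :=
    cl (hd_c (-1) h 0).continuousAt (by simp)
  have t2 : Tendsto (fun t => b01 (x + 0 * t) (h + -1 * t) w) (𝓝[>] (0 : ℝ)) (𝓝 0) := by
    have := ((cc.mul t1).div (cg.const_mul 4) (by positivity)).neg
    rw [mul_zero, zero_div, neg_zero] at this
    refine this.congr fun t => ?_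
    unfold b01
    simp only [Pi.div_apply]
    rw [← mul_div_assoc, div_div, mul_comm (Dl _ _) (4 * _)]
  have cla2 : Tendsto (fun t => la0 (x + 0 * t) (h + -1 * t) w) (𝓝[>] (0 : ℝ))
      (𝓝 (la0 x h w)) := cl (star_cont_la0 w hg.ne') (by simp)
  have t3 : Tendsto (fun t => b02 (x + 0 * t) (h + -1 * t) w) (𝓝[>] (0 : ℝ))
      (𝓝 (la0 x h w)) := by
    have := cla2.sub t2
    rw [sub_zero] at this
    refine this.congr' ?_
    filter_upwards [e0] with t ⟨r', h0⟩
    have := la0_eq (x + 0 * t) (h + -1 * t) w r'.cos_pos.ne' r'.g1_pos.ne' h0.ne'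
    linarith
  have cu0 : Tendsto (fun t => la1 (x + 0 * t) (h + -1 * t) u) (𝓝[>] (0 : ℝ))
      (𝓝 (la1 x h u)) := cl (star_cont_la1 u hc.ne') (by simp)
  have cu1 : Tendsto (fun t => la2 (x + 0 * t) (h + -1 * t) u) (𝓝[>] (0 : ℝ))
      (𝓝 (la2 x h u)) := cl (star_cont_la2 0 (-1) x h u) (by simp)
  have cga : Tendsto (fun t => be (h + -1 * t) u) (𝓝[>] (0 : ℝ))
      (𝓝 (be h u)) := cl (hd_be (-1) h 0 u).continuousAt (by simp)
  have t4 : Tendsto (fun t => -((la0 (x + 0 * t) (h + -1 * t) w -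
      (b01 (x + 0 * t) (h + -1 * t) w * la1 (x + 0 * t) (h + -1 * t) u +
        b02 (x + 0 * t) (h + -1 * t) w * la2 (x + 0 * t) (h + -1 * t) u) /
          la0 (x + 0 * t) (h + -1 * t) w) / g1 (x + 0 * t) (h + -1 * t)) +
      b01 (x + 0 * t) (h + -1 * t) w * (be (h + -1 * t) u /
        (2 * cos (h + -1 * t) * la0 (x + 0 * t) (h + -1 * t) w)))
      (𝓝[>] (0 : ℝ)) (𝓝 (-((la0 x h w - (0 * la1 x h u + la0 x h w * la2 x h u) / la0 x h w) /
        g1 x h) + 0 * (be h u / (2 * cos h * la0 x h w)))) :=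
    (((cla2.sub (((t2.mul cu0).add (t3.mul cu1)).div cla2 hla.ne')).div cg hg.ne').neg).add
      (t2.mul (cga.div ((cc.const_mul 2).mul cla2) (by positivity)))
  have hneg : -((la0 x h w - (0 * la1 x h u + la0 x h w * la2 x h u) / la0 x h w) /
        g1 x h) + 0 * (be h u / (2 * cos h * la0 x h w)) < 0 := by
    have e : (0 * la1 x h u + la0 x h w * la2 x h u) / la0 x h w = la2 x h u := by
      field_simp
      ring
    rw [e, zero_mul, add_zero]
    have : 0 < (la0 x h w - la2 x h u) / g1 x h := div_pos (by linarith) hg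
    linarith
  have e5 := t4.eventually (gt_mem_nhds hneg)
  have e6 : ∀ᶠ t in 𝓝[>] (0 : ℝ), 0 < b02 (x + 0 * t) (h + -1 * t) w :=
    t3.eventually (lt_mem_nhds hla)
  refine path_neg (f := fun t => L0 (x + 0 * t) (h + -1 * t) u w)
    (f' := fun t => D0 0 (-1) (x + 0 * t) (h + -1 * t) u w) (star_contL0 hg.ne' hla.ne') ?_ ?_
  · filter_upwards [e0, e1, e5, e6] with t ⟨r', h0⟩ h1 h5 h6
    have hc' := r'.cos_pos
    have hg' := r'.g1_pos
    refine ⟨hasDerivAt_L0 0 (-1) x h t u w hg'.ne' hc'.ne' h0.ne' h1.ne', ?_⟩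
    rw [star_DC h1.ne' hg'.ne' hc'.ne']
    have hep : 0 < ep (x + 0 * t) (h + -1 * t) := exp_pos _
    exact mul_neg_of_pos_of_neg (by positivity) h5
  · filter_upwards [e0, e3, e4] with t ⟨r', h0⟩ h3 h4
    have h5 := m.lo 0 (x + 0 * t) (h + -1 * t) ⟨r', h4, h3.le⟩
    show L0 (x + 0 * 0) (h + -1 * 0) u w ≤ _
    have h6 : L0 (x + 0 * 0) (h + -1 * 0) u w = L0 x h u w := by simp
    rw [h6]
    have h7 : v = L0 x h u w := hv
    rw [← h7]
    exact h5

theorem star_eq {u w : ℝ × ℝ} {x h v : ℝ} (hu : Pos u) (hw : Pos w)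
    (hD : Dl x h = 0) (m : MinAt u w x h v) {j : Fin 3} (k : K j x h w)
    (hv : v = L j x h u w) : u = w := by
  obtain ⟨hb, ha, hga⟩ := star_zero hD k
  have r := k.reg
  obtain ⟨l1, l0⟩ := star_la r hb ha
  have hv2 : v = L 2 x h u w := by rw [hv, star_L r hb ha hga j, star_L r hb ha hga 2]
  have hv0 : v = L 0 x h u w := by rw [hv, star_L r hb ha hga j, star_L r hb ha hga 0]
  have B := star_B hw hD m hb ha hv2
  have C := star_C hw hD m hb ha hga hv0
  have hc := r.cos_pos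
  have hg := r.g1_pos
  have A : la0 x h u ≤ la2 x h w := by
    rcases eq_or_lt_of_le r.1 with hx | hx
    · subst hx
      have m' := m.mirror
      have hb' : be h w.swap = 0 := by rw [be_swap]; exact ha
      have ha' : al 0 h w.swap = 0 := by rw [al_zero_swap]; exact hb
      have hw' : Pos w.swap := ⟨hw.2, hw.1⟩
      have := star_B hw' hD m' hb' ha' (by rw [L2_mirror]; exact hv2)
      rwa [la1_zero_swap, la2_zero_swap] at this
    · exact star_A hw hD m hb ha hv2 hx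
  have e := la2_eq x h u hc.ne' hg.ne'
  rw [l0] at C
  have hcs : cos h ^ 2 + g1 x h ^ 2 = 1 := by
    have h1 : g1 x h = Dl x h + sin h := by unfold g1 Dl; ring
    rw [h1, hD, zero_add, add_comm]
    exact sin_sq_add_cos_sq h
  have hA : la0 x h u = la2 x h w := by
    by_contra hne
    have hlt : la0 x h u < la2 x h w := lt_of_le_of_ne A hne
    have h1 := mul_lt_mul_of_pos_left hlt (pow_pos hg 2)
    have h2 := mul_le_mul_of_nonneg_left B (sq_nonneg (cos h))
    have h3 : cos h ^ 2 * la2 x h w + g1 x h ^ 2 * la2 x h w = la2 x h w := by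
      rw [← add_mul, hcs, one_mul]
    linarith
  have hB : la1 x h u = la2 x h w := by
    by_contra hne
    have hlt : la1 x h u < la2 x h w := lt_of_le_of_ne B hne
    have h1 := mul_lt_mul_of_pos_left hlt (pow_pos hc 2)
    have h2 := mul_le_mul_of_nonneg_left A (sq_nonneg (g1 x h))
    have h3 : cos h ^ 2 * la2 x h w + g1 x h ^ 2 * la2 x h w = la2 x h w := by
      rw [← add_mul, hcs, one_mul]
    linarith
  -- the linear system
  have E0 : la0 x h u = la0 x h w := by rw [hA, l0]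
  have E1 : la1 x h u = la1 x h w := by rw [hB, l1]
  have F0 : sg u - (cos h + sin h) * dd h u = sg w - (cos h + sin h) * dd h w := by
    unfold la0 at E0
    rwa [div_left_inj' (by positivity)] at E0
  have F1 : ((1 + x) * cos h + (1 - x) * sin h) * dd h u + (1 - x) * sg u =
      ((1 + x) * cos h + (1 - x) * sin h) * dd h w + (1 - x) * sg w := by
    unfold la1 at E1
    rwa [div_left_inj' (by positivity)] at E1
  have hk : 0 < cos h + (1 - x) * sin h := by
    have h1 : cos h + (1 - x) * sin h = g1 x h + sin h := by unfold g1; ring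
    rw [h1]
    linarith [r.sin_nonneg]
  have G : dd h u = dd h w := by
    have : 2 * (cos h + (1 - x) * sin h) * (dd h u - dd h w) = 0 := by
      linear_combination F1 - (1 - x) * F0
    have h2 := (mul_eq_zero.mp this).resolve_left (by positivity)
    linarith
  have G' : sg u = sg w := by rw [G] at F0; linarith
  have G2 : u.1 - u.2 = w.1 - w.2 := by
    unfold dd at G
    exact mul_left_cancel₀ (exp_pos h).ne' G
  unfold sg at G'
  exact Prod.ext (by linarith) (by linarith)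

theorem star_nonneg {w : ℝ × ℝ} {x h : ℝ} (hw : Pos w) (hD : Dl x h = 0) {j : Fin 3}
    (k : K j x h w) : 0 ≤ L j x h w w := by
  obtain ⟨hb, ha, hga⟩ := star_zero hD k
  have r := k.reg
  rw [star_L r hb ha hga j]
  have hz := r.z_nonneg 1
  have hc := r.cos_pos
  have hp : 0 < 1 + x := by linarith [r.1]
  have hsg : 0 < sg w := add_pos hw.1 hw.2
  have hdd := star_dd hb
  have hcs : cos h = (1 + x) * sin h := by unfold Dl at hD; linarith
  have h2 : (1 + x) ^ 2 * sin h ^ 2 + sin h ^ 2 = 1 := by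
    have := sin_sq_add_cos_sq h
    rw [hcs] at this
    linarith
  have key : w.2 + w.2 - ep x h * (m3 x h w + la2 x h w) =
      sg w * sin h * z 1 x h := by
    have hexp : exp h * exp (-h) = 1 := by rw [← exp_add]; simp
    have hw2 : w.2 + w.2 = sg w - exp (-h) * dd h w := by
      unfold sg dd
      linear_combination (w.1 - w.2) * hexp
    have hz1 : z 1 x h = (1 + x + QQ x h * exp (-h) - cos h * ep x h) / cos h := rfl
    rw [hz1, hw2]
    unfold m3 la2 QQ
    rw [hdd]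
    generalize ep x h = E
    generalize exp (-h) = kk
    generalize sg w = S
    have hs : sin h ≠ 0 := by
      intro h0
      rw [h0] at h2
      simp at h2
    rw [hcs]
    generalize sin h = s at *
    field_simp
    ring
  rw [key]
  exact mul_nonneg (mul_nonneg hsg.le r.sin_nonneg) hz

end Pool.Agent.Helper12.CR
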