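import Pool.Agent.Helper12.CR.Path
import Pool.Agent.Helper12.CR.Exist
import Pool.Agent.Helper12.CR.Swap
import Pool.Agent.Helper12.CR.Mirror

set_option autoImplicit false

/-!
# Project CR, module Ver0: minimisers with `w` on the ray `U 0`

`(x, h)` minimises, `0 < h`, `0 < Δ` (so `h < π/4`), `v` is the minimal value.  `p = 1 + x`,
`σ = sg w`, `λ` = common value of the two `la_j w` which are defined on the ray
(`la0_sub_la1`, `la0_sub_la2`, `la1_sub_la2`), and of the nonzero coefficients `b` (`la0_eq`,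
`la1_eq`, `la2_eq'`).  `vertex_eq` says that the other plane has the same value at `(x, h)`.
Directions: `path (p, q)` is `t ↦ (x + p t, h + q t)`; the derivatives are
`hasDerivAt_L0/L1/L2`, the calculus lemmas are `path_first`, `path_neg`, `ev_pos`, `ev_pos'`
(module Path).  Admissibility (`K j` along the path for small `t ≥ 0`) has to be checked each time
with `hd_al`, `hd_be`, `hd_ga`.

`ver0` (`be h w = 0`, `v = L 1 x h u w = L 2 x h u w`, `λ = la1 w = la2 w = b10 = b20`,
 `b12 = b21 = 0`):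
 (i) direction `(1, 0)`, face `1`: `(x+t, h)` satisfies `K 1` for small `t ≥ 0` (`be` does not
  depend on `x`, `ga > 0` at `t = 0`), derivative `D1 1 0 = -(Δ ε / g₁)(λ - la0 u) ≥ 0`, so
  `la0 u ≥ λ`.
 (ii) direction `(0, -1)`, face `2`: `be h w` becomes positive (derivative `2 cos h σ > 0`),
  `D2 0 (-1) = (Δ ε/ g₁)(λ - la0 u) ≥ 0`, so `la0 u = λ`.
 (iii) direction `(0,-1)`, face `1`: for small `t > 0`, `b12 > 0` and
  `D1 0 (-1) = (Δ ε b12 / la1) * (-( (la1 - μ) (1+x)/c ) + b10 al u / (2 g₁ la1))`,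
  `μ = (b10 la0 u + b12 la2 u)/la1`; the bracket tends to `al u / (2 g₁)` (as `μ → λ`), so `al u < 0`
  contradicts minimality (`path_neg`).
 (iv) direction `(1,-1)`, face `2`: for small `t > 0`, `b21 > 0` and
  `D2 1 (-1) = (Δ ε b21 / la2) * ((la2 - μ)(1+x)/c - b20 ga u/(2 c g₁ la2))`; the bracket tends to
  `-ga u/(2 c g₁)`, so `ga u > 0` contradicts minimality.
-/

namespace Pool.Agent.Helper12.CR

open Real Filter Topology

private theorem v0_reg {x h p q : ℝ} (r : Reg x h) (hh : 0 < h) (hD : 0 < Dl x h)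
    (hp : 0 ≤ p) (hq : q ≤ 0) :
    ∀ᶠ t in 𝓝[>] (0 : ℝ), Reg (x + p * t) (h + q * t) ∧ 0 < Dl (x + p * t) (h + q * t) := by
  have h1 : ∀ᶠ t in 𝓝[>] (0 : ℝ), 0 < Dl (x + p * t) (h + q * t) :=
    ev_pos' (hd_Dl p q x h 0).continuousAt (by simpa using hD)
  have h2 : ∀ᶠ t in 𝓝[>] (0 : ℝ), 0 < h + q * t :=
    ev_pos' (hd_X q h 0).continuousAt (by simpa using hh)
  have h3 : ∀ᶠ t in 𝓝[>] (0 : ℝ), (0 : ℝ) < t := self_mem_nhdsWithin
  filter_upwards [h1, h2, h3] with t h1 h2 h3
  have h4 : 0 ≤ p * t := mul_nonneg hp h3.le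
  have h5 : q * t ≤ 0 := mul_nonpos_of_nonpos_of_nonneg hq h3.le
  exact ⟨⟨by linarith [r.1], h2.le, by linarith [r.2.2.1], h1.le⟩, h1⟩

private theorem v0_first1 {u w : ℝ × ℝ} {x h v p q : ℝ} (hw : Pos w) (hD : 0 < Dl x h)
    (m : MinAt u w x h v) (k : K 1 x h w) (hv : v = L 1 x h u w)
    (hK : ∀ᶠ t in 𝓝[>] (0 : ℝ), K 1 (x + p * t) (h + q * t) w) :
    0 ≤ D1 p q x h u w := by
  have hd := hasDerivAt_L1 p q x h 0 u w (by simpa using m.reg.g1_pos.ne')
    (by simpa using m.reg.cos_pos.ne') (by simpa using hD.ne')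
    (by simpa using (la1_pos hw k).ne')
  have h1 := path_first hd (by
    filter_upwards [hK] with t ht
    have h2 : v ≤ L1 (x + p * t) (h + q * t) u w := m.lo 1 _ _ ht
    have h3 : v = L1 x h u w := hv
    simp only [mul_zero, add_zero]
    rw [← h3]
    exact h2)
  simpa using h1

private theorem v0_first2 {u w : ℝ × ℝ} {x h v p q : ℝ} (hw : Pos w) (hD : 0 < Dl x h)
    (m : MinAt u w x h v) (k : K 2 x h w) (hv : v = L 2 x h u w)
    (hK : ∀ᶠ t in 𝓝[>] (0 : ℝ), K 2 (x + p * t) (h + q * t) w) :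
    0 ≤ D2 p q x h u w := by
  have hd := hasDerivAt_L2 p q x h 0 u w (by simpa using m.reg.g1_pos.ne')
    (by simpa using m.reg.cos_pos.ne') (by simpa using hD.ne')
    (by simpa using (la2_pos hw k).ne')
  have h1 := path_first hd (by
    filter_upwards [hK] with t ht
    have h2 : v ≤ L2 (x + p * t) (h + q * t) u w := m.lo 2 _ _ ht
    have h3 : v = L2 x h u w := hv
    simp only [mul_zero, add_zero]
    rw [← h3]
    exact h2)
  simpa using h1

private theorem v0_second1 {u w : ℝ × ℝ} {x h v p q : ℝ} (hw : Pos w) (hD : 0 < Dl x h)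
    (m : MinAt u w x h v) (k : K 1 x h w) (hv : v = L 1 x h u w)
    (hK : ∀ᶠ t in 𝓝[>] (0 : ℝ), K 1 (x + p * t) (h + q * t) w ∧
      0 < Dl (x + p * t) (h + q * t) ∧ D1 p q (x + p * t) (h + q * t) u w < 0) : False := by
  have hd := hasDerivAt_L1 p q x h 0 u w (by simpa using m.reg.g1_pos.ne')
    (by simpa using m.reg.cos_pos.ne') (by simpa using hD.ne')
    (by simpa using (la1_pos hw k).ne')
  refine path_neg (f' := fun t => D1 p q (x + p * t) (h + q * t) u w) hd.continuousAt ?_ ?_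
  · filter_upwards [hK] with t ht
    obtain ⟨h1, h2, h3⟩ := ht
    exact ⟨hasDerivAt_L1 p q x h t u w h1.reg.g1_pos.ne' h1.reg.cos_pos.ne' h2.ne'
      (la1_pos hw h1).ne', h3⟩
  · filter_upwards [hK] with t ht
    have h2 : v ≤ L1 (x + p * t) (h + q * t) u w := m.lo 1 _ _ ht.1
    have h3 : v = L1 x h u w := hv
    simp only [mul_zero, add_zero]
    rw [← h3]
    exact h2

private theorem v0_second2 {u w : ℝ × ℝ} {x h v p q : ℝ} (hw : Pos w) (hD : 0 < Dl x h)
    (m : MinAt u w x h v) (k : K 2 x h w) (hv : v = L 2 x h u w)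
    (hK : ∀ᶠ t in 𝓝[>] (0 : ℝ), K 2 (x + p * t) (h + q * t) w ∧
      0 < Dl (x + p * t) (h + q * t) ∧ D2 p q (x + p * t) (h + q * t) u w < 0) : False := by
  have hd := hasDerivAt_L2 p q x h 0 u w (by simpa using m.reg.g1_pos.ne')
    (by simpa using m.reg.cos_pos.ne') (by simpa using hD.ne')
    (by simpa using (la2_pos hw k).ne')
  refine path_neg (f' := fun t => D2 p q (x + p * t) (h + q * t) u w) hd.continuousAt ?_ ?_
  · filter_upwards [hK] with t ht
    obtain ⟨h1, h2, h3⟩ := ht
    exact ⟨hasDerivAt_L2 p q x h t u w h1.reg.g1_pos.ne' h1.reg.cos_pos.ne' h2.ne'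
      (la2_pos hw h1).ne', h3⟩
  · filter_upwards [hK] with t ht
    have h2 : v ≤ L2 (x + p * t) (h + q * t) u w := m.lo 2 _ _ ht.1
    have h3 : v = L2 x h u w := hv
    simp only [mul_zero, add_zero]
    rw [← h3]
    exact h2

private theorem v0_cla0 (p q x h : ℝ) (u : ℝ × ℝ) (hg : g1 x h ≠ 0) :
    ContinuousAt (fun t => la0 (x + p * t) (h + q * t) u) 0 :=
  (hd_ll0 q h 0 u).continuousAt.div ((hd_g1 p q x h 0).const_mul 4).continuousAt
    (by simpa using hg)

private theorem v0_cla1 (p q x h : ℝ) (u : ℝ × ℝ) (hc : cos h ≠ 0) :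
    ContinuousAt (fun t => la1 (x + p * t) (h + q * t) u) 0 :=
  (hd_ll1 p q x h 0 u).continuousAt.div ((hd_c q h 0).const_mul 4).continuousAt
    (by simpa using hc)

private theorem v0_cla2 (p q x h : ℝ) (u : ℝ × ℝ) :
    ContinuousAt (fun t => la2 (x + p * t) (h + q * t) u) 0 :=
  ((hd_ll2 p q x h 0 u).div_const 4).continuousAt

private theorem v0_cb10 (p q x h : ℝ) (w : ℝ × ℝ) (hc : cos h ≠ 0) (hD : Dl x h ≠ 0) :
    ContinuousAt (fun t => b10 (x + p * t) (h + q * t) w) 0 :=
  ((hd_g1 p q x h 0).continuousAt.mul (hd_ga p q x h 0 w).continuousAt).div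
    (((hd_c q h 0).const_mul 4).continuousAt.mul (hd_Dl p q x h 0).continuousAt)
    (by simpa using ⟨hc, hD⟩)

private theorem v0_cb12 (p q x h : ℝ) (w : ℝ × ℝ) (hc : cos h ≠ 0) (hD : Dl x h ≠ 0) :
    ContinuousAt (fun t => b12 (x + p * t) (h + q * t) w) 0 :=
  (hd_be q h 0 w).continuousAt.div
    (((hd_c q h 0).const_mul 4).continuousAt.mul (hd_Dl p q x h 0).continuousAt)
    (by simpa using ⟨hc, hD⟩)

private theorem v0_cb20 (p q x h : ℝ) (w : ℝ × ℝ) (hD : Dl x h ≠ 0) :
    ContinuousAt (fun t => b20 (x + p * t) (h + q * t) w) 0 :=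
  ((hd_g1 p q x h 0).continuousAt.mul (hd_al p q x h 0 w).continuousAt).div
    ((hd_Dl p q x h 0).const_mul 4).continuousAt (by simpa using hD)

private theorem v0_cb21 (p q x h : ℝ) (w : ℝ × ℝ) (hD : Dl x h ≠ 0) :
    ContinuousAt (fun t => b21 (x + p * t) (h + q * t) w) 0 :=
  ((hd_c q h 0).continuousAt.mul (hd_be q h 0 w).continuousAt).div
    ((hd_Dl p q x h 0).const_mul 4).continuousAt (by simpa using hD)

theorem ver0 {u w : ℝ × ℝ} {x h v : ℝ} (hu : Pos u) (hw : Pos w) (hh : 0 < h)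
    (hD : 0 < Dl x h) (m : MinAt u w x h v) (hz : be h w = 0) (hv : v = L 1 x h u w) :
    K 0 x h u := by
  have r := m.reg
  have hc := r.cos_pos
  have hg := r.g1_pos
  have hs : 0 < sg w := by unfold sg; linarith [hw.1, hw.2]
  have hdd : dd h w = (cos h - sin h) * sg w := by
    have := hz
    unfold be at this
    linarith
  have hal : al x h w = 2 * Dl x h * sg w := by
    unfold al
    rw [hdd]
    unfold QQ Dl
    ring
  have hga : ga x h w = 2 * cos h * Dl x h * sg w := by
    rw [ga_eq, hal, hz]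
    ring
  have hal0 : 0 < al x h w := by rw [hal]; positivity
  have hga0 : 0 < ga x h w := by rw [hga]; positivity
  have k1 : K 1 x h w := ⟨r, hga0.le, hz.ge⟩
  have k2 : K 2 x h w := ⟨r, hal0.le, hz.ge⟩
  have hv2 : v = L 2 x h u w := by
    rw [hv]
    exact (vertex_eq (u := u) r hD hw (i := 0) (j := 1) (j' := 2) hz (by decide) (by decide)).2
  have hl1 := la1_pos hw k1
  have hl2 := la2_pos hw k2
  have hep : 0 < ep x h := exp_pos _
  have hb12 : b12 x h w = 0 := by unfold b12; rw [hz, zero_div]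
  have hb21 : b21 x h w = 0 := by unfold b21; rw [hz, mul_zero, zero_div]
  have hb10 : b10 x h w = la1 x h w := by
    have := la1_eq x h w hc.ne' hg.ne' hD.ne'
    rw [hb12, add_zero] at this
    exact this.symm
  have hb20 : b20 x h w = la2 x h w := by
    have := la2_eq' x h w hc.ne' hg.ne' hD.ne'
    rw [hb21, add_zero] at this
    exact this.symm
  have hl12 : la2 x h w = la1 x h w := by
    have := la1_sub_la2 x h w hc.ne'
    rw [hz, mul_zero, neg_zero] at this
    have h4 : la1 x h w - la2 x h w = 0 := by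
      rcases mul_eq_zero.1 this with h5 | h5
      · exact absurd h5 (by positivity)
      · exact h5
    linarith
  -- positivity along the paths
  have evga : ∀ p q : ℝ, ∀ᶠ t in 𝓝[>] (0 : ℝ), 0 < ga (x + p * t) (h + q * t) w := fun p q =>
    ev_pos' (hd_ga p q x h 0 w).continuousAt (by simpa using hga0)
  have eval : ∀ p q : ℝ, ∀ᶠ t in 𝓝[>] (0 : ℝ), 0 < al (x + p * t) (h + q * t) w := fun p q =>
    ev_pos' (hd_al p q x h 0 w).continuousAt (by simpa using hal0)
  have evbe : ∀ᶠ t in 𝓝[>] (0 : ℝ), 0 < be (h + (-1) * t) w := by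
    refine ev_pos (hd_be (-1) h 0 w) ?_ ?_
    · simp only [mul_zero, add_zero]
      rw [hdd]
      have : 0 < 2 * cos h * sg w := by positivity
      linarith
    · simpa using hz.ge
  -- (i)
  have s1 : la1 x h w ≤ la0 x h u := by
    have h1 : 0 ≤ D1 1 0 x h u w := by
      refine v0_first1 hw hD m k1 hv ?_
      filter_upwards [v0_reg r hh hD (p := 1) (q := 0) (by norm_num) le_rfl, evga 1 0]
        with t h1 h2
      refine ⟨h1.1, h2.le, ?_⟩
      simp only [zero_mul, add_zero]
      exact hz.ge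
    have h2 : D1 1 0 x h u w = Dl x h * ep x h / g1 x h * (la0 x h u - la1 x h w) := by
      unfold D1
      rw [hb12, hb10]
      field_simp
      ring
    rw [h2] at h1
    have h3 : 0 < Dl x h * ep x h / g1 x h := by positivity
    have := nonneg_of_mul_nonneg_right h1 h3
    linarith
  -- (ii)
  have s2 : la0 x h u ≤ la1 x h w := by
    have h1 : 0 ≤ D2 0 (-1) x h u w := by
      refine v0_first2 hw hD m k2 hv2 ?_
      filter_upwards [v0_reg r hh hD (p := 0) (q := -1) le_rfl (by norm_num), eval 0 (-1), evbe]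
        with t h1 h2 h3
      exact ⟨h1.1, h2.le, h3.le⟩
    have h2 : D2 0 (-1) x h u w = Dl x h * ep x h / g1 x h * (la2 x h w - la0 x h u) := by
      unfold D2
      rw [hb21, hb20]
      field_simp
      ring
    rw [h2] at h1
    have h3 : 0 < Dl x h * ep x h / g1 x h := by positivity
    have := nonneg_of_mul_nonneg_right h1 h3
    linarith
  have s3 : la0 x h u = la1 x h w := le_antisymm s2 s1
  refine ⟨r, ?_, ?_⟩
  · -- (iv)
    by_contra hneg
    push Not at hneg
    have hB : ContinuousAt (fun t : ℝ =>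
        -((la2 (x + 1 * t) (h + (-1) * t) w -
          (b20 (x + 1 * t) (h + (-1) * t) w * la0 (x + 1 * t) (h + (-1) * t) u +
            b21 (x + 1 * t) (h + (-1) * t) w * la1 (x + 1 * t) (h + (-1) * t) u) /
              la2 (x + 1 * t) (h + (-1) * t) w) * (1 + (x + 1 * t)) / cos (h + (-1) * t)) +
        b20 (x + 1 * t) (h + (-1) * t) w * ga (x + 1 * t) (h + (-1) * t) u /
          (2 * cos (h + (-1) * t) * g1 (x + 1 * t) (h + (-1) * t) *
            la2 (x + 1 * t) (h + (-1) * t) w)) 0 := by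
      have e1 := v0_cla2 1 (-1) x h w
      have e2 := v0_cb20 1 (-1) x h w hD.ne'
      have e3 := v0_cla0 1 (-1) x h u hg.ne'
      have e4 := v0_cb21 1 (-1) x h w hD.ne'
      have e5 := v0_cla1 1 (-1) x h u hc.ne'
      have e6 := ((hd_X 1 x 0).const_add 1).continuousAt
      have e7 := (hd_c (-1) h 0).continuousAt
      have e8 := (hd_ga 1 (-1) x h 0 u).continuousAt
      have e9 := (hd_g1 1 (-1) x h 0).continuousAt
      exact ((((e1.sub (((e2.mul e3).add (e4.mul e5)).div e1 (by simpa using hl2.ne'))).mul e6).div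
        e7 (by simpa using hc.ne')).neg).add ((e2.mul e8).div
          (((continuousAt_const.mul e7).mul e9).mul e1)
          (by simpa using ⟨⟨hc.ne', hg.ne'⟩, hl2.ne'⟩))
    have hB0 := ev_pos' hB (by
      simp only [mul_zero, add_zero]
      rw [hb20, hb21, s3, hl12]
      have : 0 < ga x h u / (2 * cos h * g1 x h) := by positivity
      have e : -((la1 x h w - (la1 x h w * la1 x h w + 0 * la1 x h u) / la1 x h w) * (1 + x) /
          cos h) + la1 x h w * ga x h u / (2 * cos h * g1 x h * la1 x h w)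
          = ga x h u / (2 * cos h * g1 x h) := by
        field_simp
        ring
      rw [e]
      exact this)
    refine v0_second2 (p := 1) (q := -1) hw hD m k2 hv2 ?_
    filter_upwards [v0_reg r hh hD (p := 1) (q := -1) (by norm_num) (by norm_num), eval 1 (-1),
      evbe, hB0] with t h1 h2 h3 h4
    have k2' : K 2 (x + 1 * t) (h + (-1) * t) w := ⟨h1.1, h2.le, h3.le⟩
    refine ⟨k2', h1.2, ?_⟩
    have hl2' := la2_pos hw k2'
    have hb : 0 < b21 (x + 1 * t) (h + (-1) * t) w :=
      div_pos (mul_pos h1.1.cos_pos h3) (mul_pos four_pos h1.2)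
    have hE : 0 < ep (x + 1 * t) (h + (-1) * t) := exp_pos _
    have h5 : 0 < Dl (x + 1 * t) (h + (-1) * t) * ep (x + 1 * t) (h + (-1) * t) *
        b21 (x + 1 * t) (h + (-1) * t) w / la2 (x + 1 * t) (h + (-1) * t) w :=
      div_pos (mul_pos (mul_pos h1.2 hE) hb) hl2'
    have h6 := mul_pos h5 h4
    have h7 : D2 1 (-1) (x + 1 * t) (h + (-1) * t) u w = -(Dl (x + 1 * t) (h + (-1) * t) *
        ep (x + 1 * t) (h + (-1) * t) * b21 (x + 1 * t) (h + (-1) * t) w /
          la2 (x + 1 * t) (h + (-1) * t) w *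
        (-((la2 (x + 1 * t) (h + (-1) * t) w -
          (b20 (x + 1 * t) (h + (-1) * t) w * la0 (x + 1 * t) (h + (-1) * t) u +
            b21 (x + 1 * t) (h + (-1) * t) w * la1 (x + 1 * t) (h + (-1) * t) u) /
              la2 (x + 1 * t) (h + (-1) * t) w) * (1 + (x + 1 * t)) / cos (h + (-1) * t)) +
        b20 (x + 1 * t) (h + (-1) * t) w * ga (x + 1 * t) (h + (-1) * t) u /
          (2 * cos (h + (-1) * t) * g1 (x + 1 * t) (h + (-1) * t) *
            la2 (x + 1 * t) (h + (-1) * t) w))) := by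
      unfold D2
      ring
    rw [h7]
    linarith
  · -- (iii)
    by_contra hneg
    push Not at hneg
    have hB : ContinuousAt (fun t : ℝ =>
        ((la1 (x + 0 * t) (h + (-1) * t) w -
          (b10 (x + 0 * t) (h + (-1) * t) w * la0 (x + 0 * t) (h + (-1) * t) u +
            b12 (x + 0 * t) (h + (-1) * t) w * la2 (x + 0 * t) (h + (-1) * t) u) /
              la1 (x + 0 * t) (h + (-1) * t) w) * (1 + (x + 0 * t)) / cos (h + (-1) * t)) -
        b10 (x + 0 * t) (h + (-1) * t) w * al (x + 0 * t) (h + (-1) * t) u /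
          (2 * g1 (x + 0 * t) (h + (-1) * t) *
            la1 (x + 0 * t) (h + (-1) * t) w)) 0 := by
      have e1 := v0_cla1 0 (-1) x h w hc.ne'
      have e2 := v0_cb10 0 (-1) x h w hc.ne' hD.ne'
      have e3 := v0_cla0 0 (-1) x h u hg.ne'
      have e4 := v0_cb12 0 (-1) x h w hc.ne' hD.ne'
      have e5 := v0_cla2 0 (-1) x h u
      have e6 := ((hd_X 0 x 0).const_add 1).continuousAt
      have e7 := (hd_c (-1) h 0).continuousAt
      have e8 := (hd_al 0 (-1) x h 0 u).continuousAt
      have e9 := (hd_g1 0 (-1) x h 0).continuousAt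
      exact (((e1.sub (((e2.mul e3).add (e4.mul e5)).div e1 (by simpa using hl1.ne'))).mul e6).div
        e7 (by simpa using hc.ne')).sub ((e2.mul e8).div
          ((continuousAt_const.mul e9).mul e1)
          (by simpa using ⟨hg.ne', hl1.ne'⟩))
    have hB0 := ev_pos' hB (by
      simp only [mul_zero, add_zero]
      rw [hb10, hb12, s3]
      have : 0 < -(al x h u) / (2 * g1 x h) := div_pos (by linarith) (by positivity)
      have e : (la1 x h w - (la1 x h w * la1 x h w + 0 * la2 x h u) / la1 x h w) * (1 + x) /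
          cos h - la1 x h w * al x h u / (2 * g1 x h * la1 x h w)
          = -(al x h u) / (2 * g1 x h) := by
        field_simp
        ring
      rw [e]
      exact this)
    refine v0_second1 (p := 0) (q := -1) hw hD m k1 hv ?_
    filter_upwards [v0_reg r hh hD (p := 0) (q := -1) le_rfl (by norm_num), evga 0 (-1),
      evbe, hB0] with t h1 h2 h3 h4
    have k1' : K 1 (x + 0 * t) (h + (-1) * t) w := ⟨h1.1, h2.le, h3.le⟩
    refine ⟨k1', h1.2, ?_⟩
    have hl1' := la1_pos hw k1'
    have hb : 0 < b12 (x + 0 * t) (h + (-1) * t) w :=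
      div_pos h3 (mul_pos (mul_pos four_pos h1.1.cos_pos) h1.2)
    have hE : 0 < ep (x + 0 * t) (h + (-1) * t) := exp_pos _
    have h5 : 0 < Dl (x + 0 * t) (h + (-1) * t) * ep (x + 0 * t) (h + (-1) * t) *
        b12 (x + 0 * t) (h + (-1) * t) w / la1 (x + 0 * t) (h + (-1) * t) w :=
      div_pos (mul_pos (mul_pos h1.2 hE) hb) hl1'
    have h6 := mul_pos h5 h4
    have h7 : D1 0 (-1) (x + 0 * t) (h + (-1) * t) u w = -(Dl (x + 0 * t) (h + (-1) * t) *
        ep (x + 0 * t) (h + (-1) * t) * b12 (x + 0 * t) (h + (-1) * t) w /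
          la1 (x + 0 * t) (h + (-1) * t) w *
        (((la1 (x + 0 * t) (h + (-1) * t) w -
          (b10 (x + 0 * t) (h + (-1) * t) w * la0 (x + 0 * t) (h + (-1) * t) u +
            b12 (x + 0 * t) (h + (-1) * t) w * la2 (x + 0 * t) (h + (-1) * t) u) /
              la1 (x + 0 * t) (h + (-1) * t) w) * (1 + (x + 0 * t)) / cos (h + (-1) * t)) -
        b10 (x + 0 * t) (h + (-1) * t) w * al (x + 0 * t) (h + (-1) * t) u /
          (2 * g1 (x + 0 * t) (h + (-1) * t) *
            la1 (x + 0 * t) (h + (-1) * t) w))) := by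
      unfold D1
      ring
    rw [h7]
    linarith

end Pool.Agent.Helper12.CR
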