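import Pool.Agent.Helper12.CR.Der

set_option autoImplicit false

/-!
# Project CR, module Path: one sided minima along straight lines
-/

namespace Pool.Agent.Helper12.CR

open Real Filter Topology

/-- first order condition -/
theorem path_first {f : ℝ → ℝ} {a : ℝ} (hd : HasDerivAt f a 0)
    (hm : ∀ᶠ t in 𝓝[>] (0 : ℝ), f 0 ≤ f t) : 0 ≤ a := by
  by_contra hneg
  push Not at hneg
  have h1 := hd.tendsto_slope_zero_right
  have h2 : ∀ᶠ t in 𝓝[>] (0 : ℝ), t⁻¹ • (f (0 + t) - f 0) < 0 :=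
    h1.eventually (gt_mem_nhds hneg)
  have h3 : ∀ᶠ t in 𝓝[>] (0 : ℝ), (0 : ℝ) < t := self_mem_nhdsWithin
  obtain ⟨t, h4, h5, h6⟩ := (h2.and (h3.and hm)).exists
  rw [zero_add, smul_eq_mul] at h4
  have : 0 ≤ t⁻¹ * (f t - f 0) := mul_nonneg (inv_nonneg.mpr h5.le) (by linarith)
  linarith

/-- no minimum if the derivative is negative just after `0` -/
theorem path_neg {f f' : ℝ → ℝ} (hc : ContinuousAt f 0)
    (hd : ∀ᶠ t in 𝓝[>] (0 : ℝ), HasDerivAt f (f' t) t ∧ f' t < 0)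
    (hm : ∀ᶠ t in 𝓝[>] (0 : ℝ), f 0 ≤ f t) : False := by
  obtain ⟨δ, hδ, h1⟩ := mem_nhdsGT_iff_exists_Ioo_subset.mp (hd.and hm)
  have hδ0 : (0 : ℝ) < δ := hδ
  set τ := δ / 2 with hτ
  have hτ0 : 0 < τ := by positivity
  have hτδ : τ < δ := by linarith
  have hcont : ContinuousOn f (Set.Icc 0 τ) := by
    intro t ht
    rcases eq_or_lt_of_le ht.1 with h | h
    · rw [← h]; exact hc.continuousWithinAt
    · exact ((h1 ⟨h, lt_of_le_of_lt ht.2 hτδ⟩).1.1.continuousAt).continuousWithinAt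
  obtain ⟨c, hc1, hc2⟩ := exists_hasDerivAt_eq_slope f f' hτ0 hcont
    (fun t ht => (h1 ⟨ht.1, ht.2.trans hτδ⟩).1.1)
  have h2 : f' c < 0 := (h1 ⟨hc1.1, hc1.2.trans hτδ⟩).1.2
  have h3 : f 0 ≤ f τ := (h1 ⟨hτ0, hτδ⟩).2
  rw [hc2] at h2
  have : 0 ≤ (f τ - f 0) / (τ - 0) := div_nonneg (by linarith) (by linarith)
  linarith

/-- a function with positive derivative and nonnegative value at `0` is positive just after -/
theorem ev_pos {f : ℝ → ℝ} {a : ℝ} (hd : HasDerivAt f a 0) (ha : 0 < a) (h0 : 0 ≤ f 0) :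
    ∀ᶠ t in 𝓝[>] (0 : ℝ), 0 < f t := by
  have h1 := hd.tendsto_slope_zero_right
  have h2 : ∀ᶠ t in 𝓝[>] (0 : ℝ), 0 < t⁻¹ • (f (0 + t) - f 0) :=
    h1.eventually (lt_mem_nhds ha)
  have h3 : ∀ᶠ t in 𝓝[>] (0 : ℝ), (0 : ℝ) < t := self_mem_nhdsWithin
  filter_upwards [h2, h3] with t h4 h5
  rw [zero_add, smul_eq_mul] at h4
  have : 0 < f t - f 0 := by
    by_contra h6
    push Not at h6
    have := mul_nonpos_of_nonneg_of_nonpos (inv_nonneg.mpr h5.le) h6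
    linarith
  linarith

/-- positivity persists -/
theorem ev_pos' {f : ℝ → ℝ} (hc : ContinuousAt f 0) (h0 : 0 < f 0) :
    ∀ᶠ t in 𝓝[>] (0 : ℝ), 0 < f t :=
  (hc.eventually (lt_mem_nhds h0)).filter_mono nhdsWithin_le_nhds

end Pool.Agent.Helper12.CR
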