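import Pool.Agent.Helper12.CR.Ver0
import Pool.Agent.Helper12.CR.Path
import Pool.Agent.Helper12.CR.Exist
import Pool.Agent.Helper12.CR.Swap
import Pool.Agent.Helper12.CR.Mirror

set_option autoImplicit false

/-!
# Project CR, module Ver1: minimisers with `w` on the ray `U 1`

`(x, h)` minimises, `0 < h`, `0 < Δ` (so `h < π/4`), `v` is the minimal value.  `p = 1 + x`,
`σ = sg w`, `λ` = common value of the two `la_j w` which are defined on the ray
(`la0_sub_la1`, `la0_sub_la2`, `la1_sub_la2`), and of the nonzero coefficients `b` (`la0_eq`,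
`la1_eq`, `la2_eq'`).  `vertex_eq` says that the other plane has the same value at `(x, h)`.
Directions: `path (p, q)` is `t ↦ (x + p t, h + q t)`; the derivatives are
`hasDerivAt_L0/L1/L2`, the calculus lemmas are `path_first`, `path_neg`, `ev_pos`, `ev_pos'`
(module Path).  Admissibility (`K j` along the path for small `t ≥ 0`) has to be checked each time
with `hd_al`, `hd_be`, `hd_ga`.

`ver1` (`al x h w = 0`, `v = L 0 = L 2`, `λ = la0 w = la2 w = b01 = b21`): if `x = 0` it is the
 mirror image of `ver0` (`MinAt.mirror`).  Let `x > 0`.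
 (i) `(-1, 0)`, face `0` (`al` becomes positive: derivative `2 c σ / p`):
  `D0 (-1) 0 = -(Δ ε/g₁)(λ - la1 u) ≥ 0`.
 (ii) `(0, -1)`, face `2` (`al` becomes positive: derivative `2 g₁ σ`): `D2 0 (-1) =
  Δ ε (λ - la1 u) (1+x)/c ≥ 0`.  So `la1 u = λ`.
 (iii) `(0,-1)`, face `0`: `D0 0 (-1) = (Δ ε b02/la0) * (-(la0 - μ)/g₁ + b01 be u/(2 c la0))`, the
  bracket tends to `be u/(2c)`: `be u ≥ 0`.
 (iv) `(-1,0)`, face `2`: `D2 (-1) 0 = (Δ ε b20/la2) * ((la2 - μ)/g₁ + b21 ga u/(2 c g₁ la2))`, the
  bracket tends to `ga u/(2 c g₁)`: `ga u ≥ 0`.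
-/

namespace Pool.Agent.Helper12.CR

open Real Filter Topology

private theorem v1_const {p x : ℝ} : ContinuousAt (fun t : ℝ => x + p * t) 0 :=
  (hd_X p x 0).continuousAt

private theorem v1_zero (p x : ℝ) : x + p * 0 = x := by ring

/-- the region is entered -/
private theorem v1_reg {x h p q : ℝ} (r : Reg x h) (hD : 0 < Dl x h) (hx : 0 < x ∨ 0 ≤ p)
    (hh : 0 < h ∨ 0 ≤ q) : ∀ᶠ t in 𝓝[>] (0 : ℝ),
      Reg (x + p * t) (h + q * t) ∧ 0 < Dl (x + p * t) (h + q * t) := by
  have h4 := r.lt_pi hD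
  have e0 : ∀ᶠ t in 𝓝[>] (0 : ℝ), (0 : ℝ) < t := self_mem_nhdsWithin
  have e1 : ∀ᶠ t in 𝓝[>] (0 : ℝ), 0 ≤ x + p * t := by
    rcases hx with hx | hp
    · have := ev_pos' (f := fun t : ℝ => x + p * t) v1_const (by simpa using hx)
      filter_upwards [this] with t ht
      exact ht.le
    · filter_upwards [e0] with t ht
      have h1 : 0 ≤ x := r.1
      have := mul_nonneg hp ht.le
      linarith
  have e2 : ∀ᶠ t in 𝓝[>] (0 : ℝ), 0 ≤ h + q * t := by
    rcases hh with hh | hq
    · have := ev_pos' (f := fun t : ℝ => h + q * t) v1_const (by simpa using hh)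
      filter_upwards [this] with t ht
      exact ht.le
    · filter_upwards [e0] with t ht
      have h1 : 0 ≤ h := r.2.1
      have := mul_nonneg hq ht.le
      linarith
  have e3 : ∀ᶠ t in 𝓝[>] (0 : ℝ), 0 < π / 4 - (h + q * t) :=
    ev_pos' (f := fun t : ℝ => π / 4 - (h + q * t)) (continuousAt_const.sub v1_const)
      (by simpa using h4)
  have e4 : ∀ᶠ t in 𝓝[>] (0 : ℝ), 0 < Dl (x + p * t) (h + q * t) :=
    ev_pos' (f := fun t : ℝ => Dl (x + p * t) (h + q * t)) (hd_Dl p q x h 0).continuousAt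
      (by simpa using hD)
  filter_upwards [e1, e2, e3, e4] with t h1 h2 h3 h5
  exact ⟨⟨h1, h2, by linarith, h5.le⟩, h5⟩

private theorem v1_la0 {p q x h : ℝ} (u : ℝ × ℝ) (hg : g1 x h ≠ 0) :
    ContinuousAt (fun t => la0 (x + p * t) (h + q * t) u) 0 :=
  (hd_ll0 q h 0 u).continuousAt.div (continuousAt_const.mul (hd_g1 p q x h 0).continuousAt)
    (by simpa using hg)

private theorem v1_la1 {p q x h : ℝ} (u : ℝ × ℝ) (hc : cos h ≠ 0) :
    ContinuousAt (fun t => la1 (x + p * t) (h + q * t) u) 0 :=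
  (hd_ll1 p q x h 0 u).continuousAt.div (continuousAt_const.mul (hd_c q h 0).continuousAt)
    (by simpa using hc)

private theorem v1_la2 {p q x h : ℝ} (u : ℝ × ℝ) :
    ContinuousAt (fun t => la2 (x + p * t) (h + q * t) u) 0 :=
  (hd_ll2 p q x h 0 u).continuousAt.div_const 4

private theorem v1_b01 {p q x h : ℝ} (w : ℝ × ℝ) (hg : g1 x h ≠ 0) (hD : Dl x h ≠ 0) :
    ContinuousAt (fun t => b01 (x + p * t) (h + q * t) w) 0 :=
  (((hd_c q h 0).continuousAt.mul (hd_ga p q x h 0 w).continuousAt).div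
    ((continuousAt_const.mul (hd_g1 p q x h 0).continuousAt).mul
      (hd_Dl p q x h 0).continuousAt) (by simpa using ⟨hg, hD⟩)).neg

private theorem v1_b02 {p q x h : ℝ} (w : ℝ × ℝ) (hg : g1 x h ≠ 0) (hD : Dl x h ≠ 0) :
    ContinuousAt (fun t => b02 (x + p * t) (h + q * t) w) 0 :=
  ((hd_al p q x h 0 w).continuousAt).div
    ((continuousAt_const.mul (hd_g1 p q x h 0).continuousAt).mul
      (hd_Dl p q x h 0).continuousAt) (by simpa using ⟨hg, hD⟩)

private theorem v1_b20 {p q x h : ℝ} (w : ℝ × ℝ) (hD : Dl x h ≠ 0) :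
    ContinuousAt (fun t => b20 (x + p * t) (h + q * t) w) 0 :=
  ((hd_g1 p q x h 0).continuousAt.mul (hd_al p q x h 0 w).continuousAt).div
    (continuousAt_const.mul (hd_Dl p q x h 0).continuousAt) (by simpa using hD)

private theorem v1_b21 {p q x h : ℝ} (w : ℝ × ℝ) (hD : Dl x h ≠ 0) :
    ContinuousAt (fun t => b21 (x + p * t) (h + q * t) w) 0 :=
  ((hd_c q h 0).continuousAt.mul (hd_be q h 0 w).continuousAt).div
    (continuousAt_const.mul (hd_Dl p q x h 0).continuousAt) (by simpa using hD)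

private theorem v1_L0 {p q x h : ℝ} (u : ℝ × ℝ) {w : ℝ × ℝ} (hg : g1 x h ≠ 0)
    (hc : cos h ≠ 0) (hD : Dl x h ≠ 0) (hl : la0 x h w ≠ 0) :
    HasDerivAt (fun t => L0 (x + p * t) (h + q * t) u w) (D0 p q x h u w) 0 := by
  have := hasDerivAt_L0 p q x h 0 u w (by simpa using hg) (by simpa using hc)
    (by simpa using hD) (by simpa using hl)
  simpa using this

private theorem v1_L2 {p q x h : ℝ} (u : ℝ × ℝ) {w : ℝ × ℝ} (hg : g1 x h ≠ 0)
    (hc : cos h ≠ 0) (hD : Dl x h ≠ 0) (hl : la2 x h w ≠ 0) :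
    HasDerivAt (fun t => L2 (x + p * t) (h + q * t) u w) (D2 p q x h u w) 0 := by
  have := hasDerivAt_L2 p q x h 0 u w (by simpa using hg) (by simpa using hc)
    (by simpa using hD) (by simpa using hl)
  simpa using this

/-- the case `x > 0` -/
private theorem v1_main {u w : ℝ × ℝ} {x h v : ℝ} (hw : Pos w) (hx : 0 < x) (hh : 0 < h)
    (hD : 0 < Dl x h) (m : MinAt u w x h v) (hz : al x h w = 0) (hv : v = L 0 x h u w) :
    K 1 x h u := by
  have r : Reg x h := m.reg
  have hg := r.g1_pos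
  have hc := r.cos_pos
  have hs := r.sin_nonneg
  have hσ : 0 < sg w := add_pos hw.1 hw.2
  have hε : 0 < ep x h := exp_pos _
  obtain ⟨k0, hv02⟩ := vertex_eq (u := u) r hD hw (i := 1) (j := 0) (j' := 2) hz
    (by decide) (by decide)
  obtain ⟨k2, -⟩ := vertex_eq (u := u) r hD hw (i := 1) (j := 2) (j' := 0) hz
    (by decide) (by decide)
  have hv2 : v = L 2 x h u w := hv.trans hv02
  -- the coefficients at the base point
  have hl0 : 0 < la0 x h w := la0_pos hw k0
  have hl2 : 0 < la2 x h w := la2_pos hw k2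
  have hb02 : b02 x h w = 0 := by unfold b02; rw [hz, zero_div]
  have hb20 : b20 x h w = 0 := by unfold b20; rw [hz, mul_zero, zero_div]
  have hb01 : b01 x h w = la0 x h w := by
    rw [la0_eq x h w hc.ne' hg.ne' hD.ne', hb02, add_zero]
  have hb21 : b21 x h w = la2 x h w := by
    rw [la2_eq' x h w hc.ne' hg.ne' hD.ne', hb20, zero_add]
  have hl02 : la0 x h w = la2 x h w := by
    have h1 := la0_sub_la2 x h w hg.ne'
    rw [hz, mul_zero, neg_zero] at h1
    rcases mul_eq_zero.1 h1 with h2 | h2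
    · exact absurd h2 (by positivity)
    · linarith
  -- `be w > 0`, `ga w < 0`
  have hbe : 0 < be h w := by
    have h1 : 0 < b21 x h w := by rw [hb21]; exact hl2
    unfold b21 at h1
    by_contra hcon
    have h2 : cos h * be h w / (4 * Dl x h) ≤ 0 :=
      div_nonpos_of_nonpos_of_nonneg (mul_nonpos_of_nonneg_of_nonpos hc.le (not_lt.1 hcon))
        (by positivity)
    linarith
  have hga : ga x h w < 0 := by
    rw [ga_eq, hz, mul_zero, zero_sub, neg_lt_zero]
    positivity
  -- the derivative of `al` in both directions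
  have hdd : (1 + x) * dd h w = -(QQ x h * sg w) := by
    unfold al at hz
    linarith
  have al1 : ∀ᶠ t in 𝓝[>] (0 : ℝ), 0 < al (x + (-1) * t) (h + 0 * t) w := by
    have h1 := hd_al (-1) 0 x h 0 w
    refine ev_pos h1 ?_ (by simpa using hz.ge)
    have h2 : 0 < 2 * cos h * sg w := by positivity
    have h3 : (1 + x) * ((-1 + 0 * (1 + (x + (-1) * 0))) * dd (h + 0 * 0) w +
      (-(-1 * (cos (h + 0 * 0) + sin (h + 0 * 0))) - 0 * ((1 - (x + (-1) * 0)) *
        sin (h + 0 * 0) + (1 + (x + (-1) * 0)) * cos (h + 0 * 0))) * sg w) =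
        2 * cos h * sg w := by
      simp only [v1_zero]
      unfold QQ at hdd
      linear_combination -hdd
    rw [← h3] at h2
    exact (mul_pos_iff_of_pos_left (by linarith)).1 h2
  have al2 : ∀ᶠ t in 𝓝[>] (0 : ℝ), 0 < al (x + 0 * t) (h + (-1) * t) w := by
    have h1 := hd_al 0 (-1) x h 0 w
    refine ev_pos h1 ?_ (by simpa using hz.ge)
    have h2 : 0 < 2 * g1 x h * sg w := by positivity
    have h3 : (0 + -1 * (1 + (x + 0 * 0))) * dd (h + (-1) * 0) w +
      (-(0 * (cos (h + (-1) * 0) + sin (h + (-1) * 0))) - -1 * ((1 - (x + 0 * 0)) *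
        sin (h + (-1) * 0) + (1 + (x + 0 * 0)) * cos (h + (-1) * 0))) * sg w =
        2 * g1 x h * sg w := by
      simp only [v1_zero]
      unfold QQ at hdd
      unfold g1
      linear_combination -hdd
    rw [h3]
    exact h2
  have reg1 := v1_reg (p := -1) (q := 0) r hD (Or.inl hx) (Or.inl hh)
  have reg2 := v1_reg (p := 0) (q := -1) r hD (Or.inl hx) (Or.inl hh)
  have be1 : ∀ᶠ t in 𝓝[>] (0 : ℝ), 0 < be (h + 0 * t) w :=
    ev_pos' (f := fun t => be (h + 0 * t) w) (hd_be 0 h 0 w).continuousAt (by simpa using hbe)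
  have be2 : ∀ᶠ t in 𝓝[>] (0 : ℝ), 0 < be (h + (-1) * t) w :=
    ev_pos' (f := fun t => be (h + (-1) * t) w) (hd_be (-1) h 0 w).continuousAt
      (by simpa using hbe)
  have ga1 : ∀ᶠ t in 𝓝[>] (0 : ℝ), 0 < -ga (x + (-1) * t) (h + 0 * t) w :=
    ev_pos' (f := fun t => -ga (x + (-1) * t) (h + 0 * t) w)
      (hd_ga (-1) 0 x h 0 w).continuousAt.neg (by simpa using hga)
  have ga2 : ∀ᶠ t in 𝓝[>] (0 : ℝ), 0 < -ga (x + 0 * t) (h + (-1) * t) w :=
    ev_pos' (f := fun t => -ga (x + 0 * t) (h + (-1) * t) w)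
      (hd_ga 0 (-1) x h 0 w).continuousAt.neg (by simpa using hga)
  -- (i)
  have c1 : 0 ≤ D0 (-1) 0 x h u w := by
    refine path_first (v1_L0 u hg.ne' hc.ne' hD.ne' hl0.ne') ?_
    filter_upwards [reg1, al1, ga1] with t h1 h2 h3
    have h4 := m.lo 0 (x + (-1) * t) (h + 0 * t) ⟨h1.1, by linarith, h2.le⟩
    simp only [v1_zero]
    rw [hv] at h4
    exact h4
  have d1 : la0 x h w ≤ la1 x h u := by
    unfold D0 at c1
    rw [hb01, hb02] at c1
    by_contra hcon
    have h1 : 0 < la0 x h w - la1 x h u := by linarith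
    have h2 : Dl x h * ep x h / la0 x h w *
        ((la0 x h w - (la0 x h w * la1 x h u + 0 * la2 x h u) / la0 x h w) *
        (-1 * la0 x h w + 0 * 0) / g1 x h -
      0 * (la0 x h w * 0 * be h u / (2 * cos h * la0 x h w))) =
        -(Dl x h * ep x h * (la0 x h w - la1 x h u) / g1 x h) := by
      field_simp
      ring
    rw [h2] at c1
    have h3 : 0 < Dl x h * ep x h * (la0 x h w - la1 x h u) / g1 x h := by positivity
    linarith
  -- (ii)
  have c2 : 0 ≤ D2 0 (-1) x h u w := by
    refine path_first (v1_L2 u hg.ne' hc.ne' hD.ne' hl2.ne') ?_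
    filter_upwards [reg2, al2, be2] with t h1 h2 h3
    have h4 := m.lo 2 (x + 0 * t) (h + (-1) * t) ⟨h1.1, h2.le, h3.le⟩
    simp only [v1_zero]
    rw [hv2] at h4
    exact h4
  have d2 : la1 x h u ≤ la2 x h w := by
    unfold D2 at c2
    rw [hb20, hb21] at c2
    by_contra hcon
    have h1 : 0 < la1 x h u - la2 x h w := by linarith
    have h2 : -(Dl x h * ep x h / la2 x h w *
        ((la2 x h w - (0 * la0 x h u + la2 x h w * la1 x h u) / la2 x h w) *
        (0 * 0 / g1 x h + -1 * (0 / g1 x h + (1 + x) * la2 x h w / cos h)) +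
      0 * (0 * la2 x h w * ga x h u / (2 * cos h * g1 x h * la2 x h w)))) =
        -(Dl x h * ep x h * (la1 x h u - la2 x h w) * (1 + x) / cos h) := by
      field_simp
      ring
    rw [h2] at c2
    have h3 : 0 < Dl x h * ep x h * (la1 x h u - la2 x h w) * (1 + x) / cos h := by positivity
    linarith
  have hla : la1 x h u = la0 x h w := le_antisymm (by rw [hl02]; exact d2) d1
  -- (iii)
  have c3 : 0 ≤ be h u := by
    by_contra hcon
    push Not at hcon
    have hB : ContinuousAt (fun t =>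
        -(-((la0 (x + 0 * t) (h + (-1) * t) w -
          (b01 (x + 0 * t) (h + (-1) * t) w * la1 (x + 0 * t) (h + (-1) * t) u +
            b02 (x + 0 * t) (h + (-1) * t) w * la2 (x + 0 * t) (h + (-1) * t) u) /
            la0 (x + 0 * t) (h + (-1) * t) w)) / g1 (x + 0 * t) (h + (-1) * t) +
          b01 (x + 0 * t) (h + (-1) * t) w * be (h + (-1) * t) u /
            (2 * cos (h + (-1) * t) * la0 (x + 0 * t) (h + (-1) * t) w))) 0 := by
      refine (ContinuousAt.add (ContinuousAt.div (ContinuousAt.neg (ContinuousAt.sub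
        (v1_la0 w hg.ne') (ContinuousAt.div (ContinuousAt.add
          (ContinuousAt.mul (v1_b01 w hg.ne' hD.ne') (v1_la1 u hc.ne'))
          (ContinuousAt.mul (v1_b02 w hg.ne' hD.ne') (v1_la2 u))) (v1_la0 w hg.ne') ?_)))
        (hd_g1 0 (-1) x h 0).continuousAt ?_) (ContinuousAt.div (ContinuousAt.mul
          (v1_b01 w hg.ne' hD.ne') (hd_be (-1) h 0 u).continuousAt)
          (ContinuousAt.mul (ContinuousAt.mul continuousAt_const (hd_c (-1) h 0).continuousAt)
            (v1_la0 w hg.ne')) ?_)).neg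
      · simpa using hl0.ne'
      · simpa using hg.ne'
      · simpa using ⟨hc.ne', hl0.ne'⟩
    have hB' := ev_pos' hB (by
      simp only [v1_zero]
      rw [hb01, hb02, hla]
      have h1 : -(-(la0 x h w - (la0 x h w * la0 x h w + 0 * la2 x h u) / la0 x h w) / g1 x h +
        la0 x h w * be h u / (2 * cos h * la0 x h w)) = -be h u / (2 * cos h) := by
        field_simp
        ring
      rw [h1]
      exact div_pos (by linarith) (by positivity))
    refine path_neg (f := fun t => L0 (x + 0 * t) (h + (-1) * t) u w)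
      (f' := fun t => D0 0 (-1) (x + 0 * t) (h + (-1) * t) u w)
      (v1_L0 u hg.ne' hc.ne' hD.ne' hl0.ne').continuousAt ?_ ?_
    · filter_upwards [reg2, al2, ga2, hB'] with t h1 h2 h3 h4
      have k : K 0 (x + 0 * t) (h + (-1) * t) w := ⟨h1.1, by linarith, h2.le⟩
      have hg' := h1.1.g1_pos
      have hc' := h1.1.cos_pos
      have hl' := la0_pos hw k
      have hD' := h1.2
      refine ⟨hasDerivAt_L0 0 (-1) x h t u w hg'.ne' hc'.ne' hD'.ne' hl'.ne', ?_⟩
      have hb' : 0 < b02 (x + 0 * t) (h + (-1) * t) w := by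
        unfold b02
        positivity
      have hε' : 0 < ep (x + 0 * t) (h + (-1) * t) := exp_pos _
      unfold D0
      generalize la0 (x + 0 * t) (h + (-1) * t) w = A at *
      generalize b02 (x + 0 * t) (h + (-1) * t) w = B at *
      generalize b01 (x + 0 * t) (h + (-1) * t) w = C at *
      generalize la1 (x + 0 * t) (h + (-1) * t) u = E at *
      generalize la2 (x + 0 * t) (h + (-1) * t) u = F at *
      generalize g1 (x + 0 * t) (h + (-1) * t) = G at *
      generalize Dl (x + 0 * t) (h + (-1) * t) = H at *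
      generalize ep (x + 0 * t) (h + (-1) * t) = I at *
      generalize be (h + (-1) * t) u = J at *
      generalize cos (h + (-1) * t) = M at *
      have h5 : H * I / A * ((A - (C * E + B * F) / A) * (0 * A + -1 * B) / G -
          -1 * (C * B * J / (2 * M * A))) =
          -(H * I / A * B * -(-(A - (C * E + B * F) / A) / G + C * J / (2 * M * A))) := by
        field_simp
        ring
      rw [h5, neg_lt_zero]
      positivity
    · filter_upwards [reg2, al2, ga2] with t h1 h2 h3
      have h4 := m.lo 0 (x + 0 * t) (h + (-1) * t) ⟨h1.1, by linarith, h2.le⟩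
      simp only [v1_zero]
      rw [hv] at h4
      exact h4
  -- (iv)
  have c4 : 0 ≤ ga x h u := by
    by_contra hcon
    push Not at hcon
    have hB : ContinuousAt (fun t =>
        -((la2 (x + (-1) * t) (h + 0 * t) w -
          (b20 (x + (-1) * t) (h + 0 * t) w * la0 (x + (-1) * t) (h + 0 * t) u +
            b21 (x + (-1) * t) (h + 0 * t) w * la1 (x + (-1) * t) (h + 0 * t) u) /
            la2 (x + (-1) * t) (h + 0 * t) w) / g1 (x + (-1) * t) (h + 0 * t) +
          b21 (x + (-1) * t) (h + 0 * t) w * ga (x + (-1) * t) (h + 0 * t) u /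
            (2 * cos (h + 0 * t) * g1 (x + (-1) * t) (h + 0 * t) *
              la2 (x + (-1) * t) (h + 0 * t) w))) 0 := by
      refine (ContinuousAt.add (ContinuousAt.div (ContinuousAt.sub
        (v1_la2 w) (ContinuousAt.div (ContinuousAt.add
          (ContinuousAt.mul (v1_b20 w hD.ne') (v1_la0 u hg.ne'))
          (ContinuousAt.mul (v1_b21 w hD.ne') (v1_la1 u hc.ne'))) (v1_la2 w) ?_))
        (hd_g1 (-1) 0 x h 0).continuousAt ?_) (ContinuousAt.div (ContinuousAt.mul
          (v1_b21 w hD.ne') (hd_ga (-1) 0 x h 0 u).continuousAt)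
          (ContinuousAt.mul (ContinuousAt.mul (ContinuousAt.mul continuousAt_const
            (hd_c 0 h 0).continuousAt) (hd_g1 (-1) 0 x h 0).continuousAt)
            (v1_la2 w)) ?_)).neg
      · simpa using hl2.ne'
      · simpa using hg.ne'
      · simpa using ⟨⟨hc.ne', hg.ne'⟩, hl2.ne'⟩
    have hB' := ev_pos' hB (by
      simp only [v1_zero]
      rw [hb20, hb21, hla, hl02]
      have h1 : -((la2 x h w - (0 * la0 x h u + la2 x h w * la2 x h w) / la2 x h w) / g1 x h +
        la2 x h w * ga x h u / (2 * cos h * g1 x h * la2 x h w)) =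
          -ga x h u / (2 * cos h * g1 x h) := by
        field_simp
        ring
      rw [h1]
      exact div_pos (by linarith) (by positivity))
    refine path_neg (f := fun t => L2 (x + (-1) * t) (h + 0 * t) u w)
      (f' := fun t => D2 (-1) 0 (x + (-1) * t) (h + 0 * t) u w)
      (v1_L2 u hg.ne' hc.ne' hD.ne' hl2.ne').continuousAt ?_ ?_
    · filter_upwards [reg1, al1, be1, hB'] with t h1 h2 h3 h4
      have k : K 2 (x + (-1) * t) (h + 0 * t) w := ⟨h1.1, h2.le, h3.le⟩
      have hg' := h1.1.g1_pos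
      have hc' := h1.1.cos_pos
      have hl' := la2_pos hw k
      have hD' := h1.2
      refine ⟨hasDerivAt_L2 (-1) 0 x h t u w hg'.ne' hc'.ne' hD'.ne' hl'.ne', ?_⟩
      have hb' : 0 < b20 (x + (-1) * t) (h + 0 * t) w := by
        unfold b20
        positivity
      have hε' : 0 < ep (x + (-1) * t) (h + 0 * t) := exp_pos _
      unfold D2
      generalize la2 (x + (-1) * t) (h + 0 * t) w = A at *
      generalize b20 (x + (-1) * t) (h + 0 * t) w = B at *
      generalize b21 (x + (-1) * t) (h + 0 * t) w = C at *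
      generalize la0 (x + (-1) * t) (h + 0 * t) u = E at *
      generalize la1 (x + (-1) * t) (h + 0 * t) u = F at *
      generalize g1 (x + (-1) * t) (h + 0 * t) = G at *
      generalize Dl (x + (-1) * t) (h + 0 * t) = H at *
      generalize ep (x + (-1) * t) (h + 0 * t) = I at *
      generalize ga (x + (-1) * t) (h + 0 * t) u = J at *
      generalize cos (h + 0 * t) = M at *
      have h5 : -(H * I / A * ((A - (B * E + C * F) / A) *
          (-1 * B / G + 0 * (B / G + (1 + (x + (-1) * t)) * C / M)) +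
          -1 * (B * C * J / (2 * M * G * A)))) =
          -(H * I / A * B * -((A - (B * E + C * F) / A) / G + C * J / (2 * M * G * A))) := by
        field_simp
        ring
      rw [h5, neg_lt_zero]
      positivity
    · filter_upwards [reg1, al1, be1] with t h1 h2 h3
      have h4 := m.lo 2 (x + (-1) * t) (h + 0 * t) ⟨h1.1, h2.le, h3.le⟩
      simp only [v1_zero]
      rw [hv2] at h4
      exact h4
  exact ⟨r, c4, c3⟩

theorem ver1 {u w : ℝ × ℝ} {x h v : ℝ} (hu : Pos u) (hw : Pos w) (hh : 0 < h)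
    (hD : 0 < Dl x h) (m : MinAt u w x h v) (hz : al x h w = 0) (hv : v = L 0 x h u w) :
    K 1 x h u := by
  rcases m.reg.1.eq_or_lt with h0 | h0
  · subst h0
    rw [← K0_mirror]
    exact ver0 ⟨hu.2, hu.1⟩ ⟨hw.2, hw.1⟩ hh hD m.mirror (by rw [be_swap]; exact hz)
      (by rw [L1_mirror _ _ _ m.reg.cos_pos.ne']; exact hv)
  · exact v1_main hw h0 hh hD m hz hv

end Pool.Agent.Helper12.CR
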