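import Pool.Agent.Helper12.CR.Path
import Pool.Agent.Helper12.CR.Exist
import Pool.Agent.Helper12.CR.Swap
import Pool.Agent.Helper12.CR.Mirror

set_option autoImplicit false

/-!
# Project CR, module Ver2: minimisers with `w` on the ray `U 2`

`(x, h)` minimises, `0 < h`, `0 < Δ` (so `h < π/4`), `v` is the minimal value.  `p = 1 + x`,
`σ = sg w`, `λ` = common value of the two `la_j w` which are defined on the ray
(`la0_sub_la1`, `la0_sub_la2`, `la1_sub_la2`), and of the nonzero coefficients `b` (`la0_eq`,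
`la1_eq`, `la2_eq'`).  `vertex_eq` says that the other plane has the same value at `(x, h)`.
Directions: `path (p, q)` is `t ↦ (x + p t, h + q t)`; the derivatives are
`hasDerivAt_L0/L1/L2`, the calculus lemmas are `path_first`, `path_neg`, `ev_pos`, `ev_pos'`
(module Path).  Admissibility (`K j` along the path for small `t ≥ 0`) has to be checked each time
with `hd_al`, `hd_be`, `hd_ga`.

`ver2` (`ga x h w = 0`, `v = L 0 = L 1`, `λ = la0 w = la1 w = b02 = b12`, so `DD d_w = x σ_w`):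
 (i) `(1, 0)`, face `0` (`ga` becomes negative: derivative `-2 c σ/DD`):
  `D0 1 0 = (Δ ε/g₁)(λ - la2 u) ≥ 0`.
 (ii) `(0,-1)`, face `0`: `ga ≤ 0` stays true (its derivative along the path is `-2 Δ d_w`,
  `d_w ≥ 0`; for `x = 0` it is identically `0`): `D0 0 (-1) = -(Δ ε/g₁)(λ - la2 u) ≥ 0`.
  So `la2 u = λ`.
 (iii) `(1,-1)`, face `0`: `D0 1 (-1) = (Δ ε b01/la0) * ((la0 - μ)/g₁ + b02 be u/(2 c la0))`, the
  bracket tends to `be u/(2c)`: `be u ≥ 0` (`b01 > 0` for small `t > 0`: the derivative of `ga` is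
  `-2cσ/DD - 2Δ d_w < 0`).
 (iv) `x > 0`: `(-1, 0)`, face `1` (`ga` becomes positive):
  `D1 (-1) 0 = (Δ ε b10/la1) * ((la1 - μ)/g₁ + b12 al u/(2 g₁ la1))`: `al u ≥ 0`.
  `x = 0`: apply (iii) to the mirror image.
-/

namespace Pool.Agent.Helper12.CR

open Real Filter Topology

/-- the region along a path -/
theorem v2_reg {x h p q : ℝ} (r : Reg x h) (hh : 0 < h) (hD : 0 < Dl x h) (hp : 0 ≤ p ∨ 0 < x)
    (hq : q ≤ 0) :
    ∀ᶠ t in 𝓝[>] (0 : ℝ), Reg (x + p * t) (h + q * t) ∧ 0 < Dl (x + p * t) (h + q * t) := by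
  have hD' : ∀ᶠ t in 𝓝[>] (0 : ℝ), 0 < Dl (x + p * t) (h + q * t) :=
    ev_pos' (hd_Dl p q x h 0).continuousAt (by simpa using hD)
  have hh' : ∀ᶠ t in 𝓝[>] (0 : ℝ), 0 < h + q * t :=
    ev_pos' (hd_X q h 0).continuousAt (by simpa using hh)
  have hx' : ∀ᶠ t in 𝓝[>] (0 : ℝ), 0 ≤ x + p * t := by
    rcases hp with hp | hx
    · filter_upwards [self_mem_nhdsWithin] with t ht
      exact add_nonneg r.1 (mul_nonneg hp (le_of_lt ht))
    · filter_upwards [ev_pos' (hd_X p x 0).continuousAt (by simpa using hx)] with t ht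
      exact ht.le
  filter_upwards [hD', hh', hx', self_mem_nhdsWithin] with t h1 h2 h3 h4
  have ht : 0 < t := h4
  have h5 : q * t ≤ 0 := mul_nonpos_of_nonpos_of_nonneg hq ht.le
  exact ⟨⟨h3, h2.le, by linarith [r.2.2.1], h1.le⟩, h1⟩

theorem v2_sg {w : ℝ × ℝ} (hw : Pos w) : 0 < sg w := add_pos hw.1 hw.2

/-- the basic data on the ray -/
structure V2 (u w : ℝ × ℝ) (x h v : ℝ) : Prop where
  r : Reg x h
  c : 0 < cos h
  g : 0 < g1 x h
  d : 0 < DD x h
  k0 : K 0 x h w
  k1 : K 1 x h w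
  lam0 : 0 < la0 x h w
  lam1 : 0 < la1 x h w
  lam : la0 x h w = la1 x h w
  e01 : b01 x h w = 0
  e02 : b02 x h w = la0 x h w
  e10 : b10 x h w = 0
  e12 : b12 x h w = la1 x h w
  alp : 0 < al x h w
  bep : 0 < be h w
  dn : 0 ≤ dd h w
  dv : DD x h * dd h w = x * sg w
  v0 : v = L 0 x h u w
  v1 : v = L 1 x h u w

theorem v2_data {u w : ℝ × ℝ} {x h v : ℝ} (hw : Pos w) (hD : 0 < Dl x h) (r : Reg x h)
    (hz : ga x h w = 0) (hv : v = L 0 x h u w) : V2 u w x h v := by
  have hc := r.cos_pos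
  have hg := r.g1_pos
  have hd := r.DD_pos
  have hve := vertex_eq (u := u) r hD hw (i := 2) (j := 0) (j' := 1) hz (by decide) (by decide)
  have hve' := vertex_eq (u := u) r hD hw (i := 2) (j := 1) (j' := 0) hz (by decide) (by decide)
  have l0 := la0_pos hw hve.1
  have l1 := la1_pos hw hve'.1
  have e01 : b01 x h w = 0 := by simp [b01, hz]
  have e10 : b10 x h w = 0 := by simp [b10, hz]
  have e02 : b02 x h w = la0 x h w := by
    rw [la0_eq x h w hc.ne' hg.ne' hD.ne', e01, zero_add]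
  have e12 : b12 x h w = la1 x h w := by
    rw [la1_eq x h w hc.ne' hg.ne' hD.ne', e10, zero_add]
  have hdv : DD x h * dd h w = x * sg w := by
    have : DD x h * dd h w - x * sg w = 0 := hz
    linarith
  have hlam : la0 x h w = la1 x h w := by
    have h1 := la0_sub_la1 x h w hc.ne' hg.ne'
    rw [hz, mul_zero, neg_zero] at h1
    have h2 : 4 * cos h * g1 x h ≠ 0 := by positivity
    have h3 := (mul_eq_zero.mp h1).resolve_left h2
    linarith
  refine ⟨r, hc, hg, hd, hve.1, hve'.1, l0, l1, hlam, e01, e02, e10, e12, ?_, ?_, ?_, hdv, hv,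
    hv.trans hve.2⟩
  · have h1 : 0 < b02 x h w := by rw [e02]; exact l0
    unfold b02 at h1
    have h2 : 0 < 4 * g1 x h * Dl x h := by positivity
    exact (div_pos_iff_of_pos_right h2).mp h1
  · have h1 : 0 < b12 x h w := by rw [e12]; exact l1
    unfold b12 at h1
    have h2 : 0 < 4 * cos h * Dl x h := by positivity
    exact (div_pos_iff_of_pos_right h2).mp h1
  · by_contra hneg
    push Not at hneg
    have h1 : DD x h * dd h w < 0 := mul_neg_of_pos_of_neg hd hneg
    have h2 : 0 ≤ x * sg w := mul_nonneg r.1 (v2_sg hw).le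
    linarith

/-- the slope of `ga` in direction `(1, 0)` -/
theorem v2_slope {u w : ℝ × ℝ} {x h v : ℝ} (hw : Pos w) (b : V2 u w x h v) :
    (cos h - sin h) * dd h w - sg w < 0 := by
  have h1 : DD x h * ((cos h - sin h) * dd h w - sg w) = -(2 * cos h * sg w) := by
    have : DD x h * ((cos h - sin h) * dd h w - sg w)
        = (cos h - sin h) * (DD x h * dd h w) - DD x h * sg w := by ring
    rw [this, b.dv]
    unfold DD
    ring
  have h2 : 0 < 2 * cos h * sg w := by
    have := b.c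
    have := v2_sg hw
    positivity
  by_contra hneg
  push Not at hneg
  have := mul_nonneg b.d.le hneg
  linarith

/-- derivative condition in direction `(1, 0)` -/
theorem v2_i {u w : ℝ × ℝ} {x h v : ℝ} (hw : Pos w) (hh : 0 < h) (hD : 0 < Dl x h)
    (m : MinAt u w x h v) (b : V2 u w x h v) : la2 x h u ≤ la0 x h w := by
  have hd := hasDerivAt_L0 1 0 x h 0 u w (by simpa using b.g.ne') (by simpa using b.c.ne')
    (by simpa using hD.ne') (by simpa using b.lam0.ne')
  have hga : ∀ᶠ t in 𝓝[>] (0 : ℝ), 0 < -ga (x + 1 * t) (h + 0 * t) w := by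
    refine ev_pos (hd_ga 1 0 x h 0 w).neg ?_ ?_
    · simp only [mul_zero, add_zero]
      have := v2_slope hw b
      linarith
    · simp only [mul_zero, add_zero]
      have : ga x h w = 0 := by
        unfold ga
        rw [b.dv]; ring
      rw [this, neg_zero]
  have hal : ∀ᶠ t in 𝓝[>] (0 : ℝ), 0 < al (x + 1 * t) (h + 0 * t) w :=
    ev_pos' (hd_al 1 0 x h 0 w).continuousAt (by simpa using b.alp)
  have hm : ∀ᶠ t in 𝓝[>] (0 : ℝ), (fun t => L0 (x + 1 * t) (h + 0 * t) u w) 0 ≤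
      (fun t => L0 (x + 1 * t) (h + 0 * t) u w) t := by
    filter_upwards [v2_reg (p := 1) (q := 0) b.r hh hD (Or.inl zero_le_one) le_rfl, hga, hal]
      with t h1 h2 h3
    have h4 := m.lo 0 _ _ (show K 0 (x + 1 * t) (h + 0 * t) w from
      ⟨h1.1, by linarith, h3.le⟩)
    rw [b.v0] at h4
    simpa [L] using h4
  have h0 := path_first hd hm
  simp only [mul_zero, add_zero] at h0
  have h1 : D0 1 0 x h u w = Dl x h * ep x h / g1 x h * (la0 x h w - la2 x h u) := by
    unfold D0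
    rw [b.e01, b.e02]
    have := b.lam0.ne'
    have := b.g.ne'
    have := b.c.ne'
    field_simp
    ring
  rw [h1] at h0
  have h2 : 0 < Dl x h * ep x h / g1 x h := by
    have := b.g
    have : 0 < ep x h := exp_pos _
    positivity
  by_contra hneg
  push Not at hneg
  have : Dl x h * ep x h / g1 x h * (la0 x h w - la2 x h u) < 0 :=
    mul_neg_of_pos_of_neg h2 (by linarith)
  linarith

/-- `ga` below `h` on the vertical line -/
theorem v2_ga_mono {u w : ℝ × ℝ} {x h v : ℝ} (b : V2 u w x h v) (hD : 0 < Dl x h) {y : ℝ}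
    (hy0 : 0 ≤ y) (hyh : y ≤ h) : ga x y w ≤ ga x h w := by
  have hpi : h ≤ π / 4 := b.r.2.2.1
  have hx : 0 ≤ x := b.r.1
  have hw12 : 0 ≤ w.1 - w.2 := by
    have h1 : 0 ≤ exp h * (w.1 - w.2) := b.dn
    by_contra hneg
    push Not at hneg
    have := mul_neg_of_pos_of_neg (exp_pos h) hneg
    linarith
  have hder : ∀ z, HasDerivAt (fun z => ga x z w) (2 * Dl x z * dd z w) z := by
    intro z
    have h1 := hd_ga 0 1 x 0 z w
    simp only [zero_mul, add_zero, one_mul, zero_add, sub_zero, mul_one] at h1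
    exact h1
  have hmono : MonotoneOn (fun z => ga x z w) (Set.Icc 0 h) := by
    refine monotoneOn_of_deriv_nonneg (convex_Icc 0 h)
      (fun z _ => (hder z).continuousAt.continuousWithinAt)
      (fun z _ => (hder z).differentiableAt.differentiableWithinAt) (fun z hz => ?_)
    rw [interior_Icc] at hz
    rw [(hder z).deriv]
    have h1 : 0 ≤ Dl x z := by
      have hcos : cos h ≤ cos z :=
        cos_le_cos_of_nonneg_of_le_pi hz.1.le (by linarith [pi_pos]) hz.2.le
      have hsin : sin z ≤ sin h :=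
        sin_le_sin_of_le_of_le_pi_div_two (by linarith [pi_pos, hz.1]) (by linarith [pi_pos])
          hz.2.le
      have h2 : Dl x h ≤ Dl x z := by
        unfold Dl
        nlinarith
      linarith
    have h2 : 0 ≤ dd z w := mul_nonneg (exp_pos z).le hw12
    positivity
  exact hmono ⟨hy0, hyh⟩ ⟨hy0.trans hyh, le_rfl⟩ hyh

/-- derivative condition in direction `(0, -1)` -/
theorem v2_ii {u w : ℝ × ℝ} {x h v : ℝ} (hh : 0 < h) (hD : 0 < Dl x h)
    (m : MinAt u w x h v) (b : V2 u w x h v) (hz : ga x h w = 0) :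
    la0 x h w ≤ la2 x h u := by
  have hd := hasDerivAt_L0 0 (-1) x h 0 u w (by simpa using b.g.ne') (by simpa using b.c.ne')
    (by simpa using hD.ne') (by simpa using b.lam0.ne')
  have hal : ∀ᶠ t in 𝓝[>] (0 : ℝ), 0 < al (x + 0 * t) (h + (-1) * t) w :=
    ev_pos' (hd_al 0 (-1) x h 0 w).continuousAt (by simpa using b.alp)
  have hm : ∀ᶠ t in 𝓝[>] (0 : ℝ), (fun t => L0 (x + 0 * t) (h + (-1) * t) u w) 0 ≤
      (fun t => L0 (x + 0 * t) (h + (-1) * t) u w) t := by
    filter_upwards [v2_reg (p := 0) (q := -1) b.r hh hD (Or.inl le_rfl) (by norm_num), hal,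
      self_mem_nhdsWithin] with t h1 h2 h3
    have ht : 0 < t := h3
    have hga : ga (x + 0 * t) (h + (-1) * t) w ≤ 0 := by
      rw [zero_mul, add_zero, ← hz]
      exact v2_ga_mono b hD h1.1.2.1 (by linarith)
    have h4 := m.lo 0 _ _ (show K 0 (x + 0 * t) (h + (-1) * t) w from ⟨h1.1, hga, h2.le⟩)
    rw [b.v0] at h4
    simpa [L] using h4
  have h0 := path_first hd hm
  simp only [mul_zero, add_zero] at h0
  have h1 : D0 0 (-1) x h u w = Dl x h * ep x h / g1 x h * (la2 x h u - la0 x h w) := by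
    unfold D0
    rw [b.e01, b.e02]
    have := b.lam0.ne'
    have := b.g.ne'
    have := b.c.ne'
    field_simp
    ring
  rw [h1] at h0
  have h2 : 0 < Dl x h * ep x h / g1 x h := by
    have := b.g
    have : 0 < ep x h := exp_pos _
    positivity
  by_contra hneg
  push Not at hneg
  have : Dl x h * ep x h / g1 x h * (la2 x h u - la0 x h w) < 0 :=
    mul_neg_of_pos_of_neg h2 (by linarith)
  linarith

section cont
variable (p q x h : ℝ)

theorem v2_cla0 (w : ℝ × ℝ) (hg : g1 x h ≠ 0) :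
    ContinuousAt (fun t => la0 (x + p * t) (h + q * t) w) 0 := by
  unfold la0
  exact (hd_ll0 q h 0 w).continuousAt.div (continuousAt_const.mul (hd_g1 p q x h 0).continuousAt)
    (by simpa using hg)

theorem v2_cla1 (w : ℝ × ℝ) (hc : cos h ≠ 0) :
    ContinuousAt (fun t => la1 (x + p * t) (h + q * t) w) 0 := by
  unfold la1
  exact (hd_ll1 p q x h 0 w).continuousAt.div (continuousAt_const.mul (hd_c q h 0).continuousAt)
    (by simpa using hc)

theorem v2_cla2 (w : ℝ × ℝ) : ContinuousAt (fun t => la2 (x + p * t) (h + q * t) w) 0 := by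
  unfold la2
  exact (hd_ll2 p q x h 0 w).continuousAt.div_const 4

theorem v2_cb01 (w : ℝ × ℝ) (hg : g1 x h ≠ 0) (hD : Dl x h ≠ 0) :
    ContinuousAt (fun t => b01 (x + p * t) (h + q * t) w) 0 := by
  unfold b01
  exact (((hd_c q h 0).continuousAt.mul (hd_ga p q x h 0 w).continuousAt).div
    ((continuousAt_const.mul (hd_g1 p q x h 0).continuousAt).mul (hd_Dl p q x h 0).continuousAt)
    (by simpa using ⟨hg, hD⟩)).neg

theorem v2_cb02 (w : ℝ × ℝ) (hg : g1 x h ≠ 0) (hD : Dl x h ≠ 0) :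
    ContinuousAt (fun t => b02 (x + p * t) (h + q * t) w) 0 := by
  unfold b02
  exact ((hd_al p q x h 0 w).continuousAt).div
    ((continuousAt_const.mul (hd_g1 p q x h 0).continuousAt).mul (hd_Dl p q x h 0).continuousAt)
    (by simpa using ⟨hg, hD⟩)

theorem v2_cb10 (w : ℝ × ℝ) (hc : cos h ≠ 0) (hD : Dl x h ≠ 0) :
    ContinuousAt (fun t => b10 (x + p * t) (h + q * t) w) 0 := by
  unfold b10
  exact (((hd_g1 p q x h 0).continuousAt.mul (hd_ga p q x h 0 w).continuousAt).div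
    ((continuousAt_const.mul (hd_c q h 0).continuousAt).mul (hd_Dl p q x h 0).continuousAt)
    (by simpa using ⟨hc, hD⟩))

theorem v2_cb12 (w : ℝ × ℝ) (hc : cos h ≠ 0) (hD : Dl x h ≠ 0) :
    ContinuousAt (fun t => b12 (x + p * t) (h + q * t) w) 0 := by
  unfold b12
  exact ((hd_be q h 0 w).continuousAt).div
    ((continuousAt_const.mul (hd_c q h 0).continuousAt).mul (hd_Dl p q x h 0).continuousAt)
    (by simpa using ⟨hc, hD⟩)

end cont

/-- the bracket of `D0 1 (-1)` -/
noncomputable def v2br (x h : ℝ) (u w : ℝ × ℝ) : ℝ :=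
  (la0 x h w - (b01 x h w * la1 x h u + b02 x h w * la2 x h u) / la0 x h w) / g1 x h +
    b02 x h w * be h u / (2 * cos h * la0 x h w)

theorem v2_D0 {x h : ℝ} {u w : ℝ × ℝ} (hc : cos h ≠ 0) (hg : g1 x h ≠ 0) (hD : Dl x h ≠ 0)
    (hl : la0 x h w ≠ 0) :
    D0 1 (-1) x h u w = Dl x h * ep x h * b01 x h w / la0 x h w * v2br x h u w := by
  unfold D0 v2br
  have e : (1 : ℝ) * la0 x h w + (-1) * b02 x h w = b01 x h w := by
    rw [la0_eq x h w hc hg hD]; ring
  rw [e]
  field_simp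
  ring

theorem v2_cbr (x h : ℝ) (u w : ℝ × ℝ) (hc : cos h ≠ 0) (hg : g1 x h ≠ 0) (hD : Dl x h ≠ 0)
    (hl : la0 x h w ≠ 0) :
    ContinuousAt (fun t => v2br (x + 1 * t) (h + (-1) * t) u w) 0 := by
  unfold v2br
  have c1 := v2_cla0 1 (-1) x h w hg
  have c2 := v2_cb01 1 (-1) x h w hg hD
  have c3 := v2_cla1 1 (-1) x h u hc
  have c4 := v2_cb02 1 (-1) x h w hg hD
  have c5 := v2_cla2 1 (-1) x h u
  have c6 := (hd_g1 1 (-1) x h 0).continuousAt
  have c7 := (hd_be (-1) h 0 u).continuousAt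
  have c8 := (hd_c (-1) h 0).continuousAt
  exact ((c1.sub (((c2.mul c3).add (c4.mul c5)).div c1 (by simpa using hl))).div c6
    (by simpa using hg)).add ((c4.mul c7).div ((continuousAt_const.mul c8).mul c1)
    (by simpa using ⟨hc, hl⟩))

/-- direction `(1, -1)` -/
theorem v2_iii {u w : ℝ × ℝ} {x h v : ℝ} (hw : Pos w) (hh : 0 < h) (hD : 0 < Dl x h)
    (m : MinAt u w x h v) (b : V2 u w x h v) (hz : ga x h w = 0)
    (hl : la2 x h u = la0 x h w) : 0 ≤ be h u := by
  by_contra hneg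
  push Not at hneg
  have hslope : 0 < -((1 * (cos (h + (-1) * 0) - sin (h + (-1) * 0)) +
      2 * (-1) * Dl (x + 1 * 0) (h + (-1) * 0)) * dd (h + (-1) * 0) w - 1 * sg w) := by
    simp only [mul_zero, add_zero]
    have h1 := v2_slope hw b
    have h2 : 0 ≤ Dl x h * dd h w := mul_nonneg hD.le b.dn
    linarith
  have hga : ∀ᶠ t in 𝓝[>] (0 : ℝ), 0 < -ga (x + 1 * t) (h + (-1) * t) w := by
    refine ev_pos (hd_ga 1 (-1) x h 0 w).neg hslope ?_
    simp only [mul_zero, add_zero]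
    rw [hz, neg_zero]
  have hal : ∀ᶠ t in 𝓝[>] (0 : ℝ), 0 < al (x + 1 * t) (h + (-1) * t) w :=
    ev_pos' (hd_al 1 (-1) x h 0 w).continuousAt (by simpa using b.alp)
  have hbr : ∀ᶠ t in 𝓝[>] (0 : ℝ), 0 < -v2br (x + 1 * t) (h + (-1) * t) u w := by
    refine ev_pos' (v2_cbr x h u w b.c.ne' b.g.ne' hD.ne' b.lam0.ne').neg ?_
    simp only [mul_zero, add_zero, Pi.neg_apply]
    have h1 : v2br x h u w = be h u / (2 * cos h) := by
      unfold v2br
      rw [b.e01, b.e02, hl]
      have := b.lam0.ne'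
      have := b.g.ne'
      have := b.c.ne'
      field_simp
      ring
    rw [h1]
    have h2 : be h u / (2 * cos h) < 0 := div_neg_of_neg_of_pos hneg (by linarith [b.c])
    linarith
  have hK : ∀ᶠ t in 𝓝[>] (0 : ℝ), K 0 (x + 1 * t) (h + (-1) * t) w := by
    filter_upwards [v2_reg (p := 1) (q := -1) b.r hh hD (Or.inl zero_le_one) (by norm_num), hga,
      hal] with t h1 h2 h3
    exact ⟨h1.1, by linarith, h3.le⟩
  refine path_neg (f := fun t => L0 (x + 1 * t) (h + (-1) * t) u w)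
    (f' := fun t => D0 1 (-1) (x + 1 * t) (h + (-1) * t) u w) ?_ ?_ ?_
  · exact (hasDerivAt_L0 1 (-1) x h 0 u w (by simpa using b.g.ne') (by simpa using b.c.ne')
      (by simpa using hD.ne') (by simpa using b.lam0.ne')).continuousAt
  · filter_upwards [v2_reg (p := 1) (q := -1) b.r hh hD (Or.inl zero_le_one) (by norm_num), hK,
      hga, hbr] with t h1 h2 h3 h4
    have hc := h1.1.cos_pos
    have hg := h1.1.g1_pos
    have hl0 := la0_pos hw h2
    refine ⟨hasDerivAt_L0 1 (-1) x h t u w hg.ne' hc.ne' h1.2.ne' hl0.ne', ?_⟩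
    rw [v2_D0 hc.ne' hg.ne' h1.2.ne' hl0.ne']
    have hb : 0 < b01 (x + 1 * t) (h + (-1) * t) w := by
      have e : b01 (x + 1 * t) (h + (-1) * t) w = cos (h + (-1) * t) *
          (-ga (x + 1 * t) (h + (-1) * t) w) / (4 * g1 (x + 1 * t) (h + (-1) * t) *
            Dl (x + 1 * t) (h + (-1) * t)) := by
        unfold b01
        ring
      rw [e]
      exact div_pos (mul_pos hc h3) (mul_pos (mul_pos four_pos hg) h1.2)
    have hpos : 0 < Dl (x + 1 * t) (h + (-1) * t) * ep (x + 1 * t) (h + (-1) * t) *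
        b01 (x + 1 * t) (h + (-1) * t) w / la0 (x + 1 * t) (h + (-1) * t) w :=
      div_pos (mul_pos (mul_pos h1.2 (exp_pos _)) hb) hl0
    exact mul_neg_of_pos_of_neg hpos (by linarith)
  · filter_upwards [hK] with t h1
    have h4 := m.lo 0 _ _ h1
    rw [b.v0] at h4
    simpa [L] using h4

/-- the bracket of `D1 (-1) 0` -/
noncomputable def v2bs (x h : ℝ) (u w : ℝ × ℝ) : ℝ :=
  (la1 x h w - (b10 x h w * la0 x h u + b12 x h w * la2 x h u) / la1 x h w) / g1 x h +
    b12 x h w * al x h u / (2 * g1 x h * la1 x h w)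

theorem v2_D1 {x h : ℝ} {u w : ℝ × ℝ} (hg : g1 x h ≠ 0) (hl : la1 x h w ≠ 0) :
    D1 (-1) 0 x h u w = Dl x h * ep x h * b10 x h w / la1 x h w * v2bs x h u w := by
  unfold D1 v2bs
  field_simp
  ring

theorem v2_cbs (x h : ℝ) (u w : ℝ × ℝ) (hc : cos h ≠ 0) (hg : g1 x h ≠ 0) (hD : Dl x h ≠ 0)
    (hl : la1 x h w ≠ 0) :
    ContinuousAt (fun t => v2bs (x + (-1) * t) (h + 0 * t) u w) 0 := by
  unfold v2bs
  have c1 := v2_cla1 (-1) 0 x h w hc
  have c2 := v2_cb10 (-1) 0 x h w hc hD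
  have c3 := v2_cla0 (-1) 0 x h u hg
  have c4 := v2_cb12 (-1) 0 x h w hc hD
  have c5 := v2_cla2 (-1) 0 x h u
  have c6 := (hd_g1 (-1) 0 x h 0).continuousAt
  have c7 := (hd_al (-1) 0 x h 0 u).continuousAt
  exact ((c1.sub (((c2.mul c3).add (c4.mul c5)).div c1 (by simpa using hl))).div c6
    (by simpa using hg)).add ((c4.mul c7).div ((continuousAt_const.mul c6).mul c1)
    (by simpa using ⟨hg, hl⟩))

/-- direction `(-1, 0)` -/
theorem v2_iv {u w : ℝ × ℝ} {x h v : ℝ} (hw : Pos w) (hh : 0 < h) (hD : 0 < Dl x h)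
    (m : MinAt u w x h v) (b : V2 u w x h v) (hz : ga x h w = 0)
    (hl : la2 x h u = la1 x h w) (hx : 0 < x) : 0 ≤ al x h u := by
  by_contra hneg
  push Not at hneg
  have hslope : 0 < ((-1) * (cos (h + 0 * 0) - sin (h + 0 * 0)) +
      2 * 0 * Dl (x + (-1) * 0) (h + 0 * 0)) * dd (h + 0 * 0) w - (-1) * sg w := by
    simp only [mul_zero, add_zero]
    have h1 := v2_slope hw b
    linarith
  have hga : ∀ᶠ t in 𝓝[>] (0 : ℝ), 0 < ga (x + (-1) * t) (h + 0 * t) w := by
    refine ev_pos (hd_ga (-1) 0 x h 0 w) hslope ?_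
    simp only [mul_zero, add_zero]
    rw [hz]
  have hbe : ∀ᶠ t in 𝓝[>] (0 : ℝ), 0 < be (h + 0 * t) w :=
    ev_pos' (hd_be 0 h 0 w).continuousAt (by simpa using b.bep)
  have hbr : ∀ᶠ t in 𝓝[>] (0 : ℝ), 0 < -v2bs (x + (-1) * t) (h + 0 * t) u w := by
    refine ev_pos' (v2_cbs x h u w b.c.ne' b.g.ne' hD.ne' b.lam1.ne').neg ?_
    simp only [mul_zero, add_zero, Pi.neg_apply]
    have h1 : v2bs x h u w = al x h u / (2 * g1 x h) := by
      unfold v2bs
      rw [b.e10, b.e12, hl]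
      have := b.lam1.ne'
      have := b.g.ne'
      field_simp
      ring
    rw [h1]
    have h2 : al x h u / (2 * g1 x h) < 0 := div_neg_of_neg_of_pos hneg (by linarith [b.g])
    linarith
  have hK : ∀ᶠ t in 𝓝[>] (0 : ℝ), K 1 (x + (-1) * t) (h + 0 * t) w := by
    filter_upwards [v2_reg (p := -1) (q := 0) b.r hh hD (Or.inr hx) le_rfl, hga,
      hbe] with t h1 h2 h3
    exact ⟨h1.1, h2.le, h3.le⟩
  refine path_neg (f := fun t => L1 (x + (-1) * t) (h + 0 * t) u w)
    (f' := fun t => D1 (-1) 0 (x + (-1) * t) (h + 0 * t) u w) ?_ ?_ ?_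
  · exact (hasDerivAt_L1 (-1) 0 x h 0 u w (by simpa using b.g.ne') (by simpa using b.c.ne')
      (by simpa using hD.ne') (by simpa using b.lam1.ne')).continuousAt
  · filter_upwards [v2_reg (p := -1) (q := 0) b.r hh hD (Or.inr hx) le_rfl, hK,
      hga, hbr] with t h1 h2 h3 h4
    have hc := h1.1.cos_pos
    have hg := h1.1.g1_pos
    have hl0 := la1_pos hw h2
    refine ⟨hasDerivAt_L1 (-1) 0 x h t u w hg.ne' hc.ne' h1.2.ne' hl0.ne', ?_⟩
    rw [v2_D1 hg.ne' hl0.ne']
    have hb : 0 < b10 (x + (-1) * t) (h + 0 * t) w := by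
      unfold b10
      exact div_pos (mul_pos hg h3) (mul_pos (mul_pos four_pos hc) h1.2)
    have hpos : 0 < Dl (x + (-1) * t) (h + 0 * t) * ep (x + (-1) * t) (h + 0 * t) *
        b10 (x + (-1) * t) (h + 0 * t) w / la1 (x + (-1) * t) (h + 0 * t) w :=
      div_pos (mul_pos (mul_pos h1.2 (exp_pos _)) hb) hl0
    exact mul_neg_of_pos_of_neg hpos (by linarith)
  · filter_upwards [hK] with t h1
    have h4 := m.lo 1 _ _ h1
    rw [b.v1] at h4
    simpa [L] using h4

theorem ver2 {u w : ℝ × ℝ} {x h v : ℝ} (hu : Pos u) (hw : Pos w) (hh : 0 < h)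
    (hD : 0 < Dl x h) (m : MinAt u w x h v) (hz : ga x h w = 0) (hv : v = L 0 x h u w) :
    K 2 x h u := by
  have b := v2_data (u := u) (v := v) hw hD m.reg hz hv
  have hl : la2 x h u = la0 x h w := le_antisymm (v2_i hw hh hD m b) (v2_ii hh hD m b hz)
  have hbe : 0 ≤ be h u := v2_iii hw hh hD m b hz hl
  refine ⟨m.reg, ?_, hbe⟩
  rcases eq_or_lt_of_le m.reg.1 with hx | hx
  · subst hx
    have m' := m.mirror
    have hw' : Pos w.swap := ⟨hw.2, hw.1⟩
    have hz' : ga 0 h w.swap = 0 := by rw [ga_zero_swap, hz, neg_zero]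
    have hv' : v = L 0 0 h u.swap w.swap := by
      rw [L0_mirror _ _ _ m.reg.cos_pos.ne']
      exact b.v1
    have b' := v2_data (u := u.swap) (v := v) hw' hD m'.reg hz' hv'
    have hl' : la2 0 h u.swap = la0 0 h w.swap :=
      le_antisymm (v2_i hw' hh hD m' b') (v2_ii hh hD m' b' hz')
    have := v2_iii hw' hh hD m' b' hz' hl'
    rwa [be_swap] at this
  · exact v2_iv hw hh hD m b hz (hl.trans b.lam) hx

end Pool.Agent.Helper12.CR
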