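import Pool.Agent.Helper12.CR.Hzero
import Pool.Agent.Helper12.CR.Inte
import Pool.Agent.Helper12.CR.Ver0
import Pool.Agent.Helper12.CR.Ver1
import Pool.Agent.Helper12.CR.Ver2
import Pool.Agent.Helper12.CR.Star

set_option autoImplicit false

/-!
# Project CR, module FProps: the value function `FF`

`FF u w` is the minimum of `gg u w`, `gg u.swap w.swap`, `HH u w`, `HH u.swap w.swap`.

* `FF_cases`: if the minimum is `HH u w`, `HH_attained` gives `(j, x, h)` with `K j x h w`.  If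
  `h = 0` then `gg u w ≤ L j x 0 u w = FF u w` (`gg_le_L_zero`), so `FF u w = gg u w`.  If `h > 0`,
  `MinAt` holds: `FF ≤ HH u w ≤ L ..` and `FF ≤ HH u.swap w.swap ≤ L ..` (`HH_le`).  If the
  minimum is `HH u.swap w.swap`, the same with `u.swap, w.swap` (`Prod.swap_swap`).
* `concaveOn_FF`: `gg` is concave (`concaveOn_gg`), `u ↦ gg u.swap w.swap` too (composition with the
  linear map `swap`); `L j x h · w` is affine (`L (a u + b u') = a L u + b L u'` for `a + b = 1`;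
  `K` does not depend on `u`), so `HH · w` is concave (use `HH_attained` at the convex combination
  and `HH_le` at the two points); minimum of concave functions.
* `FF_comm`: it suffices that `FF w u ≤ FF u w`: by `FF_cases` for `(u, w)`: `gg_comm`; `gg_comm`;
  `core_swap` and `HH_le`; `core_swap` for `(u.swap, w.swap)` and `HH_le`.
* `FF_smul`: all functionals are homogeneous, so `K j x h (r • w) ↔ K j x h w` and
  `L j x h (r • u) (r • w) = r * L j x h u w` (treat division by zero, or use `la_j ≠ 0` on `K j`).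
* `FF_nonneg`: `FF_cases`: `le_gg`; for the last two cases `core_rep` and `Reg.z_nonneg` if
  `Dl x h > 0`, `star_eq`, `star_nonneg` if `Dl x h = 0`.
* `FF_center`: `K 2 0 (π/4) (1,1)` holds (`dd = 0`, `al = be = 0`), and
  `L 2 0 (π/4) (1,1) (1,1) = 2 - exp (-π/4) (sin (π/4) + cos (π/4))`.
-/

namespace Pool.Agent.Helper12.CR

open Real

/-- At a minimiser with `h > 0`, `Δ > 0` one of the two arguments is on a ray `U i` and the other in
the face `i`. -/
theorem core {u w : ℝ × ℝ} {x h : ℝ} (hu : Pos u) (hw : Pos w) (hh : 0 < h)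
    (hD : 0 < Dl x h) {j : Fin 3} (k : K j x h w) (m : MinAt u w x h (L j x h u w)) :
    (zr j x h u = 0) ∨ ∃ i, i ≠ j ∧ zr i x h w = 0 ∧ K i x h u := by
  obtain ⟨r, k1, k2⟩ : Reg x h ∧ 0 ≤ al x h w ∧ 0 ≤ be h w := ⟨k.reg, k.al_nonneg, k.be_nonneg⟩
  have hr := r
  fin_cases j
  · have hk : Reg x h ∧ ga x h w ≤ 0 ∧ 0 ≤ al x h w := k
    rcases eq_or_lt_of_le hk.2.2 with h1 | h1
    · exact Or.inr ⟨1, by decide, h1.symm, ver1 hu hw hh hD m h1.symm rfl⟩
    rcases eq_or_lt_of_le hk.2.1 with h2 | h2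
    · exact Or.inr ⟨2, by decide, h2, ver2 hu hw hh hD m h2 rfl⟩
    exact Or.inl (int0 hu hw hh hD m h2 h1 rfl)
  · have hk : Reg x h ∧ 0 ≤ ga x h w ∧ 0 ≤ be h w := k
    rcases eq_or_lt_of_le hk.2.2 with h1 | h1
    · exact Or.inr ⟨0, by decide, h1.symm, ver0 hu hw hh hD m h1.symm rfl⟩
    rcases eq_or_lt_of_le hk.2.1 with h2 | h2
    · refine Or.inr ⟨2, by decide, h2.symm, ver2 hu hw hh hD m h2.symm ?_⟩
      exact (vertex_eq (i := 2) hr hD hw h2.symm (by decide) (by decide)).2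
    exact Or.inl (int1 hu hw hh hD m h2 h1 rfl)
  · have hk : Reg x h ∧ 0 ≤ al x h w ∧ 0 ≤ be h w := k
    rcases eq_or_lt_of_le hk.2.1 with h1 | h1
    · refine Or.inr ⟨1, by decide, h1.symm, ver1 hu hw hh hD m h1.symm ?_⟩
      exact (vertex_eq (i := 1) hr hD hw h1.symm (by decide) (by decide)).2
    rcases eq_or_lt_of_le hk.2.2 with h2 | h2
    · refine Or.inr ⟨0, by decide, h2.symm, ver0 hu hw hh hD m h2.symm ?_⟩
      exact (vertex_eq (i := 0) hr hD hw h2.symm (by decide) (by decide)).2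
    exact Or.inl (int2 hu hw hh hD m h1 h2 rfl)

/-- The minimal value is also the value of a plane with the arguments exchanged. -/
theorem core_swap {u w : ℝ × ℝ} {x h : ℝ} (hu : Pos u) (hw : Pos w) (hh : 0 < h)
    {j : Fin 3} (k : K j x h w) (m : MinAt u w x h (L j x h u w)) :
    ∃ j', K j' x h u ∧ L j' x h w u = L j x h u w := by
  rcases eq_or_lt_of_le k.reg.2.2.2 with hD | hD
  · have e := star_eq hu hw hD.symm m k rfl
    subst e
    exact ⟨j, k, rfl⟩
  · rcases core hu hw hh hD k m with h1 | ⟨i, hi, h1, k1⟩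
    · obtain ⟨j', hj'⟩ : ∃ j' : Fin 3, j' ≠ j := ⟨j + 1, by fin_cases j <;> decide⟩
      exact ⟨j', (swap_val hD hu hw h1 k hj').1, (swap_val hD hu hw h1 k hj').2⟩
    · exact ⟨i, k1, ((swap_val hD hw hu h1 k1 hi.symm).2).symm⟩

/-- The representation of the minimal value. -/
theorem core_rep {u w : ℝ × ℝ} {x h : ℝ} (hu : Pos u) (hw : Pos w) (hh : 0 < h)
    (hD : 0 < Dl x h) {j : Fin 3} (k : K j x h w) (m : MinAt u w x h (L j x h u w)) :
    ∃ a b : Fin 3 → ℝ, (∀ j, 0 ≤ a j) ∧ (∀ j, 0 ≤ b j) ∧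
      u = ∑ j, a j • U j x h ∧ w = ∑ j, b j • U j x h ∧
      L j x h u w = ∑ j, (a j + b j) * z j x h := by
  rcases core hu hw hh hD k m with h1 | ⟨i, hi, h1, k1⟩
  · exact rep_val hD hu hw h1 k
  · obtain ⟨a, b, ha, hb, hw', hu', hL⟩ := rep_val hD hw hu h1 k1
    refine ⟨b, a, hb, ha, hu', hw', ?_⟩
    rw [(swap_val hD hw hu h1 k1 hi.symm).2, hL]
    exact Finset.sum_congr rfl fun l _ => by ring

/-! ### auxiliary lemmas -/

theorem fp_pos_swap {w : ℝ × ℝ} (hw : Pos w) : Pos w.swap := ⟨hw.2, hw.1⟩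

theorem fp_pos_smul {r : ℝ} (hr : 0 < r) {w : ℝ × ℝ} (hw : Pos w) : Pos (r • w) :=
  ⟨mul_pos hr hw.1, mul_pos hr hw.2⟩

theorem fp_le_gg (u w : ℝ × ℝ) : FF u w ≤ gg u w :=
  (min_le_left _ _).trans (min_le_left _ _)

theorem fp_le_gg' (u w : ℝ × ℝ) : FF u w ≤ gg u.swap w.swap :=
  (min_le_left _ _).trans (min_le_right _ _)

theorem fp_le_HH (u w : ℝ × ℝ) : FF u w ≤ HH u w :=
  (min_le_right _ _).trans (min_le_left _ _)

theorem fp_le_HH' (u w : ℝ × ℝ) : FF u w ≤ HH u.swap w.swap :=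
  (min_le_right _ _).trans (min_le_right _ _)

theorem fp_case {u w : ℝ × ℝ} (hu : Pos u) (hw : Pos w) {v : ℝ} (hg : v ≤ gg u w)
    (h1 : v = HH u w) (h2 : v ≤ HH u.swap w.swap) :
    v = gg u w ∨ ∃ j x h, K j x h w ∧ 0 < h ∧ v = L j x h u w ∧ MinAt u w x h v := by
  obtain ⟨j, x, h, k, e⟩ := HH_attained u hw
  rcases eq_or_lt_of_le k.reg.2.1 with hh | hh
  · left
    subst hh
    exact le_antisymm hg ((gg_le_L_zero hu hw k).trans_eq (e.symm.trans h1.symm))
  · right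
    refine ⟨j, x, h, k, hh, h1.trans e, k.reg, fun j' x' h' k' => ?_, fun j' x' h' k' => ?_⟩
    · exact h1.le.trans (HH_le u hw k')
    · exact h2.trans (HH_le u.swap (fp_pos_swap hw) k')

theorem fp_L_affine (j : Fin 3) (x h : ℝ) (u v w : ℝ × ℝ) {a b : ℝ} (hab : a + b = 1) :
    L j x h (a • u + b • v) w = a * L j x h u w + b * L j x h v w := by
  obtain rfl : b = 1 - a := by linarith
  fin_cases j
  · simp only [L, L0, J0, m3, be, dd, sg, Prod.fst_add, Prod.snd_add, Prod.smul_fst,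
      Prod.smul_snd, smul_eq_mul]
    ring
  · simp only [L, L1, J1, m3, al, dd, sg, Prod.fst_add, Prod.snd_add, Prod.smul_fst,
      Prod.smul_snd, smul_eq_mul]
    ring
  · simp only [L, L2, J2, m3, al, be, dd, sg, Prod.fst_add, Prod.snd_add, Prod.smul_fst,
      Prod.smul_snd, smul_eq_mul]
    ring

theorem fp_al_smul (x h r : ℝ) (w : ℝ × ℝ) : al x h (r • w) = r * al x h w := by
  simp only [al, dd, sg, Prod.smul_fst, Prod.smul_snd, smul_eq_mul]; ring

theorem fp_be_smul (h r : ℝ) (w : ℝ × ℝ) : be h (r • w) = r * be h w := by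
  simp only [be, dd, sg, Prod.smul_fst, Prod.smul_snd, smul_eq_mul]; ring

theorem fp_ga_smul (x h r : ℝ) (w : ℝ × ℝ) : ga x h (r • w) = r * ga x h w := by
  simp only [ga, dd, sg, Prod.smul_fst, Prod.smul_snd, smul_eq_mul]; ring

theorem fp_m3_smul (x h r : ℝ) (w : ℝ × ℝ) : m3 x h (r • w) = r * m3 x h w := by
  simp only [m3, dd, sg, Prod.smul_fst, Prod.smul_snd, smul_eq_mul]; ring

theorem fp_la0_smul (x h r : ℝ) (w : ℝ × ℝ) : la0 x h (r • w) = r * la0 x h w := by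
  simp only [la0, dd, sg, Prod.smul_fst, Prod.smul_snd, smul_eq_mul]; ring

theorem fp_la1_smul (x h r : ℝ) (w : ℝ × ℝ) : la1 x h (r • w) = r * la1 x h w := by
  simp only [la1, dd, sg, Prod.smul_fst, Prod.smul_snd, smul_eq_mul]; ring

theorem fp_la2_smul (x h r : ℝ) (w : ℝ × ℝ) : la2 x h (r • w) = r * la2 x h w := by
  simp only [la2, dd, sg, Prod.smul_fst, Prod.smul_snd, smul_eq_mul]; ring

theorem fp_div {r : ℝ} (hr : r ≠ 0) (A B C : ℝ) : r * (r * A) / (C * (r * B)) = r * (A / (C * B)) := by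
  rw [show C * (r * B) = r * (C * B) by ring, mul_div_mul_left _ _ hr, mul_div_assoc]

theorem fp_L_smul {r : ℝ} (hr : r ≠ 0) (j : Fin 3) (x h : ℝ) (u w : ℝ × ℝ) :
    L j x h (r • u) (r • w) = r * L j x h u w := by
  fin_cases j
  · show L0 x h (r • u) (r • w) = r * L0 x h u w
    rw [L0, L0, J0, J0, fp_m3_smul, fp_la0_smul, fp_ga_smul, fp_be_smul,
      show r * ga x h w * (r * be h u) = r * (r * (ga x h w * be h u)) by ring, fp_div hr]
    simp only [Prod.smul_snd, smul_eq_mul]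
    ring
  · show L1 x h (r • u) (r • w) = r * L1 x h u w
    rw [L1, L1, J1, J1, fp_m3_smul, fp_la1_smul, fp_ga_smul, fp_al_smul,
      show r * ga x h w * (r * al x h u) = r * (r * (ga x h w * al x h u)) by ring, fp_div hr]
    simp only [Prod.smul_snd, smul_eq_mul]
    ring
  · show L2 x h (r • u) (r • w) = r * L2 x h u w
    rw [L2, L2, J2, J2, fp_m3_smul, fp_la2_smul, fp_al_smul, fp_al_smul, fp_be_smul, fp_be_smul,
      show r * al x h w * (r * al x h u) + r * be h w * (r * be h u) =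
        r * (r * (al x h w * al x h u + be h w * be h u)) by ring, fp_div hr]
    simp only [Prod.smul_snd, smul_eq_mul]
    ring

theorem fp_nonpos {r a : ℝ} (hr : 0 < r) : r * a ≤ 0 ↔ a ≤ 0 := by
  constructor
  · intro h
    by_contra h1
    push Not at h1
    have := mul_pos hr h1
    linarith
  · intro h
    exact mul_nonpos_of_nonneg_of_nonpos hr.le h

theorem fp_K_smul {r : ℝ} (hr : 0 < r) {j : Fin 3} {x h : ℝ} {w : ℝ × ℝ} :
    K j x h (r • w) ↔ K j x h w := by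
  fin_cases j
  · show (Reg x h ∧ ga x h (r • w) ≤ 0 ∧ 0 ≤ al x h (r • w)) ↔
      (Reg x h ∧ ga x h w ≤ 0 ∧ 0 ≤ al x h w)
    rw [fp_ga_smul, fp_al_smul, mul_nonneg_iff_of_pos_left hr, fp_nonpos hr]
  · show (Reg x h ∧ 0 ≤ ga x h (r • w) ∧ 0 ≤ be h (r • w)) ↔
      (Reg x h ∧ 0 ≤ ga x h w ∧ 0 ≤ be h w)
    rw [fp_ga_smul, fp_be_smul, mul_nonneg_iff_of_pos_left hr, mul_nonneg_iff_of_pos_left hr]
  · show (Reg x h ∧ 0 ≤ al x h (r • w) ∧ 0 ≤ be h (r • w)) ↔
      (Reg x h ∧ 0 ≤ al x h w ∧ 0 ≤ be h w)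
    rw [fp_al_smul, fp_be_smul, mul_nonneg_iff_of_pos_left hr, mul_nonneg_iff_of_pos_left hr]

theorem fp_HH_smul {r : ℝ} (hr : 0 < r) (u : ℝ × ℝ) {w : ℝ × ℝ} (hw : Pos w) :
    HH (r • u) (r • w) = r * HH u w := by
  apply le_antisymm
  · obtain ⟨j, x, h, k, e⟩ := HH_attained u hw
    rw [e, ← fp_L_smul hr.ne']
    exact HH_le _ (fp_pos_smul hr hw) ((fp_K_smul hr).2 k)
  · obtain ⟨j, x, h, k, e⟩ := HH_attained (r • u) (fp_pos_smul hr hw)
    rw [e, fp_L_smul hr.ne']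
    exact mul_le_mul_of_nonneg_left (HH_le u hw ((fp_K_smul hr).1 k)) hr.le

theorem fp_smul_swap (r : ℝ) (u : ℝ × ℝ) : (r • u).swap = r • u.swap := rfl

theorem fp_convex : Convex ℝ {u : ℝ × ℝ | Pos u} := by
  intro u hu v hv a b ha hb hab
  have hu' : Pos u := hu
  have hv' : Pos v := hv
  show 0 < a * u.1 + b * v.1 ∧ 0 < a * u.2 + b * v.2
  rcases eq_or_lt_of_le ha with h | h
  · subst h
    obtain rfl : b = 1 := by linarith
    constructor
    · linarith [hv'.1]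
    · linarith [hv'.2]
  · exact ⟨by nlinarith [mul_pos h hu'.1, mul_nonneg hb hv'.1.le],
      by nlinarith [mul_pos h hu'.2, mul_nonneg hb hv'.2.le]⟩

theorem fp_concave_swap {f : ℝ × ℝ → ℝ} (hf : ConcaveOn ℝ {u | Pos u} f) :
    ConcaveOn ℝ {u | Pos u} fun u => f u.swap := by
  refine ⟨fp_convex, ?_⟩
  intro u hu v hv a b ha hb hab
  exact hf.2 (fp_pos_swap hu) (fp_pos_swap hv) ha hb hab

theorem fp_concave_HH {w : ℝ × ℝ} (hw : Pos w) : ConcaveOn ℝ {u | Pos u} fun u => HH u w := by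
  refine ⟨fp_convex, ?_⟩
  intro u hu v hv a b ha hb hab
  obtain ⟨j, x, h, k, e⟩ := HH_attained (a • u + b • v) hw
  show a * HH u w + b * HH v w ≤ HH (a • u + b • v) w
  rw [e, fp_L_affine j x h u v w hab]
  exact add_le_add (mul_le_mul_of_nonneg_left (HH_le u hw k) ha)
    (mul_le_mul_of_nonneg_left (HH_le v hw k) hb)

/-- Cases for the value of `FF` at a point. -/
theorem FF_cases {u w : ℝ × ℝ} (hu : Pos u) (hw : Pos w) :
    FF u w = gg u w ∨ FF u w = gg u.swap w.swap ∨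
      (∃ j x h, K j x h w ∧ 0 < h ∧ FF u w = L j x h u w ∧ MinAt u w x h (FF u w)) ∨
      (∃ j x h, K j x h w.swap ∧ 0 < h ∧ FF u w = L j x h u.swap w.swap ∧
        MinAt u.swap w.swap x h (FF u w)) := by
  have hc : FF u w = gg u w ∨ FF u w = gg u.swap w.swap ∨ FF u w = HH u w ∨
      FF u w = HH u.swap w.swap := by
    unfold FF
    rcases min_choice (min (gg u w) (gg u.swap w.swap)) (min (HH u w) (HH u.swap w.swap)) with
      h1 | h1
    · rw [h1]
      rcases min_choice (gg u w) (gg u.swap w.swap) with h2 | h2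
      · exact Or.inl h2
      · exact Or.inr (Or.inl h2)
    · rw [h1]
      rcases min_choice (HH u w) (HH u.swap w.swap) with h2 | h2
      · exact Or.inr (Or.inr (Or.inl h2))
      · exact Or.inr (Or.inr (Or.inr h2))
  rcases hc with h1 | h1 | h1 | h1
  · exact Or.inl h1
  · exact Or.inr (Or.inl h1)
  · rcases fp_case hu hw (fp_le_gg u w) h1 (fp_le_HH' u w) with h2 | h2
    · exact Or.inl h2
    · exact Or.inr (Or.inr (Or.inl h2))
  · rcases fp_case (fp_pos_swap hu) (fp_pos_swap hw) (fp_le_gg' u w) h1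
      (by rw [Prod.swap_swap, Prod.swap_swap]; exact fp_le_HH u w) with h2 | h2
    · exact Or.inr (Or.inl h2)
    · exact Or.inr (Or.inr (Or.inr h2))

theorem concaveOn_FF {w : ℝ × ℝ} (hw : Pos w) : ConcaveOn ℝ {u | Pos u} fun u => FF u w :=
  ((concaveOn_gg hw).inf (fp_concave_swap (concaveOn_gg (fp_pos_swap hw)))).inf
    ((fp_concave_HH hw).inf (fp_concave_swap (fp_concave_HH (fp_pos_swap hw))))

theorem fp_comm_le {u w : ℝ × ℝ} (hu : Pos u) (hw : Pos w) : FF w u ≤ FF u w := by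
  rcases FF_cases hu hw with e | e | ⟨j, x, h, k, hh, e, m⟩ | ⟨j, x, h, k, hh, e, m⟩
  · rw [e, gg_comm]
    exact fp_le_gg w u
  · rw [e, gg_comm]
    exact fp_le_gg' w u
  · rw [e] at m ⊢
    obtain ⟨j', k', e'⟩ := core_swap hu hw hh k m
    rw [← e']
    exact (fp_le_HH w u).trans (HH_le w hu k')
  · rw [e] at m ⊢
    obtain ⟨j', k', e'⟩ := core_swap (fp_pos_swap hu) (fp_pos_swap hw) hh k m
    rw [← e']
    exact (fp_le_HH' w u).trans (HH_le w.swap (fp_pos_swap hu) k')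

theorem FF_comm {u w : ℝ × ℝ} (hu : Pos u) (hw : Pos w) : FF u w = FF w u :=
  le_antisymm (fp_comm_le hw hu) (fp_comm_le hu hw)

theorem FF_swap (u w : ℝ × ℝ) : FF u.swap w.swap = FF u w := by
  unfold FF
  rw [Prod.swap_swap, Prod.swap_swap, min_comm (gg u.swap w.swap) (gg u w),
    min_comm (HH u.swap w.swap) (HH u w)]

theorem FF_smul {r : ℝ} (hr : 0 < r) {u w : ℝ × ℝ} (hu : Pos u) (hw : Pos w) :
    FF (r • u) (r • w) = r * FF u w := by
  unfold FF
  rw [fp_smul_swap, fp_smul_swap, gg_smul hr hu hw, gg_smul hr (fp_pos_swap hu) (fp_pos_swap hw),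
    fp_HH_smul hr u hw, fp_HH_smul hr u.swap (fp_pos_swap hw), mul_min_of_nonneg _ _ hr.le,
    mul_min_of_nonneg _ _ hr.le, mul_min_of_nonneg _ _ hr.le]

theorem fp_nonneg {u w : ℝ × ℝ} (hu : Pos u) (hw : Pos w) {x h : ℝ} (hh : 0 < h) {j : Fin 3}
    (k : K j x h w) (m : MinAt u w x h (L j x h u w)) : 0 ≤ L j x h u w := by
  rcases eq_or_lt_of_le k.reg.2.2.2 with hD | hD
  · have e := star_eq hu hw hD.symm m k rfl
    subst e
    exact star_nonneg hw hD.symm k
  · obtain ⟨a, b, ha, hb, -, -, e⟩ := core_rep hu hw hh hD k m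
    rw [e]
    exact Finset.sum_nonneg fun i _ =>
      mul_nonneg (add_nonneg (ha i) (hb i)) (k.reg.z_nonneg i)

theorem FF_nonneg {u w : ℝ × ℝ} (hu : Pos u) (hw : Pos w) : 0 ≤ FF u w := by
  rcases FF_cases hu hw with e | e | ⟨j, x, h, k, hh, e, m⟩ | ⟨j, x, h, k, hh, e, m⟩
  · rw [e]
    exact (le_min hu.1.le hw.2.le).trans (le_gg hu hw).1
  · rw [e]
    exact (le_min hu.2.le hw.1.le).trans (le_gg (fp_pos_swap hu) (fp_pos_swap hw)).1
  · rw [e] at m ⊢
    exact fp_nonneg hu hw hh k m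
  · rw [e] at m ⊢
    exact fp_nonneg (fp_pos_swap hu) (fp_pos_swap hw) hh k m

theorem FF_center : FF (1, 1) (1, 1) ≤ 2 - √2 * exp (-(π / 4)) := by
  have h1 : (0 : ℝ) ≤ π / 4 := by positivity
  have k : K 2 0 (π / 4) ((1, 1) : ℝ × ℝ) := by
    show Reg 0 (π / 4) ∧ 0 ≤ al 0 (π / 4) ((1, 1) : ℝ × ℝ) ∧ 0 ≤ be (π / 4) ((1, 1) : ℝ × ℝ)
    refine ⟨⟨le_rfl, h1, le_rfl, ?_⟩, ?_, ?_⟩
    · simp [Dl, Real.cos_pi_div_four, Real.sin_pi_div_four]
    · simp [al, dd, QQ, sg, Real.cos_pi_div_four, Real.sin_pi_div_four]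
    · simp [be, dd, sg, Real.cos_pi_div_four, Real.sin_pi_div_four]
  have h2 : L 2 0 (π / 4) ((1, 1) : ℝ × ℝ) (1, 1) = 2 - √2 * exp (-(π / 4)) := by
    show L2 0 (π / 4) ((1, 1) : ℝ × ℝ) (1, 1) = _
    have ha : al 0 (π / 4) ((1, 1) : ℝ × ℝ) = 0 := by
      simp [al, dd, QQ, sg, Real.cos_pi_div_four, Real.sin_pi_div_four]
    have hb : be (π / 4) ((1, 1) : ℝ × ℝ) = 0 := by
      simp [be, dd, sg, Real.cos_pi_div_four, Real.sin_pi_div_four]
    have hm : m3 0 (π / 4) ((1, 1) : ℝ × ℝ) = √2 / 2 := by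
      simp only [m3, dd, sg, Real.cos_pi_div_four, Real.sin_pi_div_four]
      ring
    have hl : la2 0 (π / 4) ((1, 1) : ℝ × ℝ) = √2 / 2 := by
      simp only [la2, dd, sg, Real.cos_pi_div_four, Real.sin_pi_div_four]
      ring
    have he : ep 0 (π / 4) = exp (-(π / 4)) := by
      unfold ep
      congr 1
      ring
    rw [L2, J2, ha, hb, hm, hl, he]
    ring
  rw [← h2]
  exact (fp_le_HH _ _).trans (HH_le _ ⟨one_pos, one_pos⟩ k)

end Pool.Agent.Helper12.CR
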