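import Pool.Agent.Helper12.CR.VW
import Pool.Agent.Helper12.CR.Path

set_option autoImplicit false

/-!
# Project CR, module LowS: the one step contradiction of the lower bound

`a, b, e` are paths of vectors, `za, zb, ze` paths of heights, and near `t = 0+`, `W` is at least
the sum of the heights plus `m0 * φ t` at the three pairs `(a,b)`, `(a,e)`, `(e,b)`, with `m0 < 0`,
with equality at `t = 0` for the pair `(a, b)`.  The derivatives at `0` are
`a' = k1 (a - e) + r a`, `b' = k2 (b - e) + r b` (also for the heights), `φ' = -ω`, `r + ω > 0`.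

PROOF.  Put `û t = (1 - (k1+r) t) • a t + (k1 t) • e t`, `v̂ t = (1 - (k2+r) t) • b t + (k2 t) • e t`.
Then `û 0 = a 0`, `û' 0 = 0`, same for `v̂`.  For small `t > 0`, `û t / (1 - r t)` is the convex
combination of `a t, e t` with weights `1 - β1, β1`, `β1 = k1 t/(1 - r t)`, so by `hom`, `conc`
(in both arguments, using `symm`) and `W (e t) (e t) ≥ 0`,
`W (û t) (v̂ t) ≥ Ψ t := (1-rt) ((1-β1)(1-β2)(za+zb+m0 φ) + (1-β1) β2 (za+ze+m0 φ)
   + β1 (1-β2)(ze+zb+m0 φ))`.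
`Ψ` is differentiable at `0`, `Ψ 0 = za 0 + zb 0 + m0 = W (a 0) (b 0)` and
`Ψ' 0 = -r(za+zb+m0) - (k1+k2)(za+zb+m0) + k2(za+ze+m0) + k1(ze+zb+m0) + za' + zb' - m0 ω
      = -m0 (r + ω) > 0`.
On the other hand `a 0`, `b 0` are positive and `û' 0 = 0`, so for every `ε > 0`, for small `t > 0`,
`û t ≤ (1 + ε t) a 0` and `v̂ t ≤ (1 + ε t) b 0` coordinatewise, hence by `mono` (in both
arguments) and `hom`, `Ψ t ≤ W (û t) (v̂ t) ≤ (1 + ε t) W (a 0) (b 0) = (1 + ε t) Ψ 0`.  So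
`Ψ' 0 ≤ ε Ψ 0` for all `ε > 0`, contradiction.
-/

namespace Pool.Agent.Helper12.CR

open Filter Topology

/-- the superadditivity step -/
private theorem lows_split {W : ℝ × ℝ → ℝ × ℝ → ℝ} (hW : VProp W) {a b e : ℝ × ℝ}
    {α β α' β' R X Y Z : ℝ} (hα : 0 ≤ α) (hβ : 0 ≤ β) (hα' : 0 ≤ α') (hβ' : 0 ≤ β')
    (hR : 0 < R) (h1 : α + β = R) (h2 : α' + β' = R) (ha : NN a) (hb : NN b) (he : NN e)
    (hX : X ≤ W a b) (hY : Y ≤ W a e) (hZ : Z ≤ W e b) :
    (α * α' * X + α * β' * Y + β * α' * Z) / R ≤ W (α • a + β • e) (α' • b + β' • e) := by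
  have nn : ∀ {c d : ℝ} {p q : ℝ × ℝ}, 0 ≤ c → 0 ≤ d → NN p → NN q → NN (c • p + d • q) := by
    intro c d p q hc hd hp hq
    exact ⟨add_nonneg (mul_nonneg hc hp.1) (mul_nonneg hd hq.1),
      add_nonneg (mul_nonneg hc hp.2) (mul_nonneg hd hq.2)⟩
  have hαR : 0 ≤ α / R := by positivity
  have hβR : 0 ≤ β / R := by positivity
  have hα'R : 0 ≤ α' / R := by positivity
  have hβ'R : 0 ≤ β' / R := by positivity
  have s1 : α / R + β / R = 1 := by rw [← add_div, h1, div_self hR.ne']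
  have s2 : α' / R + β' / R = 1 := by rw [← add_div, h2, div_self hR.ne']
  set u := (α / R) • a + (β / R) • e with hu
  set v := (α' / R) • b + (β' / R) • e with hv
  have hun : NN u := nn hαR hβR ha he
  have hvn : NN v := nn hα'R hβ'R hb he
  have eu : α • a + β • e = R • u := by
    rw [hu, smul_add, smul_smul, smul_smul, mul_div_cancel₀ _ hR.ne', mul_div_cancel₀ _ hR.ne']
  have ev : α' • b + β' • e = R • v := by
    rw [hv, smul_add, smul_smul, smul_smul, mul_div_cancel₀ _ hR.ne', mul_div_cancel₀ _ hR.ne']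
  rw [eu, ev, hW.hom R u v hR.le hun hvn]
  have c1 := hW.conc (α / R) (β / R) a e v hαR hβR s1 ha he hvn
  have c2 := hW.conc (α' / R) (β' / R) b e a hα'R hβ'R s2 hb he ha
  have c3 := hW.conc (α' / R) (β' / R) b e e hα'R hβ'R s2 hb he he
  rw [← hu] at c1
  rw [← hv, hW.symm b a, hW.symm e a, hW.symm v a] at c2
  rw [← hv, hW.symm b e, hW.symm v e] at c3
  have c4 := hW.nonneg e e he he
  have d1 : α' / R * X + β' / R * Y ≤ W a v :=
    (add_le_add (mul_le_mul_of_nonneg_left hX hα'R) (mul_le_mul_of_nonneg_left hY hβ'R)).trans c2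
  have d2 : α' / R * Z ≤ W e v := by
    have := mul_le_mul_of_nonneg_left hZ hα'R
    have := mul_nonneg hβ'R c4
    linarith
  have d3 : α / R * (α' / R * X + β' / R * Y) + β / R * (α' / R * Z) ≤ W u v :=
    (add_le_add (mul_le_mul_of_nonneg_left d1 hαR) (mul_le_mul_of_nonneg_left d2 hβR)).trans c1
  have d4 := mul_le_mul_of_nonneg_left d3 hR.le
  refine le_trans (le_of_eq ?_) d4
  field_simp

theorem step_contra {W : ℝ × ℝ → ℝ × ℝ → ℝ} (hW : VProp W)
    {a b e : ℝ → ℝ × ℝ} {za zb ze φ : ℝ → ℝ} {e1 e2 e3 k1 k2 r m0 ω : ℝ}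
    (hk1 : 0 ≤ k1) (hk2 : 0 ≤ k2) (hr : 0 < r + ω) (hm : m0 < 0)
    (ha1 : HasDerivAt (fun t => (a t).1) (k1 * ((a 0).1 - (e 0).1) + r * (a 0).1) 0)
    (ha2 : HasDerivAt (fun t => (a t).2) (k1 * ((a 0).2 - (e 0).2) + r * (a 0).2) 0)
    (hb1 : HasDerivAt (fun t => (b t).1) (k2 * ((b 0).1 - (e 0).1) + r * (b 0).1) 0)
    (hb2 : HasDerivAt (fun t => (b t).2) (k2 * ((b 0).2 - (e 0).2) + r * (b 0).2) 0)
    (he1 : HasDerivAt (fun t => (e t).1) e1 0) (he2 : HasDerivAt (fun t => (e t).2) e2 0)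
    (hza : HasDerivAt za (k1 * (za 0 - ze 0) + r * za 0) 0)
    (hzb : HasDerivAt zb (k2 * (zb 0 - ze 0) + r * zb 0) 0)
    (hze : HasDerivAt ze e3 0) (hφ : HasDerivAt φ (-ω) 0) (hφ0 : φ 0 = 1)
    (hpa : Pos (a 0)) (hpb : Pos (b 0))
    (hnn : ∀ᶠ t in 𝓝[>] (0 : ℝ), NN (a t) ∧ NN (b t) ∧ NN (e t))
    (hlo : ∀ᶠ t in 𝓝[>] (0 : ℝ), za t + zb t + m0 * φ t ≤ W (a t) (b t) ∧
      za t + ze t + m0 * φ t ≤ W (a t) (e t) ∧ ze t + zb t + m0 * φ t ≤ W (e t) (b t))
    (h0 : W (a 0) (b 0) = za 0 + zb 0 + m0) : False := by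
  -- the paths
  set α : ℝ → ℝ := fun t => 1 - (k1 + r) * t with hα
  set α' : ℝ → ℝ := fun t => 1 - (k2 + r) * t with hα'
  have dα : HasDerivAt α (-(k1 + r)) 0 := by
    simpa using ((hasDerivAt_id (0 : ℝ)).const_mul (k1 + r)).const_sub 1
  have dα' : HasDerivAt α' (-(k2 + r)) 0 := by
    simpa using ((hasDerivAt_id (0 : ℝ)).const_mul (k2 + r)).const_sub 1
  have dβ : HasDerivAt (fun t : ℝ => k1 * t) k1 0 := by
    simpa using (hasDerivAt_id (0 : ℝ)).const_mul k1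
  have dβ' : HasDerivAt (fun t : ℝ => k2 * t) k2 0 := by
    simpa using (hasDerivAt_id (0 : ℝ)).const_mul k2
  have dR : HasDerivAt (fun t : ℝ => 1 - r * t) (-r) 0 := by
    simpa using ((hasDerivAt_id (0 : ℝ)).const_mul r).const_sub 1
  set S := W (a 0) (b 0) with hS
  have nna : NN (a 0) := ⟨hpa.1.le, hpa.2.le⟩
  have nnb : NN (b 0) := ⟨hpb.1.le, hpb.2.le⟩
  have hS0 : 0 ≤ S := hW.nonneg _ _ nna nnb
  -- the function `Ψ`
  set Ψ : ℝ → ℝ := fun t => (α t * α' t * (za t + zb t + m0 * φ t) +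
    α t * (k2 * t) * (za t + ze t + m0 * φ t) + (k1 * t) * α' t * (ze t + zb t + m0 * φ t)) /
      (1 - r * t) with hΨ
  have dΨ : HasDerivAt Ψ (-(m0 * (r + ω))) 0 := by
    have e1 := (dα.mul dα').mul ((hza.add hzb).add (hφ.const_mul m0))
    have e2 := (dα.mul dβ').mul ((hza.add hze).add (hφ.const_mul m0))
    have e3 := (dβ.mul dα').mul ((hze.add hzb).add (hφ.const_mul m0))
    have := ((e1.add e2).add e3).div dR (by norm_num)
    refine this.congr_deriv ?_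
    simp only [Pi.mul_apply, Pi.add_apply, hα, hα', mul_zero, sub_zero, hφ0]
    ring
  have hΨ0 : Ψ 0 = S := by
    simp only [hΨ, hα, hα', mul_zero, sub_zero, hφ0]
    rw [h0]
    ring
  set d := -(m0 * (r + ω)) with hd
  have hd0 : 0 < d := by
    rw [hd]
    have := mul_neg_of_neg_of_pos hm hr
    linarith
  set ε := d / (2 * (S + 1)) with hε
  have hε0 : 0 < ε := by positivity
  have hεS : ε * S < d := by
    rw [hε, div_mul_eq_mul_div, div_lt_iff₀ (by positivity)]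
    nlinarith
  -- comparison of the first argument
  have pos : ∀ {k : ℝ} {f g : ℝ → ℝ} {g' : ℝ}, HasDerivAt f (k * (f 0 - g 0) + r * f 0) 0 →
      HasDerivAt g g' 0 → 0 < f 0 →
      ∀ᶠ t in 𝓝[>] (0 : ℝ), (1 - (k + r) * t) * f t + k * t * g t ≤ (1 + ε * t) * f 0 := by
    intro k f g g' hf hg hf0
    have i1 : HasDerivAt (fun t : ℝ => 1 - (k + r) * t) (-(k + r)) 0 := by
      simpa using ((hasDerivAt_id (0 : ℝ)).const_mul (k + r)).const_sub 1
    have i2 : HasDerivAt (fun t : ℝ => k * t) k 0 := by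
      simpa using (hasDerivAt_id (0 : ℝ)).const_mul k
    have i3 : HasDerivAt (fun t : ℝ => 1 + ε * t) ε 0 := by
      simpa using ((hasDerivAt_id (0 : ℝ)).const_mul ε).const_add 1
    have i4 := (i3.mul_const (f 0)).sub ((i1.mul hf).add (i2.mul hg))
    have i5 : HasDerivAt (fun t => (1 + ε * t) * f 0 -
        ((1 - (k + r) * t) * f t + k * t * g t)) (ε * f 0) 0 := by
      refine i4.congr_deriv ?_
      ring
    refine (ev_pos i5 (mul_pos hε0 hf0) (by simp)).mono fun t ht => ?_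
    linarith
  have p1 := pos ha1 he1 hpa.1
  have p2 := pos ha2 he2 hpa.2
  have p3 := pos hb1 he1 hpb.1
  have p4 := pos hb2 he2 hpb.2
  have q1 : ∀ᶠ t in 𝓝[>] (0 : ℝ), 0 < α t := ev_pos' dα.continuousAt (by simp [hα])
  have q2 : ∀ᶠ t in 𝓝[>] (0 : ℝ), 0 < α' t := ev_pos' dα'.continuousAt (by simp [hα'])
  have q3 : ∀ᶠ t in 𝓝[>] (0 : ℝ), 0 < 1 - r * t := ev_pos' dR.continuousAt (by simp)
  have fin : ∀ᶠ t in 𝓝[>] (0 : ℝ), Ψ t ≤ (1 + ε * t) * S := by
    filter_upwards [p1, p2, p3, p4, q1, q2, q3, hnn, hlo, self_mem_nhdsWithin] with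
      t p1 p2 p3 p4 q1 q2 q3 hnn hlo ht
    have ht0 : (0 : ℝ) < t := ht
    obtain ⟨na, nb, ne⟩ := hnn
    have hk1t : 0 ≤ k1 * t := by positivity
    have hk2t : 0 ≤ k2 * t := by positivity
    have key := lows_split hW q1.le hk1t q2.le hk2t q3 (by simp only [hα]; ring)
      (by simp only [hα']; ring) na nb ne hlo.1 hlo.2.1 hlo.2.2
    have nu : NN (α t • a t + (k1 * t) • e t) :=
      ⟨add_nonneg (mul_nonneg q1.le na.1) (mul_nonneg hk1t ne.1),
        add_nonneg (mul_nonneg q1.le na.2) (mul_nonneg hk1t ne.2)⟩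
    have nv : NN (α' t • b t + (k2 * t) • e t) :=
      ⟨add_nonneg (mul_nonneg q2.le nb.1) (mul_nonneg hk2t ne.1),
        add_nonneg (mul_nonneg q2.le nb.2) (mul_nonneg hk2t ne.2)⟩
    have hε1 : 0 ≤ 1 + ε * t := by positivity
    have nu' : NN ((1 + ε * t) • a 0) := ⟨mul_nonneg hε1 nna.1, mul_nonneg hε1 nna.2⟩
    have m1 := hW.mono _ ((1 + ε * t) • a 0) _ nu nv p1 p2
    have m2 := hW.mono _ ((1 + ε * t) • b 0) _ nv nu' p3 p4
    rw [hW.symm _ ((1 + ε * t) • a 0), hW.symm _ ((1 + ε * t) • a 0)] at m2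
    rw [hW.hom (1 + ε * t) (a 0) (b 0) hε1 nna nnb] at m2
    exact key.trans (m1.trans m2)
  -- conclusion
  have i3 : HasDerivAt (fun t : ℝ => 1 + ε * t) ε 0 := by
    simpa using ((hasDerivAt_id (0 : ℝ)).const_mul ε).const_add 1
  have dF : HasDerivAt (fun t => Ψ t - (1 + ε * t) * S) (d - ε * S) 0 :=
    dΨ.sub (i3.mul_const S)
  have e1 := ev_pos dF (by linarith) (by simp [hΨ0])
  obtain ⟨t, h3, h4⟩ := (e1.and fin).exists
  linarith

end Pool.Agent.Helper12.CR
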