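import Pool.Agent.Helper12.CR.LowD
import Pool.Agent.Helper12.CR.LowS

set_option autoImplicit false

/-!
# Project CR, module Low: the lower bound

`low_vertex`.  Fix `T < π/4` with `x + h ≤ T` and the compact triangle
`KT = {(x, h) | 0 ≤ x, 0 ≤ h, x + h ≤ T}`, contained in `Reg` with `Δ > 0`
(for `x + h < π/4`, `0 ≤ h`: `(1 + x) sin h < cos h`, because
`(1 + π/4 - h) tan h ≤ 1` on `[0, π/4]`; e.g. `f h = cos h - (1 + π/4 - h) sin h` has
`f (π/4) = 0` and `f' = -(1 + π/4 - h) cos h ≤ 0`, and `Δ ≥ f h` with strict inequality if `h > 0`).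
For the pairs `P = (0,1), (0,2), (2,1)` put
`A P (x,h) = (W (U i) (U j) - z i - z j) * exp (-2 (2 h + x))`.
`A P` is LOWER SEMICONTINUOUS on `KT`: by `mono`, `hom`: if `U i (x',h') ≥ (1-η) U i (x,h)`
coordinatewise and the same for `j`, then `W (U i') (U j') ≥ (1-η) W (U i) (U j)`; for
`(x',h')` close to `(x,h)` the coordinatewise inequality holds, by continuity where the coordinate of
`U i (x,h)` is positive, and trivially where it is `0`, since all coordinates are nonnegative on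
`KT` (`Reg.U_nonneg`).  So each `A P` attains its minimum on `KT`
(`LowerSemicontinuousOn.exists_isMinOn`); let `m` be the smallest of the three minima, attained at
`(x, h)` and `P`.  Suppose `m < 0`.  Then for all `(x', h') ∈ KT` and all three pairs
`W (U i') (U j') ≥ z i' + z j' + m exp (2 (2h' + x'))`.  Put `m0 = m exp (2 (2h + x)) < 0`.
 * `P = (0,1)`, `h = 0`: `U 0 = (2,0)`, `U 1 = (2x,2)`, `z 0 + z 1 = 2`, `maj` gives `m ≥ 0`.
 * `P = (0,1)`, `h > 0`: `step_contra` with `a, b, e = U 0, U 1, U 2` at `(x, h-t)`, `r = 1`,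
   `φ t = exp (-4 t)`, `ω = 4` (`low_h`).
 * `P = (2,1)`, `x > 0`: `step_contra` with `a, b, e = U 2, U 1, U 0` at `(x-t, h)`, `r = -1`,
   `φ t = exp (-2 t)`, `ω = 2` (`low_x`); `W (U 2) (U 0) = W (U 0) (U 2)`.
 * `P = (2,1)`, `x = 0`: at `x = 0`, `(U 2).swap = U 2`, `(U 1).swap = U 0`, `z 0 = z 1`, so by
   `mirror` and `symm` the pair `(0,2)` also attains the minimum at the same point.
 * `P = (0,2)`, `h = 0`: `U 0 = (2,0)`, `U 2 = (2+2x, 2)`, `z 0 + z 2 = 2`: `maj`.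
 * `P = (0,2)`, `h > 0`: `step_contra` with `a, b, e = U 0, U 2, U 1` at `(x+t, h-t)` (in `KT`, as
   `x + h` is constant), `r = 0`, `φ t = exp (-2 t)`, `ω = 2` (`low_hx`).
 The vectors `U 0` for `h > 0`, `U 1` for `h > 0` or `x > 0`, and `U 2` are positive.

`center_lower`.  `low_vertex` at `(0, h)`, `h < π/4`: `z 0 + z 1 = 2 (1 - s κ)/c`, and
`U 0, U 1 ≤ (1 + (c-s) κ)/c • (1,1)`, so `W (1,1) (1,1) ≥ 2 (1 - s κ)/(1 + (c-s) κ)`.  Let
`h → π/4`.
-/

namespace Pool.Agent.Helper12.CR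

open Real Filter Topology

private theorem low_reg {x h : ℝ} (hx : 0 ≤ x) (hh : 0 ≤ h) (hT : x + h < π / 4) :
    Reg x h ∧ 0 < Dl x h := by
  have hpi := pi_pos
  have hh4 : h < π / 4 := by linarith
  have hD : 0 < Dl x h := by
    unfold Dl
    rcases eq_or_lt_of_le hh with rfl | hh0
    · simp
    · have hs : 0 < sin h := sin_pos_of_pos_of_lt_pi hh0 (by linarith)
      have ht0 : 0 < π / 4 - h := by linarith
      have ht1 : π / 4 - h < π / 2 := by linarith
      have hc' : 0 < cos (π / 4 - h) := cos_pos_of_mem_Ioo ⟨by linarith, ht1⟩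
      have htan : π / 4 - h < tan (π / 4 - h) := lt_tan ht0 ht1
      rw [tan_eq_sin_div_cos, lt_div_iff₀ hc'] at htan
      have e1 : cos (π / 4 - h) = √2 / 2 * (cos h + sin h) := by
        rw [cos_sub, cos_pi_div_four, sin_pi_div_four]; ring
      have e2 : sin (π / 4 - h) = √2 / 2 * (cos h - sin h) := by
        rw [sin_sub, cos_pi_div_four, sin_pi_div_four]; ring
      rw [e1, e2] at htan
      have h2 : 0 < √2 / 2 := by positivity
      have key : (π / 4 - h) * (cos h + sin h) < cos h - sin h := by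
        have : √2 / 2 * ((π / 4 - h) * (cos h + sin h)) < √2 / 2 * (cos h - sin h) := by
          linarith
        exact lt_of_mul_lt_mul_left this h2.le
      have hcs : 0 < cos h := cos_pos_of_mem_Ioo ⟨by linarith, by linarith⟩
      nlinarith [mul_pos ht0 hcs, mul_pos (show 0 < π / 4 - h - x by linarith) hs]
  exact ⟨⟨hx, hh, hh4.le, hD.le⟩, hD⟩

/-- continuity of the vectors and heights -/
private theorem low_cont (i j : Fin 3) {p : ℝ × ℝ} (hg : g1 p.1 p.2 ≠ 0) (hc : cos p.2 ≠ 0) :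
    ContinuousAt (fun q : ℝ × ℝ => T i j q.1 q.2) p := by
  have cg : ContinuousAt (fun q : ℝ × ℝ => g1 q.1 q.2) p := by unfold g1; fun_prop
  have cD : ContinuousAt (fun q : ℝ × ℝ => DD q.1 q.2) p := by unfold DD; fun_prop
  have cQ : ContinuousAt (fun q : ℝ × ℝ => QQ q.1 q.2) p := by unfold QQ; fun_prop
  have ce : ContinuousAt (fun q : ℝ × ℝ => ep q.1 q.2) p := by unfold ep; fun_prop
  have cc : ContinuousAt (fun q : ℝ × ℝ => cos q.2) p := by fun_prop
  fin_cases i <;> fin_cases j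
  · show ContinuousAt (fun q : ℝ × ℝ => (1 + (cos q.2 - sin q.2) * exp (-q.2)) / g1 q.1 q.2) p
    exact ContinuousAt.div (by fun_prop) cg hg
  · show ContinuousAt (fun q : ℝ × ℝ => (1 + q.1 - QQ q.1 q.2 * exp (-q.2)) / cos q.2) p
    exact ContinuousAt.div (by fun_prop) cc hc
  · show ContinuousAt (fun q : ℝ × ℝ => DD q.1 q.2 + q.1 * exp (-q.2)) p
    fun_prop
  · show ContinuousAt (fun q : ℝ × ℝ => (1 - (cos q.2 - sin q.2) * exp (-q.2)) / g1 q.1 q.2) p
    exact ContinuousAt.div (by fun_prop) cg hg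
  · show ContinuousAt (fun q : ℝ × ℝ => (1 + q.1 + QQ q.1 q.2 * exp (-q.2)) / cos q.2) p
    exact ContinuousAt.div (by fun_prop) cc hc
  · show ContinuousAt (fun q : ℝ × ℝ => DD q.1 q.2 - q.1 * exp (-q.2)) p
    fun_prop
  · show ContinuousAt (fun q : ℝ × ℝ => (1 - (cos q.2 - sin q.2) * exp (-q.2) +
      (cos q.2 - (2 + q.1) * sin q.2) * ep q.1 q.2) / g1 q.1 q.2) p
    exact ContinuousAt.div (by fun_prop) cg hg
  · show ContinuousAt (fun q : ℝ × ℝ => (1 + q.1 + QQ q.1 q.2 * exp (-q.2) -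
      cos q.2 * ep q.1 q.2) / cos q.2) p
    exact ContinuousAt.div (by fun_prop) cc hc
  · show ContinuousAt (fun q : ℝ × ℝ => DD q.1 q.2 - q.1 * exp (-q.2) - ep q.1 q.2) p
    fun_prop

private theorem low_posU0 {x h : ℝ} (r : Reg x h) (hh : 0 < h) : Pos (U 0 x h) := by
  have hg := r.g1_pos
  have hsc := r.sin_le_cos
  have hs := r.sin_nonneg
  have hk : exp (-h) < 1 := by rw [exp_lt_one_iff]; linarith
  have hk0 := exp_pos (-h)
  have hc1 := cos_le_one h
  have h1 : (cos h - sin h) * exp (-h) < 1 := by nlinarith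
  constructor
  · show 0 < (1 + (cos h - sin h) * exp (-h)) / g1 x h
    exact div_pos (by nlinarith) hg
  · show 0 < (1 - (cos h - sin h) * exp (-h)) / g1 x h
    exact div_pos (by linarith) hg

private theorem low_posU2 {x h : ℝ} (r : Reg x h) : Pos (U 2 x h) := by
  have hg := r.g1_pos
  have hD := r.DD_pos
  have hk := r.exp_le_cos
  have hk0 := exp_pos (-h)
  have hx := r.1
  constructor
  · show 0 < DD x h + x * exp (-h)
    nlinarith [mul_nonneg hx hk0.le]
  · show 0 < DD x h - x * exp (-h)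
    have : DD x h = g1 x h + (1 + x) * cos h := by unfold DD g1; ring
    rw [this]
    nlinarith [mul_nonneg hx (sub_nonneg.2 hk), r.cos_pos]

private theorem low_posU1 {x h : ℝ} (r : Reg x h) (hh : 0 < h ∨ 0 < x) : Pos (U 1 x h) := by
  have hc := r.cos_pos
  have hs := r.sin_nonneg
  have hk0 := exp_pos (-h)
  have hc1 := cos_le_one h
  have hx := r.1
  have hsc := r.sin_le_cos
  have hQ1 : QQ x h ≤ 1 + x := by unfold QQ; nlinarith [mul_nonneg hx hc.le, mul_nonneg hx hs]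
  have hQ2 : -(1 + x) < QQ x h := by
    have : QQ x h = Dl x h - x * cos h := by unfold QQ Dl; ring
    rw [this]
    nlinarith [r.2.2.2, mul_le_mul_of_nonneg_left hc1 hx]
  have hk1 : exp (-h) ≤ 1 := by rw [exp_le_one_iff]; linarith [r.2.1]
  have e1 : 0 < 1 + x - QQ x h * exp (-h) := by
    rcases hh with hh | hx0
    · have hk : exp (-h) < 1 := by rw [exp_lt_one_iff]; linarith
      nlinarith
    · have : QQ x h < 1 + x := by unfold QQ; nlinarith [mul_nonneg hx hc.le, mul_nonneg hx hs]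
      nlinarith
  have e2 : 0 < 1 + x + QQ x h * exp (-h) := by nlinarith
  constructor
  · show 0 < (1 + x - QQ x h * exp (-h)) / cos h
    exact div_pos e1 hc
  · show 0 < (1 + x + QQ x h * exp (-h)) / cos h
    exact div_pos e2 hc

/-- the compact triangle -/
private def KT (T₀ : ℝ) : Set (ℝ × ℝ) := {p | 0 ≤ p.1 ∧ 0 ≤ p.2 ∧ p.1 + p.2 ≤ T₀}

private theorem low_compact (T₀ : ℝ) : IsCompact (KT T₀) := by
  have hc : IsClosed (KT T₀) := by
    have e : KT T₀ = {p : ℝ × ℝ | 0 ≤ p.1} ∩ ({p | 0 ≤ p.2} ∩ {p | p.1 + p.2 ≤ T₀}) := by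
      ext p; simp [KT]
    rw [e]
    exact (isClosed_le continuous_const continuous_fst).inter
      ((isClosed_le continuous_const continuous_snd).inter
        (isClosed_le (continuous_fst.add continuous_snd) continuous_const))
  have hsub : KT T₀ ⊆ Set.Icc (0 : ℝ) T₀ ×ˢ Set.Icc (0 : ℝ) T₀ := by
    rintro p ⟨h1, h2, h3⟩
    exact ⟨⟨h1, by linarith⟩, ⟨h2, by linarith⟩⟩
  exact (isCompact_Icc.prod isCompact_Icc).of_isClosed_subset hc hsub

/-- the function to be minimised -/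
private noncomputable def AF (W : ℝ × ℝ → ℝ × ℝ → ℝ) (i j : Fin 3) (p : ℝ × ℝ) : ℝ :=
  (W (U i p.1 p.2) (U j p.1 p.2) - z i p.1 p.2 - z j p.1 p.2) * exp (-2 * (2 * p.2 + p.1))

private theorem mono₂ {W : ℝ × ℝ → ℝ × ℝ → ℝ} (hW : VProp W) {u u' w w' : ℝ × ℝ} (hu : NN u)
    (hw : NN w) (h1 : u.1 ≤ u'.1) (h2 : u.2 ≤ u'.2) (h3 : w.1 ≤ w'.1) (h4 : w.2 ≤ w'.2) :
    W u w ≤ W u' w' := by
  have hu' : NN u' := ⟨hu.1.trans h1, hu.2.trans h2⟩
  calc W u w ≤ W u' w := hW.mono u u' w hu hw h1 h2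
    _ = W w u' := hW.symm _ _
    _ ≤ W w' u' := hW.mono w w' u' hw hu' h3 h4
    _ = W u' w' := hW.symm _ _

private theorem low_lsc {W : ℝ × ℝ → ℝ × ℝ → ℝ} (hW : VProp W) (i j : Fin 3) {T₀ : ℝ}
    (hT : T₀ < π / 4) : LowerSemicontinuousOn (AF W i j) (KT T₀) := by
  intro p hp y hy
  have hreg : ∀ q ∈ KT T₀, Reg q.1 q.2 := fun q hq =>
    (low_reg hq.1 hq.2.1 (lt_of_le_of_lt hq.2.2 hT)).1
  have r := hreg p hp
  have hg := r.g1_pos.ne'
  have hc := r.cos_pos.ne'
  have hNN : ∀ q ∈ KT T₀, ∀ j, NN (U j q.1 q.2) := fun q hq j => (hreg q hq).U_nonneg j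
  set F := W (U i p.1 p.2) (U j p.1 p.2) with hF
  -- choose `η`
  have h1 : Tendsto (fun η : ℝ => ((1 - η) * F - z i p.1 p.2 - z j p.1 p.2) *
      exp (-2 * (2 * p.2 + p.1))) (𝓝 0) (𝓝 (AF W i j p)) := by
    have : AF W i j p = ((1 - 0) * F - z i p.1 p.2 - z j p.1 p.2) *
      exp (-2 * (2 * p.2 + p.1)) := by simp [AF, hF]
    rw [this]
    exact (Continuous.tendsto (by fun_prop) 0)
  have h2 : ∀ᶠ η : ℝ in 𝓝[>] 0, y < ((1 - η) * F - z i p.1 p.2 - z j p.1 p.2) *
      exp (-2 * (2 * p.2 + p.1)) :=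
    (h1.eventually_const_lt hy).filter_mono nhdsWithin_le_nhds
  have h3 : ∀ᶠ η : ℝ in 𝓝[>] 0, η < 1 :=
    (eventually_lt_nhds one_pos).filter_mono nhdsWithin_le_nhds
  have h4 : ∀ᶠ η : ℝ in 𝓝[>] 0, 0 < η := self_mem_nhdsWithin
  obtain ⟨η, ⟨hη1, hη2⟩, hη3⟩ := ((h2.and h3).and h4).exists
  -- neighbourhood of `p`
  have c1 : ∀ i : Fin 3, ContinuousAt (fun q : ℝ × ℝ => (U i q.1 q.2).1) p :=
    fun i => low_cont 0 i hg hc
  have c2 : ∀ i : Fin 3, ContinuousAt (fun q : ℝ × ℝ => (U i q.1 q.2).2) p :=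
    fun i => low_cont 1 i hg hc
  have c3 : ∀ i : Fin 3, ContinuousAt (fun q : ℝ × ℝ => z i q.1 q.2) p :=
    fun i => low_cont 2 i hg hc
  have e1 : ∀ i : Fin 3, ∀ᶠ q in 𝓝[KT T₀] p, (1 - η) * (U i p.1 p.2).1 ≤ (U i q.1 q.2).1 := by
    intro i
    rcases eq_or_lt_of_le (hNN p hp i).1 with h0 | h0
    · filter_upwards [self_mem_nhdsWithin] with q hq
      rw [← h0, mul_zero]; exact (hNN q hq i).1
    · have : (1 - η) * (U i p.1 p.2).1 < (U i p.1 p.2).1 := by nlinarith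
      exact ((c1 i).eventually_const_lt this).filter_mono nhdsWithin_le_nhds |>.mono
        fun q hq => hq.le
  have e2 : ∀ i : Fin 3, ∀ᶠ q in 𝓝[KT T₀] p, (1 - η) * (U i p.1 p.2).2 ≤ (U i q.1 q.2).2 := by
    intro i
    rcases eq_or_lt_of_le (hNN p hp i).2 with h0 | h0
    · filter_upwards [self_mem_nhdsWithin] with q hq
      rw [← h0, mul_zero]; exact (hNN q hq i).2
    · have : (1 - η) * (U i p.1 p.2).2 < (U i p.1 p.2).2 := by nlinarith
      exact ((c2 i).eventually_const_lt this).filter_mono nhdsWithin_le_nhds |>.mono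
        fun q hq => hq.le
  have e3 : ∀ᶠ q in 𝓝[KT T₀] p, y < ((1 - η) * F - z i q.1 q.2 - z j q.1 q.2) *
      exp (-2 * (2 * q.2 + q.1)) := by
    have c4 : ContinuousAt (fun q : ℝ × ℝ => ((1 - η) * F - z i q.1 q.2 - z j q.1 q.2) *
        exp (-2 * (2 * q.2 + q.1))) p :=
      ((continuousAt_const.sub (c3 i)).sub (c3 j)).mul (by fun_prop)
    exact (c4.eventually_const_lt hη1).filter_mono nhdsWithin_le_nhds
  filter_upwards [e1 i, e2 i, e1 j, e2 j, e3, self_mem_nhdsWithin] with q a1 a2 a3 a4 a5 a6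
  refine lt_of_lt_of_le a5 ?_
  refine mul_le_mul_of_nonneg_right ?_ (exp_pos _).le
  have h5 : (1 - η) * F ≤ W (U i q.1 q.2) (U j q.1 q.2) := by
    have hη0 : 0 ≤ 1 - η := by linarith
    rw [hF, ← hW.hom _ _ _ hη0 (hNN p hp i) (hNN p hp j)]
    refine mono₂ hW ?_ ?_ a1 a2 a3 a4
    · exact ⟨mul_nonneg hη0 (hNN p hp i).1, mul_nonneg hη0 (hNN p hp i).2⟩
    · exact ⟨mul_nonneg hη0 (hNN p hp j).1, mul_nonneg hη0 (hNN p hp j).2⟩
  linarith

private def Lw (W : ℝ × ℝ → ℝ × ℝ → ℝ) (T₀ m : ℝ) : Prop :=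
  ∀ p ∈ KT T₀, m ≤ AF W 0 1 p ∧ m ≤ AF W 0 2 p ∧ m ≤ AF W 2 1 p

private theorem AF_le {W : ℝ × ℝ → ℝ × ℝ → ℝ} {i j : Fin 3} {m x h : ℝ}
    (H : m ≤ AF W i j (x, h)) :
    z i x h + z j x h + m * exp (2 * (2 * h + x)) ≤ W (U i x h) (U j x h) := by
  unfold AF at H
  have e : exp (-2 * (2 * h + x)) * exp (2 * (2 * h + x)) = 1 := by
    rw [← exp_add]; simp
  have := mul_le_mul_of_nonneg_right H (exp_pos (2 * (2 * h + x))).le
  simp only at this
  rw [mul_assoc, e, mul_one] at this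
  linarith

private theorem AF_eq {W : ℝ × ℝ → ℝ × ℝ → ℝ} {i j : Fin 3} {m x h : ℝ}
    (H : AF W i j (x, h) = m) :
    W (U i x h) (U j x h) = z i x h + z j x h + m * exp (2 * (2 * h + x)) := by
  unfold AF at H
  have e : exp (-2 * (2 * h + x)) * exp (2 * (2 * h + x)) = 1 := by
    rw [← exp_add]; simp
  have : (W (U i x h) (U j x h) - z i x h - z j x h) = m * exp (2 * (2 * h + x)) := by
    rw [← H]; simp only; rw [mul_assoc, e, mul_one]
  linarith

private theorem lw_eq {m x h x' h' ω t : ℝ} (H : 2 * (2 * h' + x') = 2 * (2 * h + x) + -(ω * t)) :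
    m * exp (2 * (2 * h' + x')) = m * exp (2 * (2 * h + x)) * exp (-(ω * t)) := by
  rw [H, exp_add, mul_assoc]

private theorem low_phi (ω : ℝ) : HasDerivAt (fun t : ℝ => exp (-(ω * t))) (-ω) 0 := by
  have : HasDerivAt (fun t : ℝ => -(ω * t)) (-(ω * 1)) 0 :=
    ((hasDerivAt_id (0 : ℝ)).const_mul ω).neg
  simpa using this.exp

private theorem case01 {W : ℝ × ℝ → ℝ × ℝ → ℝ} (hW : VProp W) {T₀ m x h : ℝ} (hT : T₀ < π / 4)
    (hL : Lw W T₀ m) (hm : m < 0) (hp : (x, h) ∈ KT T₀) (H : AF W 0 1 (x, h) = m) : False := by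
  obtain ⟨hx, hh, hxh⟩ := hp
  simp only at hx hh hxh
  have hE := exp_pos (2 * (2 * h + x))
  rcases eq_or_lt_of_le hh with rfl | hh0
  · have h1 := AF_eq H
    have h2 := (hW.maj (U 0 x 0) (U 1 x 0) ((low_reg hx le_rfl (lt_of_le_of_lt hxh hT)).1.U_nonneg 0)
      ((low_reg hx le_rfl (lt_of_le_of_lt hxh hT)).1.U_nonneg 1)).1
    have e1 : (U 0 x 0).1 = 2 := by simp [U, g1]; norm_num
    have e2 : (U 1 x 0).2 = 2 := by simp [U, QQ]; ring
    have e3 : z 0 x 0 + z 1 x 0 = 2 := by simp [z, g1, QQ]; ring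
    rw [e1, e2, min_self, h1, e3] at h2
    nlinarith [mul_neg_of_neg_of_pos hm hE]
  · obtain ⟨r, hD⟩ := low_reg hx hh (lt_of_le_of_lt hxh hT)
    have hg := r.g1_pos
    have hc := r.cos_pos
    refine step_contra hW (a := fun t => U 0 x (h - t)) (b := fun t => U 1 x (h - t))
      (e := fun t => U 2 x (h - t)) (za := fun t => z 0 x (h - t)) (zb := fun t => z 1 x (h - t))
      (ze := fun t => z 2 x (h - t)) (φ := fun t => exp (-(4 * t))) (ω := 4) (r := 1)
      (k1 := 1 / (g1 x h * Dl x h)) (k2 := (1 + x) / (cos h * Dl x h))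
      (m0 := m * exp (2 * (2 * h + x))) (by positivity) (by positivity) (by norm_num)
      (mul_neg_of_neg_of_pos hm hE)
      (by simpa [T] using (low_h 0 hg.ne' hc.ne' hD.ne').1)
      (by simpa [T] using (low_h 1 hg.ne' hc.ne' hD.ne').1)
      (by simpa [T] using (low_h 0 hg.ne' hc.ne' hD.ne').2.1)
      (by simpa [T] using (low_h 1 hg.ne' hc.ne' hD.ne').2.1)
      (by simpa [T] using (low_h 0 hg.ne' hc.ne' hD.ne').2.2.choose_spec)
      (by simpa [T] using (low_h 1 hg.ne' hc.ne' hD.ne').2.2.choose_spec)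
      (by simpa [T] using (low_h 2 hg.ne' hc.ne' hD.ne').1)
      (by simpa [T] using (low_h 2 hg.ne' hc.ne' hD.ne').2.1)
      (by simpa [T] using (low_h 2 hg.ne' hc.ne' hD.ne').2.2.choose_spec)
      (low_phi 4) (by simp) (by simpa using low_posU0 r hh0)
      (by simpa using low_posU1 r (Or.inl hh0)) ?_ ?_ (by simpa using AF_eq H)
    · filter_upwards [Ioo_mem_nhdsGT hh0] with t ht
      have r' := (low_reg hx (by linarith [ht.2] : 0 ≤ h - t) (by linarith [ht.1])).1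
      exact ⟨r'.U_nonneg 0, r'.U_nonneg 1, r'.U_nonneg 2⟩
    · filter_upwards [Ioo_mem_nhdsGT hh0] with t ht
      have hq : (x, h - t) ∈ KT T₀ := ⟨hx, by simp only; linarith [ht.2], by simp only; linarith [ht.1]⟩
      obtain ⟨h1, h2, h3⟩ := hL _ hq
      have e : m * exp (2 * (2 * (h - t) + x)) = m * exp (2 * (2 * h + x)) * exp (-(4 * t)) :=
        lw_eq (by ring)
      have h1' := AF_le h1
      have h2' := AF_le h2
      have h3' := AF_le h3
      rw [e] at h1' h2' h3'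
      exact ⟨h1', h2', h3'⟩

private theorem case02 {W : ℝ × ℝ → ℝ × ℝ → ℝ} (hW : VProp W) {T₀ m x h : ℝ} (hT : T₀ < π / 4)
    (hL : Lw W T₀ m) (hm : m < 0) (hp : (x, h) ∈ KT T₀) (H : AF W 0 2 (x, h) = m) : False := by
  obtain ⟨hx, hh, hxh⟩ := hp
  simp only at hx hh hxh
  have hE := exp_pos (2 * (2 * h + x))
  rcases eq_or_lt_of_le hh with rfl | hh0
  · have h1 := AF_eq H
    have h2 := (hW.maj (U 0 x 0) (U 2 x 0) ((low_reg hx le_rfl (lt_of_le_of_lt hxh hT)).1.U_nonneg 0)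
      ((low_reg hx le_rfl (lt_of_le_of_lt hxh hT)).1.U_nonneg 2)).1
    have e1 : (U 0 x 0).1 = 2 := by simp [U, g1]; norm_num
    have e2 : (U 2 x 0).2 = 2 := by simp [U, DD]
    have e3 : z 0 x 0 + z 2 x 0 = 2 := by simp [z, g1, DD]
    rw [e1, e2, min_self, h1, e3] at h2
    nlinarith [mul_neg_of_neg_of_pos hm hE]
  · obtain ⟨r, hD⟩ := low_reg hx hh (lt_of_le_of_lt hxh hT)
    have hg := r.g1_pos
    have hc := r.cos_pos
    refine step_contra hW (a := fun t => U 0 (x + t) (h - t)) (b := fun t => U 2 (x + t) (h - t))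
      (e := fun t => U 1 (x + t) (h - t)) (za := fun t => z 0 (x + t) (h - t))
      (zb := fun t => z 2 (x + t) (h - t))
      (ze := fun t => z 1 (x + t) (h - t)) (φ := fun t => exp (-(2 * t))) (ω := 2) (r := 0)
      (k1 := cos h ^ 2 / (g1 x h * Dl x h)) (k2 := (1 + x) * cos h / Dl x h)
      (m0 := m * exp (2 * (2 * h + x))) (by positivity) (by positivity) (by norm_num)
      (mul_neg_of_neg_of_pos hm hE)
      (by simpa [T] using (low_hx 0 hg.ne' hc.ne' hD.ne').1)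
      (by simpa [T] using (low_hx 1 hg.ne' hc.ne' hD.ne').1)
      (by simpa [T] using (low_hx 0 hg.ne' hc.ne' hD.ne').2.1)
      (by simpa [T] using (low_hx 1 hg.ne' hc.ne' hD.ne').2.1)
      (by simpa [T] using (low_hx 0 hg.ne' hc.ne' hD.ne').2.2.choose_spec)
      (by simpa [T] using (low_hx 1 hg.ne' hc.ne' hD.ne').2.2.choose_spec)
      (by simpa [T] using (low_hx 2 hg.ne' hc.ne' hD.ne').1)
      (by simpa [T] using (low_hx 2 hg.ne' hc.ne' hD.ne').2.1)
      (by simpa [T] using (low_hx 2 hg.ne' hc.ne' hD.ne').2.2.choose_spec)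
      (low_phi 2) (by simp) (by simpa using low_posU0 r hh0)
      (by simpa using low_posU2 r) ?_ ?_ (by simpa using AF_eq H)
    · filter_upwards [Ioo_mem_nhdsGT hh0] with t ht
      have r' := (low_reg (by linarith [ht.1] : 0 ≤ x + t) (by linarith [ht.2] : 0 ≤ h - t)
        (by linarith [ht.1])).1
      exact ⟨r'.U_nonneg 0, r'.U_nonneg 2, r'.U_nonneg 1⟩
    · filter_upwards [Ioo_mem_nhdsGT hh0] with t ht
      have hq : (x + t, h - t) ∈ KT T₀ :=
        ⟨by simp only; linarith [ht.1], by simp only; linarith [ht.2], by simp only; linarith [ht.1]⟩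
      obtain ⟨h1, h2, h3⟩ := hL _ hq
      have e : m * exp (2 * (2 * (h - t) + (x + t))) =
          m * exp (2 * (2 * h + x)) * exp (-(2 * t)) := lw_eq (by ring)
      have h1' := AF_le h1
      have h2' := AF_le h2
      have h3' := AF_le h3
      rw [e] at h1' h2' h3'
      refine ⟨h2', h1', ?_⟩
      rw [hW.symm (U 1 (x + t) (h - t))]
      linarith

private theorem case21 {W : ℝ × ℝ → ℝ × ℝ → ℝ} (hW : VProp W) {T₀ m x h : ℝ} (hT : T₀ < π / 4)
    (hL : Lw W T₀ m) (hm : m < 0) (hp : (x, h) ∈ KT T₀) (H : AF W 2 1 (x, h) = m) : False := by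
  obtain ⟨hx, hh, hxh⟩ := hp
  simp only at hx hh hxh
  have hE := exp_pos (2 * (2 * h + x))
  rcases eq_or_lt_of_le hx with rfl | hx0
  · refine case02 hW hT hL hm (x := 0) (h := h) ⟨le_rfl, hh, hxh⟩ ?_
    rw [← H]
    have e1 : (U 2 0 h).swap = U 2 0 h := by simp [U, DD]
    have e2 : (U 1 0 h).swap = U 0 0 h := by simp [U, QQ, g1]
    have e3 : z 0 0 h = z 1 0 h := by simp [z, g1, QQ, ep]; ring
    have e4 : W (U 2 0 h) (U 1 0 h) = W (U 0 0 h) (U 2 0 h) := by
      rw [← hW.mirror, e1, e2, hW.symm]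
    simp only [AF]
    rw [e4, e3]
    ring
  · obtain ⟨r, hD⟩ := low_reg hx hh (lt_of_le_of_lt hxh hT)
    have hg := r.g1_pos
    have hc := r.cos_pos
    refine step_contra hW (a := fun t => U 2 (x - t) h) (b := fun t => U 1 (x - t) h)
      (e := fun t => U 0 (x - t) h) (za := fun t => z 2 (x - t) h)
      (zb := fun t => z 1 (x - t) h)
      (ze := fun t => z 0 (x - t) h) (φ := fun t => exp (-(2 * t))) (ω := 2) (r := -1)
      (k1 := g1 x h / Dl x h) (k2 := g1 x h / Dl x h)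
      (m0 := m * exp (2 * (2 * h + x))) (by positivity) (by positivity) (by norm_num)
      (mul_neg_of_neg_of_pos hm hE)
      (by simpa [T] using (low_x 0 hg.ne' hc.ne' hD.ne').1)
      (by simpa [T] using (low_x 1 hg.ne' hc.ne' hD.ne').1)
      (by simpa [T] using (low_x 0 hg.ne' hc.ne' hD.ne').2.1)
      (by simpa [T] using (low_x 1 hg.ne' hc.ne' hD.ne').2.1)
      (by simpa [T] using (low_x 0 hg.ne' hc.ne' hD.ne').2.2.choose_spec)
      (by simpa [T] using (low_x 1 hg.ne' hc.ne' hD.ne').2.2.choose_spec)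
      (by simpa [T] using (low_x 2 hg.ne' hc.ne' hD.ne').1)
      (by simpa [T] using (low_x 2 hg.ne' hc.ne' hD.ne').2.1)
      (by simpa [T] using (low_x 2 hg.ne' hc.ne' hD.ne').2.2.choose_spec)
      (low_phi 2) (by simp) (by simpa using low_posU2 r)
      (by simpa using low_posU1 r (Or.inr hx0)) ?_ ?_ (by simpa using AF_eq H)
    · filter_upwards [Ioo_mem_nhdsGT hx0] with t ht
      have r' := (low_reg (by linarith [ht.2] : 0 ≤ x - t) hh
        (by linarith [ht.1])).1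
      exact ⟨r'.U_nonneg 2, r'.U_nonneg 1, r'.U_nonneg 0⟩
    · filter_upwards [Ioo_mem_nhdsGT hx0] with t ht
      have hq : (x - t, h) ∈ KT T₀ :=
        ⟨by simp only; linarith [ht.2], hh, by simp only; linarith [ht.1]⟩
      obtain ⟨h1, h2, h3⟩ := hL _ hq
      have e : m * exp (2 * (2 * h + (x - t))) =
          m * exp (2 * (2 * h + x)) * exp (-(2 * t)) := lw_eq (by ring)
      have h1' := AF_le h1
      have h2' := AF_le h2
      have h3' := AF_le h3
      rw [e] at h1' h2' h3'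
      refine ⟨h3', ?_, h1'⟩
      rw [hW.symm (U 2 (x - t) h)]
      linarith

theorem low_vertex {W : ℝ × ℝ → ℝ × ℝ → ℝ} (hW : VProp W) {x h : ℝ} (hx : 0 ≤ x) (hh : 0 ≤ h)
    (hT : x + h < π / 4) :
    z 0 x h + z 1 x h ≤ W (U 0 x h) (U 1 x h) ∧ z 0 x h + z 2 x h ≤ W (U 0 x h) (U 2 x h) ∧
      z 2 x h + z 1 x h ≤ W (U 2 x h) (U 1 x h) := by
  have hmem : (x, h) ∈ KT (x + h) := ⟨hx, hh, le_rfl⟩
  have hne : (KT (x + h)).Nonempty := ⟨_, hmem⟩
  have hc := low_compact (x + h)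
  obtain ⟨p1, hp1, h1⟩ := (low_lsc hW 0 1 hT).exists_isMinOn hne hc
  obtain ⟨p2, hp2, h2⟩ := (low_lsc hW 0 2 hT).exists_isMinOn hne hc
  obtain ⟨p3, hp3, h3⟩ := (low_lsc hW 2 1 hT).exists_isMinOn hne hc
  set m := min (AF W 0 1 p1) (min (AF W 0 2 p2) (AF W 2 1 p3)) with hmdef
  have hL : Lw W (x + h) m := fun p hp =>
    ⟨(min_le_left _ _).trans (h1 hp), ((min_le_right _ _).trans (min_le_left _ _)).trans (h2 hp),
      ((min_le_right _ _).trans (min_le_right _ _)).trans (h3 hp)⟩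
  have hm : 0 ≤ m := by
    by_contra hneg
    have hneg' : m < 0 := not_le.1 hneg
    rcases min_choice (AF W 0 1 p1) (min (AF W 0 2 p2) (AF W 2 1 p3)) with e | e
    · exact case01 hW hT hL hneg' (x := p1.1) (h := p1.2) hp1 (by rw [hmdef, e])
    · rcases min_choice (AF W 0 2 p2) (AF W 2 1 p3) with e' | e'
      · exact case02 hW hT hL hneg' (x := p2.1) (h := p2.2) hp2 (by rw [hmdef, e, e'])
      · exact case21 hW hT hL hneg' (x := p3.1) (h := p3.2) hp3 (by rw [hmdef, e, e'])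
  obtain ⟨k1, k2, k3⟩ := hL _ hmem
  have l1 := AF_le (hm.trans k1)
  have l2 := AF_le (hm.trans k2)
  have l3 := AF_le (hm.trans k3)
  rw [zero_mul, add_zero] at l1 l2 l3
  exact ⟨l1, l2, l3⟩

theorem center_lower {W : ℝ × ℝ → ℝ × ℝ → ℝ} (hW : VProp W) :
    2 - √2 * exp (-(π / 4)) ≤ W (1, 1) (1, 1) := by
  have hpi := pi_pos
  have key : ∀ h : ℝ, 0 ≤ h → h < π / 4 →
      2 * (1 - sin h * exp (-h)) / (1 + (cos h - sin h) * exp (-h)) ≤ W (1, 1) (1, 1) := by
    intro h hh h4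
    obtain ⟨r, -⟩ := low_reg le_rfl hh (by simpa using h4 : (0 : ℝ) + h < π / 4)
    have hc := r.cos_pos
    have hk0 := exp_pos (-h)
    have hsc := r.sin_le_cos
    have hv := (low_vertex hW le_rfl hh (by simpa using h4 : (0 : ℝ) + h < π / 4)).1
    have hpos : 0 < 1 + (cos h - sin h) * exp (-h) := by
      have : 0 ≤ (cos h - sin h) * exp (-h) := mul_nonneg (by linarith) hk0.le
      linarith
    set v : ℝ := (1 + (cos h - sin h) * exp (-h)) / cos h with hvdef
    have hv0 : 0 ≤ v := (div_pos hpos hc).le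
    have e0 : z 0 0 h + z 1 0 h = 2 * (1 - sin h * exp (-h)) / cos h := by
      simp [z, g1, QQ, ep]; ring
    have hle : W (U 0 0 h) (U 1 0 h) ≤ W (v • ((1 : ℝ), (1 : ℝ))) (v • ((1 : ℝ), (1 : ℝ))) := by
      have hkc : 0 ≤ (cos h - sin h) * exp (-h) := mul_nonneg (by linarith) hk0.le
      have hle1 : (1 - (cos h - sin h) * exp (-h)) / cos h ≤ v :=
        div_le_div_of_nonneg_right (by linarith) hc.le
      refine mono₂ hW (r.U_nonneg 0) (r.U_nonneg 1) ?_ ?_ ?_ ?_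
      · simp [U, g1, hvdef]
      · simpa [U, g1] using hle1
      · simpa [U, QQ] using hle1
      · simp [U, QQ, hvdef]
    rw [hW.hom v _ _ hv0 ⟨zero_le_one, zero_le_one⟩ ⟨zero_le_one, zero_le_one⟩] at hle
    have h3 : 2 * (1 - sin h * exp (-h)) / cos h ≤ v * W (1, 1) (1, 1) := by
      rw [← e0]; exact hv.trans hle
    rw [div_le_iff₀ hpos]
    rw [hvdef, div_le_iff₀ hc] at h3
    have : (1 + (cos h - sin h) * exp (-h)) / cos h * W (1, 1) (1, 1) * cos h =
      W (1, 1) (1, 1) * (1 + (cos h - sin h) * exp (-h)) := by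
      field_simp
    linarith
  have hcont : ContinuousAt (fun h : ℝ => 2 * (1 - sin h * exp (-h)) /
      (1 + (cos h - sin h) * exp (-h))) (π / 4) := by
    refine ContinuousAt.div (by fun_prop) (by fun_prop) ?_
    rw [cos_pi_div_four, sin_pi_div_four]
    simp
  have hval : 2 * (1 - sin (π / 4) * exp (-(π / 4))) /
      (1 + (cos (π / 4) - sin (π / 4)) * exp (-(π / 4))) = 2 - √2 * exp (-(π / 4)) := by
    rw [cos_pi_div_four, sin_pi_div_four]
    simp
    ring
  have hlim : Tendsto (fun h : ℝ => 2 * (1 - sin h * exp (-h)) /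
      (1 + (cos h - sin h) * exp (-h))) (𝓝[<] (π / 4)) (𝓝 (2 - √2 * exp (-(π / 4)))) := by
    rw [← hval]
    exact hcont.tendsto.mono_left nhdsWithin_le_nhds
  refine le_of_tendsto hlim ?_
  filter_upwards [Ioo_mem_nhdsLT (show (0 : ℝ) < π / 4 by positivity)] with h hh
  exact key h hh.1.le hh.2

end Pool.Agent.Helper12.CR
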