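import Pool.Agent.Helper12.CR.Defs
import Pool.Agent.Helper92.Crypto

set_option autoImplicit false

/-!
# Project CR, module Pot: from the value function to the bound on `cryptoValue 2`

`F u w` for positive `u w`, separately concave, symmetric, jointly homogeneous,
`F u w ≥ min u.1 w.2` and `≥ min u.2 w.1`.

For a state `S : Fin 2 → Option Bool → ℝ` put
`uS = (S 0 (some true) * S 1 none, S 0 (some false) * S 1 none)` and
`wS = (S 1 (some false) * S 0 none, S 1 (some true) * S 0 none)` (note the exchange), and
`Phi0 S = F uS wS` for entrywise positive states, `Phi S = sInf {Phi0 S' | S < S' entrywise}`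
(the set is nonempty and bounded below by `0`).

* SUPERADDITIVITY on positive states: a move of player `0` with `p, q` positive:
  `u(p+q) = u(p) + u(q)`, `w(p+q) = w(p) + w(q)` where `w(p) = p none • w'`, `w(q) = q none • w'`
  with `w'` fixed.  With `s = p none`, `t = q none`: by homogeneity
  `F (u(p)) (s w') = s F (u(p)/s) w'`, so the claim
  `s F (u(p)/s) w' + t F (u(q)/t) w' ≤ (s+t) F ((u(p)+u(q))/(s+t)) w'` is concavity.
  Player `1`: the same with the roles exchanged (`F u w = F w u`).
* SUPERADDITIVITY of `Phi`: if `S' > update S i (p+q)` entrywise, write `S' i = p' + q'` with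
  `p' > p`, `q' > q` (add half of the difference to each); then
  `Phi0 S' ≥ Phi0 (update S' i p') + Phi0 (update S' i q') ≥ Phi (update S i p) + Phi (update S i q)`.
* MAJORIZES: `wt S out 0 = S 0 (some out) * S 1 none`, `wt S out 1 = S 1 (some out) * S 0 none`,
  so for the right `m`, `∑ j, wt S out j - wt S out m = min` of the two, and
  `Phi0 S' ≥ min ≥` the same for `S`.  For `out = true` use `min u.1 w.2`, for `out = false`
  `min u.2 w.1`.
* `Phi 1 ≤ F (1,1) (1,1)`: for `S' = 1 + δ`, `Phi0 S' = (1+δ)² F (1,1) (1,1)`.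
* `cryptoValue_le_of_potential` with `k = 2`.
-/

namespace Pool.Agent.Helper12.CR

open Pool.Agent.Helper92.Crypto

/-- first vector of a state -/
private def potU (S : Fin 2 → Option Bool → ℝ) : ℝ × ℝ :=
  (S 0 (some true) * S 1 none, S 0 (some false) * S 1 none)

/-- second vector of a state -/
private def potW (S : Fin 2 → Option Bool → ℝ) : ℝ × ℝ :=
  (S 1 (some false) * S 0 none, S 1 (some true) * S 0 none)

/-- states above `S` -/
private def potUp (S : Fin 2 → Option Bool → ℝ) : Set (Fin 2 → Option Bool → ℝ) :=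
  {S' | ∀ i o, S i o < S' i o}

/-- the potential -/
private noncomputable def potPhi (F : ℝ × ℝ → ℝ × ℝ → ℝ) (S : Fin 2 → Option Bool → ℝ) : ℝ :=
  sInf ((fun S' => F (potU S') (potW S')) '' potUp S)

private theorem pos_smul {r : ℝ} (hr : 0 < r) {u : ℝ × ℝ} (hu : Pos u) : Pos (r • u) :=
  ⟨mul_pos hr hu.1, mul_pos hr hu.2⟩

private theorem pos_add {u v : ℝ × ℝ} (hu : Pos u) (hv : Pos v) : Pos (u + v) :=
  ⟨add_pos hu.1 hv.1, add_pos hu.2 hv.2⟩

private theorem pot_super {F : ℝ × ℝ → ℝ × ℝ → ℝ}
    (hconc : ∀ w, Pos w → ConcaveOn ℝ {u | Pos u} fun u => F u w)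
    (hhom : ∀ (r : ℝ) u w, 0 < r → Pos u → Pos w → F (r • u) (r • w) = r * F u w)
    {u v w : ℝ × ℝ} {s t : ℝ} (hu : Pos u) (hv : Pos v) (hw : Pos w) (hs : 0 < s) (ht : 0 < t) :
    F u (s • w) + F v (t • w) ≤ F (u + v) ((s + t) • w) := by
  have hst : 0 < s + t := add_pos hs ht
  have h1 : F u (s • w) = s * F (s⁻¹ • u) w := by
    rw [← hhom s _ w hs (pos_smul (inv_pos.mpr hs) hu) hw, smul_smul, mul_inv_cancel₀ hs.ne',
      one_smul]
  have h2 : F v (t • w) = t * F (t⁻¹ • v) w := by
    rw [← hhom t _ w ht (pos_smul (inv_pos.mpr ht) hv) hw, smul_smul, mul_inv_cancel₀ ht.ne',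
      one_smul]
  have h3 : F (u + v) ((s + t) • w) = (s + t) * F ((s + t)⁻¹ • (u + v)) w := by
    rw [← hhom (s + t) _ w hst (pos_smul (inv_pos.mpr hst) (pos_add hu hv)) hw, smul_smul,
      mul_inv_cancel₀ hst.ne', one_smul]
  have ha : 0 ≤ s / (s + t) := by positivity
  have hb : 0 ≤ t / (s + t) := by positivity
  have hab : s / (s + t) + t / (s + t) = 1 := by field_simp
  have hu' : s⁻¹ • u ∈ {u | Pos u} := pos_smul (inv_pos.mpr hs) hu
  have hv' : t⁻¹ • v ∈ {u | Pos u} := pos_smul (inv_pos.mpr ht) hv
  have h4 := (hconc w hw).2 hu' hv' ha hb hab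
  simp only [smul_eq_mul] at h4
  have h5 : (s / (s + t)) • s⁻¹ • u + (t / (s + t)) • t⁻¹ • v = (s + t)⁻¹ • (u + v) := by
    rw [smul_smul, smul_smul, smul_add]
    congr 2
    · field_simp
    · field_simp
  rw [h5] at h4
  rw [h1, h2, h3]
  have h6 : s * F (s⁻¹ • u) w + t * F (t⁻¹ • v) w =
      (s + t) * (s / (s + t) * F (s⁻¹ • u) w + t / (s + t) * F (t⁻¹ • v) w) := by
    field_simp
  rw [h6]
  exact mul_le_mul_of_nonneg_left h4 hst.le

private theorem pot_pos {S : Fin 2 → Option Bool → ℝ} (hS : ∀ i o, 0 < S i o) :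
    Pos (potU S) ∧ Pos (potW S) :=
  ⟨⟨mul_pos (hS _ _) (hS _ _), mul_pos (hS _ _) (hS _ _)⟩,
    ⟨mul_pos (hS _ _) (hS _ _), mul_pos (hS _ _) (hS _ _)⟩⟩

private theorem pot_super' {F : ℝ × ℝ → ℝ × ℝ → ℝ}
    (hconc : ∀ w, Pos w → ConcaveOn ℝ {u | Pos u} fun u => F u w)
    (hsymm : ∀ u w, Pos u → Pos w → F u w = F w u)
    (hhom : ∀ (r : ℝ) u w, 0 < r → Pos u → Pos w → F (r • u) (r • w) = r * F u w)
    (i : Fin 2) (S : Fin 2 → Option Bool → ℝ) (hS : ∀ l o, 0 < S l o) (p q : Option Bool → ℝ)
    (hp : ∀ o, 0 < p o) (hq : ∀ o, 0 < q o) :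
    F (potU (Function.update S i p)) (potW (Function.update S i p)) +
      F (potU (Function.update S i q)) (potW (Function.update S i q)) ≤
      F (potU (Function.update S i (p + q))) (potW (Function.update S i (p + q))) := by
  have hupd : ∀ r : Option Bool → ℝ, (∀ o, 0 < r o) → ∀ l o, 0 < Function.update S i r l o := by
    intro r hr l o
    by_cases h : l = i
    · subst h
      rw [Function.update_self]
      exact hr o
    · rw [Function.update_of_ne h]
      exact hS l o
  have hpq : ∀ o, 0 < (p + q) o := fun o => add_pos (hp o) (hq o)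
  fin_cases i
  · have hU : ∀ r : Option Bool → ℝ, potU (Function.update S 0 r) =
        (r (some true) * S 1 none, r (some false) * S 1 none) := by
      intro r
      simp [potU]
    have hW : ∀ r : Option Bool → ℝ, potW (Function.update S 0 r) =
        r none • ((S 1 (some false), S 1 (some true)) : ℝ × ℝ) := by
      intro r
      simp [potW, mul_comm]
    have hw : Pos ((S 1 (some false), S 1 (some true)) : ℝ × ℝ) := ⟨hS _ _, hS _ _⟩
    have h1 := pot_super hconc hhom (pot_pos (hupd p hp)).1 (pot_pos (hupd q hq)).1 hw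
      (hp none) (hq none)
    have h2 : potU (Function.update S 0 p) + potU (Function.update S 0 q) =
        potU (Function.update S 0 (p + q)) := by
      rw [hU, hU, hU]
      ext <;> simp [add_mul]
    have h1' : F (potU (Function.update S 0 p)) (p none • (S 1 (some false), S 1 (some true))) +
        F (potU (Function.update S 0 q)) (q none • (S 1 (some false), S 1 (some true))) ≤
        F (potU (Function.update S 0 p) + potU (Function.update S 0 q))
          ((p none + q none) • (S 1 (some false), S 1 (some true))) := h1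
    rw [h2] at h1'
    have h3 := hW (p + q)
    rw [Pi.add_apply] at h3
    rw [← hW p, ← hW q, ← h3] at h1'
    exact h1'
  · have hW : ∀ r : Option Bool → ℝ, potW (Function.update S 1 r) =
        (r (some false) * S 0 none, r (some true) * S 0 none) := by
      intro r
      simp [potW]
    have hU : ∀ r : Option Bool → ℝ, potU (Function.update S 1 r) =
        r none • ((S 0 (some true), S 0 (some false)) : ℝ × ℝ) := by
      intro r
      simp [potU, mul_comm]
    have hw : Pos ((S 0 (some true), S 0 (some false)) : ℝ × ℝ) := ⟨hS _ _, hS _ _⟩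
    have h1 := pot_super hconc hhom (pot_pos (hupd p hp)).2 (pot_pos (hupd q hq)).2 hw
      (hp none) (hq none)
    have h2 : potW (Function.update S 1 p) + potW (Function.update S 1 q) =
        potW (Function.update S 1 (p + q)) := by
      rw [hW, hW, hW]
      ext <;> simp [add_mul]
    have h1' : F (potW (Function.update S 1 p)) (p none • (S 0 (some true), S 0 (some false))) +
        F (potW (Function.update S 1 q)) (q none • (S 0 (some true), S 0 (some false))) ≤
        F (potW (Function.update S 1 p) + potW (Function.update S 1 q))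
          ((p none + q none) • (S 0 (some true), S 0 (some false))) := h1
    rw [h2] at h1'
    have h3 := hU (p + q)
    rw [Pi.add_apply] at h3
    rw [← hU p, ← hU q, ← h3] at h1'
    have e1 := hsymm _ _ (pot_pos (hupd p hp)).1 (pot_pos (hupd p hp)).2
    have e2 := hsymm _ _ (pot_pos (hupd q hq)).1 (pot_pos (hupd q hq)).2
    have e3 := hsymm _ _ (pot_pos (hupd _ hpq)).1 (pot_pos (hupd _ hpq)).2
    have h4 : F (potU (Function.update S 1 p)) (potW (Function.update S 1 p)) +
      F (potU (Function.update S 1 q)) (potW (Function.update S 1 q)) ≤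
      F (potU (Function.update S 1 (p + q))) (potW (Function.update S 1 (p + q))) := by
      rw [show F (potU (Function.update S 1 p)) (potW (Function.update S 1 p)) = _ from e1,
        show F (potU (Function.update S 1 q)) (potW (Function.update S 1 q)) = _ from e2,
        show F (potU (Function.update S 1 (p + q))) (potW (Function.update S 1 (p + q))) = _
          from e3]
      exact h1'
    exact h4

private theorem potUp_nonempty (S : Fin 2 → Option Bool → ℝ) : (potUp S).Nonempty :=
  ⟨fun i o => S i o + 1, fun i o => by simp⟩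

private theorem pot_bdd {F : ℝ × ℝ → ℝ × ℝ → ℝ}
    (hmaj : ∀ u w, Pos u → Pos w → min u.1 w.2 ≤ F u w ∧ min u.2 w.1 ≤ F u w)
    {S : Fin 2 → Option Bool → ℝ} (hS : ∀ l o, 0 ≤ S l o) :
    BddBelow ((fun S' => F (potU S') (potW S')) '' potUp S) := by
  refine ⟨0, ?_⟩
  rintro _ ⟨S', hS', rfl⟩
  have h1 := pot_pos fun i o => (hS i o).trans_lt (hS' i o)
  exact (le_min h1.1.1.le h1.2.2.le).trans (hmaj _ _ h1.1 h1.2).1

theorem cryptoValue_two_le {F : ℝ × ℝ → ℝ × ℝ → ℝ}
    (hconc : ∀ w, Pos w → ConcaveOn ℝ {u | Pos u} fun u => F u w)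
    (hsymm : ∀ u w, Pos u → Pos w → F u w = F w u)
    (hhom : ∀ (r : ℝ) u w, 0 < r → Pos u → Pos w → F (r • u) (r • w) = r * F u w)
    (hmaj : ∀ u w, Pos u → Pos w → min u.1 w.2 ≤ F u w ∧ min u.2 w.1 ≤ F u w) :
    cryptoValue 2 ≤ 1 / 4 * F (1, 1) (1, 1) := by
  have hM : Majorizes (potPhi F) := by
    intro S hS out
    have key : min (wt S out 0) (wt S out 1) ≤ potPhi F S := by
      refine le_csInf ((potUp_nonempty S).image _) ?_
      rintro _ ⟨S', hS', rfl⟩
      have hpos : ∀ i o, 0 < S' i o := fun i o => (hS i o).trans_lt (hS' i o)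
      have h1 := pot_pos hpos
      have h2 := hmaj _ _ h1.1 h1.2
      have e0 : wt S out 0 = S 0 (some out) * S 1 none := by
        simp [wt, inp, Fin.prod_univ_two]
      have e1 : wt S out 1 = S 1 (some out) * S 0 none := by
        simp [wt, inp, Fin.prod_univ_two, mul_comm]
      have f0 : wt S out 0 ≤ S' 0 (some out) * S' 1 none := by
        rw [e0]
        exact mul_le_mul (hS' _ _).le (hS' _ _).le (hS _ _) (hpos _ _).le
      have f1 : wt S out 1 ≤ S' 1 (some out) * S' 0 none := by
        rw [e1]
        exact mul_le_mul (hS' _ _).le (hS' _ _).le (hS _ _) (hpos _ _).le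
      cases out with
      | true => exact (min_le_min f0 f1).trans h2.1
      | false => exact (min_le_min f0 f1).trans h2.2
    rcases le_total (wt S out 0) (wt S out 1) with h | h
    · refine ⟨1, ?_⟩
      rw [min_eq_left h] at key
      rw [Fin.sum_univ_two]
      linarith
    · refine ⟨0, ?_⟩
      rw [min_eq_right h] at key
      rw [Fin.sum_univ_two]
      linarith
  have hSA : SuperAdd (potPhi F) := by
    intro i S p q hS hp hq
    refine le_csInf ((potUp_nonempty _).image _) ?_
    rintro _ ⟨S', hS', rfl⟩
    have hne : ∀ l, l ≠ i → ∀ o, S l o < S' l o := by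
      intro l hl o
      have := hS' l o
      rwa [Function.update_of_ne hl] at this
    have hi : ∀ o, p o + q o < S' i o := by
      intro o
      have := hS' i o
      rwa [Function.update_self] at this
    have hposS' : ∀ l o, 0 < S' l o := by
      intro l o
      by_cases h : l = i
      · subst h
        exact (add_nonneg (hp o) (hq o)).trans_lt (hi o)
      · exact (hS l o).trans_lt (hne l h o)
    let δ : Option Bool → ℝ := fun o => (S' i o - (p o + q o)) / 2
    have hδ : ∀ o, 0 < δ o := fun o => by
      have := hi o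
      simp only [δ]
      linarith
    have hp' : ∀ o, 0 < (p + δ) o := fun o => add_pos_of_nonneg_of_pos (hp o) (hδ o)
    have hq' : ∀ o, 0 < (q + δ) o := fun o => add_pos_of_nonneg_of_pos (hq o) (hδ o)
    have hsum : Function.update S' i ((p + δ) + (q + δ)) = S' := by
      funext l o
      by_cases h : l = i
      · subst h
        rw [Function.update_self]
        simp only [Pi.add_apply, δ]
        ring
      · rw [Function.update_of_ne h]
    have h1 := pot_super' hconc hsymm hhom i S' hposS' (p + δ) (q + δ) hp' hq'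
    rw [hsum] at h1
    have up : ∀ r : Option Bool → ℝ, (∀ o, 0 ≤ r o) →
        potPhi F (Function.update S i r) ≤
          F (potU (Function.update S' i (r + δ))) (potW (Function.update S' i (r + δ))) := by
      intro r hr
      refine csInf_le (pot_bdd hmaj ?_) ⟨Function.update S' i (r + δ), ?_, rfl⟩
      · intro l o
        by_cases h : l = i
        · subst h
          rw [Function.update_self]
          exact hr o
        · rw [Function.update_of_ne h]
          exact hS l o
      · intro l o
        by_cases h : l = i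
        · subst h
          rw [Function.update_self, Function.update_self]
          simpa using hδ o
        · rw [Function.update_of_ne h, Function.update_of_ne h]
          exact hne l h o
    exact (add_le_add (up p hp) (up q hq)).trans h1
  have h0 := cryptoValue_le_of_potential (k := 2) (by norm_num) hM hSA
  have hone : Pos ((1, 1) : ℝ × ℝ) := ⟨one_pos, one_pos⟩
  have hF1 : 1 ≤ F (1, 1) (1, 1) := by
    have := (hmaj (1, 1) (1, 1) hone hone).1
    simpa using this
  have hstep : ∀ δ : ℝ, 0 < δ →
      potPhi F (fun _ _ => 1) ≤ (1 + δ) * (1 + δ) * F (1, 1) (1, 1) := by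
    intro δ hδ
    have h1 : F (potU fun _ _ => 1 + δ) (potW fun _ _ => 1 + δ) =
        (1 + δ) * (1 + δ) * F (1, 1) (1, 1) := by
      have hr : 0 < (1 + δ) * (1 + δ) := by positivity
      rw [← hhom _ _ _ hr hone hone]
      simp [potU, potW]
    rw [← h1]
    exact csInf_le (pot_bdd hmaj fun _ _ => zero_le_one) ⟨fun _ _ => 1 + δ, fun _ _ => by
      simpa using hδ, rfl⟩
  have hphi : potPhi F (fun _ _ => 1) ≤ F (1, 1) (1, 1) := by
    by_contra hcon
    rw [not_le] at hcon
    set c := F (1, 1) (1, 1) with hc
    set P := potPhi F (fun _ _ => 1) with hP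
    have hc0 : 0 < c := by linarith
    have hd : 0 < min 1 ((P - c) / (4 * c)) := by
      refine lt_min one_pos (div_pos (by linarith) (by linarith))
    have h1 := hstep _ hd
    set d := min 1 ((P - c) / (4 * c)) with hdd
    have hd1 : d ≤ 1 := min_le_left _ _
    have hd2 : d * (4 * c) ≤ P - c := by
      have : d ≤ (P - c) / (4 * c) := min_le_right _ _
      rwa [le_div_iff₀ (by linarith)] at this
    have h2 : (1 + d) * (1 + d) * c ≤ c + 3 * (d * c) := by
      nlinarith [mul_pos hd hc0, mul_nonneg (mul_nonneg hd.le hc0.le) (sub_nonneg.mpr hd1)]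
    nlinarith
  have h1 : (1 / (2 * ((2 : ℕ) : ℝ))) = 1 / 4 := by norm_num
  rw [h1] at h0
  exact h0.trans (mul_le_mul_of_nonneg_left hphi (by norm_num))

end Pool.Agent.Helper12.CR
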