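import Pool.Agent.Helper12.CR.FCorner
import Pool.Agent.Helper12.CR.Pot
import Pool.Agent.Helper12.CR.Low

set_option autoImplicit false

/-!
# Project CR: the exact value of `s_2`
-/

namespace Pool.Agent.Helper12.CR

open Real Pool.Agent.Helper92.Crypto

theorem cryptoValue_two : cryptoValue 2 = 1 / 2 - exp (-(π / 4)) / (2 * √2) := by
  have e : 1 / 4 * (2 - √2 * exp (-(π / 4))) = 1 / 2 - exp (-(π / 4)) / (2 * √2) := by
    have h2 : √2 * √2 = 2 := mul_self_sqrt (by norm_num)
    have h3 : √2 ≠ 0 := by positivity
    have h4 : exp (-(π / 4)) / (2 * √2) = √2 * exp (-(π / 4)) / 4 := by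
      rw [div_eq_div_iff (by positivity) (by norm_num)]
      linear_combination (-2 * exp (-(π / 4))) * h2
    rw [h4]
    ring
  apply le_antisymm
  · have h := cryptoValue_two_le (F := FF) (fun w hw => concaveOn_FF hw)
      (fun u w hu hw => FF_comm hu hw) (fun r u w hr hu hw => FF_smul hr hu hw)
      (fun u w hu hw => le_FF hu hw)
    linarith [FF_center]
  · obtain ⟨W, hW, hc⟩ := exists_value_function
    have h := center_lower hW
    linarith

end Pool.Agent.Helper12.CR
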