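import Pool.Agent.Helper12.CR.Defs

set_option autoImplicit false

/-!
# Project CR, module GG: the closed form majorant `gg`

Notation: `a = w.2 > 0`, `b = u.2 > 0`, `M = max a b`, `m = min a b` (so `m M = a b`,
`m + M = a + b`), `R = u.1 w.2 + u.2 w.1 > 0`, `E = exp (-x)`,
`gg = √R` if `R ≤ M²`, else `M + m (1 - exp (-(R - M²)/(2 m M)))`;
`Lam x ν = (a+b)(1-E) + E/2 ((R - 2 x a b)/ν + ν)`.

(0) MONOTONICITY.  `psi y = (M + m - y) exp (y²/(2 m M))` is nondecreasing on `[m, M]` and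
nonincreasing on `[M, ∞)`: the derivative is `exp(..) (M - y)(y - m)/(m M)`.
Consequence (A): `psi y ≤ psi M = m exp (M/(2m))` for all `y ≥ m`.
Consequence (B): `psi y ≤ psi Y` for `m ≤ y ≤ Y ≤ M`.

(1) `gg ≤ √R` always: for `R > M²` put `y = √R` in (A):
`M + m - √R ≤ m exp (M/(2m) - R/(2mM)) = m exp (-(R-M²)/(2mM))`.

(2) `Lam 0 ν = (R/ν + ν)/2 ≥ √R ≥ gg` for `ν > 0`.

(3) `Lam x ν ≥ gg` for `x ≥ 0`, `ν ≥ a`.  Put `Rx = R - 2 x a b`.
  Case I: `Rx ≥ a²`.  Then `Lam x ν ≥ (M+m)(1-E) + E y`, `y = √Rx ≥ a ≥ m`, `R = y² + 2 x m M`.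
    If `R > M²`: need `E (M+m-y) ≤ m exp(-(R-M²)/(2mM))`, which is (A) at `y`
    (`x = (R-y²)/(2mM)`).  If `R ≤ M²`: with `Y = √R`, `m ≤ y ≤ Y ≤ M`, (B) gives
    `(M+m-y) E ≤ M+m-Y`.
  Case II: `Rx < a²`.  Then `Rx/ν + ν ≥ Rx/a + a` for `ν ≥ a` (`(ν-a)(1 - Rx/(νa)) ≥ 0`), so
    `Lam x ν ≥ Lam x a = (a+b) - E (q + x b)`, `q = a/2 - R/(2a) + b`.
    (i) `E (q + x b) ≤ b exp (q/b - 1) = b exp (-(R-a²)/(2ab))`, from `1 + t ≤ exp t` with
        `t = q/b + x - 1`.  If `R > M²`: need `b exp(a/(2b)) ≤ m exp(M/(2m))`: equality if `b = m`,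
        and (A) at `y = m` (`psi m = M exp(m/(2M))`) if `b = M`.
    (ii) `R ≤ M²` and `R ≤ a²`: `q ≥ b`, so `E (q + x b) ≤ E q (1+x) ≤ q` and
        `Lam x a ≥ a + b - q = (R/a + a)/2 ≥ √R`.
    (iii) `a² < R ≤ M²` (so `a = m`, `b = M`): by (i) it suffices that
        `M exp(-(Y²-m²)/(2mM)) ≤ M + m - Y`, `Y = √R`, which is (B) for `m ≤ Y`.

(4) `gg` is attained: if `R ≤ M²` then `gg = Lam 0 (√R)`; if `R > M²` then
`gg = Lam x M` with `x = (R-M²)/(2mM)`.

(5) Concavity in `u`: `gg u w = Lam x ν u w` for suitable `(x, ν)` (depending on `u`), all the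
`Lam x ν · w` of the family (`0 ≤ x, a ≤ ν` or `x = 0, 0 < ν`) are affine in `u` and above `gg`.

(6) `gg` is symmetric (`R`, `M`, `m` and `w.2 * u.2` are), homogeneous, nonnegative and
`≥ min u.1 w.2`, `≥ min u.2 w.1`: if `R ≤ M²` use `R ≥ u.1 w.2`, `R ≥ u.2 w.1`; if `R > M²` then
`gg ≥ M`.
-/

namespace Pool.Agent.Helper12.CR

open Real

/-- auxiliary function `psi` -/
private noncomputable def ggPsi (m M y : ℝ) : ℝ := (M + m - y) * exp (y ^ 2 / (2 * (m * M)))

private theorem ggPsi_hasDerivAt {m M : ℝ} (hm : 0 < m) (hM : 0 < M) (y : ℝ) :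
    HasDerivAt (ggPsi m M)
      (exp (y ^ 2 / (2 * (m * M))) * ((M - y) * (y - m) / (m * M))) y := by
  have h1 : HasDerivAt (fun y : ℝ => M + m - y) (-1) y := by
    simpa using (hasDerivAt_id y).const_sub (M + m)
  have h2 : HasDerivAt (fun y : ℝ => y ^ 2 / (2 * (m * M))) (2 * y / (2 * (m * M))) y := by
    have := (hasDerivAt_pow 2 y).div_const (2 * (m * M))
    simpa using this
  have h3 := h1.mul h2.exp
  have h4 : HasDerivAt (ggPsi m M)
      (-1 * exp (y ^ 2 / (2 * (m * M))) +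
        (M + m - y) * (exp (y ^ 2 / (2 * (m * M))) * (2 * y / (2 * (m * M))))) y := h3
  refine h4.congr_deriv ?_
  field_simp
  ring

private theorem ggPsi_mono {m M : ℝ} (hm : 0 < m) (hM : 0 < M) :
    MonotoneOn (ggPsi m M) (Set.Icc m M) := by
  refine monotoneOn_of_deriv_nonneg (convex_Icc m M) ?_ ?_ ?_
  · exact fun y _ => (ggPsi_hasDerivAt hm hM y).continuousAt.continuousWithinAt
  · exact fun y _ => (ggPsi_hasDerivAt hm hM y).differentiableAt.differentiableWithinAt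
  · intro y hy
    rw [interior_Icc] at hy
    rw [(ggPsi_hasDerivAt hm hM y).deriv]
    have h1 : 0 ≤ M - y := by linarith [hy.2]
    have h2 : 0 ≤ y - m := by linarith [hy.1]
    positivity

private theorem ggPsi_anti {m M : ℝ} (hm : 0 < m) (hmM : m ≤ M) :
    AntitoneOn (ggPsi m M) (Set.Ici M) := by
  have hM : 0 < M := lt_of_lt_of_le hm hmM
  refine antitoneOn_of_deriv_nonpos (convex_Ici M) ?_ ?_ ?_
  · exact fun y _ => (ggPsi_hasDerivAt hm hM y).continuousAt.continuousWithinAt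
  · exact fun y _ => (ggPsi_hasDerivAt hm hM y).differentiableAt.differentiableWithinAt
  · intro y hy
    rw [interior_Ici] at hy
    rw [(ggPsi_hasDerivAt hm hM y).deriv]
    have hy' : M < y := hy
    have h1 : 0 ≤ y - M := by linarith
    have h2 : 0 ≤ y - m := by linarith
    have h3 : (M - y) * (y - m) / (m * M) = -((y - M) * (y - m) / (m * M)) := by ring
    rw [h3, mul_neg]
    have : 0 ≤ exp (y ^ 2 / (2 * (m * M))) * ((y - M) * (y - m) / (m * M)) := by positivity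
    linarith

private theorem ggPsi_A {m M y : ℝ} (hm : 0 < m) (hmM : m ≤ M) (hy : m ≤ y) :
    M + m - y ≤ m * exp ((M ^ 2 - y ^ 2) / (2 * (m * M))) := by
  have hM : 0 < M := lt_of_lt_of_le hm hmM
  have h1 : ggPsi m M y ≤ ggPsi m M M := by
    rcases le_total y M with h | h
    · exact ggPsi_mono hm hM ⟨hy, h⟩ ⟨hmM, le_rfl⟩ h
    · exact ggPsi_anti hm hmM (Set.mem_Ici.mpr le_rfl) (Set.mem_Ici.mpr h) h
  unfold ggPsi at h1
  have h2 : exp ((M ^ 2 - y ^ 2) / (2 * (m * M))) =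
      exp (M ^ 2 / (2 * (m * M))) * exp (-(y ^ 2 / (2 * (m * M)))) := by
    rw [← exp_add]; congr 1; ring
  have h3 : exp (y ^ 2 / (2 * (m * M))) * exp (-(y ^ 2 / (2 * (m * M)))) = 1 := by
    rw [← exp_add]; simp
  have h4 := mul_le_mul_of_nonneg_right h1 (exp_pos (-(y ^ 2 / (2 * (m * M))))).le
  rw [mul_assoc, h3] at h4
  rw [h2]
  nlinarith [h4]

private theorem ggPsi_B {m M y Y : ℝ} (hm : 0 < m) (hy : m ≤ y) (hyY : y ≤ Y) (hY : Y ≤ M) :
    (M + m - y) * exp (-((Y ^ 2 - y ^ 2) / (2 * (m * M)))) ≤ M + m - Y := by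
  have hM : 0 < M := by linarith
  have h1 : ggPsi m M y ≤ ggPsi m M Y :=
    ggPsi_mono hm hM ⟨hy, hyY.trans hY⟩ ⟨hy.trans hyY, hY⟩ hyY
  unfold ggPsi at h1
  have h2 : exp (-((Y ^ 2 - y ^ 2) / (2 * (m * M)))) =
      exp (y ^ 2 / (2 * (m * M))) * exp (-(Y ^ 2 / (2 * (m * M)))) := by
    rw [← exp_add]; congr 1; ring
  have h3 : exp (Y ^ 2 / (2 * (m * M))) * exp (-(Y ^ 2 / (2 * (m * M)))) = 1 := by
    rw [← exp_add]; simp
  have h4 := mul_le_mul_of_nonneg_right h1 (exp_pos (-(Y ^ 2 / (2 * (m * M))))).le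
  rw [mul_assoc (M + m - Y), h3] at h4
  rw [h2]
  nlinarith [h4]

open Classical in
/-- the closed form as a function of `a = w.2`, `b = u.2` and `R` -/
private noncomputable def ggG (a b R : ℝ) : ℝ :=
  if R ≤ max a b ^ 2 then √R
  else max a b + min a b * (1 - exp (-((R - max a b ^ 2) / (2 * (a * b)))))

private theorem gg_eq_ggG (u w : ℝ × ℝ) : gg u w = ggG w.2 u.2 (u.1 * w.2 + u.2 * w.1) := rfl

private theorem ggG_comm (a b R : ℝ) : ggG a b R = ggG b a R := by
  unfold ggG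
  rw [max_comm a b, min_comm a b, mul_comm a b]

private theorem ggG_le_sqrt_aux {a b R : ℝ} (ha : 0 < a) (hab : a ≤ b) (hR : 0 ≤ R) :
    ggG a b R ≤ √R := by
  unfold ggG
  rw [max_eq_right hab, min_eq_left hab]
  split_ifs with h
  · exact le_rfl
  · push Not at h
    have hb : 0 < b := lt_of_lt_of_le ha hab
    have h1 : b < √R := Real.lt_sqrt_of_sq_lt h
    have h2 := ggPsi_A ha hab (hab.trans h1.le)
    rw [Real.sq_sqrt hR] at h2
    have h3 : -((R - b ^ 2) / (2 * (a * b))) = (b ^ 2 - R) / (2 * (a * b)) := by ring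
    rw [h3]
    linarith

private theorem ggG_le_sqrt {a b R : ℝ} (ha : 0 < a) (hb : 0 < b) (hR : 0 ≤ R) :
    ggG a b R ≤ √R := by
  rcases le_total a b with h | h
  · exact ggG_le_sqrt_aux ha h hR
  · rw [ggG_comm]; exact ggG_le_sqrt_aux hb h hR

private theorem gg_amgm {R ν : ℝ} (hR : 0 ≤ R) (hν : 0 < ν) : 2 * √R ≤ R / ν + ν := by
  have h1 : R = √R ^ 2 := (Real.sq_sqrt hR).symm
  have h2 : R / ν + ν - 2 * √R = (√R - ν) ^ 2 / ν := by
    rw [h1, Real.sqrt_sq (Real.sqrt_nonneg _)]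
    field_simp
    ring
  have h3 : 0 ≤ (√R - ν) ^ 2 / ν := by positivity
  linarith

/-- case `Rx ≥ a²`, in terms of `m ≤ M` -/
private theorem ggG_caseI {m M R x y : ℝ} (hm : 0 < m) (hmM : m ≤ M) (hx : 0 ≤ x)
    (hy : m ≤ y) (hR : R = y ^ 2 + 2 * x * (m * M)) :
    ggG m M R ≤ (M + m) * (1 - exp (-x)) + exp (-x) * y := by
  have hM : 0 < M := lt_of_lt_of_le hm hmM
  have hmM0 : 0 < m * M := mul_pos hm hM
  unfold ggG
  rw [max_eq_right hmM, min_eq_left hmM]
  split_ifs with h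
  · have hRy : y ^ 2 ≤ R := by rw [hR]; nlinarith [mul_nonneg hx hmM0.le]
    have hR0 : 0 ≤ R := le_trans (sq_nonneg y) hRy
    have hyY : y ≤ √R := Real.le_sqrt_of_sq_le hRy
    have hYM : √R ≤ M := by
      rw [Real.sqrt_le_left hM.le]; exact h
    have h1 := ggPsi_B hm hy hyY hYM
    have h2 : (√R ^ 2 - y ^ 2) / (2 * (m * M)) = x := by
      rw [Real.sq_sqrt hR0, hR]; field_simp; ring
    rw [h2] at h1
    nlinarith [h1]
  · have h1 := ggPsi_A hm hmM hy
    have h2 : -((R - M ^ 2) / (2 * (m * M))) = (M ^ 2 - y ^ 2) / (2 * (m * M)) + -x := by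
      rw [hR]; field_simp; ring
    rw [h2, exp_add]
    have h3 := mul_le_mul_of_nonneg_right h1 (exp_pos (-x)).le
    nlinarith [h3]

private theorem ggG_caseI' {a b R x y : ℝ} (ha : 0 < a) (hb : 0 < b) (hx : 0 ≤ x)
    (hy : a ≤ y) (hR : R = y ^ 2 + 2 * x * (a * b)) :
    ggG a b R ≤ (a + b) * (1 - exp (-x)) + exp (-x) * y := by
  rcases le_total a b with h | h
  · have := ggG_caseI ha h hx hy hR
    linarith
  · rw [ggG_comm]
    exact ggG_caseI hb h hx (h.trans hy) (by rw [hR]; ring)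

/-- case `Rx < a²` -/
private theorem ggG_caseII {a b R x : ℝ} (ha : 0 < a) (hb : 0 < b) (hR : 0 < R) (hx : 0 ≤ x) :
    ggG a b R ≤ (a + b) - exp (-x) * (a / 2 - R / (2 * a) + b + x * b) := by
  set q := a / 2 - R / (2 * a) + b with hq
  have hE : exp (-x) * exp x = 1 := by rw [← exp_add]; simp
  -- (i)
  have hi : exp (-x) * (q + x * b) ≤ b * exp (-((R - a ^ 2) / (2 * (a * b)))) := by
    have h1 : q + x * b = b * ((q / b + x - 1) + 1) := by field_simp; ring
    have h2 := add_one_le_exp (q / b + x - 1)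
    have h3 : exp (q / b + x - 1) = exp (-((R - a ^ 2) / (2 * (a * b)))) * exp x := by
      rw [← exp_add]; congr 1; rw [hq]; field_simp; ring
    rw [h3] at h2
    have h4 : exp (-x) * (b * ((q / b + x - 1) + 1)) ≤
        exp (-x) * (b * (exp (-((R - a ^ 2) / (2 * (a * b)))) * exp x)) := by
      gcongr
    rw [h1]
    refine h4.trans (le_of_eq ?_)
    calc exp (-x) * (b * (exp (-((R - a ^ 2) / (2 * (a * b)))) * exp x))
        = (b * exp (-((R - a ^ 2) / (2 * (a * b))))) * (exp (-x) * exp x) := by ring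
      _ = _ := by rw [hE, mul_one]
  by_cases hRM : R ≤ max a b ^ 2
  · have hgg : ggG a b R = √R := by unfold ggG; rw [if_pos hRM]
    rw [hgg]
    by_cases hRa : R ≤ a ^ 2
    · -- (ii)
      have hqb : b ≤ q := by
        have h1 : R / (2 * a) ≤ a / 2 := by
          rw [div_le_div_iff₀ (by positivity) (by norm_num)]
          nlinarith
        rw [hq]; linarith
      have hq0 : 0 ≤ q := hb.le.trans hqb
      have h1 : exp (-x) * (q + x * b) ≤ q := by
        have h2 : q + x * b ≤ q * (x + 1) := by nlinarith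
        have h3 : q * (x + 1) ≤ q * exp x := mul_le_mul_of_nonneg_left (add_one_le_exp x) hq0
        calc exp (-x) * (q + x * b) ≤ exp (-x) * (q * exp x) := by
              gcongr; exact h2.trans h3
          _ = q * (exp (-x) * exp x) := by ring
          _ = q := by rw [hE, mul_one]
      have h4 := gg_amgm hR.le ha
      have h5 : a + b - q = (R / a + a) / 2 := by rw [hq]; field_simp; ring
      linarith
    · -- (iii)
      push Not at hRa
      have hab : a < b := by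
        by_contra hcon
        push Not at hcon
        rw [max_eq_left hcon] at hRM
        linarith
      rw [max_eq_right hab.le] at hRM
      have hYm : a ≤ √R := Real.le_sqrt_of_sq_le hRa.le
      have hYM : √R ≤ b := by rw [Real.sqrt_le_left hb.le]; exact hRM
      have h1 := ggPsi_B (M := b) ha le_rfl hYm hYM
      rw [Real.sq_sqrt hR.le] at h1
      have h2 : (b + a - a) = b := by ring
      rw [h2] at h1
      linarith
  · have hgg : ggG a b R = max a b + min a b * (1 - exp (-((R - max a b ^ 2) / (2 * (a * b))))) := by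
      unfold ggG; rw [if_neg hRM]
    rw [hgg]
    have key : b * exp (-((R - a ^ 2) / (2 * (a * b)))) ≤
        min a b * exp (-((R - max a b ^ 2) / (2 * (a * b)))) := by
      rcases le_total a b with h | h
      · rw [max_eq_right h, min_eq_left h]
        have h1 := ggPsi_A ha h (le_refl a)
        have h2 : (b + a - a) = b := by ring
        rw [h2] at h1
        have h3 : -((R - b ^ 2) / (2 * (a * b))) =
            (b ^ 2 - a ^ 2) / (2 * (a * b)) + -((R - a ^ 2) / (2 * (a * b))) := by ring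
        rw [h3, exp_add]
        have h4 := mul_le_mul_of_nonneg_right h1 (exp_pos (-((R - a ^ 2) / (2 * (a * b))))).le
        linarith
      · rw [max_eq_left h, min_eq_right h]
    have h5 : max a b + min a b = a + b := max_add_min a b
    nlinarith [key, hi, h5]

private theorem ggG_le_Lam {a b R x ν : ℝ} (ha : 0 < a) (hb : 0 < b) (hR : 0 < R) (hx : 0 ≤ x)
    (hν : a ≤ ν) :
    ggG a b R ≤ (b + a) * (1 - exp (-x)) + exp (-x) / 2 * ((R - 2 * x * (b * a)) / ν + ν) := by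
  have hν0 : 0 < ν := lt_of_lt_of_le ha hν
  by_cases hRx : a ^ 2 ≤ R - 2 * x * (b * a)
  · have h0 : 0 ≤ R - 2 * x * (b * a) := le_trans (sq_nonneg a) hRx
    have hy : a ≤ √(R - 2 * x * (b * a)) := Real.le_sqrt_of_sq_le hRx
    have h1 := ggG_caseI' (R := R) ha hb hx hy (by rw [Real.sq_sqrt h0]; ring)
    have h2 := gg_amgm h0 hν0
    have h3 := mul_le_mul_of_nonneg_left h2 (exp_pos (-x)).le
    nlinarith [h1, h3]
  · push Not at hRx
    have h1 := ggG_caseII ha hb hR hx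
    have h2 : (R - 2 * x * (b * a)) / a + a ≤ (R - 2 * x * (b * a)) / ν + ν := by
      have h3 : (R - 2 * x * (b * a)) / ν + ν - ((R - 2 * x * (b * a)) / a + a) =
          (ν - a) * (ν * a - (R - 2 * x * (b * a))) / (ν * a) := by
        field_simp
        ring
      have h4 : 0 ≤ ν - a := by linarith
      have h5 : 0 ≤ ν * a - (R - 2 * x * (b * a)) := by nlinarith
      have h6 : 0 ≤ (ν - a) * (ν * a - (R - 2 * x * (b * a))) / (ν * a) := by positivity
      linarith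
    have h3 := mul_le_mul_of_nonneg_left h2 (exp_pos (-x)).le
    have h4 : (a + b) - exp (-x) * (a / 2 - R / (2 * a) + b + x * b) =
        (b + a) * (1 - exp (-x)) + exp (-x) / 2 * ((R - 2 * x * (b * a)) / a + a) := by
      field_simp
      ring
    nlinarith [h1, h3, h4]

private theorem gg_R_pos {u w : ℝ × ℝ} (hu : Pos u) (hw : Pos w) :
    0 < u.1 * w.2 + u.2 * w.1 := by
  have h1 := mul_pos hu.1 hw.2
  have h2 := mul_pos hu.2 hw.1
  linarith

theorem gg_le_Lam {u w : ℝ × ℝ} (hu : Pos u) (hw : Pos w) {x ν : ℝ} (hx : 0 ≤ x)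
    (hν : w.2 ≤ ν) : gg u w ≤ Lam x ν u w := by
  rw [gg_eq_ggG]
  exact ggG_le_Lam hw.2 hu.2 (gg_R_pos hu hw) hx hν

theorem gg_le_Lam_zero {u w : ℝ × ℝ} (hu : Pos u) (hw : Pos w) {ν : ℝ} (hν : 0 < ν) :
    gg u w ≤ Lam 0 ν u w := by
  rw [gg_eq_ggG]
  have h0 := gg_R_pos hu hw
  have h1 := ggG_le_sqrt hw.2 hu.2 h0.le
  have h2 := gg_amgm h0.le hν
  have h3 : Lam 0 ν u w = ((u.1 * w.2 + u.2 * w.1) / ν + ν) / 2 := by
    unfold Lam
    simp
    ring
  rw [h3]
  linarith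

theorem gg_attained {u w : ℝ × ℝ} (hu : Pos u) (hw : Pos w) :
    ∃ x ν, ((0 ≤ x ∧ w.2 ≤ ν) ∨ (x = 0 ∧ 0 < ν)) ∧ gg u w = Lam x ν u w := by
  have h0 := gg_R_pos hu hw
  have ha := hw.2
  have hb := hu.2
  by_cases hR : u.1 * w.2 + u.2 * w.1 ≤ max w.2 u.2 ^ 2
  · refine ⟨0, √(u.1 * w.2 + u.2 * w.1), Or.inr ⟨rfl, Real.sqrt_pos.mpr h0⟩, ?_⟩
    have h1 : gg u w = √(u.1 * w.2 + u.2 * w.1) := by unfold gg; rw [if_pos hR]
    have h2 : (u.1 * w.2 + u.2 * w.1) / √(u.1 * w.2 + u.2 * w.1) = √(u.1 * w.2 + u.2 * w.1) :=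
      Real.div_sqrt
    rw [h1]
    unfold Lam
    simp only [neg_zero, exp_zero, mul_zero, zero_mul, sub_zero, sub_self, h2]
    ring
  · push Not at hR
    have hM : 0 < max w.2 u.2 := lt_of_lt_of_le ha (le_max_left _ _)
    refine ⟨(u.1 * w.2 + u.2 * w.1 - max w.2 u.2 ^ 2) / (2 * (w.2 * u.2)), max w.2 u.2,
      Or.inl ⟨div_nonneg (by linarith) (by positivity), le_max_left _ _⟩, ?_⟩
    have h1 : gg u w = max w.2 u.2 + min w.2 u.2 *
        (1 - exp (-((u.1 * w.2 + u.2 * w.1 - max w.2 u.2 ^ 2) / (2 * (w.2 * u.2))))) := by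
      unfold gg; rw [if_neg (not_le.mpr hR)]
    rw [h1]
    unfold Lam
    have h2 : u.1 * w.2 + u.2 * w.1 -
        2 * ((u.1 * w.2 + u.2 * w.1 - max w.2 u.2 ^ 2) / (2 * (w.2 * u.2))) * (u.2 * w.2) =
        max w.2 u.2 ^ 2 := by
      field_simp
      ring
    rw [h2]
    have h3 : max w.2 u.2 ^ 2 / max w.2 u.2 = max w.2 u.2 := by
      field_simp
    rw [h3]
    have h4 : min w.2 u.2 = w.2 + u.2 - max w.2 u.2 := by
      have := max_add_min w.2 u.2
      linarith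
    rw [h4]
    ring

theorem concaveOn_gg {w : ℝ × ℝ} (hw : Pos w) : ConcaveOn ℝ {u | Pos u} fun u => gg u w := by
  have hconv : Convex ℝ {u : ℝ × ℝ | Pos u} := by
    intro u hu v hv s t hs ht hst
    have hu' : Pos u := hu
    have hv' : Pos v := hv
    show Pos (s • u + t • v)
    rcases eq_or_lt_of_le hs with h | h
    · have ht1 : t = 1 := by linarith
      rw [← h, ht1, zero_smul, one_smul, zero_add]
      exact hv'
    · refine ⟨?_, ?_⟩
      · have h1 : 0 < s * u.1 := mul_pos h hu'.1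
        have h2 : 0 ≤ t * v.1 := mul_nonneg ht hv'.1.le
        show 0 < s * u.1 + t * v.1
        linarith
      · have h1 : 0 < s * u.2 := mul_pos h hu'.2
        have h2 : 0 ≤ t * v.2 := mul_nonneg ht hv'.2.le
        show 0 < s * u.2 + t * v.2
        linarith
  refine ⟨hconv, ?_⟩
  intro u hu v hv s t hs ht hst
  have hu' : Pos u := hu
  have hv' : Pos v := hv
  have hz : Pos (s • u + t • v) := hconv hu hv hs ht hst
  obtain ⟨x, ν, hxν, heq⟩ := gg_attained hz hw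
  show s * gg u w + t * gg v w ≤ gg (s • u + t • v) w
  have h1 : gg u w ≤ Lam x ν u w := by
    rcases hxν with ⟨h1, h2⟩ | ⟨h1, h2⟩
    · exact gg_le_Lam hu' hw h1 h2
    · rw [h1]; exact gg_le_Lam_zero hu' hw h2
  have h2 : gg v w ≤ Lam x ν v w := by
    rcases hxν with ⟨h1, h2⟩ | ⟨h1, h2⟩
    · exact gg_le_Lam hv' hw h1 h2
    · rw [h1]; exact gg_le_Lam_zero hv' hw h2
  have h3 : Lam x ν (s • u + t • v) w = s * Lam x ν u w + t * Lam x ν v w := by
    have ht1 : t = 1 - s := by linarith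
    subst ht1
    unfold Lam
    simp only [Prod.fst_add, Prod.snd_add, Prod.smul_fst, Prod.smul_snd, smul_eq_mul]
    ring
  rw [heq, h3]
  have h4 := mul_le_mul_of_nonneg_left h1 hs
  have h5 := mul_le_mul_of_nonneg_left h2 ht
  linarith

theorem gg_comm (u w : ℝ × ℝ) : gg u w = gg w u := by
  have h1 : u.1 * w.2 + u.2 * w.1 = w.1 * u.2 + w.2 * u.1 := by ring
  rw [gg_eq_ggG, gg_eq_ggG, ggG_comm, h1]

theorem gg_smul {r : ℝ} (hr : 0 < r) {u w : ℝ × ℝ} (hu : Pos u) (hw : Pos w) :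
    gg (r • u) (r • w) = r * gg u w := by
  have ha := hw.2
  have hb := hu.2
  have h0 := gg_R_pos hu hw
  unfold gg
  simp only [Prod.smul_fst, Prod.smul_snd, smul_eq_mul]
  have hmax : max (r * w.2) (r * u.2) = r * max w.2 u.2 := (mul_max_of_nonneg _ _ hr.le).symm
  have hmin : min (r * w.2) (r * u.2) = r * min w.2 u.2 := (mul_min_of_nonneg _ _ hr.le).symm
  have hR : r * u.1 * (r * w.2) + r * u.2 * (r * w.1) = r ^ 2 * (u.1 * w.2 + u.2 * w.1) := by ring
  rw [hmax, hmin, hR]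
  have hiff : r ^ 2 * (u.1 * w.2 + u.2 * w.1) ≤ (r * max w.2 u.2) ^ 2 ↔
      u.1 * w.2 + u.2 * w.1 ≤ max w.2 u.2 ^ 2 := by
    rw [mul_pow]
    exact mul_le_mul_iff_of_pos_left (by positivity)
  by_cases h : u.1 * w.2 + u.2 * w.1 ≤ max w.2 u.2 ^ 2
  · rw [if_pos (hiff.mpr h), if_pos h, Real.sqrt_mul (by positivity), Real.sqrt_sq hr.le]
  · rw [if_neg (fun h' => h (hiff.mp h')), if_neg h]
    have h1 : (r ^ 2 * (u.1 * w.2 + u.2 * w.1) - (r * max w.2 u.2) ^ 2) /
        (2 * (r * w.2 * (r * u.2))) =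
        (u.1 * w.2 + u.2 * w.1 - max w.2 u.2 ^ 2) / (2 * (w.2 * u.2)) := by
      field_simp
    rw [h1]
    ring

theorem le_gg {u w : ℝ × ℝ} (hu : Pos u) (hw : Pos w) :
    min u.1 w.2 ≤ gg u w ∧ min u.2 w.1 ≤ gg u w := by
  have ha := hw.2
  have hb := hu.2
  have h11 := mul_pos hu.1 hw.2
  have h22 := mul_pos hu.2 hw.1
  by_cases h : u.1 * w.2 + u.2 * w.1 ≤ max w.2 u.2 ^ 2
  · have h1 : gg u w = √(u.1 * w.2 + u.2 * w.1) := by unfold gg; rw [if_pos h]
    rw [h1]
    constructor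
    · refine Real.le_sqrt_of_sq_le ?_
      have h2 : 0 < min u.1 w.2 := lt_min hu.1 hw.2
      nlinarith [mul_le_mul (min_le_left u.1 w.2) (min_le_right u.1 w.2) h2.le hu.1.le]
    · refine Real.le_sqrt_of_sq_le ?_
      have h2 : 0 < min u.2 w.1 := lt_min hu.2 hw.1
      nlinarith [mul_le_mul (min_le_left u.2 w.1) (min_le_right u.2 w.1) h2.le hu.2.le]
  · have h1 : gg u w = max w.2 u.2 + min w.2 u.2 *
        (1 - exp (-((u.1 * w.2 + u.2 * w.1 - max w.2 u.2 ^ 2) / (2 * (w.2 * u.2))))) := by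
      unfold gg; rw [if_neg h]
    push Not at h
    have h2 : exp (-((u.1 * w.2 + u.2 * w.1 - max w.2 u.2 ^ 2) / (2 * (w.2 * u.2)))) ≤ 1 := by
      rw [exp_le_one_iff, neg_nonpos]
      exact div_nonneg (by linarith) (by positivity)
    have h3 : 0 < min w.2 u.2 := lt_min ha hb
    have h4 : max w.2 u.2 ≤ gg u w := by
      rw [h1]
      have := mul_nonneg h3.le (sub_nonneg.mpr h2)
      linarith
    exact ⟨(min_le_right _ _).trans ((le_max_left _ _).trans h4),
      (min_le_left _ _).trans ((le_max_right _ _).trans h4)⟩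

end Pool.Agent.Helper12.CR
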