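import Pool.Agent.Helper12.CR.GG

set_option autoImplicit false

/-!
# Project CR, module Hzero: the planes at `h = 0`

At `h = 0`: `c = 1`, `s = 0`, `dd 0 u = u.1 - u.2`, `g1 = 1`, `DD = 2 + x`, `QQ = 1 - x`,
`ep x 0 = exp (-x)`.  Then
  `L 0 x 0 u w = Lam x (w.2) u w`,
  `L 1 x 0 u w = Lam x (w.1 - x w.2) u w`,
  `L 2 x 0 u w = Lam x (w.1 - x w.2 + w.2) u w`
(algebra).  `K 1`: `ga x 0 w = 2 w.1 - 2 (1+x) w.2 ≥ 0` gives `w.1 - x w.2 ≥ w.2`;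
`K 2`: `al x 0 w = 2 w.1 - 2 x w.2 ≥ 0`.  The denominators:
`la0 x 0 w = w.2/2`, `la1 x 0 w = (w.1 - x w.2)/2`, `la2 x 0 w = (w.1 - x w.2 + w.2)/2`.
-/

namespace Pool.Agent.Helper12.CR

open Real

private theorem hz_dd (u : ℝ × ℝ) : dd 0 u = u.1 - u.2 := by
  unfold dd; rw [exp_zero, one_mul]

private theorem hz_al (x : ℝ) (u : ℝ × ℝ) : al x 0 u = 2 * u.1 - 2 * x * u.2 := by
  unfold al QQ sg; rw [hz_dd, cos_zero, sin_zero]; ring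

private theorem hz_be (u : ℝ × ℝ) : be 0 u = 2 * u.2 := by
  unfold be sg; rw [hz_dd, cos_zero, sin_zero]; ring

private theorem hz_ga (x : ℝ) (u : ℝ × ℝ) : ga x 0 u = 2 * u.1 - 2 * (1 + x) * u.2 := by
  unfold ga DD sg; rw [hz_dd, cos_zero, sin_zero]; ring

private theorem hz_m3 (x : ℝ) (u : ℝ × ℝ) : m3 x 0 u = (x * u.2 - u.1 + u.2) / 2 := by
  unfold m3 sg; rw [hz_dd, cos_zero, sin_zero]; ring

private theorem hz_g1 (x : ℝ) : g1 x 0 = 1 := by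
  unfold g1; rw [cos_zero, sin_zero]; ring

private theorem hz_la0 (x : ℝ) (u : ℝ × ℝ) : la0 x 0 u = u.2 / 2 := by
  unfold la0 sg; rw [hz_dd, hz_g1, cos_zero, sin_zero]; ring

private theorem hz_la1 (x : ℝ) (u : ℝ × ℝ) : la1 x 0 u = (u.1 - x * u.2) / 2 := by
  unfold la1 sg; rw [hz_dd, cos_zero, sin_zero]; ring

private theorem hz_la2 (x : ℝ) (u : ℝ × ℝ) : la2 x 0 u = (u.1 - x * u.2 + u.2) / 2 := by
  unfold la2 sg; rw [hz_dd, cos_zero, sin_zero]; ring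

private theorem hz_ep (x : ℝ) : ep x 0 = exp (-x) := by
  unfold ep; rw [sub_zero]

private theorem hz_L0 {x : ℝ} (u : ℝ × ℝ) {w : ℝ × ℝ} (hw : w.2 ≠ 0) :
    L0 x 0 u w = Lam x w.2 u w := by
  unfold L0 J0 Lam
  rw [hz_ep, hz_m3, hz_la0, hz_ga, hz_be, hz_g1]
  field_simp
  ring

private theorem hz_L1 {x : ℝ} (u : ℝ × ℝ) {w : ℝ × ℝ} (hw : w.1 - x * w.2 ≠ 0) :
    L1 x 0 u w = Lam x (w.1 - x * w.2) u w := by
  unfold L1 J1 Lam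
  rw [hz_ep, hz_m3, hz_la1, hz_ga, hz_al, cos_zero]
  generalize hν : w.1 - x * w.2 = ν at hw ⊢
  have h1 : w.1 = ν + x * w.2 := by rw [← hν]; ring
  rw [h1]
  field_simp
  ring

private theorem hz_L2 {x : ℝ} (u : ℝ × ℝ) {w : ℝ × ℝ} (hw : w.1 - x * w.2 + w.2 ≠ 0) :
    L2 x 0 u w = Lam x (w.1 - x * w.2 + w.2) u w := by
  unfold L2 J2 Lam
  rw [hz_ep, hz_m3, hz_la2, hz_al, hz_al, hz_be, hz_be]
  generalize hν : w.1 - x * w.2 + w.2 = ν at hw ⊢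
  have h1 : w.1 = ν + x * w.2 - w.2 := by rw [← hν]; ring
  rw [h1]
  field_simp
  ring

theorem L_h_zero {j : Fin 3} {x : ℝ} {w : ℝ × ℝ} (u : ℝ × ℝ) (hw : Pos w) (k : K j x 0 w) :
    ∃ ν, w.2 ≤ ν ∧ L j x 0 u w = Lam x ν u w := by
  have h2 : 0 < w.2 := hw.2
  match j, k with
  | 0, _ => exact ⟨w.2, le_refl _, hz_L0 u h2.ne'⟩
  | 1, k =>
    have h3 : 0 ≤ ga x 0 w := k.2.1
    rw [hz_ga] at h3
    have h4 : w.2 ≤ w.1 - x * w.2 := by linarith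
    exact ⟨w.1 - x * w.2, h4, hz_L1 u (lt_of_lt_of_le h2 h4).ne'⟩
  | 2, k =>
    have h3 : 0 ≤ al x 0 w := k.2.1
    rw [hz_al] at h3
    have h4 : w.2 ≤ w.1 - x * w.2 + w.2 := by linarith
    exact ⟨w.1 - x * w.2 + w.2, h4, hz_L2 u (lt_of_lt_of_le h2 h4).ne'⟩

private theorem hz_x_nonneg {j : Fin 3} {x h : ℝ} {w : ℝ × ℝ} (k : K j x h w) : 0 ≤ x := by
  match j, k with
  | 0, k => exact k.1.1
  | 1, k => exact k.1.1
  | 2, k => exact k.1.1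

theorem gg_le_L_zero {j : Fin 3} {x : ℝ} {u w : ℝ × ℝ} (hu : Pos u) (hw : Pos w)
    (k : K j x 0 w) : gg u w ≤ L j x 0 u w := by
  obtain ⟨ν, hν, h⟩ := L_h_zero u hw k
  rw [h]
  exact gg_le_Lam hu hw (hz_x_nonneg k) hν

end Pool.Agent.Helper12.CR
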