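import Pool.Agent.Helper12.CR.Defs

set_option autoImplicit false

/-!
# Project CR: the polynomial identities behind the derivative formulas
-/

namespace Pool.Agent.Helper12.CR

/-- the numerator for face `0` -/
def N0 (c s x a b m n p q : ℝ) : ℝ :=
    (c - (1 + x) * s) * ((c - x * s) ^ 2 * (m - (c + s) * n) ^ 2 * ((p * c - q * x * s + p * s + q * (2 + x) * c) * a - p * b - q * (2 + x) * b) + (c - x * s) * (m - (c + s) * n) ^ 2 * (-(2 * q * c * n)) - (m - (c + s) * n) ^ 3 * (-(q * s + p * s + q * x * c))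
      - (c - x * s) ^ 2 * (m - (c + s) * n) * (((p * (c - s) + 2 * q * (c - (1 + x) * s)) * n - p * m) * ((c - s) * a - b) + (((2 + x) * c - x * s) * n - x * m) * (-(q * (s + c) * a) - q * b))
      + (c - x * s) ^ 2 * (((2 + x) * c - x * s) * n - x * m) * ((c - s) * a - b) * (-(2 * q * c * n))
      - (p + q) * ((c - x * s) ^ 2 * (m - (c + s) * n) ^ 2 * ((x * c + (2 + x) * s) * a - (2 + x) * b) + (c - x * s) * (m - (c + s) * n) ^ 3 - (c - x * s) ^ 2 * (m - (c + s) * n) * (((2 + x) * c - x * s) * n - x * m) * ((c - s) * a - b)))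
    + ((m - (c + s) * n) ^ 2 * (c - (1 + x) * s) - (c - x * s) * (((1 + x) * n + ((1 - x) * c - (1 + x) * s) * m) * (((2 - x) * c - x * s) * a + x * b) - (((2 + x) * c - x * s) * n - x * m) * (((1 + x) * c + (1 - x) * s) * b + (1 - x) * a))) *
      (p * (m - (c + s) * n) * (c - (1 + x) * s) + q * ((1 + x) * n + ((1 - x) * c - (1 + x) * s) * m))
    + 2 * (c - x * s) ^ 2 * q * (((2 + x) * c - x * s) * n - x * m) * ((1 + x) * n + ((1 - x) * c - (1 + x) * s) * m) * ((c - s) * a - b)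

theorem key0 (c s x a b m n p q : ℝ) (hcs : c ^ 2 + s ^ 2 = 1) :
    N0 c s x a b m n p q = 0 := by
  unfold N0
  linear_combination (
    - 2*c^4*x*a*n^2*p - 4*c^4*x*a*n^2*q - 4*c^4*a*n^2*q + 6*c^3*s*x^2*a*n^2*p +
    12*c^3*s*x^2*a*n^2*q + 16*c^3*s*x*a*n^2*q + 4*c^3*s*a*n^2*q + c^3*x^2*a*m*n*p -
    2*c^3*x^2*a*m*n*q - c^3*x^2*b*n^2*p + c^3*x*a*m*n*p + 4*c^3*x*a*m*n*q - c^3*x*b*n^2*p +
    2*c^3*x*b*n^2*q - c^3*x*n^3*q + 2*c^3*a*m*n*q + 2*c^3*b*n^2*q - c^3*n^3*q -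
    6*c^2*s^2*x^3*a*n^2*p - 12*c^2*s^2*x^3*a*n^2*q + 2*c^2*s^2*x^2*a*n^2*p -
    20*c^2*s^2*x^2*a*n^2*q + 2*c^2*s^2*x*a*n^2*p - 8*c^2*s^2*x*a*n^2*q - 2*c^2*s*x^3*a*m*n*p +
    4*c^2*s*x^3*a*m*n*q + 2*c^2*s*x^3*b*n^2*p - 4*c^2*s*x^2*a*m*n*p - 12*c^2*s*x^2*a*m*n*q +
    2*c^2*s*x^2*b*n^2*p - 6*c^2*s*x^2*b*n^2*q + c^2*s*x^2*n^3*q - 2*c^2*s*x*a*m*n*p -
    10*c^2*s*x*a*m*n*q - 8*c^2*s*x*b*n^2*q - 2*c^2*s*a*m*n*q - 2*c^2*s*b*n^2*q - c^2*s*n^3*q +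
    c^2*x^3*a*m^2*q - c^2*x^3*b*m*n*q - c^2*x^2*a*m^2*p - 2*c^2*x^2*a*m^2*q +
    2*c^2*x^2*a*n^2*q + c^2*x^2*b*m*n*p + c^2*x*a*m^2*p + c^2*x*a*m^2*q + 2*c^2*x*a*n^2*q +
    c^2*x*b*m*n*p + c^2*x*b*m*n*q + 2*c^2*x*m*n^2*q + 2*c^2*m*n^2*q + 2*c*s^3*x^4*a*n^2*p +
    4*c*s^3*x^4*a*n^2*q - 4*c*s^3*x^3*a*n^2*p + 8*c*s^3*x^3*a*n^2*q - 4*c*s^3*x^2*a*n^2*p +
    4*c*s^3*x^2*a*n^2*q + c*s^2*x^4*a*m*n*p - 2*c*s^2*x^4*a*m*n*q - c*s^2*x^4*b*n^2*p +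
    4*c*s^2*x^3*a*m*n*p + 12*c*s^2*x^3*a*m*n*q + 6*c*s^2*x^3*b*n^2*q + 4*c*s^2*x^2*a*m*n*p +
    14*c*s^2*x^2*a*m*n*q + 2*c*s^2*x^2*b*n^2*p + 10*c*s^2*x^2*b*n^2*q + 2*c*s^2*x^2*n^3*q +
    c*s^2*x*a*m*n*p + 4*c*s^2*x*a*m*n*q + c*s^2*x*b*n^2*p + 4*c*s^2*x*b*n^2*q +
    3*c*s^2*x*n^3*q + c*s^2*n^3*q - c*s*x^4*a*m^2*q + c*s*x^4*b*m*n*q + 2*c*s*x^3*a*m^2*p +
    3*c*s*x^3*a*m^2*q - 4*c*s*x^3*a*n^2*q - 2*c*s*x^3*b*m*n*p - c*s*x^3*b*m*n*q -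
    c*s*x^2*a*m^2*p - c*s*x^2*a*m^2*q - 4*c*s*x^2*a*n^2*q - 3*c*s*x^2*b*m*n*p -
    3*c*s*x^2*b*m*n*q - 2*c*s*x^2*m*n^2*q - c*s*x*a*m^2*p - c*s*x*a*m^2*q - c*s*x*b*m*n*p -
    c*s*x*b*m*n*q - 2*c*s*x*m*n^2*q - c*x^3*a*m*n*q + c*x^3*b*n^2*q + 2*c*x^2*b*n^2*q +
    c*x*a*m*n*q + c*x*b*n^2*q - c*x*m^2*n*q - c*m^2*n*q + 2*s^4*x^4*a*n^2*p +
    2*s^4*x^3*a*n^2*p - s^3*x^4*a*m*n*p - 4*s^3*x^4*a*m*n*q - s^3*x^4*b*n^2*p -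
    2*s^3*x^4*b*n^2*q - 2*s^3*x^3*a*m*n*p - 6*s^3*x^3*a*m*n*q - 2*s^3*x^3*b*n^2*p -
    4*s^3*x^3*b*n^2*q - s^3*x^2*a*m*n*p - 2*s^3*x^2*a*m*n*q - s^3*x^2*b*n^2*p -
    2*s^3*x^2*b*n^2*q + s^3*x^2*n^3*q + 2*s^3*x*n^3*q + s^3*n^3*q - s^2*x^4*a*m^2*p -
    s^2*x^4*a*m^2*q + 2*s^2*x^4*a*n^2*q + s^2*x^4*b*m*n*p + s^2*x^4*b*m*n*q +
    2*s^2*x^3*a*n^2*q + 2*s^2*x^3*b*m*n*p + 2*s^2*x^3*b*m*n*q + s^2*x^2*a*m^2*p +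
    s^2*x^2*a*m^2*q + s^2*x^2*b*m*n*p + s^2*x^2*b*m*n*q - 2*s^2*x^2*m*n^2*q - 4*s^2*x*m*n^2*q
    - 2*s^2*m*n^2*q + s*x^4*a*m*n*q - s*x^4*b*n^2*q - 2*s*x^3*b*n^2*q - s*x^2*a*m*n*q -
    s*x^2*b*n^2*q + s*x^2*m^2*n*q + 2*s*x*m^2*n*q + s*m^2*n*q) * hcs

/-- the numerator for face `1` -/
def N1 (c s x a b m n p q : ℝ) : ℝ :=
    (c - (1 + x) * s) * (c ^ 2 * (((1 + x) * c + (1 - x) * s) * n + (1 - x) * m) ^ 2 * ((p * c - q * x * s + p * s + q * (2 + x) * c) * a - p * b - q * (2 + x) * b) + c * (((1 + x) * c + (1 - x) * s) * n + (1 - x) * m) ^ 2 * ((p * (c - s) + q * ((1 - x) * c - (1 + x) * s)) * n + q * ((1 + x) * c + (1 - x) * s) * n - p * m) - (((1 + x) * c + (1 - x) * s) * n + (1 - x) * m) ^ 3 * (-(q * s))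
      + c ^ 2 * (((1 + x) * c + (1 - x) * s) * n + (1 - x) * m) * (((p * (c - s) + 2 * q * (c - (1 + x) * s)) * n - p * m) * ((1 + x) * b + ((1 - x) * c - (1 + x) * s) * a) + (((2 + x) * c - x * s) * n - x * m) * ((p + q * (1 + x)) * b + (-(p * (c + s)) - q * ((1 - x) * s + (1 + x) * c)) * a))
      - c ^ 2 * (((2 + x) * c - x * s) * n - x * m) * ((1 + x) * b + ((1 - x) * c - (1 + x) * s) * a) * ((p * (c - s) + q * ((1 - x) * c - (1 + x) * s)) * n + q * ((1 + x) * c + (1 - x) * s) * n - p * m) - 2 * c * (((1 + x) * c + (1 - x) * s) * n + (1 - x) * m) ^ 2 * ((p * (c - s) + 2 * q * (c - (1 + x) * s)) * n - p * m)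
      + 2 * (((1 + x) * c + (1 - x) * s) * n + (1 - x) * m) ^ 2 * (((2 + x) * c - x * s) * n - x * m) * (-(q * s))
      - (p + q) * (c ^ 2 * (((1 + x) * c + (1 - x) * s) * n + (1 - x) * m) ^ 2 * ((x * c + (2 + x) * s) * a - (2 + x) * b) + c * (((1 + x) * c + (1 - x) * s) * n + (1 - x) * m) ^ 3 + c ^ 2 * (((1 + x) * c + (1 - x) * s) * n + (1 - x) * m) * (((2 + x) * c - x * s) * n - x * m) * ((1 + x) * b + ((1 - x) * c - (1 + x) * s) * a)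
        - 2 * c * (((1 + x) * c + (1 - x) * s) * n + (1 - x) * m) ^ 2 * (((2 + x) * c - x * s) * n - x * m)))
    + ((((1 + x) * c + (1 - x) * s) * n + (1 - x) * m) ^ 2 * (c - (1 + x) * s) - c * ((((2 + x) * c - x * s) * n - x * m) * (a - (c + s) * b) + ((c - s) * m - n) * (((2 - x) * c - x * s) * a + x * b))) *
      (-(p * c * (((2 + x) * c - x * s) * n - x * m)) + q * (1 + x) * ((c - s) * m - n))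
    - 2 * c ^ 2 * (p + q) * (((2 + x) * c - x * s) * n - x * m) * ((c - s) * m - n) * ((1 + x) * b + ((1 - x) * c - (1 + x) * s) * a)

theorem key1 (c s x a b m n p q : ℝ) (hcs : c ^ 2 + s ^ 2 = 1) :
    N1 c s x a b m n p q = 0 := by
  unfold N1
  linear_combination (
    - 2*c^4*x*a*n^2*p - 4*c^4*a*n^2*p - 4*c^4*a*n^2*q + 2*c^3*s*x^2*a*n^2*p +
    8*c^3*s*x*a*n^2*p + 8*c^3*s*x*a*n^2*q + 4*c^3*s*a*n^2*p + 4*c^3*s*a*n^2*q + c^3*x^3*n^3*q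
    + c^3*x^2*a*m*n*p + 2*c^3*x^2*a*m*n*q - c^3*x^2*b*n^2*p + 3*c^3*x^2*n^3*q +
    4*c^3*x*a*m*n*p + 4*c^3*x*a*m*n*q - 4*c^3*x*b*n^2*p - 2*c^3*x*b*n^2*q + 3*c^3*x*n^3*q -
    2*c^3*a*m*n*q - 4*c^3*b*n^2*p - 2*c^3*b*n^2*q + c^3*n^3*q - 2*c^2*s^2*x^2*a*n^2*p -
    4*c^2*s^2*x^2*a*n^2*q - 2*c^2*s^2*x*a*n^2*p - 4*c^2*s^2*x*a*n^2*q - c^2*s*x^4*n^3*q -
    6*c^2*s*x^3*n^3*q - 3*c^2*s*x^2*a*m*n*p - 4*c^2*s*x^2*a*m*n*q + c^2*s*x^2*b*n^2*p +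
    2*c^2*s*x^2*b*n^2*q - 8*c^2*s*x^2*n^3*q - 2*c^2*s*x*a*m*n*p - 2*c^2*s*x*a*m*n*q +
    2*c^2*s*x*b*n^2*p + 4*c^2*s*x*b*n^2*q - 2*c^2*s*x*n^3*q + 2*c^2*s*a*m*n*q +
    2*c^2*s*b*n^2*q + c^2*s*n^3*q - 2*c^2*x^3*m*n^2*q - c^2*x^2*a*m^2*p - c^2*x^2*a*m^2*q -
    2*c^2*x^2*a*n^2*q + c^2*x^2*b*m*n*p - c^2*x^2*b*m*n*q - 2*c^2*x^2*m*n^2*q - c^2*x*a*m^2*q
    - 2*c^2*x*a*n^2*q + 2*c^2*x*b*m*n*p - c^2*x*b*m*n*q + 2*c^2*x*m*n^2*q + 2*c^2*m*n^2*q +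
    2*c*s^2*x^4*n^3*q + 5*c*s^2*x^3*n^3*q - c*s^2*x^2*n^3*q - 5*c*s^2*x*n^3*q - c*s^2*n^3*q +
    2*c*s*x^4*m*n^2*q + 6*c*s*x^3*m*n^2*q + c*s*x^2*a*m^2*q + c*s*x^2*b*m*n*q -
    2*c*s*x^2*m*n^2*q + c*s*x*a*m^2*q + c*s*x*b*m*n*q - 6*c*s*x*m*n^2*q + c*x^3*m^2*n*q +
    c*x^2*a*m*n*q + c*x^2*b*n^2*q - c*x^2*m^2*n*q + c*x*a*m*n*q + c*x*b*n^2*q - c*x*m^2*n*q +
    c*m^2*n*q - s^3*x^4*n^3*q + 2*s^3*x^2*n^3*q - s^3*n^3*q - 2*s^2*x^4*m*n^2*q +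
    4*s^2*x^2*m*n^2*q - 2*s^2*m*n^2*q - s*x^4*m^2*n*q + 2*s*x^2*m^2*n*q - s*m^2*n*q) * hcs

/-- the numerator for face `2` -/
def N2 (c s x a b m n p q : ℝ) : ℝ :=
    (c - (1 + x) * s) * ((((2 - x) * c - x * s) * m + x * n) ^ 2 * ((p * c - q * x * s + p * s + q * (2 + x) * c) * a - p * b - q * (2 + x) * b) + (((2 - x) * c - x * s) * m + x * n) ^ 2 * ((-(p * c) - q * (2 - x) * s - p * s - q * x * c) * m + (p + q * x) * n)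
      + (((2 - x) * c - x * s) * m + x * n) * (((p + q * (1 + x)) * n + (-(p * (c + s)) - q * ((1 - x) * s + (1 + x) * c)) * m) * ((1 + x) * b + ((1 - x) * c - (1 + x) * s) * a) + ((1 + x) * n + ((1 - x) * c - (1 + x) * s) * m) * ((p + q * (1 + x)) * b + (-(p * (c + s)) - q * ((1 - x) * s + (1 + x) * c)) * a) + ((-(q * (s + c) * m) - q * n) * ((c - s) * a - b) + ((c - s) * m - n) * (-(q * (s + c) * a) - q * b)))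
      - (((1 + x) * n + ((1 - x) * c - (1 + x) * s) * m) * ((1 + x) * b + ((1 - x) * c - (1 + x) * s) * a) + ((c - s) * m - n) * ((c - s) * a - b)) * ((-(p * c) - q * (2 - x) * s - p * s - q * x * c) * m + (p + q * x) * n)
      - 2 * (((2 - x) * c - x * s) * m + x * n) ^ 2 * ((p + q * (1 + x)) * n + (-(p * (c + s)) - q * ((1 - x) * s + (1 + x) * c)) * m)
      - (p + q) * ((((2 - x) * c - x * s) * m + x * n) ^ 2 * ((x * c + (2 + x) * s) * a - (2 + x) * b) + (((2 - x) * c - x * s) * m + x * n) ^ 3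
        + (((2 - x) * c - x * s) * m + x * n) * (((1 + x) * n + ((1 - x) * c - (1 + x) * s) * m) * ((1 + x) * b + ((1 - x) * c - (1 + x) * s) * a) + ((c - s) * m - n) * ((c - s) * a - b))
        - 2 * (((2 - x) * c - x * s) * m + x * n) ^ 2 * ((1 + x) * n + ((1 - x) * c - (1 + x) * s) * m)))
    - ((((2 - x) * c - x * s) * m + x * n) ^ 2 * (c - (1 + x) * s) - (((1 + x) * n + ((1 - x) * c - (1 + x) * s) * m) * (a - (c + s) * b) + ((c - s) * m - n) * (((1 + x) * c + (1 - x) * s) * b + (1 - x) * a))) *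
      ((p + q) * ((1 + x) * n + ((1 - x) * c - (1 + x) * s) * m) + q * (1 + x) * ((c - s) * m - n))
    - 2 * p * ((1 + x) * n + ((1 - x) * c - (1 + x) * s) * m) * ((c - s) * m - n) * (((2 + x) * c - x * s) * b - x * a)

theorem key2 (c s x a b m n p q : ℝ) (hcs : c ^ 2 + s ^ 2 = 1) :
    N2 c s x a b m n p q = 0 := by
  unfold N2
  linear_combination (
    2*c^2*x*a*m^2*p + 4*c^2*x*a*m^2*q - 2*c^2*a*m^2*p - 4*c^2*a*m^2*q - 2*c*s*x^2*a*m^2*p -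
    4*c*s*x^2*a*m^2*q + 2*c*s*x*a*m^2*p + 4*c*s*a*m^2*p + 8*c*s*a*m^2*q - 2*c*x*a*m*n*p -
    4*c*x*a*m*n*q - 2*c*a*m*n*p - 2*s^2*x^2*a*m^2*p - 4*s^2*x*a*m^2*p - 4*s^2*x*a*m^2*q -
    2*s^2*a*m^2*p - 4*s^2*a*m^2*q + 2*s*x^2*a*m*n*p + 4*s*x^2*a*m*n*q + 4*s*x*a*m*n*p +
    4*s*x*a*m*n*q + 2*s*a*m*n*p) * hcs

end Pool.Agent.Helper12.CR
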