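import Pool.Agent.Helper12.CR.Pos
import Pool.Agent.Helper12.CR.Der

set_option autoImplicit false

/-!
# Project CR, module LowD: derivatives of the vectors `U j` and the heights `z j`

Write `T j x h = ((U j x h).1, (U j x h).2, z j x h)`.  With `c = cos h`, `s = sin h`, `p = 1 + x`,
`g = g1 x h`, `Δ = Dl x h`:
  `∂_h T 0 = -T 0 + k (T 2 - T 0)`, `k = 1/(gΔ)`;   `∂_h T 1 = -T 1 + k' (T 2 - T 1)`, `k' = p/(cΔ)`;
  `∂_x T 2 = T 2 + k (T 0 - T 2)`, `∂_x T 1 = T 1 + k (T 0 - T 1)`, `k = g/Δ`;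
  `(∂_h - ∂_x) T 0 = k (T 1 - T 0)`, `k = c²/(gΔ)`; `(∂_h - ∂_x) T 2 = k' (T 1 - T 2)`, `k' = p c/Δ`.
All are algebra after differentiation (`c² + s² = 1`).  The statements are along the paths going
down: `(x, h - t)`, `(x - t, h)`, `(x + t, h - t)`, at `t = 0`, for the first and the second
coordinate of `U` and for `z` separately (use `HasDerivAt` of the coordinates).
A convenient form of the vectors:
`U 0 = (1 ± (c-s) κ)/g`, `U 1 = (p ∓ Q κ)/c`, `U 2 = DD ± x κ`, `z j = (U j).2 + η j ε` with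
`η = ((c-(2+x)s)/g, -1, -1)`.
-/

namespace Pool.Agent.Helper12.CR

open Real

/-- the three coordinates `(U j).1`, `(U j).2`, `z j` -/
noncomputable def T (i : Fin 3) (j : Fin 3) (x h : ℝ) : ℝ :=
  match i with
  | 0 => (U j x h).1
  | 1 => (U j x h).2
  | 2 => z j x h

namespace LowDAux

/-- the common form of the three coordinates of the vector `0` -/
noncomputable def V0 (σ η x h : ℝ) : ℝ :=
  (1 + σ * ((cos h - sin h) * exp (-h)) + η * ((cos h - (2 + x) * sin h) * ep x h)) / g1 x h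

/-- the common form of the three coordinates of the vector `1` -/
noncomputable def V1 (σ η x h : ℝ) : ℝ :=
  (1 + x - σ * (QQ x h * exp (-h)) - η * (cos h * ep x h)) / cos h

/-- the common form of the three coordinates of the vector `2` -/
noncomputable def V2 (σ η x h : ℝ) : ℝ := DD x h + σ * (x * exp (-h)) - η * ep x h

/-- the signs -/
noncomputable def sgn (i : Fin 3) : ℝ :=
  match i with
  | 0 => 1
  | 1 => -1
  | 2 => -1

/-- the signs -/
noncomputable def et (i : Fin 3) : ℝ :=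
  match i with
  | 0 => 0
  | 1 => 0
  | 2 => 1

theorem T0_eq (i : Fin 3) (x h : ℝ) : T i 0 x h = V0 (sgn i) (et i) x h := by
  fin_cases i
  · show (1 + (cos h - sin h) * exp (-h)) / g1 x h = V0 1 0 x h
    unfold V0; congr 1; ring
  · show (1 - (cos h - sin h) * exp (-h)) / g1 x h = V0 (-1) 0 x h
    unfold V0; congr 1; ring
  · show (1 - (cos h - sin h) * exp (-h) + (cos h - (2 + x) * sin h) * ep x h) / g1 x h
      = V0 (-1) 1 x h
    unfold V0; congr 1; ring

theorem T1_eq (i : Fin 3) (x h : ℝ) : T i 1 x h = V1 (sgn i) (et i) x h := by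
  fin_cases i
  · show (1 + x - QQ x h * exp (-h)) / cos h = V1 1 0 x h
    unfold V1; congr 1; ring
  · show (1 + x + QQ x h * exp (-h)) / cos h = V1 (-1) 0 x h
    unfold V1; congr 1; ring
  · show (1 + x + QQ x h * exp (-h) - cos h * ep x h) / cos h = V1 (-1) 1 x h
    unfold V1; congr 1; ring

theorem T2_eq (i : Fin 3) (x h : ℝ) : T i 2 x h = V2 (sgn i) (et i) x h := by
  fin_cases i
  · show DD x h + x * exp (-h) = V2 1 0 x h
    unfold V2; ring
  · show DD x h - x * exp (-h) = V2 (-1) 0 x h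
    unfold V2; ring
  · show DD x h - x * exp (-h) - ep x h = V2 (-1) 1 x h
    unfold V2; ring

section
variable (p q x h t σ η : ℝ)

theorem hd_kap : HasDerivAt (fun t => exp (-(h + q * t))) (-(q * exp (-(h + q * t)))) t :=
  (hd_X q h t).neg.exp.congr_deriv (by
    simp only [Pi.neg_apply]
    ring)

theorem hd_QQ : HasDerivAt (fun t => QQ (x + p * t) (h + q * t))
    (-(p * cos (h + q * t)) - q * (1 - (x + p * t)) * sin (h + q * t)
      - p * sin (h + q * t) - q * (1 + (x + p * t)) * cos (h + q * t)) t := by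
  unfold QQ
  exact (((((hd_X p x t).const_sub 1).mul (hd_c q h t)).sub
      (((hd_X p x t).const_add 1).mul (hd_s q h t)))).congr_deriv
    (by
      try simp only [Pi.add_apply, Pi.sub_apply, Pi.mul_apply, Pi.neg_apply]
      ring)

theorem hd_DD : HasDerivAt (fun t => DD (x + p * t) (h + q * t))
    (p * cos (h + q * t) - q * (2 + (x + p * t)) * sin (h + q * t)
      - p * sin (h + q * t) - q * (x + p * t) * cos (h + q * t)) t := by
  unfold DD
  exact (((((hd_X p x t).const_add 2).mul (hd_c q h t)).sub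
      ((hd_X p x t).mul (hd_s q h t)))).congr_deriv
    (by
      try simp only [Pi.add_apply, Pi.sub_apply, Pi.mul_apply, Pi.neg_apply]
      ring)

/-- derivative of the numerator of `V0` -/
theorem hd_n0 : HasDerivAt (fun t => 1 + σ * ((cos (h + q * t) - sin (h + q * t)) *
      exp (-(h + q * t))) + η * ((cos (h + q * t) - (2 + (x + p * t)) * sin (h + q * t)) *
      ep (x + p * t) (h + q * t)))
    (σ * (-(2 * q * cos (h + q * t)) * exp (-(h + q * t))) +
      η * ((-(q * sin (h + q * t)) - p * sin (h + q * t) - q * (2 + (x + p * t)) * cos (h + q * t)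
        - (p + q) * (cos (h + q * t) - (2 + (x + p * t)) * sin (h + q * t))) *
          ep (x + p * t) (h + q * t))) t :=
  ((((((hd_c q h t).sub (hd_s q h t)).mul (hd_kap q h t)).const_mul σ).const_add 1).add
    ((((hd_c q h t).sub (((hd_X p x t).const_add 2).mul (hd_s q h t))).mul
      (hd_ep p q x h t)).const_mul η)).congr_deriv
    (by
      try simp only [Pi.add_apply, Pi.sub_apply, Pi.mul_apply, Pi.neg_apply]
      ring)

/-- derivative of the numerator of `V1` -/
theorem hd_n1 : HasDerivAt (fun t => 1 + (x + p * t) - σ * (QQ (x + p * t) (h + q * t) *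
      exp (-(h + q * t))) - η * (cos (h + q * t) * ep (x + p * t) (h + q * t)))
    (p - σ * ((-(p * cos (h + q * t)) - q * (1 - (x + p * t)) * sin (h + q * t)
      - p * sin (h + q * t) - q * (1 + (x + p * t)) * cos (h + q * t)
        - q * QQ (x + p * t) (h + q * t)) * exp (-(h + q * t)))
      - η * ((-(q * sin (h + q * t)) - (p + q) * cos (h + q * t)) *
          ep (x + p * t) (h + q * t))) t :=
  ((((hd_X p x t).const_add 1).sub (((hd_QQ p q x h t).mul (hd_kap q h t)).const_mul σ)).sub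
    (((hd_c q h t).mul (hd_ep p q x h t)).const_mul η)).congr_deriv
    (by
      try simp only [Pi.add_apply, Pi.sub_apply, Pi.mul_apply, Pi.neg_apply]
      ring)

/-- derivative of `V2` -/
theorem hd_V2 : HasDerivAt (fun t => V2 σ η (x + p * t) (h + q * t))
    (p * cos (h + q * t) - q * (2 + (x + p * t)) * sin (h + q * t)
      - p * sin (h + q * t) - q * (x + p * t) * cos (h + q * t)
      + σ * ((p - q * (x + p * t)) * exp (-(h + q * t)))
      + η * ((p + q) * ep (x + p * t) (h + q * t))) t := by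
  unfold V2
  exact (((hd_DD p q x h t).add (((hd_X p x t).mul (hd_kap q h t)).const_mul σ)).sub
    ((hd_ep p q x h t).const_mul η)).congr_deriv
    (by
      try simp only [Pi.add_apply, Pi.sub_apply, Pi.mul_apply, Pi.neg_apply]
      ring)

/-- derivative of `V0` at `0` -/
theorem hd_V0 (hg : g1 x h ≠ 0) : HasDerivAt (fun t => V0 σ η (x + p * t) (h + q * t))
    (((σ * (-(2 * q * cos h) * exp (-h)) +
      η * ((-(q * sin h) - p * sin h - q * (2 + x) * cos h
        - (p + q) * (cos h - (2 + x) * sin h)) * ep x h)) * g1 x h -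
      (1 + σ * ((cos h - sin h) * exp (-h)) + η * ((cos h - (2 + x) * sin h) * ep x h)) *
        (-(q * sin h + p * sin h + q * x * cos h))) / g1 x h ^ 2) 0 := by
  have hg' : g1 (x + p * 0) (h + q * 0) ≠ 0 := by simpa using hg
  have := (hd_n0 p q x h 0 σ η).div (hd_g1 p q x h 0) hg'
  unfold V0
  refine HasDerivAt.congr_deriv this ?_
  simp only [mul_zero, add_zero]

/-- derivative of `V1` at `0` -/
theorem hd_V1 (hc : cos h ≠ 0) : HasDerivAt (fun t => V1 σ η (x + p * t) (h + q * t))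
    (((p - σ * ((-(p * cos h) - q * (1 - x) * sin h
      - p * sin h - q * (1 + x) * cos h
        - q * QQ x h) * exp (-h))
      - η * ((-(q * sin h) - (p + q) * cos h) * ep x h)) * cos h -
      (1 + x - σ * (QQ x h * exp (-h)) - η * (cos h * ep x h)) *
        (-(q * sin h))) / cos h ^ 2) 0 := by
  have hc' : cos (h + q * 0) ≠ 0 := by simpa using hc
  have := (hd_n1 p q x h 0 σ η).div (hd_c q h 0) hc'
  unfold V1
  refine HasDerivAt.congr_deriv this ?_
  simp only [mul_zero, add_zero]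

end

/-- algebra -/
theorem key0h (c s x K E S H g D v2 : ℝ) (hcs : c ^ 2 + s ^ 2 = 1) (hg : g = c - x * s)
    (hD : D = c - (1 + x) * s) (hv : v2 = (2 + x) * c - x * s + S * (x * K) - H * E) :
    (S * (-(2 * (-1) * c) * K) + H * ((-((-1) * s) - 0 * s - (-1) * (2 + x) * c
        - (0 + (-1)) * (c - (2 + x) * s)) * E)) * g * D -
      (1 + S * ((c - s) * K) + H * ((c - (2 + x) * s) * E)) *
        (-((-1) * s + 0 * s + (-1) * x * c)) * D -
      (1 + S * ((c - s) * K) + H * ((c - (2 + x) * s) * E)) + v2 * g -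
      (1 + S * ((c - s) * K) + H * ((c - (2 + x) * s) * E)) * g * D = 0 := by
  subst hg hD hv
  linear_combination ((-1)*c*x*K*S + 1*c*K*S + 2*c*E*H + 1*s*x^2*K*S + (-2)*s*x*E*H + (-1)*s*K*S + (-2)*s*E*H + 1) * hcs

/-- algebra -/
theorem key1h (c s x K E S H D v2 Q : ℝ) (hcs : c ^ 2 + s ^ 2 = 1)
    (hD : D = c - (1 + x) * s) (hv : v2 = (2 + x) * c - x * s + S * (x * K) - H * E)
    (hQ : Q = (1 - x) * c - (1 + x) * s) :
    (0 - S * ((-(0 * c) - (-1) * (1 - x) * s - 0 * s - (-1) * (1 + x) * c - (-1) * Q) * K)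
      - H * ((-((-1) * s) - (0 + (-1)) * c) * E)) * c * D -
      (1 + x - S * (Q * K) - H * (c * E)) * (-((-1) * s)) * D -
      (1 + x) * (1 + x - S * (Q * K) - H * (c * E)) + (1 + x) * v2 * c -
      (1 + x - S * (Q * K) - H * (c * E)) * c * D = 0 := by
  subst hD hv hQ
  linear_combination ((-1)*c*x*K*S + (-1)*c*K*S + 1*s*x^2*K*S + 2*s*x*K*S + 1*s*K*S + 1*x^2 + 2*x + 1) * hcs

/-- algebra -/
theorem key2x (c s x K E S H g D v2 : ℝ) (hcs : c ^ 2 + s ^ 2 = 1) (hg : g = c - x * s)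
    (hD : D = c - (1 + x) * s) (hv : v2 = (2 + x) * c - x * s + S * (x * K) - H * E) :
    ((-1) * c - 0 * (2 + x) * s - (-1) * s - 0 * x * c + S * (((-1) - 0 * x) * K)
      + H * (((-1) + 0) * E)) * D - g * v2 +
      (1 + S * ((c - s) * K) + H * ((c - (2 + x) * s) * E)) + v2 * D = 0 := by
  subst hg hD hv
  linear_combination (-1) * hcs

/-- algebra -/
theorem key1x (c s x K E S H g D Q : ℝ) (_ : c ^ 2 + s ^ 2 = 1) (hg : g = c - x * s)
    (hD : D = c - (1 + x) * s) (hQ : Q = (1 - x) * c - (1 + x) * s) :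
    ((-1) - S * ((-((-1) * c) - 0 * (1 - x) * s - (-1) * s - 0 * (1 + x) * c - 0 * Q) * K)
      - H * ((-(0 * s) - ((-1) + 0) * c) * E)) * c * D -
      (1 + x - S * (Q * K) - H * (c * E)) * (-(0 * s)) * D -
      g * (1 + x - S * (Q * K) - H * (c * E)) * c +
      (1 + S * ((c - s) * K) + H * ((c - (2 + x) * s) * E)) * c ^ 2 +
      (1 + x - S * (Q * K) - H * (c * E)) * c * D = 0 := by
  subst hg hD hQ
  ring

/-- algebra -/
theorem key0hx (c s x K E S H g D Q : ℝ) (_ : c ^ 2 + s ^ 2 = 1) (hg : g = c - x * s)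
    (hD : D = c - (1 + x) * s) (hQ : Q = (1 - x) * c - (1 + x) * s) :
    (S * (-(2 * (-1) * c) * K) + H * ((-((-1) * s) - 1 * s - (-1) * (2 + x) * c
        - (1 + (-1)) * (c - (2 + x) * s)) * E)) * g * D -
      (1 + S * ((c - s) * K) + H * ((c - (2 + x) * s) * E)) *
        (-((-1) * s + 1 * s + (-1) * x * c)) * D -
      c ^ 2 * (1 + S * ((c - s) * K) + H * ((c - (2 + x) * s) * E)) +
      c * (1 + x - S * (Q * K) - H * (c * E)) * g = 0 := by
  subst hg hD hQ
  ring

/-- algebra -/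
theorem key2hx (c s x K E S H D v2 Q : ℝ) (hcs : c ^ 2 + s ^ 2 = 1)
    (hD : D = c - (1 + x) * s) (hv : v2 = (2 + x) * c - x * s + S * (x * K) - H * E)
    (hQ : Q = (1 - x) * c - (1 + x) * s) :
    (1 * c - (-1) * (2 + x) * s - 1 * s - (-1) * x * c + S * ((1 - (-1) * x) * K)
      + H * ((1 + (-1)) * E)) * D - (1 + x) * c * v2 +
      (1 + x) * (1 + x - S * (Q * K) - H * (c * E)) = 0 := by
  subst hD hv hQ
  linear_combination ((-1)*x^2 + (-2)*x + (-1)) * hcs

/-- clearing denominators -/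
theorem clr0h (n n' g g' D v : ℝ) (hg : g ≠ 0) (hD : D ≠ 0)
    (key : n' * g * D - n * g' * D - n + v * g - n * g * D = 0) :
    (n' * g - n * g') / g ^ 2 = 1 / (g * D) * (n / g - v) + 1 * (n / g) := by
  refine sub_eq_zero.mp (Eq.trans (b := 1 / (g ^ 2 * D) *
    (n' * g * D - n * g' * D - n + v * g - n * g * D)) ?_ (by rw [key, mul_zero]))
  field_simp
  ring

/-- clearing denominators -/
theorem clr1h (n n' c c' D v p : ℝ) (hc : c ≠ 0) (hD : D ≠ 0)
    (key : n' * c * D - n * c' * D - p * n + p * v * c - n * c * D = 0) :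
    (n' * c - n * c') / c ^ 2 = p / (c * D) * (n / c - v) + 1 * (n / c) := by
  refine sub_eq_zero.mp (Eq.trans (b := 1 / (c ^ 2 * D) *
    (n' * c * D - n * c' * D - p * n + p * v * c - n * c * D)) ?_ (by rw [key, mul_zero]))
  field_simp
  ring

/-- clearing denominators -/
theorem clr2x (v' g D v n : ℝ) (hg : g ≠ 0) (hD : D ≠ 0)
    (key : v' * D - g * v + n + v * D = 0) :
    v' = g / D * (v - n / g) + (-1) * v := by
  refine sub_eq_zero.mp (Eq.trans (b := 1 / D * (v' * D - g * v + n + v * D)) ?_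
    (by rw [key, mul_zero]))
  field_simp
  ring

/-- clearing denominators -/
theorem clr1x (n n' c c' g D m : ℝ) (hg : g ≠ 0) (hc : c ≠ 0) (hD : D ≠ 0)
    (key : n' * c * D - n * c' * D - g * n * c + m * c ^ 2 + n * c * D = 0) :
    (n' * c - n * c') / c ^ 2 = g / D * (n / c - m / g) + (-1) * (n / c) := by
  refine sub_eq_zero.mp (Eq.trans (b := 1 / (c ^ 2 * D) *
    (n' * c * D - n * c' * D - g * n * c + m * c ^ 2 + n * c * D)) ?_ (by rw [key, mul_zero]))
  field_simp
  ring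

/-- clearing denominators -/
theorem clr0hx (n n' g g' c D m : ℝ) (hg : g ≠ 0) (hc : c ≠ 0) (hD : D ≠ 0)
    (key : n' * g * D - n * g' * D - c ^ 2 * n + c * m * g = 0) :
    (n' * g - n * g') / g ^ 2 = c ^ 2 / (g * D) * (n / g - m / c) + 0 * (n / g) := by
  refine sub_eq_zero.mp (Eq.trans (b := 1 / (g ^ 2 * D) *
    (n' * g * D - n * g' * D - c ^ 2 * n + c * m * g)) ?_ (by rw [key, mul_zero]))
  field_simp
  ring

/-- clearing denominators -/
theorem clr2hx (v' p c D v m : ℝ) (hc : c ≠ 0) (hD : D ≠ 0)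
    (key : v' * D - p * c * v + p * m = 0) :
    v' = p * c / D * (v - m / c) + 0 * v := by
  refine sub_eq_zero.mp (Eq.trans (b := 1 / D * (v' * D - p * c * v + p * m)) ?_
    (by rw [key, mul_zero]))
  field_simp
  ring

theorem cs (h : ℝ) : cos h ^ 2 + sin h ^ 2 = 1 := by
  rw [add_comm]; exact sin_sq_add_cos_sq _

theorem path_h (f : ℝ → ℝ → ℝ) (x h : ℝ) :
    (fun t => f x (h - t)) = fun t => f (x + 0 * t) (h + (-1) * t) := by
  funext t
  rw [show x + 0 * t = x by ring, show h + (-1) * t = h - t by ring]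

theorem path_x (f : ℝ → ℝ → ℝ) (x h : ℝ) :
    (fun t => f (x - t) h) = fun t => f (x + (-1) * t) (h + 0 * t) := by
  funext t
  rw [show x + (-1) * t = x - t by ring, show h + 0 * t = h by ring]

theorem path_hx (f : ℝ → ℝ → ℝ) (x h : ℝ) :
    (fun t => f (x + t) (h - t)) = fun t => f (x + 1 * t) (h + (-1) * t) := by
  funext t
  rw [show x + 1 * t = x + t by ring, show h + (-1) * t = h - t by ring]

theorem T0_fun (i : Fin 3) : T i 0 = V0 (sgn i) (et i) := by
  funext x h; exact T0_eq i x h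

theorem T1_fun (i : Fin 3) : T i 1 = V1 (sgn i) (et i) := by
  funext x h; exact T1_eq i x h

theorem T2_fun (i : Fin 3) : T i 2 = V2 (sgn i) (et i) := by
  funext x h; exact T2_eq i x h

end LowDAux

open LowDAux

theorem low_h (i : Fin 3) {x h : ℝ} (hg : g1 x h ≠ 0) (hc : cos h ≠ 0) (hD : Dl x h ≠ 0) :
    HasDerivAt (fun t => T i 0 x (h - t))
      (1 / (g1 x h * Dl x h) * (T i 0 x h - T i 2 x h) + 1 * T i 0 x h) 0 ∧
    HasDerivAt (fun t => T i 1 x (h - t))
      ((1 + x) / (cos h * Dl x h) * (T i 1 x h - T i 2 x h) + 1 * T i 1 x h) 0 ∧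
    ∃ e', HasDerivAt (fun t => T i 2 x (h - t)) e' 0 := by
  rw [path_h (T i 0), path_h (T i 1), path_h (T i 2), T0_fun, T1_fun, T2_fun]
  refine ⟨?_, ?_, _, hd_V2 0 (-1) x h 0 (sgn i) (et i)⟩
  · refine (hd_V0 0 (-1) x h (sgn i) (et i) hg).congr_deriv ?_
    exact clr0h _ _ _ _ _ _ hg hD (key0h (cos h) (sin h) x (exp (-h)) (ep x h) (sgn i) (et i)
      (g1 x h) (Dl x h) (V2 (sgn i) (et i) x h) (cs h) rfl rfl rfl)
  · refine (hd_V1 0 (-1) x h (sgn i) (et i) hc).congr_deriv ?_
    exact clr1h _ _ _ _ _ _ _ hc hD (key1h (cos h) (sin h) x (exp (-h)) (ep x h) (sgn i) (et i)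
      (Dl x h) (V2 (sgn i) (et i) x h) (QQ x h) (cs h) rfl rfl rfl)

theorem low_x (i : Fin 3) {x h : ℝ} (hg : g1 x h ≠ 0) (hc : cos h ≠ 0) (hD : Dl x h ≠ 0) :
    HasDerivAt (fun t => T i 2 (x - t) h)
      (g1 x h / Dl x h * (T i 2 x h - T i 0 x h) + (-1) * T i 2 x h) 0 ∧
    HasDerivAt (fun t => T i 1 (x - t) h)
      (g1 x h / Dl x h * (T i 1 x h - T i 0 x h) + (-1) * T i 1 x h) 0 ∧
    ∃ e', HasDerivAt (fun t => T i 0 (x - t) h) e' 0 := by
  rw [path_x (T i 0), path_x (T i 1), path_x (T i 2), T0_fun, T1_fun, T2_fun]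
  refine ⟨?_, ?_, _, hd_V0 (-1) 0 x h (sgn i) (et i) hg⟩
  · refine (hd_V2 (-1) 0 x h 0 (sgn i) (et i)).congr_deriv ?_
    simp only [mul_zero, add_zero]
    exact clr2x _ _ _ _ _ hg hD (by
      have := key2x (cos h) (sin h) x (exp (-h)) (ep x h) (sgn i) (et i)
        (g1 x h) (Dl x h) (V2 (sgn i) (et i) x h) (cs h) rfl rfl rfl
      simpa only [mul_zero, add_zero] using this)
  · refine (hd_V1 (-1) 0 x h (sgn i) (et i) hc).congr_deriv ?_
    exact clr1x _ _ _ _ _ _ _ hg hc hD (key1x (cos h) (sin h) x (exp (-h)) (ep x h) (sgn i) (et i)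
      (g1 x h) (Dl x h) (QQ x h) (cs h) rfl rfl rfl)

theorem low_hx (i : Fin 3) {x h : ℝ} (hg : g1 x h ≠ 0) (hc : cos h ≠ 0) (hD : Dl x h ≠ 0) :
    HasDerivAt (fun t => T i 0 (x + t) (h - t))
      (cos h ^ 2 / (g1 x h * Dl x h) * (T i 0 x h - T i 1 x h) + 0 * T i 0 x h) 0 ∧
    HasDerivAt (fun t => T i 2 (x + t) (h - t))
      ((1 + x) * cos h / Dl x h * (T i 2 x h - T i 1 x h) + 0 * T i 2 x h) 0 ∧
    ∃ e', HasDerivAt (fun t => T i 1 (x + t) (h - t)) e' 0 := by
  rw [path_hx (T i 0), path_hx (T i 1), path_hx (T i 2), T0_fun, T1_fun, T2_fun]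
  refine ⟨?_, ?_, _, hd_V1 1 (-1) x h (sgn i) (et i) hc⟩
  · refine (hd_V0 1 (-1) x h (sgn i) (et i) hg).congr_deriv ?_
    exact clr0hx _ _ _ _ _ _ _ hg hc hD (key0hx (cos h) (sin h) x (exp (-h)) (ep x h) (sgn i)
      (et i) (g1 x h) (Dl x h) (QQ x h) (cs h) rfl rfl rfl)
  · refine (hd_V2 1 (-1) x h 0 (sgn i) (et i)).congr_deriv ?_
    simp only [mul_zero, add_zero]
    exact clr2hx _ _ _ _ _ _ hc hD (key2hx (cos h) (sin h) x (exp (-h)) (ep x h) (sgn i) (et i)
      (Dl x h) (V2 (sgn i) (et i) x h) (QQ x h) (cs h) rfl rfl rfl)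

end Pool.Agent.Helper12.CR
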