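import Pool.Agent.Helper12.CR.Defs

set_option autoImplicit false

/-!
# Project CR, module Pos: positivity on the region

Write `c = cos h`, `s = sin h`, `p = 1 + x`, `κ = exp (-h)`, `Δ = c - p s ≥ 0`, `x ≥ 0`,
`0 ≤ h ≤ π/4`.

* `g₁ = c - x s = Δ + s`, so `g₁ ≥ Δ ≥ 0` and `g₁ ≥ s`; `g₁ > 0` since `s > 0` for `h > 0` and
  `g₁ = 1` for `h = 0`.
* `DD = 2 c + x (c - s) > 0` as `s ≤ c` on `[0, π/4]`.
* `κ ≤ c` on `[0, π/4]`: `exp (-h) ≤ 1 / (1 + h)` and
  `(1 + h) cos h ≥ (1 + h) (1 - h²/2) ≥ 1` for `0 ≤ h ≤ π/4 < 1` (`Real.one_sub_sq_div_two_le_cos`).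
* `U 0`: `0 ≤ c - s ≤ 1`, `κ ≤ 1`.  `U 1`: `|Q| ≤ p`: `Q ≤ (1-x) c ≤ p` if `x ≤ 1`, else `Q ≤ 0`;
  `Q = Δ - x c ≥ -x c ≥ -x`.  `U 2`: `DD ≥ x κ` since `DD = 2c + x(c-s)`,
  `c - x s ≥ 0`, so `DD = (2+x) c - x s ≥ (1+x) c ≥ x κ`.
* heights: `z 0 * g₁ = 1 - (c-s) κ + (c-(2+x)s) ε`, `c - (2+x) s = Δ - s ≥ -s`, `ε ≤ κ`, so it is
  `≥ 1 - c κ + s κ - s ε ≥ 1 - c κ ≥ 0`.
  `z 1 * c = p + Q κ - c ε`, `Q ≥ -x c`, so it is `≥ 1 + x - x c κ - c ε ≥ 0`.
  `z 2 = x (c - κ) + (c - ε) + (c - x s) ≥ 0`.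
* `K 0`: `g₁ β = c α - γ ≥ 0`; `K 1`: `c α = γ + g₁ β ≥ 0` (identity `γ = c α - g₁ β`, which
  uses `c² + s² = 1`).
* `la0 > 0` on `K 0`: `γ ≤ 0` means `DD d ≤ x σ`; if `d ≤ 0` clear, else
  `(c+s) d ≤ (c+s) x σ / DD < σ` because `DD - (c+s) x = 2 g₁ > 0`.
* `la1 > 0` on `K 1`: `DD d ≥ x σ`, so `d ≥ 0`; the coefficient `ζ = (1+x)c + (1-x)s` is `> 0` and
  `DD * (ζ d + (1-x) σ) ≥ (ζ x + (1-x) DD) σ = 2 c σ > 0`.
* `la2 > 0` on `K 2`: `p d ≥ -Q σ`, so `p ((( 2-x)c - x s) σ + x d) ≥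
  (p ((2-x) c - x s) - x Q) σ = 2 c σ > 0`.
* bound: on `K 0`, `K 2`: `α ≥ 0`, i.e. with `r = (w.1 - w.2)/(w.1 + w.2)`,
  `r ≥ κ (s + c (x-1)/(x+1)) ≥ κ c (x-1)/(x+1)`.  As `Δ ≥ 0`, `s ≤ c/p ≤ 1/p`, and `h ≤ 2 s`
  (`Real.mul_le_sin`: `2/π * h ≤ sin h`, and `π/2 ≤ 2`), so `κ ≥ 1 - h ≥ 1 - 2/p`;
  `c ≥ 1 - h²/2 ≥ 1 - s` (or `c² = 1 - s² ≥ (1-s)²`), `≥ 1 - 1/p`; `(x-1)/(x+1) = 1 - 2/p`.
  Hence for `p ≥ 2` (all factors nonnegative) `r ≥ 1 - 5/p`, i.e. `p (1 - r) ≤ 5`, i.e.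
  `p * (2 * w.2) ≤ 5 * (w.1 + w.2)`; for `p ≤ 2` it is trivial (`2 * w.2 ≤ 2 * (w.1 + w.2)`).
  On `K 1`: `γ ≥ 0`, i.e. `r ≥ x κ / DD ≥ x κ / (2 + x)`, and `x/(2+x) ≥ 1 - 2/p`, so
  `r ≥ (1 - 2/p)² ≥ 1 - 4/p` for `p ≥ 2`.
-/

namespace Pool.Agent.Helper12.CR

open Real

theorem Reg.cos_pos {x h : ℝ} (r : Reg x h) : 0 < cos h := by
  obtain ⟨_, h2, h3, _⟩ := r
  apply cos_pos_of_mem_Ioo
  constructor <;> linarith [pi_pos]

theorem Reg.sin_nonneg {x h : ℝ} (r : Reg x h) : 0 ≤ sin h := by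
  obtain ⟨_, h2, h3, _⟩ := r
  exact sin_nonneg_of_nonneg_of_le_pi h2 (by linarith [pi_pos])

theorem Reg.sin_le_cos {x h : ℝ} (r : Reg x h) : sin h ≤ cos h := by
  obtain ⟨_, h2, h3, _⟩ := r
  rw [← cos_pi_div_two_sub]
  apply cos_le_cos_of_nonneg_of_le_pi h2 <;> linarith [pi_pos]

private theorem g1_eq_aux (x h : ℝ) : g1 x h = Dl x h + sin h := by
  unfold g1 Dl
  ring

theorem Reg.g1_pos {x h : ℝ} (r : Reg x h) : 0 < g1 x h := by
  obtain ⟨h1, h2, h3, h4⟩ := r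
  rcases h2.eq_or_lt with h5 | h5
  · rw [← h5]
    unfold g1
    simp
  · have h6 : 0 < sin h := sin_pos_of_pos_of_lt_pi h5 (by linarith [pi_pos])
    rw [g1_eq_aux]
    linarith

theorem Reg.DD_pos {x h : ℝ} (r : Reg x h) : 0 < DD x h := by
  have h1 := r.cos_pos
  have h2 := r.sin_le_cos
  have h3 : 0 ≤ x := r.1
  unfold DD
  nlinarith [mul_nonneg h3 (sub_nonneg.2 h2)]

theorem Reg.exp_le_cos {x h : ℝ} (r : Reg x h) : exp (-h) ≤ cos h := by
  obtain ⟨_, h2, h3, _⟩ := r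
  have h4 : h ≤ 1 := by linarith [pi_le_four]
  have h5 := one_sub_sq_div_two_le_cos (x := h)
  have h6 : h + 1 ≤ exp h := add_one_le_exp h
  have h7 : exp (-h) ≤ 1 / (1 + h) := by
    rw [exp_neg, inv_eq_one_div]
    exact one_div_le_one_div_of_le (by linarith) (by linarith)
  have h8 : 1 / (1 + h) ≤ 1 - h ^ 2 / 2 := by
    rw [div_le_iff₀ (by linarith)]
    nlinarith [mul_nonneg (mul_nonneg h2 (sub_nonneg.2 h4)) (by linarith : (0 : ℝ) ≤ 2 + h)]
  linarith

private theorem exp_neg_le_one_aux {h : ℝ} (hh : 0 ≤ h) : exp (-h) ≤ 1 := by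
  rw [exp_le_one_iff]
  linarith

private theorem ep_le_aux {x h : ℝ} (hx : 0 ≤ x) : ep x h ≤ exp (-h) := by
  unfold ep
  exact exp_le_exp.2 (by linarith)

private theorem ep_pos_aux (x h : ℝ) : 0 < ep x h := exp_pos _

private theorem QQ_bounds_aux {x h : ℝ} (r : Reg x h) :
    -(x * cos h) ≤ QQ x h ∧ QQ x h ≤ 1 + x := by
  have h1 := r.cos_pos
  have h2 := r.sin_nonneg
  have h3 : 0 ≤ x := r.1
  have h4 : 0 ≤ Dl x h := r.2.2.2
  have h5 := cos_le_one h
  unfold Dl at h4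
  unfold QQ
  constructor
  · nlinarith
  · nlinarith [mul_nonneg h3 h2, mul_nonneg h3 h1.le]

theorem Reg.U_nonneg {x h : ℝ} (r : Reg x h) (j : Fin 3) :
    0 ≤ (U j x h).1 ∧ 0 ≤ (U j x h).2 := by
  have hc := r.cos_pos
  have hs := r.sin_nonneg
  have hsc := r.sin_le_cos
  have hg := r.g1_pos
  have hD := r.DD_pos
  have hx : 0 ≤ x := r.1
  have hκ := exp_pos (-h)
  have hκ1 : exp (-h) ≤ 1 := exp_neg_le_one_aux r.2.1
  have hκc := r.exp_le_cos
  have hc1 := cos_le_one h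
  obtain ⟨hq1, hq2⟩ := QQ_bounds_aux r
  match j with
  | 0 =>
    have h1 : 0 ≤ (cos h - sin h) * exp (-h) := mul_nonneg (by linarith) hκ.le
    have h2 : (cos h - sin h) * exp (-h) ≤ 1 := by nlinarith
    exact ⟨div_nonneg (by linarith) hg.le, div_nonneg (by linarith) hg.le⟩
  | 1 =>
    have h1 : QQ x h * exp (-h) ≤ 1 + x := by
      calc QQ x h * exp (-h) ≤ (1 + x) * exp (-h) := mul_le_mul_of_nonneg_right hq2 hκ.le
        _ ≤ (1 + x) * 1 := mul_le_mul_of_nonneg_left hκ1 (by linarith)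
        _ = 1 + x := mul_one _
    have h2 : -(1 + x) ≤ QQ x h * exp (-h) := by
      have h3 : -(x * cos h) * exp (-h) ≤ QQ x h * exp (-h) :=
        mul_le_mul_of_nonneg_right hq1 hκ.le
      have h4 : x * cos h * exp (-h) ≤ x * 1 := by
        rw [mul_assoc]
        exact mul_le_mul_of_nonneg_left (by nlinarith) hx
      linarith
    exact ⟨div_nonneg (by linarith) hc.le, div_nonneg (by linarith) hc.le⟩
  | 2 =>
    have h1 : x * exp (-h) ≤ DD x h := by
      have h2 : x * exp (-h) ≤ x * cos h := mul_le_mul_of_nonneg_left hκc hx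
      unfold g1 at hg
      unfold DD
      linarith
    have h3 : 0 ≤ x * exp (-h) := by positivity
    exact ⟨by show 0 ≤ DD x h + x * exp (-h); linarith,
      by show 0 ≤ DD x h - x * exp (-h); linarith⟩

theorem Reg.z_nonneg {x h : ℝ} (r : Reg x h) (j : Fin 3) : 0 ≤ z j x h := by
  have hc := r.cos_pos
  have hs := r.sin_nonneg
  have hg := r.g1_pos
  have hx : 0 ≤ x := r.1
  have hκ := exp_pos (-h)
  have hκ1 : exp (-h) ≤ 1 := exp_neg_le_one_aux r.2.1
  have hκc := r.exp_le_cos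
  have hc1 := cos_le_one h
  have he := ep_pos_aux x h
  have hek : ep x h ≤ exp (-h) := ep_le_aux hx
  have hΔ : 0 ≤ Dl x h := r.2.2.2
  obtain ⟨hq1, hq2⟩ := QQ_bounds_aux r
  match j with
  | 0 =>
    apply div_nonneg _ hg.le
    have h1 : (-(sin h)) * ep x h ≤ (cos h - (2 + x) * sin h) * ep x h := by
      apply mul_le_mul_of_nonneg_right _ he.le
      unfold Dl at hΔ
      linarith
    have h2 : sin h * ep x h ≤ sin h * exp (-h) := mul_le_mul_of_nonneg_left hek hs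
    have h3 : cos h * exp (-h) ≤ 1 := by nlinarith
    nlinarith
  | 1 =>
    apply div_nonneg _ hc.le
    have h1 : -(x * cos h) * exp (-h) ≤ QQ x h * exp (-h) :=
      mul_le_mul_of_nonneg_right hq1 hκ.le
    have h2 : x * cos h * exp (-h) ≤ x * 1 := by
      rw [mul_assoc]
      exact mul_le_mul_of_nonneg_left (by nlinarith) hx
    have h3 : cos h * ep x h ≤ 1 := by nlinarith
    linarith
  | 2 =>
    show 0 ≤ DD x h - x * exp (-h) - ep x h
    have h1 : x * exp (-h) ≤ x * cos h := mul_le_mul_of_nonneg_left hκc hx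
    unfold g1 at hg
    unfold DD
    linarith

/-- If `Δ > 0` then `h < π/4`. -/
theorem Reg.lt_pi {x h : ℝ} (r : Reg x h) (hD : 0 < Dl x h) : h < π / 4 := by
  rcases r.2.2.1.eq_or_lt with h1 | h1
  · exfalso
    rw [h1] at hD
    unfold Dl at hD
    rw [cos_pi_div_four, sin_pi_div_four] at hD
    have h2 : 0 ≤ x * (√2 / 2) := mul_nonneg r.1 (by positivity)
    linarith
  · exact h1

/-- `γ = c α - g₁ β` -/
theorem ga_eq (x h : ℝ) (w : ℝ × ℝ) : ga x h w = cos h * al x h w - g1 x h * be h w := by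
  unfold ga al be g1 DD QQ
  linear_combination x * sg w * (sin_sq_add_cos_sq h)

/-- `4 c (la1 - la2) = -(c + (1-x) s) β` -/
theorem la1_sub_la2 (x h : ℝ) (w : ℝ × ℝ) (hc : cos h ≠ 0) :
    4 * cos h * (la1 x h w - la2 x h w) = -((cos h + (1 - x) * sin h) * be h w) := by
  have e1 : 4 * cos h * la1 x h w =
      ((1 + x) * cos h + (1 - x) * sin h) * dd h w + (1 - x) * sg w := by
    unfold la1
    field_simp
  have e2 : 4 * cos h * la2 x h w =
      cos h * (((2 - x) * cos h - x * sin h) * sg w + x * dd h w) := by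
    unfold la2
    ring
  unfold be
  linear_combination e1 - e2 - (1 - x) * sg w * (sin_sq_add_cos_sq h)

/-- `4 g₁ (la0 - la2) = -(c + (1-x) s) α` -/
theorem la0_sub_la2 (x h : ℝ) (w : ℝ × ℝ) (hg : g1 x h ≠ 0) :
    4 * g1 x h * (la0 x h w - la2 x h w) = -((cos h + (1 - x) * sin h) * al x h w) := by
  have e1 : 4 * g1 x h * la0 x h w = sg w - (cos h + sin h) * dd h w := by
    unfold la0
    field_simp
  have e2 : 4 * g1 x h * la2 x h w =
      g1 x h * (((2 - x) * cos h - x * sin h) * sg w + x * dd h w) := by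
    unfold la2
    ring
  unfold al QQ
  unfold g1 at e1 e2 ⊢
  linear_combination e1 - e2 - sg w * (sin_sq_add_cos_sq h)

/-- `4 c g₁ (la0 - la1) = -(c + (1-x) s) γ` -/
theorem la0_sub_la1 (x h : ℝ) (w : ℝ × ℝ) (hc : cos h ≠ 0) (hg : g1 x h ≠ 0) :
    4 * cos h * g1 x h * (la0 x h w - la1 x h w) = -((cos h + (1 - x) * sin h) * ga x h w) := by
  linear_combination cos h * la0_sub_la2 x h w hg - g1 x h * la1_sub_la2 x h w hc +
    (cos h + (1 - x) * sin h) * ga_eq x h w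

/-- `la2 = c² la1 + g₁² la0` -/
theorem la2_eq (x h : ℝ) (w : ℝ × ℝ) (hc : cos h ≠ 0) (hg : g1 x h ≠ 0) :
    la2 x h w = cos h ^ 2 * la1 x h w + g1 x h ^ 2 * la0 x h w := by
  have e1 : 4 * (cos h ^ 2 * la1 x h w) =
      cos h * (((1 + x) * cos h + (1 - x) * sin h) * dd h w + (1 - x) * sg w) := by
    unfold la1
    field_simp
  have e2 : 4 * (g1 x h ^ 2 * la0 x h w) = g1 x h * (sg w - (cos h + sin h) * dd h w) := by
    unfold la0
    field_simp
  have e3 : 4 * la2 x h w = ((2 - x) * cos h - x * sin h) * sg w + x * dd h w := by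
    unfold la2
    ring
  have e4 : 4 * la2 x h w = 4 * (cos h ^ 2 * la1 x h w) + 4 * (g1 x h ^ 2 * la0 x h w) := by
    rw [e1, e2, e3]
    unfold g1
    linear_combination (-(x * dd h w)) * (sin_sq_add_cos_sq h)
  linarith

theorem K.reg {j : Fin 3} {x h : ℝ} {w : ℝ × ℝ} (k : K j x h w) : Reg x h := by
  match j, k with
  | 0, k => exact k.1
  | 1, k => exact k.1
  | 2, k => exact k.1

theorem K.al_nonneg {j : Fin 3} {x h : ℝ} {w : ℝ × ℝ} (k : K j x h w) : 0 ≤ al x h w := by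
  match j, k with
  | 0, k => exact k.2.2
  | 1, k =>
    have r : Reg x h := k.1
    have h1 : 0 ≤ ga x h w := k.2.1
    have h2 : 0 ≤ be h w := k.2.2
    have h3 := ga_eq x h w
    have h4 := mul_nonneg r.g1_pos.le h2
    by_contra hcon
    have h5 := mul_neg_of_pos_of_neg r.cos_pos (not_le.1 hcon)
    linarith
  | 2, k => exact k.2.1

theorem K.be_nonneg {j : Fin 3} {x h : ℝ} {w : ℝ × ℝ} (k : K j x h w) : 0 ≤ be h w := by
  match j, k with
  | 0, k =>
    have r : Reg x h := k.1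
    have h1 : ga x h w ≤ 0 := k.2.1
    have h2 : 0 ≤ al x h w := k.2.2
    have h3 := ga_eq x h w
    have h4 := mul_nonneg r.cos_pos.le h2
    by_contra hcon
    have h5 := mul_neg_of_pos_of_neg r.g1_pos (not_le.1 hcon)
    linarith
  | 1, k => exact k.2.2
  | 2, k => exact k.2.2

private theorem sg_pos_aux {w : ℝ × ℝ} (hw : Pos w) : 0 < sg w := by
  unfold sg
  exact add_pos hw.1 hw.2

theorem la0_pos {x h : ℝ} {w : ℝ × ℝ} (hw : Pos w) (k : K 0 x h w) : 0 < la0 x h w := by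
  have r : Reg x h := k.1
  have h1 : ga x h w ≤ 0 := k.2.1
  have hσ := sg_pos_aux hw
  have hg := r.g1_pos
  have hD := r.DD_pos
  have hc := r.cos_pos
  have hs := r.sin_nonneg
  unfold la0
  apply div_pos _ (by positivity)
  unfold ga at h1
  have h2 : (cos h + sin h) * (DD x h * dd h w) ≤ (cos h + sin h) * (x * sg w) :=
    mul_le_mul_of_nonneg_left (by linarith) (by linarith)
  have h3 : DD x h = (cos h + sin h) * x + 2 * g1 x h := by
    unfold DD g1
    ring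
  have h4 : 2 * g1 x h * sg w ≤ DD x h * (sg w - (cos h + sin h) * dd h w) := by
    have h5 : DD x h * sg w = (cos h + sin h) * x * sg w + 2 * g1 x h * sg w := by
      rw [h3]
      ring
    linarith
  have h6 : 0 < 2 * g1 x h * sg w := by positivity
  exact (mul_pos_iff_of_pos_left hD).1 (lt_of_lt_of_le h6 h4)

theorem la1_pos {x h : ℝ} {w : ℝ × ℝ} (hw : Pos w) (k : K 1 x h w) : 0 < la1 x h w := by
  have r : Reg x h := k.1
  have h1 : 0 ≤ ga x h w := k.2.1
  have hσ := sg_pos_aux hw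
  have hD := r.DD_pos
  have hc := r.cos_pos
  have hs := r.sin_nonneg
  have hsc := r.sin_le_cos
  have hx : 0 ≤ x := r.1
  unfold la1
  apply div_pos _ (by positivity)
  unfold ga at h1
  have hζ : 0 ≤ (1 + x) * cos h + (1 - x) * sin h := by
    nlinarith [mul_nonneg hx (sub_nonneg.2 hsc)]
  have h2 : ((1 + x) * cos h + (1 - x) * sin h) * (x * sg w) ≤
      ((1 + x) * cos h + (1 - x) * sin h) * (DD x h * dd h w) :=
    mul_le_mul_of_nonneg_left (by linarith) hζ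
  have h4 : 2 * cos h * sg w ≤ DD x h *
      (((1 + x) * cos h + (1 - x) * sin h) * dd h w + (1 - x) * sg w) := by
    have h5 : 2 * cos h * sg w = ((1 + x) * cos h + (1 - x) * sin h) * (x * sg w) +
        DD x h * ((1 - x) * sg w) := by
      unfold DD
      ring
    rw [h5]
    linarith
  have h6 : 0 < 2 * cos h * sg w := by positivity
  exact (mul_pos_iff_of_pos_left hD).1 (lt_of_lt_of_le h6 h4)

theorem la2_pos {x h : ℝ} {w : ℝ × ℝ} (hw : Pos w) (k : K 2 x h w) : 0 < la2 x h w := by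
  have r : Reg x h := k.1
  have h1 : 0 ≤ al x h w := k.2.1
  have hσ := sg_pos_aux hw
  have hc := r.cos_pos
  have hx : 0 ≤ x := r.1
  unfold la2
  apply div_pos _ (by norm_num)
  unfold al at h1
  have h2 : 0 ≤ x * ((1 + x) * dd h w + QQ x h * sg w) := mul_nonneg hx h1
  have h4 : 2 * cos h * sg w ≤ (1 + x) *
      (((2 - x) * cos h - x * sin h) * sg w + x * dd h w) := by
    have h5 : 2 * cos h * sg w = (1 + x) * (((2 - x) * cos h - x * sin h) * sg w) -
        x * (QQ x h * sg w) := by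
      unfold QQ
      ring
    rw [h5]
    linarith
  have h6 : 0 < 2 * cos h * sg w := by positivity
  exact (mul_pos_iff_of_pos_left (by linarith : (0 : ℝ) < 1 + x)).1 (lt_of_lt_of_le h6 h4)

private theorem reg_bounds_aux {x h : ℝ} (r : Reg x h) :
    1 - 2 * sin h ≤ exp (-h) ∧ 1 - sin h ≤ cos h ∧ (1 + x) * sin h ≤ 1 := by
  have hc := r.cos_pos
  have hs := r.sin_nonneg
  have h2 : 0 ≤ h := r.2.1
  have h3 : h ≤ π / 4 := r.2.2.1
  have h4 : 0 ≤ Dl x h := r.2.2.2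
  have hπ := pi_pos
  refine ⟨?_, ?_, ?_⟩
  · have h5 : -h + 1 ≤ exp (-h) := add_one_le_exp (-h)
    have h6 : 2 / π * h ≤ sin h := mul_le_sin h2 (by linarith)
    have h7 : h ≤ 2 * sin h := by
      have h8 : 1 / 2 * h ≤ 2 / π * h := by
        apply mul_le_mul_of_nonneg_right _ h2
        rw [div_le_div_iff₀ (by norm_num) hπ]
        linarith [pi_le_four]
      linarith
    linarith
  · have h5 := sin_sq_add_cos_sq h
    have h6 := sin_le_one h
    nlinarith
  · have h5 := cos_le_one h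
    unfold Dl at h4
    linarith

/-- the region of a face is bounded -/
theorem K.bound {j : Fin 3} {x h : ℝ} {w : ℝ × ℝ} (hw : Pos w) (k : K j x h w) :
    (1 + x) * (2 * w.2) ≤ 5 * (w.1 + w.2) := by
  have r := k.reg
  have hx : 0 ≤ x := r.1
  have hs := r.sin_nonneg
  have hc := r.cos_pos
  obtain ⟨b1, b2, b3⟩ := reg_bounds_aux r
  have hκ := exp_pos (-h)
  have hκh : exp (-h) * exp h = 1 := by
    rw [← exp_add]
    simp
  obtain ⟨w1, w2⟩ := hw
  have hal : 0 ≤ al x h w → (1 + x) * (2 * w.2) ≤ 5 * (w.1 + w.2) := by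
    intro h1
    rcases le_total x 1 with hx1 | hx1
    · nlinarith
    · -- `(1 + x) (w.1 - w.2) + κ Q (w.1 + w.2) ≥ 0`
      have h2 : 0 ≤ exp (-h) * al x h w := mul_nonneg hκ.le h1
      have h3 : exp (-h) * al x h w = (1 + x) * (w.1 - w.2) + exp (-h) * QQ x h * (w.1 + w.2) := by
        unfold al dd sg
        linear_combination (1 + x) * (w.1 - w.2) * hκh
      rw [h3] at h2
      have h4 : exp (-h) * QQ x h ≤ -(x - 4) := by
        have h5 : QQ x h ≤ -((x - 1) * cos h) := by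
          unfold QQ
          nlinarith [mul_nonneg hx hs]
        have h6 : (x - 1) * (1 - 3 * sin h) ≤ (x - 1) * (exp (-h) * cos h) := by
          apply mul_le_mul_of_nonneg_left _ (by linarith)
          have h7 : 0 ≤ 1 - 2 * sin h := by nlinarith
          have h8 : (1 - 2 * sin h) * (1 - sin h) ≤ exp (-h) * cos h :=
            mul_le_mul b1 b2 (by linarith) hκ.le
          nlinarith
        have h9 : exp (-h) * QQ x h ≤ exp (-h) * (-((x - 1) * cos h)) :=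
          mul_le_mul_of_nonneg_left h5 hκ.le
        nlinarith
      have h10 : exp (-h) * QQ x h * (w.1 + w.2) ≤ -(x - 4) * (w.1 + w.2) :=
        mul_le_mul_of_nonneg_right h4 (by linarith)
      nlinarith
  match j, k with
  | 0, k => exact hal k.2.2
  | 2, k => exact hal k.2.1
  | 1, k =>
    have h1 : 0 ≤ ga x h w := k.2.1
    have h2 : 0 ≤ exp (-h) * ga x h w := mul_nonneg hκ.le h1
    have h3 : exp (-h) * ga x h w = DD x h * (w.1 - w.2) - exp (-h) * x * (w.1 + w.2) := by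
      unfold ga dd sg
      linear_combination DD x h * (w.1 - w.2) * hκh
    rw [h3] at h2
    have hS : 0 < w.1 + w.2 := by linarith
    have h4 : 0 ≤ exp (-h) * x * (w.1 + w.2) := by positivity
    have hD := r.DD_pos
    have h5 : 0 ≤ w.1 - w.2 := by
      by_contra hcon
      have := mul_neg_of_pos_of_neg hD (not_le.1 hcon)
      linarith
    have h6 : DD x h ≤ 2 + x := by
      unfold DD
      nlinarith [cos_le_one h, mul_nonneg hx hs]
    have h7 : DD x h * (w.1 - w.2) ≤ (2 + x) * (w.1 - w.2) := mul_le_mul_of_nonneg_right h6 h5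
    have h8 : (1 - 2 * sin h) * x * (w.1 + w.2) ≤ exp (-h) * x * (w.1 + w.2) := by
      apply mul_le_mul_of_nonneg_right _ hS.le
      exact mul_le_mul_of_nonneg_right b1 hx
    have h9 : x * (w.1 + w.2) - 2 * (x * sin h) * (w.1 + w.2) ≤ (2 + x) * (w.1 - w.2) := by
      nlinarith
    have h10 : (1 + x) * (x * sin h) ≤ x := by nlinarith
    have h11 : (2 + x) * ((1 + x) * (2 * w.2)) ≤ (2 + x) * (5 * (w.1 + w.2)) := by
      have h12 : (2 + x) * (2 * w.2) ≤ 2 * (w.1 + w.2) + 2 * (x * sin h) * (w.1 + w.2) := by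
        linarith
      have h13 : (1 + x) * ((2 + x) * (2 * w.2)) ≤
          (1 + x) * (2 * (w.1 + w.2) + 2 * (x * sin h) * (w.1 + w.2)) :=
        mul_le_mul_of_nonneg_left h12 (by linarith)
      have h14 : (1 + x) * (x * sin h) * (w.1 + w.2) ≤ x * (w.1 + w.2) :=
        mul_le_mul_of_nonneg_right h10 hS.le
      have h15 : 0 ≤ x * (w.1 + w.2) := by positivity
      nlinarith
    exact le_of_mul_le_mul_left h11 (by linarith)

end Pool.Agent.Helper12.CR
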