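import Pool.Agent.Helper12.CR.Pos

set_option autoImplicit false

/-!
# Project CR, module SwapA: the three faces

Everything is algebra with `c² + s² = 1` (write `c = cos h`, `s = sin h`, `κ = exp (-h)`,
`exp h * exp (-h) = 1`, `ε = ep x h = exp (-x-h)`).

Values of the functionals on the vectors `U 0, U 1, U 2` (with `Δ = Dl x h`, `g = g1 x h`):
  `al : 4Δ/g, 0, 4gΔ`;  `be : 0, 4Δ/c, 4cΔ`;  `ga : 4cΔ/g, -4gΔ/c, 0`;
  `la0 : (1-c²)/g², 1, 1`;  `la1 : 1, (1-g²)/c², 1`;  `la2 : 1, 1, c²+g²`;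
  `m3 : ((2+x)s - c)/g, 1, 1-Δ²`.
Relation: `g² U 0 + c² U 1 = U 2`.
If `Δ > 0` and `w` is in face `0`, then `w = b01 • U 1 + b02 • U 2`; face `1`:
`w = b10 • U 0 + b12 • U 2`; face `2`: `w = b20 • U 0 + b21 • U 1` (all coefficients nonnegative).
If `zr i x h u = 0` and `u` is positive then `u = a • U i` with `a > 0`:
  `i = 0`: `a = g σ_u / 2`; `i = 1`: `a = c σ_u / (2 (1+x))`; `i = 2`: `a = σ_u / (2 DD)`.
Heights: `z j = (U j).2 + η j * ε` with `η = ((c - (2+x)s)/g, -1, -1)`, and `m3 (U 0) = -η 0`,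
`m3 (U 1) = 1`, `m3 (U 2) = 1 - Δ²`.
-/

namespace Pool.Agent.Helper12.CR

open Real

theorem swA_sg0 (x h : ℝ) : sg (U 0 x h) = 2 / g1 x h := by
  simp only [sg, U]; ring

theorem swA_sg1 (x h : ℝ) : sg (U 1 x h) = 2 * (1 + x) / cos h := by
  simp only [sg, U]; ring

theorem swA_sg2 (x h : ℝ) : sg (U 2 x h) = 2 * DD x h := by
  simp only [sg, U]; ring

theorem swA_ee (h : ℝ) : exp h * exp (-h) = 1 := by
  rw [← exp_add]; simp

theorem swA_dd0 (x h : ℝ) : dd h (U 0 x h) = 2 * (cos h - sin h) / g1 x h := by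
  simp only [dd, U]
  linear_combination (2 * (cos h - sin h) / g1 x h) * swA_ee h

theorem swA_dd1 (x h : ℝ) : dd h (U 1 x h) = -(2 * QQ x h / cos h) := by
  simp only [dd, U]
  linear_combination (-(2 * QQ x h / cos h)) * swA_ee h

theorem swA_dd2 (x h : ℝ) : dd h (U 2 x h) = 2 * x := by
  simp only [dd, U]
  linear_combination (2 * x) * swA_ee h

theorem swA_id0 (x h : ℝ) : (1 + x) * (cos h - sin h) + QQ x h = 2 * Dl x h := by
  simp only [QQ, Dl]; ring

theorem swA_id1 (x h : ℝ) : (cos h - sin h) * DD x h - x = 2 * cos h * Dl x h := by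
  simp only [DD, Dl]
  linear_combination (x) * sin_sq_add_cos_sq h

theorem swA_id2 (x h : ℝ) : x * (1 + x) + QQ x h * DD x h = 2 * g1 x h * Dl x h := by
  simp only [QQ, DD, Dl, g1]
  linear_combination (-(x * (1 + x))) * sin_sq_add_cos_sq h

theorem swA_ext (h : ℝ) {u v : ℝ × ℝ} (h1 : sg u = sg v) (h2 : dd h u = dd h v) : u = v := by
  have h3 : u.1 - u.2 = v.1 - v.2 := by
    have := (exp_pos h).ne'
    exact mul_left_cancel₀ this h2
  simp only [sg] at h1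
  ext
  · linarith
  · linarith

theorem swA_sgc (a b : ℝ) (u v : ℝ × ℝ) : sg (a • u + b • v) = a * sg u + b * sg v := by
  simp only [sg, Prod.fst_add, Prod.snd_add, Prod.smul_fst, Prod.smul_snd, smul_eq_mul]; ring

theorem swA_ddc (h a b : ℝ) (u v : ℝ × ℝ) : dd h (a • u + b • v) = a * dd h u + b * dd h v := by
  simp only [dd, Prod.fst_add, Prod.snd_add, Prod.smul_fst, Prod.smul_snd, smul_eq_mul]; ring

theorem al_U (x h : ℝ) (hc : cos h ≠ 0) (hg : g1 x h ≠ 0) :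
    al x h (U 0 x h) = 4 * Dl x h / g1 x h ∧ al x h (U 1 x h) = 0 ∧
      al x h (U 2 x h) = 4 * g1 x h * Dl x h := by
  refine ⟨?_, ?_, ?_⟩
  · rw [al, swA_dd0, swA_sg0]
    field_simp
    linear_combination 2 * swA_id0 x h
  · rw [al, swA_dd1, swA_sg1]
    ring
  · rw [al, swA_dd2, swA_sg2]
    linear_combination 2 * swA_id2 x h

theorem be_U (x h : ℝ) (hc : cos h ≠ 0) (hg : g1 x h ≠ 0) :
    be h (U 0 x h) = 0 ∧ be h (U 1 x h) = 4 * Dl x h / cos h ∧
      be h (U 2 x h) = 4 * cos h * Dl x h := by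
  refine ⟨?_, ?_, ?_⟩
  · rw [be, swA_dd0, swA_sg0]
    ring
  · rw [be, swA_dd1, swA_sg1]
    field_simp
    linear_combination 2 * swA_id0 x h
  · rw [be, swA_dd2, swA_sg2]
    linear_combination 2 * swA_id1 x h

theorem ga_U (x h : ℝ) (hc : cos h ≠ 0) (hg : g1 x h ≠ 0) :
    ga x h (U 0 x h) = 4 * cos h * Dl x h / g1 x h ∧
      ga x h (U 1 x h) = -(4 * g1 x h * Dl x h / cos h) ∧ ga x h (U 2 x h) = 0 := by
  refine ⟨?_, ?_, ?_⟩
  · rw [ga, swA_dd0, swA_sg0]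
    field_simp
    linear_combination 2 * swA_id1 x h
  · rw [ga, swA_dd1, swA_sg1]
    field_simp
    linear_combination (-2) * swA_id2 x h
  · rw [ga, swA_dd2, swA_sg2]
    ring

theorem decomp0 (x h : ℝ) (w : ℝ × ℝ) (hc : cos h ≠ 0) (hg : g1 x h ≠ 0) (hD : Dl x h ≠ 0) :
    w = b01 x h w • U 1 x h + b02 x h w • U 2 x h := by
  apply swA_ext h
  · rw [swA_sgc, swA_sg1, swA_sg2, b01, b02, ga, al]
    field_simp
    linear_combination (-2 * sg w) * swA_id2 x h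
  · rw [swA_ddc, swA_dd1, swA_dd2, b01, b02, ga, al]
    field_simp
    linear_combination (-2 * dd h w) * swA_id2 x h

theorem decomp1 (x h : ℝ) (w : ℝ × ℝ) (hc : cos h ≠ 0) (hg : g1 x h ≠ 0) (hD : Dl x h ≠ 0) :
    w = b10 x h w • U 0 x h + b12 x h w • U 2 x h := by
  apply swA_ext h
  · rw [swA_sgc, swA_sg0, swA_sg2, b10, b12, ga, be]
    field_simp
    linear_combination (-2 * sg w) * swA_id1 x h
  · rw [swA_ddc, swA_dd0, swA_dd2, b10, b12, ga, be]
    field_simp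
    linear_combination (-2 * dd h w) * swA_id1 x h

theorem decomp2 (x h : ℝ) (w : ℝ × ℝ) (hc : cos h ≠ 0) (hg : g1 x h ≠ 0) (hD : Dl x h ≠ 0) :
    w = b20 x h w • U 0 x h + b21 x h w • U 1 x h := by
  apply swA_ext h
  · rw [swA_sgc, swA_sg0, swA_sg1, b20, b21, al, be]
    field_simp
    linear_combination (-2 * sg w) * swA_id0 x h
  · rw [swA_ddc, swA_dd0, swA_dd1, b20, b21, al, be]
    field_simp
    linear_combination (-2 * dd h w) * swA_id0 x h

theorem la0_eq (x h : ℝ) (w : ℝ × ℝ) (hc : cos h ≠ 0) (hg : g1 x h ≠ 0) (hD : Dl x h ≠ 0) :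
    la0 x h w = b01 x h w + b02 x h w := by
  rw [la0, b01, b02, ga, al]
  field_simp
  simp only [Dl, DD, QQ]
  linear_combination ((1 + x) * dd h w) * sin_sq_add_cos_sq h

theorem la1_eq (x h : ℝ) (w : ℝ × ℝ) (hc : cos h ≠ 0) (hg : g1 x h ≠ 0) (hD : Dl x h ≠ 0) :
    la1 x h w = b10 x h w + b12 x h w := by
  rw [la1, b10, b12, ga, be]
  field_simp
  simp only [Dl, DD, g1]
  linear_combination (-dd h w) * sin_sq_add_cos_sq h

theorem la2_eq' (x h : ℝ) (w : ℝ × ℝ) (hc : cos h ≠ 0) (hg : g1 x h ≠ 0) (hD : Dl x h ≠ 0) :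
    la2 x h w = b20 x h w + b21 x h w := by
  rw [la2, b20, b21, al, be]
  field_simp
  simp only [Dl, QQ, g1]
  ring

end Pool.Agent.Helper12.CR
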