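import Pool.Agent.Helper12.CR.Defs
import Pool.Agent.Helper92.CryptoLower

set_option autoImplicit false

/-!
# Project CR, module VW: the value function of the game, for the lower bound

Put `Vf u v = V (fun x j => if j = 0 then u x else v x)` (`k = 2`, `u v : Bool → ℝ`), in the
setting of `Pool.Agent.Helper92.CryptoLower`.  `V_superadd` for player `0`, with
`R x j = if j = 0 then 1 else v x`, `p (some x) = u x`, `p none = s`, gives
`Vf u (s • v) + Vf u' (t • v) ≤ Vf (u + u') ((s + t) • v)` (all entries nonnegative), and the same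
for player `1` with the roles exchanged; `V_smul` is homogeneity; `V_stop` gives
`Vf u v ≥ min (u x) (v x)` for both `x`; `Vf ≥ 0`.

For `u w : ℝ × ℝ` define `G u w = Vf (u.1, u.2) (w.2, w.1)` (first coordinate for `true`, second for
`false`) and
`W u w = min (min (G u w) (G w u)) (min (G u.swap w.swap) (G w.swap u.swap))`.
Each of the four functions is superadditive in the above sense in both arguments, nonnegative,
homogeneous, and above `min u.1 w.2` and `min u.2 w.1`; the set of the four is stable under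
`(u, w) ↦ (w, u)` and `(u, w) ↦ (u.swap, w.swap)`.  Consequences for nonnegative arguments:
* monotone: `G (u + u') w ≥ G u w + G u' (0 • w) ≥ G u w`;
* concave in `u` for fixed `w`: `G (r•u + (1-r)•u') w ≥ G (r•u) (r•w) + G ((1-r)•u') ((1-r)•w)`;
* `W (1,1) (1,1) = Vf 1 1 = 4 * cryptoValue 2` (`cryptoValue_eq_V`, `V_smul`).
-/

namespace Pool.Agent.Helper12.CR

open Pool.Agent.Helper92.Crypto

/-- closed quadrant -/
def NN (u : ℝ × ℝ) : Prop := 0 ≤ u.1 ∧ 0 ≤ u.2

/-- the properties of the value function used in the lower bound -/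
structure VProp (W : ℝ × ℝ → ℝ × ℝ → ℝ) : Prop where
  nonneg : ∀ u w, NN u → NN w → 0 ≤ W u w
  symm : ∀ u w, W u w = W w u
  mirror : ∀ u w, W u.swap w.swap = W u w
  hom : ∀ (r : ℝ) u w, 0 ≤ r → NN u → NN w → W (r • u) (r • w) = r * W u w
  mono : ∀ u u' w, NN u → NN w → u.1 ≤ u'.1 → u.2 ≤ u'.2 → W u w ≤ W u' w
  conc : ∀ (a b : ℝ) u u' w, 0 ≤ a → 0 ≤ b → a + b = 1 → NN u → NN u' → NN w →
    a * W u w + b * W u' w ≤ W (a • u + b • u') w
  maj : ∀ u w, NN u → NN w → min u.1 w.2 ≤ W u w ∧ min u.2 w.1 ≤ W u w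

private def wgt (u w : ℝ × ℝ) : Bool → Fin 2 → ℝ :=
  fun x j => if j = 0 then (if x then u.1 else u.2) else (if x then w.2 else w.1)

private noncomputable def Gf (u w : ℝ × ℝ) : ℝ := V (k := 2) (wgt u w)

private structure QP (G : ℝ × ℝ → ℝ × ℝ → ℝ) : Prop where
  sa0 : ∀ (s t : ℝ) u u' w, 0 ≤ s → 0 ≤ t → NN u → NN u' → NN w →
    G u (s • w) + G u' (t • w) ≤ G (u + u') ((s + t) • w)
  sa1 : ∀ (s t : ℝ) u w w', 0 ≤ s → 0 ≤ t → NN u → NN w → NN w' →
    G (s • u) w + G (t • u) w' ≤ G ((s + t) • u) (w + w')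
  nn : ∀ u w, NN u → NN w → 0 ≤ G u w
  hm : ∀ (r : ℝ) u w, 0 ≤ r → NN u → NN w → G (r • u) (r • w) = r * G u w
  mj : ∀ u w, NN u → NN w → min u.1 w.2 ≤ G u w ∧ min u.2 w.1 ≤ G u w

private theorem wgt_nonneg {u w : ℝ × ℝ} (hu : NN u) (hw : NN w) : ∀ x j, 0 ≤ wgt u w x j := by
  intro x j
  unfold wgt
  obtain ⟨h1, h2⟩ := hu
  obtain ⟨h3, h4⟩ := hw
  split_ifs <;> assumption

private theorem wgt_smul (r : ℝ) (u w : ℝ × ℝ) :
    wgt (r • u) (r • w) = fun x j => r * wgt u w x j := by
  funext x j
  unfold wgt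
  split_ifs <;> simp

private theorem gf_qp : QP Gf where
  sa0 := by
    intro s t u u' w hs ht hu hu' hw
    have key := V_superadd (k := 2) (by norm_num) 0
      (fun x j => if j = 0 then 1 else (if x then w.2 else w.1))
      (fun o => match o with | none => s | some true => u.1 | some false => u.2)
      (fun o => match o with | none => t | some true => u'.1 | some false => u'.2)
      (by
        intro x j
        obtain ⟨h3, h4⟩ := hw
        split_ifs <;> first | assumption | norm_num)
      (by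
        intro o
        obtain ⟨h3, h4⟩ := hu
        rcases o with _ | (_ | _) <;> simpa)
      (by
        intro o
        obtain ⟨h3, h4⟩ := hu'
        rcases o with _ | (_ | _) <;> simpa)
    have e : ∀ (c : ℝ) (v : ℝ × ℝ), wgt v (c • w) = mulAt 0
        (fun o => match o with | none => c | some true => v.1 | some false => v.2)
        (fun x j => if j = 0 then 1 else (if x then w.2 else w.1)) := by
      intro c v
      funext x j
      unfold wgt mulAt inp
      fin_cases j <;> cases x <;> simp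
    have e2 : ((fun o => match o with | none => s | some true => u.1 | some false => u.2 :
          Option Bool → ℝ) +
        (fun o => match o with | none => t | some true => u'.1 | some false => u'.2)) =
        (fun o => match o with
          | none => s + t | some true => (u + u').1 | some false => (u + u').2) := by
      funext o
      rcases o with _ | (_ | _) <;> simp
    rw [e2] at key
    unfold Gf
    rw [e, e, e]
    exact key
  sa1 := by
    intro s t u w w' hs ht hu hw hw'
    have key := V_superadd (k := 2) (by norm_num) 1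
      (fun x j => if j = 0 then (if x then u.1 else u.2) else 1)
      (fun o => match o with | none => s | some true => w.2 | some false => w.1)
      (fun o => match o with | none => t | some true => w'.2 | some false => w'.1)
      (by
        intro x j
        obtain ⟨h3, h4⟩ := hu
        split_ifs <;> first | assumption | norm_num)
      (by
        intro o
        obtain ⟨h3, h4⟩ := hw
        rcases o with _ | (_ | _) <;> simpa)
      (by
        intro o
        obtain ⟨h3, h4⟩ := hw'
        rcases o with _ | (_ | _) <;> simpa)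
    have e : ∀ (c : ℝ) (v : ℝ × ℝ), wgt (c • u) v = mulAt 1
        (fun o => match o with | none => c | some true => v.2 | some false => v.1)
        (fun x j => if j = 0 then (if x then u.1 else u.2) else 1) := by
      intro c v
      funext x j
      unfold wgt mulAt inp
      fin_cases j <;> cases x <;> simp
    have e2 : ((fun o => match o with | none => s | some true => w.2 | some false => w.1 :
          Option Bool → ℝ) +
        (fun o => match o with | none => t | some true => w'.2 | some false => w'.1)) =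
        (fun o => match o with
          | none => s + t | some true => (w + w').2 | some false => (w + w').1) := by
      funext o
      rcases o with _ | (_ | _) <;> simp
    rw [e2] at key
    unfold Gf
    rw [e, e, e]
    exact key
  nn := by
    intro u w hu hw
    have h := V_stop (k := 2) (by norm_num) (wgt u w) (wgt_nonneg hu hw) true
      (∑ j, wgt u w true j) (fun j => Finset.single_le_sum (f := fun j => wgt u w true j)
        (fun j _ => wgt_nonneg hu hw true j) (Finset.mem_univ j))
    unfold Gf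
    linarith
  hm := by
    intro r u w hr hu hw
    unfold Gf
    rw [wgt_smul, V_smul _ _ hr]
  mj := by
    intro u w hu hw
    constructor
    · have h := V_stop (k := 2) (by norm_num) (wgt u w) (wgt_nonneg hu hw) true
        (max u.1 w.2) (by
          intro j
          unfold wgt
          fin_cases j <;> simp)
      have h2 : ∑ j, wgt u w true j = u.1 + w.2 := by
        simp [wgt, Fin.sum_univ_two]
      rw [h2] at h
      have h3 := min_add_max u.1 w.2
      unfold Gf
      linarith
    · have h := V_stop (k := 2) (by norm_num) (wgt u w) (wgt_nonneg hu hw) false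
        (max u.2 w.1) (by
          intro j
          unfold wgt
          fin_cases j <;> simp)
      have h2 : ∑ j, wgt u w false j = u.2 + w.1 := by
        simp [wgt, Fin.sum_univ_two]
      rw [h2] at h
      have h3 := min_add_max u.2 w.1
      unfold Gf
      linarith

private theorem QP.flip {G : ℝ × ℝ → ℝ × ℝ → ℝ} (h : QP G) : QP (fun u w => G w u) where
  sa0 := fun s t u u' w hs ht hu hu' hw => h.sa1 s t w u u' hs ht hw hu hu'
  sa1 := fun s t u w w' hs ht hu hw hw' => h.sa0 s t w w' u hs ht hw hw' hu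
  nn := fun u w hu hw => h.nn w u hw hu
  hm := fun r u w hr hu hw => h.hm r w u hr hw hu
  mj := fun u w hu hw => ⟨by rw [min_comm]; exact (h.mj w u hw hu).2,
    by rw [min_comm]; exact (h.mj w u hw hu).1⟩

private theorem NN.swp {u : ℝ × ℝ} (h : NN u) : NN u.swap := ⟨h.2, h.1⟩

private theorem QP.mir {G : ℝ × ℝ → ℝ × ℝ → ℝ} (h : QP G) :
    QP (fun u w => G u.swap w.swap) where
  sa0 := fun s t u u' w hs ht hu hu' hw =>
    h.sa0 s t u.swap u'.swap w.swap hs ht hu.swp hu'.swp hw.swp
  sa1 := fun s t u w w' hs ht hu hw hw' =>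
    h.sa1 s t u.swap w.swap w'.swap hs ht hu.swp hw.swp hw'.swp
  nn := fun u w hu hw => h.nn _ _ hu.swp hw.swp
  hm := fun r u w hr hu hw => h.hm r u.swap w.swap hr hu.swp hw.swp
  mj := fun u w hu hw => ⟨(h.mj _ _ hu.swp hw.swp).2, (h.mj _ _ hu.swp hw.swp).1⟩

private theorem NN.smul' {u : ℝ × ℝ} (h : NN u) {r : ℝ} (hr : 0 ≤ r) : NN (r • u) :=
  ⟨mul_nonneg hr h.1, mul_nonneg hr h.2⟩

private theorem QP.mn {G : ℝ × ℝ → ℝ × ℝ → ℝ} (h : QP G) (u u' w : ℝ × ℝ) (hu : NN u) (hw : NN w)
    (h1 : u.1 ≤ u'.1) (h2 : u.2 ≤ u'.2) : G u w ≤ G u' w := by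
  have hd : NN (u' - u) := ⟨by simpa using h1, by simpa using h2⟩
  have h3 := h.sa0 1 0 u (u' - u) w zero_le_one le_rfl hu hd hw
  have h4 := h.nn (u' - u) ((0 : ℝ) • w) hd (hw.smul' le_rfl)
  rw [one_smul, add_zero, one_smul, add_sub_cancel] at h3
  linarith

private theorem QP.cc {G : ℝ × ℝ → ℝ × ℝ → ℝ} (h : QP G) (a b : ℝ) (u u' w : ℝ × ℝ)
    (ha : 0 ≤ a) (hb : 0 ≤ b) (hab : a + b = 1) (hu : NN u) (hu' : NN u') (hw : NN w) :
    a * G u w + b * G u' w ≤ G (a • u + b • u') w := by
  have h3 := h.sa0 a b (a • u) (b • u') w ha hb (hu.smul' ha) (hu'.smul' hb) hw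
  rw [h.hm a u w ha hu hw, h.hm b u' w hb hu' hw, hab, one_smul] at h3
  exact h3

private noncomputable def Wf (u w : ℝ × ℝ) : ℝ :=
  min (min (Gf u w) (Gf w u)) (min (Gf u.swap w.swap) (Gf w.swap u.swap))

private theorem wf_le (u w : ℝ × ℝ) (c : ℝ)
    (h : ∀ G : ℝ × ℝ → ℝ × ℝ → ℝ, QP G → Wf u w ≤ G u w → c ≤ G u w) : c ≤ Wf u w := by
  have q1 := gf_qp
  have q2 := gf_qp.flip
  have q3 := gf_qp.mir
  have q4 := gf_qp.flip.mir
  refine le_min (le_min ?_ ?_) (le_min ?_ ?_)
  · exact h _ q1 (le_trans (min_le_left _ _) (min_le_left _ _))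
  · exact h _ q2 (le_trans (min_le_left _ _) (min_le_right _ _))
  · exact h _ q3 (le_trans (min_le_right _ _) (min_le_left _ _))
  · exact h _ q4 (le_trans (min_le_right _ _) (min_le_right _ _))

/-- Every lower bound valid for all four functions, whose ingredients are bounded by `Wf`. -/
private theorem le_wf (u w : ℝ × ℝ) (c : ℝ) (h1 : c ≤ Gf u w) (h2 : c ≤ Gf w u)
    (h3 : c ≤ Gf u.swap w.swap) (h4 : c ≤ Gf w.swap u.swap) : c ≤ Wf u w :=
  le_min (le_min h1 h2) (le_min h3 h4)

private theorem wf1 (u w : ℝ × ℝ) : Wf u w ≤ Gf u w :=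
  le_trans (min_le_left _ _) (min_le_left _ _)
private theorem wf2 (u w : ℝ × ℝ) : Wf u w ≤ Gf w u :=
  le_trans (min_le_left _ _) (min_le_right _ _)
private theorem wf3 (u w : ℝ × ℝ) : Wf u w ≤ Gf u.swap w.swap :=
  le_trans (min_le_right _ _) (min_le_left _ _)
private theorem wf4 (u w : ℝ × ℝ) : Wf u w ≤ Gf w.swap u.swap :=
  le_trans (min_le_right _ _) (min_le_right _ _)

private theorem wf_vprop : VProp Wf where
  nonneg := fun u w hu hw => wf_le u w 0 fun G hG _ => hG.nn u w hu hw
  symm := by
    intro u w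
    unfold Wf
    rw [min_comm (Gf u w), min_comm (Gf u.swap w.swap)]
  mirror := by
    intro u w
    unfold Wf
    rw [Prod.swap_swap, Prod.swap_swap, min_comm]
  hom := by
    intro r u w hr hu hw
    have q1 := gf_qp.hm r u w hr hu hw
    have q2 := gf_qp.flip.hm r u w hr hu hw
    have q3 := gf_qp.mir.hm r u w hr hu hw
    have q4 := gf_qp.flip.mir.hm r u w hr hu hw
    unfold Wf
    rw [q1, q2, q3, q4, mul_min_of_nonneg _ _ hr, mul_min_of_nonneg _ _ hr,
      mul_min_of_nonneg _ _ hr]
  mono := by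
    intro u u' w hu hw h1 h2
    exact le_wf _ _ _ (le_trans (wf1 u w) (gf_qp.mn u u' w hu hw h1 h2))
      (le_trans (wf2 u w) (gf_qp.flip.mn u u' w hu hw h1 h2))
      (le_trans (wf3 u w) (gf_qp.mir.mn u u' w hu hw h1 h2))
      (le_trans (wf4 u w) (gf_qp.flip.mir.mn u u' w hu hw h1 h2))
  conc := by
    intro a b u u' w ha hb hab hu hu' hw
    have hh : ∀ x y x' y' : ℝ, x ≤ x' → y ≤ y' → a * x + b * y ≤ a * x' + b * y' :=
      fun x y x' y' h h' => add_le_add (mul_le_mul_of_nonneg_left h ha)
        (mul_le_mul_of_nonneg_left h' hb)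
    exact le_wf _ _ _
      (le_trans (hh _ _ _ _ (wf1 u w) (wf1 u' w)) (gf_qp.cc a b u u' w ha hb hab hu hu' hw))
      (le_trans (hh _ _ _ _ (wf2 u w) (wf2 u' w)) (gf_qp.flip.cc a b u u' w ha hb hab hu hu' hw))
      (le_trans (hh _ _ _ _ (wf3 u w) (wf3 u' w)) (gf_qp.mir.cc a b u u' w ha hb hab hu hu' hw))
      (le_trans (hh _ _ _ _ (wf4 u w) (wf4 u' w))
        (gf_qp.flip.mir.cc a b u u' w ha hb hab hu hu' hw))
  maj := fun u w hu hw => ⟨wf_le u w _ fun G hG _ => (hG.mj u w hu hw).1,
    wf_le u w _ fun G hG _ => (hG.mj u w hu hw).2⟩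

theorem exists_value_function :
    ∃ W : ℝ × ℝ → ℝ × ℝ → ℝ, VProp W ∧ W (1, 1) (1, 1) = 4 * cryptoValue 2 := by
  refine ⟨Wf, wf_vprop, ?_⟩
  have h1 : Wf (1, 1) (1, 1) = Gf (1, 1) (1, 1) := by
    unfold Wf
    simp
  have h2 : wgt ((1 : ℝ), (1 : ℝ)) ((1 : ℝ), (1 : ℝ)) = fun _ _ => 1 := by
    funext x j
    simp [wgt]
  have h3 := V_smul (k := 2) (fun _ _ => 1) (1 / 4) (by norm_num)
  rw [h1, cryptoValue_eq_V, Gf, h2]
  have h4 : (fun (_ : Bool) (_ : Fin 2) => (1 : ℝ) / 4 * 1) =
      fun (_ : Bool) (_ : Fin 2) => 1 / (2 * ((2 : ℕ) : ℝ)) := by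
    funext x j
    norm_num
  rw [h4] at h3
  rw [h3]
  ring

end Pool.Agent.Helper12.CR
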